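import Pool.Agent.MP_ee8c61_ag.M3BK.RBklB

/-! The bookkeeping on one surface. -/

namespace Pool.Agent.MP_ee8c61_ag.M3BK

open M3 M3RESID Set Function
open Pool.Agent.MP_96693b_ag.RS (Loc LocOf)

variable {L : Type} [Field L] [Algebra ℂ L] {χ : H36.Chi} {d : Dv L} {v : VF L} {b : ℂ}
  {X₀ : Set L} {Λ Λ' : Type}

theorem Fl.uniq (hF : SFL) {C : Co L 2} {x x' : Loc L} {i : Fin 2} {G : DV L} {U : DV G.kf}
    (hC : Rg C x) (h : Fl C x i G U) {C' : Co L 2} {i' : Fin 2} {U' : DV G.kf} (hC' : Rg C' x')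
    (h' : Fl C' x' i' G U') (hx : x.O ≤ x'.O) : U' = U :=
  ((hF L C x i hC).2.2.2 G U h).1 U' ⟨_, h'.un⟩ (fun g hg => h'.le g (hx hg)) fun g hg h0 =>
    (((hF L C' x' i' hC').2.2.2 G U' h').2.1 g (hx hg)).2 ((Loc.ev_eq_of_le hx hg).trans h0)

/-- The cross term on a curve of the lower surface. -/
theorem Fl.own {C : Co L 2} {x : Loc L} {i : Fin 2} {G : DV L} {U : DV G.kf} (h : Fl C x i G U)
    {ψ : L} (h0 : ψ ≠ 0) (m : Fin 2 → ℤ) :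
    U.v (G.pl.π (ψ ^ G.v (C.mon m) / C.mon m ^ G.v ψ)) =
      m i * U.v (G.pl.π (ψ / C.z i ^ G.v ψ)) - m i.rev * G.v ψ := by
  have a1 := C.ne i
  have a2 := C.ne i.rev
  have ht0 : ψ / C.z i ^ G.v ψ ≠ 0 := div_ne_zero h0 (zpow_ne_zero _ a1)
  have ht : G.v (ψ / C.z i ^ G.v ψ) = 0 := by
    have := G.mul _ _ ht0 (zpow_ne_zero (G.v ψ) a1)
    rw [div_mul_cancel₀ _ (zpow_ne_zero _ a1), v_zpow G a1, h.dat.adp.vz] at this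
    omega
  have e : ψ ^ m i / C.mon m ^ G.v ψ =
      (ψ / C.z i ^ G.v ψ) ^ m i * C.z i.rev ^ (-(m i.rev * G.v ψ)) := by
    rw [mon_rev C i m]
    simp only [div_zpow, mul_zpow, ← zpow_mul, zpow_neg, mul_comm (m i)]
    field_simp
  have hz : G.pl.o.v (C.z i.rev) = 0 := h.vz
  have h1 := Pl.π_ne (P := G.pl) ht0 ht
  have h2 := Pl.π_ne a2 hz
  rw [h.dat.adp.v_mon, e, π_mul' (by rw [v_zpow G ht0, ht, mul_zero])
    (by rw [v_zpow G a2, h.vz, mul_zero]), Pl.π_zpow (P := G.pl) ht0 ht, Pl.π_zpow a2 hz,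
    U.mul _ _ (zpow_ne_zero _ h1) (zpow_ne_zero _ h2), v_zpow U h1, v_zpow U h2, h.un]
  ring

theorem LSf.rho (S : LSf L X₀ Λ) (hF : SFL) {a : Λ → ℂ}
    (h2 : ∀ x ∈ S.X, S.ea a x 0 ≠ 0 ∨ S.ea a x 1 ≠ 0) (ψ : L) : ∃ ρ : Loc L → ℂ,
    ∀ x ∈ S.X, ∀ i G U, S.ea a x i = 0 → Fl (S.C x) x i G U →
      ρ x = (U.v (G.pl.π (ψ / (S.C x).z i ^ G.v ψ)) : ℂ) / (G.v ψ : ℂ) := by
  have : ∀ x, ∃ r : ℂ, x ∈ S.X → ∀ i G U, S.ea a x i = 0 → Fl (S.C x) x i G U →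
      r = (U.v (G.pl.π (ψ / (S.C x).z i ^ G.v ψ)) : ℂ) / (G.v ψ : ℂ) := fun x => by
    by_cases h : ∃ i G U, S.ea a x i = 0 ∧ Fl (S.C x) x i G U
    · obtain ⟨i, G, U, hi, hG⟩ := h
      refine ⟨(U.v (G.pl.π (ψ / (S.C x).z i ^ G.v ψ)) : ℂ) / (G.v ψ : ℂ),
        fun hx i' G' U' hi' hG' => ?_⟩
      obtain rfl := idx_eq (h2 x hx) hi hi'
      obtain rfl := (hF L _ x i (S.rg x hx)).2.1 G G' hG.dat hG'.dat
      rw [hG.uniq hF (S.rg x hx) (S.rg x hx) hG' le_rfl]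
    · exact ⟨0, fun _ i G U hi hG => absurd ⟨i, G, U, hi, hG⟩ h⟩
  choose ρ hρ using this
  exact ⟨ρ, hρ⟩

namespace Key

variable {S : LSf L X₀ Λ} {a : Λ → ℂ} {m : Λ → ℤ} {S' : LSf L X₀ Λ'} {a' : Λ' → ℂ}
  {m' p : Λ' → ℤ} {ψ : L} {F : Type} [Field F] [Algebra ℂ F] {ε : F}
  (K : Key χ d v S a m S' a' m' p ψ ε) {c : F →+ ℂ}

include K

theorem delta (c2 : ∀ a m (i : Fin 2), a i = 0 → m i ≠ 0 → a i.rev ≠ 0 →
      c (wt ε a m) = -(m i.rev : ℂ) / (m i * a i.rev ^ 2))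
    {x : Loc L} (hx : x ∈ S'.X) {i : Fin 2} (hi : S'.ea a' x i = 0)
    (hr : S'.ea a' x i.rev ≠ 0) {G : DV L} {U : DV G.kf} (h : Fl (S'.C x) x i G U) {φ : L}
    (hφ : S'.Mn φ m' x) :
    c (wt ε (S'.ea a' x) (S'.em m' x)) - c (wt ε (S'.ea a' x) (S'.em p x)) =
      ((G.v φ : ℂ) * G.v ψ)⁻¹ *
        ((U.v (G.pl.π (ψ ^ G.v φ / φ ^ G.v ψ)) : ℂ) * w1 (S'.ea a' x) ^ 2) := by
  obtain ⟨h1, h2⟩ := K.ne x hx i hi
  rw [c2 _ _ i hi h1 hr, c2 _ _ i hi h2 hr, v_dat h.dat hφ, v_dat h.dat (K.mn x hx),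
    h.cross (K.mn x hx) hφ, w1_eq hi hr]
  have h3 : (S'.em m' x i : ℂ) ≠ 0 := by exact_mod_cast h1
  have h4 : (S'.em p x i : ℂ) ≠ 0 := by exact_mod_cast h2
  push_cast
  field_simp
  ring

theorem sub (hC : SCRV) (hF : SFL) (hP : SPL) (ha : S.Ad d a) (hT : S.AT d v b) :
    S.ZC a ⊆ S'.ZC a' := fun G hG => by
  have z := S.zf hF ha hG
  have hN := nrm_of_dvs z.dvs
  obtain ⟨x', hx', hl⟩ := S'.prop G.O (fun c => DV.cst_mem G c) z.base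
  obtain ⟨x, hx, hxx, -⟩ := K.dom x' hx'
  obtain ⟨q, e, a'', -, -, -, h⟩ := S.pl hF hP ha hT hG
  obtain ⟨⟨i, -, h⟩, -⟩ := h x ⟨hx, hl.of_le hxx⟩
  have h1 := ((hF L _ x i (S.rg x hx)).2.2.1 G h.dat).1.2.2
  obtain ⟨i, j, -, h2⟩ | ⟨h2, -⟩ := S'.thr_cases hC K.ad hx' ⟨hN, hl, fun h => h1 (h.of_le hxx)⟩
  · exact ⟨x', hx', i, exp_uniq hN (h2.exp (K.ad x' hx')) z.exp, h2⟩
  · exact absurd (exp_uniq hN h2 z.exp) one_ne_zero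

theorem exc (hC : SCRV) (hF : SFL) (hP : SPL) (h1 : SP1) (hX : SXC) (hb : b ≠ 0)
    (hv : d.δ v = algebraMap ℂ L b) (ha : S.Ad d a) (hL : S.Lo d v) (hT : S'.AT d v b)
    (c2 : ∀ a m (i : Fin 2), a i = 0 → m i ≠ 0 → a i.rev ≠ 0 →
      c (wt ε a m) = -(m i.rev : ℂ) / (m i * a i.rev ^ 2))
    {G : DV L} (hG : G ∈ S'.ZC a' \ S.ZC a) : ∑ᶠ x ∈ S'.On G,
      (c (wt ε (S'.ea a' x) (S'.em m' x)) - c (wt ε (S'.ea a' x) (S'.em p x))) = 0 := by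
  have z := S'.zf hF K.ad hG.1
  have hN := nrm_of_dvs z.dvs
  obtain ⟨q, e, a'', he, hq, hE, h⟩ := S'.pl hF hP K.ad hT hG.1
  obtain ⟨x', hx', hth⟩ := z.thr
  obtain ⟨x₀, hx₀, hxx, -⟩ := K.dom x' hx'
  have hD : Dm x₀ G.O := by
    by_contra hn
    obtain ⟨i, j, -, h2⟩ | ⟨h2, -⟩ := S.thr_cases hC ha hx₀ ⟨hN, hth.2.1.of_le hxx, hn⟩
    · exact hG.2 ⟨x₀, hx₀, i, exp_uniq hN (h2.exp (ha x₀ hx₀)) z.exp, h2⟩
    · exact one_ne_zero (exp_uniq hN h2 z.exp)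
  have h0 := hX L d v b X₀ ψ _ _ x₀ _ _ G e a'' hb hv ⟨S.rg x₀ hx₀, ha x₀ hx₀, S.mn_self m x₀⟩
    (hL x₀ hx₀) hD z.dvs z.exp (hT G z.dvs z.base z.exp) K.gd he hE
  rw [← mul_zero ((G.v ((S.C x₀).mon (S.em m x₀)) : ℂ) * G.v ψ)⁻¹, ← h0, mul_finsum_mem]
  refine finsum_mem_eq_of_bijOn q hq fun x hx => ?_
  obtain ⟨⟨i, hi, hl⟩, h3⟩ := h x hx
  obtain ⟨x₁, hx₁, hxx₁, h4⟩ := K.dom x hx.1
  obtain rfl := S.sep _ x₀ hx₀ x₁ hx₁ hD (hx.2.of_le hxx₁)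
  rw [K.delta c2 hx.1 hi (rev_ne (S'.two hF hP h1 K.ad hT hx.1) hi) hl h4, h3]

theorem own (hC : SCRV) (hF : SFL) (hP : SPL) (h1 : SP1) (ha : S.Ad d a) (hm : ∀ j, 0 < m j)
    (hT : S.AT d v b) (c2 : ∀ a m (i : Fin 2), a i = 0 → m i ≠ 0 → a i.rev ≠ 0 →
      c (wt ε a m) = -(m i.rev : ℂ) / (m i * a i.rev ^ 2)) {ρ : Loc L → ℂ}
    (hρ : ∀ x ∈ S.X, ∀ i G U, S.ea a x i = 0 → Fl (S.C x) x i G U →
      ρ x = (U.v (G.pl.π (ψ / (S.C x).z i ^ G.v ψ)) : ℂ) / (G.v ψ : ℂ))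
    {G : DV L} (hG : G ∈ S.ZC a) : G.v ψ ≠ 0 ∧ ∃ r, BijOn r (S'.On G) (S.On G) ∧ ∀ x ∈ S'.On G,
      c (wt ε (S'.ea a' x) (S'.em m' x)) - c (wt ε (S'.ea a' x) (S'.em p x)) =
        ρ (r x) * w1 (S.ea a (r x)) ^ 2 + c (wt ε (S.ea a (r x)) (S.em m (r x))) := by
  have hT' : S'.AT d v b := hT
  have hG' := K.sub hC hF hP ha hT hG
  have hψ : G.v ψ ≠ 0 := by
    obtain ⟨x, hx, i, hi, h⟩ := hG'
    rw [v_dat h (K.mn x hx)]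
    exact (K.ne x hx i hi).2
  obtain ⟨q, e, a₁, he, hq, hE, h⟩ := S.pl hF hP ha hT hG
  obtain ⟨q', e', a₂, he', hq', hE', h'⟩ := S'.pl hF hP K.ad hT' hG'
  obtain rfl : e = e' := by
    obtain ⟨x, hx, i, -, h⟩ := hG
    exact he.uniq he' ((hF L _ x i (S.rg x hx)).2.2.1 G h).2.2.2.1
  choose! r r1 r2 r3 using K.dom
  have hr : MapsTo r (S'.On G) (S.On G) := fun x hx => ⟨r1 x hx.1, hx.2.of_le (r2 x hx.1)⟩
  have hqr : ∀ x ∈ S'.On G, q' x = q (r x) := fun x hx => by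
    obtain ⟨⟨i, -, h2⟩, -⟩ := h _ (hr hx)
    obtain ⟨⟨i', -, h3⟩, -⟩ := h' x hx
    exact h2.uniq hF (S.rg _ (r1 x hx.1)) (S'.rg x hx.1) h3 (r2 x hx.1)
  refine ⟨hψ, r, ⟨hr, fun x hx y hy hxy => hq'.injOn hx hy (by rw [hqr x hx, hqr y hy, hxy]),
    fun y hy => ?_⟩, fun x hx => ?_⟩
  · obtain ⟨x, hx, h2⟩ := hq'.surjOn (hq.mapsTo hy)
    exact ⟨x, hx, hq.injOn (hr hx) hy ((hqr x hx).symm.trans h2)⟩
  obtain ⟨⟨i, hi, h2⟩, h4⟩ := h _ (hr hx)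
  obtain ⟨⟨i', hi', h3⟩, h5⟩ := h' x hx
  have hN := hq'.mapsTo hx
  have h6 := rev_ne (S.two hF hP h1 ha hT (r1 x hx.1)) hi
  have h7 : S.em m (r x) i ≠ 0 := by
    obtain ⟨j, hj, -⟩ := S.lab_of hi
    simpa [LSf.em, hj] using (hm j).ne'
  rw [K.delta c2 hx.1 hi' (rev_ne (S'.two hF hP h1 K.ad hT' hx.1) hi') h3 (r3 x hx.1), h5,
    ← exp_uniq hN (hE _ hN) (hE' _ hN), hqr x hx, ← h4, h2.own K.gd.1, h2.dat.adp.v_mon,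
    hρ _ (r1 x hx.1) i G _ hi h2, c2 _ _ i hi h7 h6, w1_eq hi h6]
  have h8 : (S.em m (r x) i : ℂ) ≠ 0 := by exact_mod_cast h7
  have h9 : (G.v ψ : ℂ) ≠ 0 := by exact_mod_cast hψ
  push_cast
  field_simp
  ring

end Key

theorem rBkl : OfBKL := by
  intro hO hA hB hLau _ hC hPos hTy hCmp hM0 hF h1 hR hP hX χ L _ _ C d v b X₀ Λ _ S a m hχ hS
    hX₀ hst ha hL hm hU
  obtain ⟨T⟩ := hM0 χ L C d v b X₀ hχ hS hX₀ hst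
  have hT : S.AT d v b := fun G => hTy χ L d v b X₀ T G hS.ne hS.prim
  obtain ⟨F, _, _, ε, c, c0, c1, c2⟩ := hLau
  obtain ⟨Λ', _, S', a', m', p, ψ, K⟩ := key hA hC hPos hCmp hF hχ T hS.prim S ha hm hU ε c0
  have hT' : S'.AT d v b := hT
  have h2 := fun x hx => S.two hF hP h1 ha hT (x := x) hx
  have h2' := fun x hx => S'.two hF hP h1 K.ad hT' (x := x) hx
  obtain ⟨ρ, hρ⟩ := S.rho hF h2 ψ
  have hI := hA χ L hχ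
  obtain ⟨f1, e1⟩ := S.split (hO L) hI (hB χ L F hχ) (hB χ L ℂ hχ) ε c c1 c2 (m := m) h2
    fun x _ i hi => by
      obtain ⟨j, hj, -⟩ := S.lab_of hi
      simpa [LSf.em, hj] using (hm j).ne'
  obtain ⟨f2, e2⟩ := S'.split (hO L) hI (hB χ L F hχ) (hB χ L ℂ hχ) ε c c1 c2 h2'
    fun x hx i hi => (K.ne x hx i hi).1
  obtain ⟨f3, e3⟩ := S'.split (hO L) hI (hB χ L F hχ) (hB χ L ℂ hχ) ε c c1 c2 h2'
    fun x hx i hi => (K.ne x hx i hi).2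
  have f4 : (S'.Z a' ∩ support fun x => c (wt ε (S'.ea a' x) (S'.em m' x)) -
      c (wt ε (S'.ea a' x) (S'.em p x))).Finite := (f2.union f3).subset fun x hx =>
    (support_sub _ _ hx.2).imp (fun h => ⟨hx.1, h⟩) fun h => ⟨hx.1, h⟩
  choose o1 r o2 o3 using fun G hG => K.own hC hF hP h1 ha hm hT c2 hρ (G := G) hG
  have hs := K.sub hC hF hP ha hT
  have f5 : (S.Z a ∩ support fun x => ρ x * w1 (S.ea a x) ^ 2 +
      c (wt ε (S.ea a x) (S.em m x))).Finite := by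
    rw [S.Z_eq hF hP ha hT, iUnion₂_inter]
    refine (S.ZC_fin a).biUnion' fun G hG => (f4.image (r G hG)).subset fun y hy => ?_
    obtain ⟨x, hx, rfl⟩ := (o2 G hG).surjOn hy.1
    refine ⟨x, ⟨?_, (o3 G hG x hx).trans_ne hy.2⟩, rfl⟩
    rw [S'.Z_eq hF hP K.ad hT']
    exact mem_biUnion (hs hG) hx
  have f6 : (S.Z a ∩ support fun x => ρ x * w1 (S.ea a x) ^ 2).Finite :=
    (f5.union f1).subset fun x hx => by
      by_contra hn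
      simp only [mem_union, mem_inter_iff, hx.1, true_and, mem_support, not_or, not_not] at hn
      exact hx.2 (by simpa [hn.2] using hn.1)
  refine ⟨ψ, ρ, h2, fun x hx i G hi hG => ?_, S.rg_lab hF hP h1 hR hχ (hB χ L ℂ hχ) ha hT, K.gd,
    hρ, f6.subset fun x hx => ⟨hx.1, mul_ne_zero hx.2 (pow_ne_zero _ (w1_ne _))⟩, ?_⟩
  · have z := S.zf hF ha ⟨x, hx, i, hi, hG⟩
    exact ⟨hT G z.dvs z.base z.exp, o1 G ⟨x, hx, i, hi, hG⟩⟩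
  have e4 := S'.sum_Z hF hP h1 K.ad hT' f4
  rw [← finsum_mem_add_sdiff hs (S'.ZC_fin a'), finsum_mem_eq_zero_of_forall_eq_zero
    (s := S'.ZC a' \ S.ZC a) fun G hG => K.exc hC hF hP h1 hX hS.ne hS.prim ha hL hT' c2 hG,
    add_zero, finsum_mem_congr rfl fun G hG => finsum_mem_eq_of_bijOn
      (g := fun x => ρ x * w1 (S.ea a x) ^ 2 + c (wt ε (S.ea a x) (S.em m x))) _ (o2 G hG)
      (o3 G hG), ← S.sum_Z hF hP h1 ha hT f5, finsum_mem_add_distrib' f6 f1] at e4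
  have e5 := finsum_mem_add_distrib' f4 f3
  simp only [sub_add_cancel] at e5
  rw [K.i1, e1] at e2
  rw [K.i2, map_zero] at e3
  linear_combination e2 - e3 + e5 + e4

end Pool.Agent.MP_ee8c61_ag.M3BK
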