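import Pool.Agent.MP_ee8c61_ag.M3BK.Spec
import Pool.Agent.MP_ee8c61_ag.M3RESID.Val
import Pool.Agent.MP_ee8c61_ag.M3S.RUFD

/-! The curves through a regular point of a surface. -/

namespace Pool.Agent.MP_ee8c61_ag.M3BK

open M3 M3RESID Set
open Pool.Agent.MP_96693b_ag.RS (Loc IsCrd Chart)
open Pool.Agent.MP_96693b_ag

noncomputable section

namespace RCrv

variable {L : Type} [Field L] [Algebra ℂ L] {C : Co L 2} {x : Loc L} {G : DV L}

theorem crd {n : ℕ} {C : Co L n} (h : Rg C x) : IsCrd x ⟨C.z, C.D⟩ := by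
  refine ⟨le_antisymm (Submodule.span_le.2 ?_) fun g hg => ?_, h.st.D, C.dual⟩
  · rintro _ ⟨i, rfl⟩
    exact ⟨h.st.z i, h.ev i⟩
  · obtain ⟨c, h1, rfl⟩ := h.mx g hg.1 hg.2
    refine Submodule.sum_mem _ fun i _ => ?_
    rw [mul_comm]
    exact Submodule.smul_mem _ (⟨c i, h1 i⟩ : x.O) (Submodule.subset_span ⟨i, rfl⟩)

theorem ev0 {a b : L} (ha : a ∈ x.O) (hb : b ∈ x.O) (h : x.ev a = 0) : x.ev (a * b) = 0 := by
  rw [x.ev_mul _ ha _ hb, h, zero_mul]

theorem prime (h : Rg C x) (i : Fin 2) : Prime (⟨C.z i, h.st.z i⟩ : x.O) := by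
  have hI : ∀ f : x.O, (f : L) ∈ (⟨C.z, C.D⟩ : Chart L 2).I x {i} ↔
      (⟨C.z i, h.st.z i⟩ : x.O) ∣ f := fun f => by
    rw [RS.Chart.I_singleton, RS.Loc.span, Submodule.mem_span_singleton]
    exact ⟨fun ⟨c, hc⟩ => ⟨c, Subtype.ext (hc.symm.trans (mul_comm _ _))⟩,
      fun ⟨c, hc⟩ => ⟨c, by rw [hc]; exact mul_comm _ _⟩⟩
  refine ⟨fun e => C.ne i (congrArg Subtype.val e), fun hu => ?_, fun f g hd =>
    ((crd h).prime f.2 g.2 ((hI (f * g)).2 hd)).imp (hI f).1 (hI g).1⟩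
  obtain ⟨c, hc⟩ := hu.exists_right_inv
  have := ev0 (h.st.z i) c.2 (h.ev i)
  rw [show C.z i * c = 1 from congrArg Subtype.val hc, RS.Loc.ev_one] at this
  exact one_ne_zero this

/-- An element of the maximal ideal that divides its derivative along `z 1` is a multiple of
`z 0`. -/
theorem dvd0 (h : Rg C x) {p r : L} (hp : p ∈ x.O) (hr : r ∈ x.O) (h0 : x.ev p = 0)
    (e : C.D 1 p = p * r) : ∃ a ∈ x.O, p = C.z 0 * a := by
  have := x.noeth
  have z0 := h.st.z 0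
  have z1 := h.st.z 1
  have d0 : C.D 1 (C.z 0) = 0 := by simp [C.dual]
  have d1 : C.D 1 (C.z 1) = 1 := by simp [C.dual]
  have P := prime h 0
  have n1 : ¬(⟨C.z 0, z0⟩ : x.O) ∣ ⟨C.z 1, z1⟩ := fun ⟨c, hc⟩ => by
    have k := congrArg (fun t : x.O => x.ev (C.D 1 t)) hc
    simp only [Subalgebra.coe_mul, Derivation.leibniz, d0, d1, smul_eq_mul, mul_zero, add_zero,
      RS.Loc.ev_one] at k
    exact one_ne_zero (k.trans (ev0 z0 (h.st.D 1 _ c.2) (h.ev 0)))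
  have key : ∀ n : ℕ, ∃ a ∈ x.O, ∃ b ∈ x.O, p = C.z 0 * a + C.z 1 ^ (n + 1) * b := fun n => by
    induction n with
    | zero =>
      obtain ⟨c, h1, h2⟩ := h.mx p hp h0
      exact ⟨c 0, h1 0, c 1, h1 1, by rw [h2, Fin.sum_univ_two, zero_add, pow_one]⟩
    | succ n ih =>
      obtain ⟨a, ha, b, hb, k⟩ := ih
      have m1 : C.D 1 b - b * r ∈ x.O := sub_mem (h.st.D 1 b hb) (mul_mem hb hr)
      have m2 : algebraMap ℂ L (n + 1) * b ∈ x.O := mul_mem (x.O.algebraMap_mem _) hb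
      have m3 : algebraMap ℂ L (n + 1) * b + C.z 1 * (C.D 1 b - b * r) ∈ x.O :=
        add_mem m2 (mul_mem z1 m1)
      have k1 : (⟨C.z 0, z0⟩ : x.O) ∣ ⟨C.z 1, z1⟩ ^ n * ⟨_, m3⟩ :=
        ⟨⟨a * r - C.D 1 a, sub_mem (mul_mem ha hr) (h.st.D 1 a ha)⟩, Subtype.ext (by
          rw [k] at e
          simp only [map_add, Derivation.leibniz, Derivation.leibniz_pow, d0, d1, smul_eq_mul,
            nsmul_eq_mul, Nat.add_sub_cancel] at e
          simp only [Subalgebra.coe_mul, Subalgebra.coe_pow, map_add, map_natCast, map_one]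
          push_cast at e
          linear_combination e)⟩
      obtain ⟨c, hc⟩ := (P.dvd_or_dvd k1).resolve_left fun t => n1 (P.dvd_of_dvd_pow t)
      have k2 := congrArg (fun t : x.O => x.ev t) hc
      simp only [Subalgebra.coe_mul] at k2
      rw [ev0 z0 c.2 (h.ev 0), x.ev_add _ m2 _ (mul_mem z1 m1), ev0 z1 m1 (h.ev 1), add_zero,
        x.ev_mul _ (x.O.algebraMap_mem _) _ hb, x.ev_alg] at k2
      obtain ⟨t, h1, h2⟩ := h.mx b hb ((mul_eq_zero.1 k2).resolve_left (Nat.cast_add_one_ne_zero n))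
      exact ⟨a + C.z 1 ^ (n + 1) * t 0, add_mem ha (mul_mem (pow_mem z1 _) (h1 0)), t 1, h1 1, by
        rw [k, h2, Fin.sum_univ_two]; ring⟩
  have hP := (Ideal.span_singleton_prime P.ne_zero).2 P
  let φ := Ideal.Quotient.mk (Ideal.span {(⟨C.z 0, z0⟩ : x.O)})
  have f0 : φ ⟨C.z 0, z0⟩ = 0 := Ideal.Quotient.eq_zero_iff_mem.2 (Ideal.mem_span_singleton_self _)
  have hI : Ideal.span {φ ⟨C.z 1, z1⟩} ≠ ⊤ := fun t => by
    obtain ⟨c, hc⟩ := Ideal.mem_span_singleton'.1 ((Ideal.eq_top_iff_one _).1 t)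
    obtain ⟨c, rfl⟩ := Ideal.Quotient.mk_surjective c
    rw [← map_mul, ← map_one φ, Ideal.Quotient.eq, Ideal.mem_span_singleton] at hc
    obtain ⟨t, ht⟩ := hc
    have k : (1 : L) + C.z 0 * t = C.z 1 * c := by
      have := congrArg Subtype.val ht
      simp only [Subalgebra.coe_mul, Subalgebra.coe_sub, Subalgebra.coe_one] at this
      linear_combination -this
    have k1 := congrArg x.ev k
    rw [x.ev_add _ (one_mem _) _ (mul_mem z0 t.2), ev0 z0 t.2 (h.ev 0), ev0 z1 c.2 (h.ev 1),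
      RS.Loc.ev_one, add_zero] at k1
    exact one_ne_zero k1
  have k : φ ⟨p, hp⟩ ∈ ⨅ n : ℕ, Ideal.span {φ ⟨C.z 1, z1⟩} ^ n := Ideal.mem_iInf.2 fun n => by
    obtain ⟨a, ha, b, hb, k⟩ := key n
    have : (⟨p, hp⟩ : x.O) = ⟨C.z 0, z0⟩ * ⟨a, ha⟩ + ⟨C.z 1, z1⟩ ^ n * (⟨C.z 1, z1⟩ * ⟨b, hb⟩) :=
      Subtype.ext (by simp [k]; ring)
    rw [this, map_add, map_mul, f0, zero_mul, zero_add, map_mul, map_pow]
    exact Ideal.mul_mem_right _ _ (Ideal.pow_mem_pow (Ideal.mem_span_singleton_self _) n)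
  rw [Ideal.iInf_pow_eq_bot_of_isDomain _ hI, Ideal.mem_bot, Ideal.Quotient.eq_zero_iff_mem,
    Ideal.mem_span_singleton] at k
  obtain ⟨a, ha⟩ := k
  exact ⟨a, a.2, congrArg Subtype.val ha⟩

theorem gen (h : Rg C x) (t : Thr x G) : ∃ p ∈ x.O, p ≠ 0 ∧ G.v p = 1 ∧
    ∀ g ∈ x.O, g ∈ G.F 1 → g / p ∈ x.O := by
  obtain ⟨⟨π, hπ⟩, le, nd⟩ := t
  let q : Ideal x.O :=
    { carrier := {g | (g : L) ∈ G.F 1}
      zero_mem' := Or.inl rfl
      add_mem' := fun a b => (G.F 1).add_mem a b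
      smul_mem' := fun c g hg => F_mul0 (le c c.2) hg }
  have hq : q.IsPrime := ⟨(Ideal.ne_top_iff_one _).2 fun e => by
      rcases e with e | e
      · exact one_ne_zero e
      · rw [Subalgebra.coe_one, G.one] at e
        omega, fun {a b} e => by
    by_contra! k
    have a0 : (a : L) ≠ 0 := fun t => k.1 (Or.inl t)
    have b0 : (b : L) ≠ 0 := fun t => k.2 (Or.inl t)
    have a1 : ¬1 ≤ G.v a := fun t => k.1 (Or.inr t)
    have b1 : ¬1 ≤ G.v b := fun t => k.2 (Or.inr t)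
    have : 1 ≤ G.v (a * b) := Or.resolve_left e (mul_ne_zero a0 b0)
    rw [G.mul _ _ a0 b0] at this
    omega⟩
  obtain ⟨p, hp⟩ := ((M3S.rowUFD L x _ (crd h)).2 q hq (by
    by_contra! k
    refine nd ⟨le, fun g hg e u => ?_⟩
    obtain ⟨u1, u2⟩ := (DV.un_O G).1 u
    have : 1 ≤ G.v g := Or.resolve_left (k ⟨g, hg⟩ e) u1
    omega)).principal
  have dv : ∀ g ∈ x.O, g ∈ G.F 1 → ∃ c ∈ x.O, c * p = g := fun g hg k => by
    obtain ⟨c, hc⟩ := Ideal.mem_span_singleton'.1 (hp ▸ k : (⟨g, hg⟩ : x.O) ∈ Submodule.span _ {p})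
    exact ⟨c, c.2, congrArg Subtype.val hc⟩
  have π0 : π ≠ 0 := fun e => by simp [e, G.zero] at hπ
  obtain ⟨s, s1, s2, s3⟩ := h.fr π
  have s4 : 0 ≤ G.v s := Or.resolve_left (le s s1) s2
  have s5 : G.v (s * π) = G.v s + 1 := by rw [G.mul _ _ s2 π0, hπ]
  have p0 : (p : L) ≠ 0 := fun e => by
    obtain ⟨c, -, hc⟩ := dv _ s3 (Or.inr (by omega))
    rw [e, mul_zero] at hc
    exact mul_ne_zero s2 π0 hc.symm
  have p1 : 1 ≤ G.v p := Or.resolve_left
    (show p ∈ q from hp ▸ Submodule.mem_span_singleton_self p) p0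
  have dd : ∀ (n : ℕ), ∀ g ∈ x.O, g ≠ 0 → G.v g ≤ n → G.v p ∣ G.v g := fun n => by
    induction n with
    | zero =>
      intro g hg g0 k
      have : 0 ≤ G.v g := Or.resolve_left (le g hg) g0
      exact ⟨0, by omega⟩
    | succ n ih =>
      intro g hg g0 k
      have : 0 ≤ G.v g := Or.resolve_left (le g hg) g0
      by_cases e : G.v g = 0
      · exact ⟨0, by omega⟩
      obtain ⟨c, c1, rfl⟩ := dv g hg (Or.inr (by omega))
      rw [G.mul _ _ (left_ne_zero_of_mul g0) p0] at k ⊢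
      exact dvd_add (ih c c1 (left_ne_zero_of_mul g0) (by omega)) dvd_rfl
  have k := (dvd_add_right (dd (G.v s).toNat s s1 s2 (by omega))).1
    (s5 ▸ dd (G.v (s * π)).toNat _ s3 (mul_ne_zero s2 π0) (by omega))
  refine ⟨p, p.2, p0, le_antisymm (Int.le_of_dvd one_pos k) p1, fun g hg k => ?_⟩
  obtain ⟨c, c1, rfl⟩ := dv g hg k
  rwa [mul_div_cancel_right₀ _ p0]

end RCrv

open RCrv in
theorem rCrv : SCRV := by
  intro L _ _ C x G h t
  obtain ⟨p, hp, p0, p1, dv⟩ := gen h t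
  have le : ∀ g ∈ x.O, g ∈ G.F 0 := t.2.1
  have un : ∀ g ∈ x.O, x.ev g ≠ 0 → G.v g = 0 := fun g hg e => by
    have g0 := RS.Loc.ne_zero_of_ev e
    have k1 : 0 ≤ G.v g := Or.resolve_left (le g hg) g0
    have k2 : 0 ≤ G.v g⁻¹ := Or.resolve_left (le _ (x.inv_mem g hg e)) (inv_ne_zero g0)
    rw [G.inv] at k2
    omega
  have pe : x.ev p = 0 := by
    by_contra e
    have := un p hp e
    omega
  have dp : ∀ n : ℕ, ∀ g ∈ x.O, g ∈ G.F n → g / p ^ n ∈ x.O := fun n => by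
    induction n with
    | zero => exact fun g hg _ => by simpa using hg
    | succ n ih =>
      intro g hg k
      rw [pow_succ', ← div_div]
      refine ih _ (dv g hg (G.F_anti (by omega) k)) ?_
      simpa [p1] using F_div k p
  have fr : ∀ g ∈ G.F 0, ∃ s ∈ x.O, s ≠ 0 ∧ G.v s = 0 ∧ s * g ∈ x.O := fun g hg => by
    obtain ⟨s, s1, s2, s3⟩ := h.fr g
    have s4 : 0 ≤ G.v s := Or.resolve_left (le s s1) s2
    have s5 : s ∈ G.F (G.v s).toNat := Or.inr (by omega)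
    refine ⟨s / p ^ (G.v s).toNat, dp _ s s1 s5, div_ne_zero s2 (pow_ne_zero _ p0), ?_, ?_⟩
    · rw [DV.div G s2 (pow_ne_zero _ p0), DV.pow, p1]
      omega
    · rw [div_mul_eq_mul_div]
      exact dp _ _ s3 (F_mul0' s5 hg)
  have hD : ∀ j, ∀ g ∈ G.F 0, C.D j g ∈ G.F 0 := fun j g hg => by
    obtain ⟨s, s1, s2, s3, s4⟩ := fr g hg
    have k := F_div (sub_mem (le _ (h.st.D j _ s4)) (F_mul0 hg (le _ (h.st.D j _ s1)))) s
    rw [s3, sub_zero, Derivation.leibniz, smul_eq_mul, smul_eq_mul, add_sub_cancel_right,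
      mul_div_cancel_left₀ _ s2] at k
    exact k
  have vz : ∀ i, 0 ≤ G.v (C.z i) := fun i => Or.resolve_left (le _ (h.st.z i)) (C.ne i)
  by_cases hz : ∀ i, G.v (C.z i) = 0
  · have w1 : C.D 1 p ∉ G.F 1 := fun k => by
      obtain ⟨a, ha, e⟩ := dvd0 h hp (dv _ (h.st.D 1 p hp) k) pe (mul_div_cancel₀ _ p0).symm
      have a0 : a ≠ 0 := right_ne_zero_of_mul (e ▸ p0)
      have k1 : G.v p = G.v (C.z 0) + G.v a := by rw [e, G.mul _ _ (C.ne 0) a0]
      have k2 := ev0 (h.st.z 0) (dv a ha (Or.inr (by rw [hz] at k1; omega))) (h.ev 0)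
      rw [← mul_div_assoc, ← e, div_self p0, RS.Loc.ev_one] at k2
      exact one_ne_zero k2
    have w0 : C.D 1 p ≠ 0 := fun e => w1 (Or.inl e)
    have w2 : (C.D 1 p)⁻¹ ∈ G.F 0 := Or.inr (by
      have : ¬1 ≤ G.v (C.D 1 p) := fun e => w1 (Or.inr e)
      rw [G.inv]
      omega)
    have w3 := le _ (h.st.D 0 p hp)
    let C' : Co L 2 :=
      { z := ![C.z 0, p]
        D := ![C.D 0 - C.D 0 p • (C.D 1 p)⁻¹ • C.D 1, (C.D 1 p)⁻¹ • C.D 1]
        ne := fun i => by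
          fin_cases i
          exacts [C.ne 0, p0]
        dual := fun i j => by fin_cases i <;> fin_cases j <;> simp [C.dual, w0]
        span := fun v hv => C.span v fun i => by
          have k0 : v (C.z 0) = 0 := hv 0
          have k1 : v p = 0 := hv 1
          rw [C.exp_apply v p, Fin.sum_univ_two, k0, zero_mul, zero_add] at k1
          fin_cases i
          exacts [k0, (mul_eq_zero.1 k1).resolve_right w0] }
    have d1 : ∀ g ∈ G.F 0, C'.D 1 g ∈ G.F 0 := fun g hg => F_mul0 w2 (hD 1 g hg)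
    have at1 : C'.At G 1 := ⟨cst_F G, fun j => by
      fin_cases j
      exacts [hz 0, p1], fun j g hg => by
      fin_cases j
      exacts [sub_mem (hD 0 g hg) (F_mul0 w3 (d1 g hg)), d1 g hg]⟩
    refine ⟨⟨C', 1, at1⟩, fr, Or.inr ⟨hz, fun d a ha => ?_⟩⟩
    have e0 : ∀ j, d.δ (C.D j) ∈ G.F 0 := fun j => by
      have k := F_div (cst_F G (a j - 1)) (C.z j)
      rw [hz, sub_zero] at k
      refine F_of_eq (add_mem (le _ (ha j)) k) ?_
      have := C.ne j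
      rw [Co.th, d.smul, C.dual, if_pos rfl, map_sub, map_one]
      field_simp
      ring
    have e1 : d.δ (C'.D 1) ∈ G.F 0 := by
      change d.δ ((C.D 1 p)⁻¹ • C.D 1) ∈ _
      rw [d.smul]
      exact add_mem (F_mul0 w2 (e0 1)) (hD 1 _ w2)
    refine at1.exp ?_ fun j hj => ?_
    · rw [Co.th, d.smul, C'.dual, if_pos rfl, map_one, add_sub_cancel_right]
      exact F_mul0' (Or.inr at1.vz.ge) e1
    · obtain rfl : j = 0 := by omega
      change d.δ (C.D 0 - C.D 0 p • C'.D 1) ∈ _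
      rw [map_sub, d.smul]
      exact sub_mem (e0 0) (add_mem (F_mul0 w3 e1) (d1 _ w3))
  · obtain ⟨i, hi⟩ := not_forall.1 hz
    have z1 : ∀ i, G.v (C.z i) ≠ 0 → C.z i ∈ G.F 1 := fun i k => Or.inr (by
      have := vz i
      omega)
    have m1 := dv _ (h.st.z i) (z1 i hi)
    have u1 : x.ev (C.z i / p) ≠ 0 := fun e => by
      have k := C.dual i i
      rw [if_pos rfl, ← mul_div_cancel₀ (C.z i) p0, Derivation.leibniz, smul_eq_mul,
        smul_eq_mul] at k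
      have k1 := congrArg x.ev k
      rw [x.ev_add _ (mul_mem hp (h.st.D i _ m1)) _ (mul_mem m1 (h.st.D i _ hp)),
        ev0 hp (h.st.D i _ m1) pe, ev0 m1 (h.st.D i _ hp) e, add_zero, RS.Loc.ev_one] at k1
      exact zero_ne_one k1
    have v1 := un _ m1 u1
    rw [DV.div G (C.ne i) p0] at v1
    have dat : C.Dat x.O G i := ⟨⟨cst_F G, fun j => ?_, hD⟩, le, fun g hg k => ?_⟩
    · exact ⟨⟨C, i, dat.adp⟩, fr, Or.inl ⟨i, dat⟩⟩
    · split_ifs with e
      · rw [e]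
        omega
      by_contra k
      refine t.2.2 ⟨le, fun g hg k1 u => ?_⟩
      obtain ⟨c, c1, rfl⟩ := h.mx g hg k1
      obtain ⟨u2, u3⟩ := (DV.un_O G).1 u
      have : ∑ l, C.z l * c l ∈ G.F 1 := sum_mem fun l _ => F_mul0' (z1 l (by
        rcases (by omega : l = i ∨ l = j) with rfl | rfl
        exacts [hi, k])) (le _ (c1 l))
      have := this.resolve_left u2
      omega
    · have := C.ne i
      refine (show g / C.z i = g / p * (C.z i / p)⁻¹ by field_simp) ▸ ?_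
      exact mul_mem (dv g hg k) (x.inv_mem _ m1 u1)

end

end Pool.Agent.MP_ee8c61_ag.M3BK
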