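import Pool.Agent.MP_ee8c61_ag.M3BK.Spec
import Pool.Agent.MP_ee8c61_ag.M3RESID.Res

/-!
The points of a rational curve on a surface are the places of its function field.
-/

namespace Pool.Agent.MP_ee8c61_ag.M3BK

open M3 M3RESID Set
open Pool.Agent.MP_96693b_ag.RS (Loc LocOf)

namespace RCur

variable {L k : Type} [Field L] [Algebra ℂ L] [Field k] [Algebra ℂ k]

/-- The composite of a place and a valuation of the residue field. -/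
def cmp (P : Pl L k) (U : DV k) : ValuationSubring L where
  carrier := {g | g ∈ P.o.F 0 ∧ P.π g ∈ U.F 0}
  mul_mem' := fun {a b} ha hb => ⟨F_mul0 ha.1 hb.1, by
    rw [P.mul a ha.1 b hb.1]
    exact F_mul0 ha.2 hb.2⟩
  one_mem' := ⟨one_F, by
    rw [P.π_one]
    exact one_F⟩
  add_mem' := fun {a b} ha hb => ⟨add_mem ha.1 hb.1, by
    rw [P.add a ha.1 b hb.1]
    exact add_mem ha.2 hb.2⟩
  zero_mem' := ⟨zero_mem _, by
    rw [P.π_zero]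
    exact zero_mem _⟩
  neg_mem' := fun {a} ha => ⟨neg_mem ha.1, by
    rw [Pl.π_neg ha.1]
    exact neg_mem ha.2⟩
  mem_or_inv_mem' := fun g => by
    have h1 : ∀ g : L, g ∈ P.o.F 1 → g ∈ P.o.F 0 ∧ P.π g ∈ U.F 0 := fun g hg =>
      ⟨P.o.F_anti (by omega) hg, by
        rw [P.π_F1 hg]
        exact zero_mem _⟩
    by_cases h0 : g = 0
    · exact Or.inl (h1 g (Or.inl h0))
    rcases lt_trichotomy (P.o.v g) 0 with h | h | h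
    · exact Or.inr (h1 _ (Or.inr (by rw [P.o.inv]; omega)))
    · refine (U.O.mem_or_inv_mem (P.π g)).imp (fun q => ⟨Or.inr h.ge, q⟩) fun q =>
        ⟨Or.inr (by rw [P.o.inv]; omega), ?_⟩
      rw [← one_div, Pl.π_div one_F h0 h, P.π_one, one_div]
      exact q
    · exact Or.inl (h1 g (Or.inr h))

theorem not_un {P : Pl L k} {U : DV k} {g : L} (h : P.π g ∈ U.F 1) : ¬Un (cmp P U) g := by
  rintro ⟨h0, h1, h2⟩
  have h3 := F_mul0' h h2.2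
  rw [← P.mul g h1.1 _ h2.1, mul_inv_cancel₀ h0, P.π_one, ← map_one (algebraMap ℂ k)] at h3
  exact one_ne_zero (cst_F1 h3)

end RCur

open RCur

theorem rCur : OfCUR := by
  intro h1 L _ _ X₀ S G σ θ _ hP h2 h3 U hU
  obtain ⟨⟨W, -, w1, -, -, -, w2, -⟩, -⟩ := h1 _ σ θ hP
  obtain ⟨c, rfl⟩ := (w1 U).1 hU
  obtain ⟨x, hx, hV⟩ := S.prop (cmp G.pl (W c)) (fun r => ⟨(G.pl.cst r).1, by
    rw [G.pl.π_cst]
    exact cst_F _ r⟩) fun g hg => ⟨h2 g hg, by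
      obtain ⟨r, hr⟩ := h3 g hg
      rw [← hr]
      exact cst_F _ r⟩
  have h4 : ∀ g ∈ x.O, x.ev g = 0 → G.pl.π g ∈ (W c).F 1 := fun g hg e => by
    obtain ⟨r, hr⟩ := w2 c _ (hV g hg).2
    by_cases h0 : r = 0
    · rwa [h0, map_zero, sub_zero] at hr
    have h5 : g - algebraMap ℂ L r ∈ x.O := sub_mem hg (x.O.algebraMap_mem r)
    have h6 : x.ev (g - algebraMap ℂ L r) ≠ 0 := by
      rw [MP_96693b_ag.RS.Loc.ev_sub hg (x.O.algebraMap_mem r), e, x.ev_alg, zero_sub]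
      exact neg_ne_zero.2 h0
    refine absurd ⟨MP_96693b_ag.RS.Loc.ne_zero_of_ev h6, hV _ h5, hV _ (x.inv_mem _ h5 h6)⟩
      (not_un ?_)
    rwa [Pl.π_sub (hV g hg).1 (G.pl.cst r).1, G.pl.π_cst]
  exact ⟨x, hx, fun g hg => (hV g hg).1, fun g hg => (hV g hg).2, h4, fun x' hx' a b =>
    (S.sep _ x hx x' hx' ⟨hV, fun g hg e => not_un (h4 g hg e)⟩ fun g hg => ⟨a g hg, b g hg⟩).symm⟩

theorem rPl : OfPL := by
  intro _ hC hF hU hP L _ _ d v b X₀ S a G ha ⟨σ, θ, μ, hμ, h1, h2, _, h3⟩ hE ⟨x₀, hx₀, t₀⟩ hX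
  obtain ⟨ϖ, hϖ⟩ := t₀.1
  have k1 : ∀ x, x ∈ S.X → Le x G.O → ∃ i, a x i = 0 ∧ (S.C x).Dat x.O G i := fun x hx hl => by
    have t : Thr x G := ⟨t₀.1, hl, fun hd => t₀.2.2 (S.sep _ x hx x₀ hx₀ hd t₀.2.1 ▸ hd)⟩
    rcases (hC L _ x G (S.rg x hx) t).2.2 with ⟨i, hi⟩ | ⟨-, h⟩
    · exact ⟨i, (hi.exp (ha x hx)).uniq hE hϖ, hi⟩
    · exact absurd ((h d _ (ha x hx)).uniq hE hϖ) one_ne_zero
  have k2 : ∀ x, x ∈ S.X → Le x G.O → ∃ U i, a x i = 0 ∧ Fl (S.C x) x i G U := fun x hx hl => by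
    obtain ⟨i, hi, hd⟩ := k1 x hx hl
    obtain ⟨U, hU⟩ := ((hF L _ x i (S.rg x hx)).2.2.1 G hd).2.2.1
    exact ⟨U, i, hi, hU⟩
  have : Nonempty (DV G.kf) := ⟨(k2 x₀ hx₀ t₀.2.1).choose⟩
  choose! p hp using k2
  obtain ⟨i₀, -, d₀⟩ := k1 x₀ hx₀ t₀.2.1
  obtain ⟨e, he⟩ := Pl.exists_RsD (P := G.pl) hE hϖ
    ((hF L _ x₀ i₀ (S.rg x₀ hx₀)).2.2.1 G d₀).2.2.2.1
  have k3 : BijOn p {x ∈ S.X | Le x G.O} {U | Nrm U} := by
    refine ⟨fun x hx => ?_, fun x hx x' hx' q => ?_, fun U hN => ?_⟩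
    · obtain ⟨i, -, f⟩ := hp x hx.1 hx.2
      exact ⟨_, f.un⟩
    · obtain ⟨i, -, f⟩ := hp x hx.1 hx.2
      obtain ⟨i', -, f'⟩ := hp x' hx'.1 hx'.2
      obtain ⟨y, -, -, -, -, hy⟩ := hU L X₀ S G σ θ t₀.1 h1 hX h3 (p x) ⟨_, f.un⟩
      rw [hy x hx.1 hx.2 f.le, hy x' hx'.1 hx'.2 (q ▸ f'.le)]
    · obtain ⟨y, y1, y2, y3, y4, -⟩ := hU L X₀ S G σ θ t₀.1 h1 hX h3 U hN
      obtain ⟨i, -, f⟩ := hp y y1 y2
      exact ⟨y, ⟨y1, y2⟩, (((hF L _ y i (S.rg y y1)).2.2.2 G _ f).1 U hN y3 y4).symm⟩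
  have k4 : ∀ x, x ∈ S.X → ∀ i U, a x i = 0 → Fl (S.C x) x i G U → Exp e U (a x i.rev) :=
    fun x hx i U hi f => ((hF L _ x i (S.rg x hx)).2.2.2 G U f).2.2.2 d _ e (ha x hx) hi he
  have k5 : ∀ U, Nrm U → ∃ c, Exp e U c := fun U hN => by
    obtain ⟨x, hx, rfl⟩ := k3.surjOn hN
    obtain ⟨i, hi, f⟩ := hp x hx.1 hx.2
    exact ⟨_, k4 x hx.1 i _ hi f⟩
  choose! a' ha' using k5
  refine ⟨p, e, a', he, k3, ha', fun x hx hl => ⟨hp x hx hl, ?_⟩⟩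
  obtain ⟨i, hi, f⟩ := hp x hx hl
  have hN : Nrm (p x) := ⟨_, f.un⟩
  have e1 := k4 x hx i _ hi f
  have e2 : a x i.rev ≠ 0 := by
    obtain ⟨q1, q2, q3⟩ := (hP _ σ θ h1).2 e μ _ _ (h2 e he) hN e1
    rcases lt_trichotomy ((p x).v σ) 0 with h | h | h
    · rw [q2 h]
      exact neg_ne_zero.2 hμ
    · rw [q3 h]
      exact one_ne_zero
    · rw [q1 h]
      exact hμ
  rw [(ha' _ hN).uniq e1 f.un, w1, Fin.prod_univ_two]
  fin_cases i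
  · have e3 : a x 0 = 0 := hi
    have e4 : a x 1 ≠ 0 := e2
    rw [if_pos e3, if_neg e4, one_mul]
    rfl
  · have e3 : a x 1 = 0 := hi
    have e4 : a x 0 ≠ 0 := e2
    rw [if_pos e3, if_neg e4, mul_one]
    rfl

end Pool.Agent.MP_ee8c61_ag.M3BK
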