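import Pool.Agent.MP_ee8c61_ag.M3BQ.All
import Pool.Agent.MP_ee8c61_ag.M3BQ.Dls
import Pool.Agent.MP_ee8c61_ag.M3BQ.Cre

/-! Exceptional curves and the integral over a fibre. -/

namespace Pool.Agent.MP_ee8c61_ag.M3BK

theorem rExc : OfEXC := fun _ => M3BQ.exc M3BQ.sord M3BQ.sgen

theorem rDls : OfDLS :=
  M3BQ.dls M3BQ.sqex M3BQ.sord M3BQ.sexc M3BQ.sqad M3BQ.sgen M3BQ.sabh M3BQ.swt M3BQ.slin M3BQ.sexl

theorem rCre' : OfCRE := fun _ => M3BQ.cre M3BQ.sqex M3BQ.sexc M3BQ.srat M3BQ.sabv M3BQ.sexp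

end Pool.Agent.MP_ee8c61_ag.M3BK
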