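import Pool.Agent.MP_ee8c61_ag.M3BK.Tr
import Pool.Agent.MP_ee8c61_ag.M3RESID.Cht
import Pool.Agent.MP_ee8c61_ag.M3H47.Frame
import Pool.Agent.MP_ee8c61_ag.H59.RTd

/-! The residues of adapted coordinates are coordinates of the residue field. -/

namespace Pool.Agent.MP_ee8c61_ag.M3BK

open M3 M3RESID Set

variable {L k : Type} [Field L] [Algebra ℂ L] [Field k] [Algebra ℂ k] {n : ℕ}

theorem tr_of_der (D : VF k) {S : Set k} (h : ∀ c ∈ S, D c = 0) {y : k} (hy : D y ≠ 0) :
    Transcendental (Algebra.adjoin ℂ S) y := fun ha =>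
  M3H47.transc D hy (ha.tower_top_of_subalgebra_le (B := (M3H47.cst D).toSubalgebra)
    (Algebra.adjoin_le h))

/-- A family with a dual family of derivations is algebraically independent. -/
theorem ind_of_der {ι : Type} (u : ι → k) (D : ι → VF k) (h1 : ∀ i, D i (u i) ≠ 0)
    (h0 : ∀ i j, j ≠ i → D i (u j) = 0) : AlgebraicIndependent ℂ u :=
  algebraicIndependent_of_finite_type' (algebraMap ℂ k).injective fun _ _ _ i hi =>
    tr_of_der (D i) (by
      rintro _ ⟨j, hj, rfl⟩
      exact h0 i j fun e => hi (e ▸ hj)) (h1 i)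

theorem ind_lift {B R ι : Type} [CommRing B] [IsDomain B] [CommRing R] [Algebra ℂ B] [Algebra ℂ R]
    (ρ : B →ₐ[ℂ] R) (x : ι → B) (hx : AlgebraicIndependent ℂ (ρ ∘ x)) (s : B) (h0 : s ≠ 0)
    (h1 : ρ s = 0) : AlgebraicIndependent ℂ fun o : Option ι => o.elim s x := by
  refine AlgebraicIndependent.option_iff.mpr ⟨hx.of_comp ρ, fun h => ?_⟩
  obtain ⟨⟨r, hr⟩, r0, c, hc⟩ := h.exists_nonzero_dvd (mem_nonZeroDivisors_of_ne_zero h0)
  rw [Algebra.adjoin_range_eq_range_aeval] at hr
  obtain ⟨P, rfl⟩ := hr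
  have h2 : MvPolynomial.aeval (ρ ∘ x) P = 0 := by
    have : ρ (MvPolynomial.aeval x P) = 0 := by
      have hc' : MvPolynomial.aeval x P = s * c := hc
      rw [hc', map_mul, h1, zero_mul]
    rwa [MvPolynomial.comp_aeval_apply] at this
  have h3 : P = 0 := algebraicIndependent_iff.mp hx P h2
  subst h3
  exact r0 (Subtype.ext (map_zero _))

/-- A derivation of the residue field that kills the residues of the coordinates is zero. -/
theorem at_span {P : Pl L k} {C : Co L (n + 1)} {i : Fin (n + 1)} (h : C.At P.o i) (w : VF k)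
    (hw : ∀ j, w (P.π (C.z (i.succAbove j))) = 0) : w = 0 := by
  classical
  ext y
  by_contra hy
  obtain ⟨g, hg, rfl⟩ := P.surj y
  choose D hD using fun j => Pl.exists_Rs (P := P) (h.D_LV (i.succAbove_ne j))
  have hd : ∀ j l, D j (P.π (C.z (i.succAbove l))) = if j = l then 1 else 0 := fun j l => by
    rw [← (hD j).2 _ (h.z_F _), C.dual]
    by_cases hj : j = l
    · simp [hj, P.π_one]
    · simp [hj, P.π_zero]
  have h1 : AlgebraicIndependent ℂ fun j => P.π (C.z (i.succAbove j)) :=
    ind_of_der _ D (fun j => by simp [hd]) fun j l hl => by simp [hd, hl.symm]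
  have h2 := AlgebraicIndependent.option_iff.2 ⟨h1, tr_of_der w (by
    rintro _ ⟨j, rfl⟩
    exact hw j) hy⟩
  have h3 := ind_lift (rh P (oA P.o) fun _ h => h)
    (fun o : Option (Fin n) => o.elim ⟨g, hg⟩ fun j => ⟨_, h.z_F (i.succAbove j)⟩)
    (by
      refine (congrArg (fun y => AlgebraicIndependent ℂ y) (funext fun o => ?_)).mp h2
      cases o <;> rfl) ⟨_, h.z_F i⟩ (fun e => C.ne i (congrArg Subtype.val e))
    (P.π_F1 (Or.inr h.vz.ge))
  obtain ⟨δ, hδ⟩ := H59.TdX.exists_der L _ (h3.map' (f := (oA P.o).val) Subtype.val_injective)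
    fun o => if o = some none then 1 else 0
  have h4 : δ = 0 := C.span δ fun j => by
    induction j using Fin.succAboveCases i with
    | x => simpa using hδ none
    | p j => simpa using hδ (some (some j))
  simpa [h4] using hδ (some none)

theorem at_rsC {P : Pl L k} {C : Co L (n + 1)} {i : Fin (n + 1)} (h : C.At P.o i) :
    ∃ C' : Co k n, P.RsC C i C' := Pl.exists_RsC h (at_span h)

end Pool.Agent.MP_ee8c61_ag.M3BK
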