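import Pool.Agent.MP_ee8c61_ag.M3BK.Spec
import Pool.Agent.MP_ee8c61_ag.M3BK.FlK
import Pool.Agent.MP_ee8c61_ag.M3B1.Dvr
import Pool.Agent.MP_96693b_ag.DR.RLVal

/-! Flags at a regular point of a surface. -/

namespace Pool.Agent.MP_ee8c61_ag.M3BK

open M3 M3RESID Set
open Pool.Agent.MP_96693b_ag.RS (Loc IsCrd Chart)
open Pool.Agent.MP_96693b_ag

namespace RFl

variable {L k : Type} [Field L] [Algebra ℂ L] [Field k] [Algebra ℂ k] {n : ℕ}

section Gen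

variable {C : Co L n} {x : Loc L} {G G' : DV L} {i : Fin n}

theorem crd (h : Rg C x) : IsCrd x ⟨C.z, C.D⟩ := by
  refine ⟨le_antisymm (Submodule.span_le.2 ?_) fun g hg => ?_, h.st.D, C.dual⟩
  · rintro _ ⟨i, rfl⟩
    exact ⟨h.st.z i, h.ev i⟩
  · obtain ⟨c, h1, rfl⟩ := h.mx g hg.1 hg.2
    refine Submodule.sum_mem _ fun i _ => ?_
    rw [mul_comm]
    exact Submodule.smul_mem _ (⟨c i, h1 i⟩ : x.O) (Submodule.subset_span ⟨i, rfl⟩)

theorem prime (h : Rg C x) (i : Fin n) : Prime (⟨C.z i, h.st.z i⟩ : x.O) := by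
  have hI : ∀ f : x.O, (f : L) ∈ (⟨C.z, C.D⟩ : Chart L n).I x {i} ↔
      (⟨C.z i, h.st.z i⟩ : x.O) ∣ f := fun f => by
    rw [RS.Chart.I_singleton, RS.Loc.span, Submodule.mem_span_singleton]
    exact ⟨fun ⟨c, hc⟩ => ⟨c, Subtype.ext (hc.symm.trans (mul_comm _ _))⟩,
      fun ⟨c, hc⟩ => ⟨c, by rw [hc]; exact mul_comm _ _⟩⟩
  exact ⟨fun e => C.ne i (congrArg Subtype.val e),
    fun hu => RS.Loc.one_notMem_m ((crd h).I_le_m ((hI 1).2 hu.dvd)), fun f g hd =>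
    ((crd h).prime f.2 g.2 ((hI (f * g)).2 hd)).imp (hI f).1 (hI g).1⟩

/-- The order along a coordinate. -/
theorem ex_dat (h : Rg C x) (i : Fin n) : ∃ G, C.Dat x.O G i := by
  obtain ⟨G, hG⟩ := M3B1.rowDVR L x.O (C.z i) (h.st.z i) x.noeth h.fr (prime h i)
  exact ⟨G, Co.dat_of h.st hG.one h.fr hG.le fun g hg h1 => by
    rw [div_eq_mul_inv]
    exact hG.div g hg h1⟩

theorem loc (h : Rg C x) (hG : C.Dat x.O G i) {g : L} (hg : g ∈ G.F 0) :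
    ∃ s ∈ x.O, s ≠ 0 ∧ G.v s = 0 ∧ s * g ∈ x.O := by
  obtain ⟨s, hs, h0, h1, h2⟩ := (lz_oA hG.adp.vz h.fr hG.le hG.div).frac g hg
  exact ⟨s, hs, h0, ((M3B1.dv_un G).1 ⟨h0, hG.le s hs, h1⟩).2, h2⟩

theorem dat_le (h : Rg C x) (hG : C.Dat x.O G i) (hG' : C.Dat x.O G' i) : G.O ≤ G'.O :=
  fun g hg => by
  obtain ⟨s, hs, h0, h1, h2⟩ := loc h hG hg
  have h3 : G'.v s = 0 := by
    by_contra h3
    have h4 := (hG'.le s hs).resolve_left h0
    have := (hG.mul_z (hG'.div s hs (Or.inr (by omega)))).resolve_left h0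
    omega
  have := F_div (hG'.le _ h2) s
  rwa [h3, sub_zero, mul_div_cancel_left₀ _ h0] at this

theorem dat_uniq (h : Rg C x) (hG : C.Dat x.O G i) (hG' : C.Dat x.O G' i) : G = G' :=
  M3B1.dv_uniq (le_antisymm (dat_le h hG hG') (dat_le h hG' hG)) hG.adp.vz hG'.adp.vz

theorem ev_of_F (le : ∀ g ∈ x.O, g ∈ G.F 0) {g : L} (hg : g ∈ x.O) (h1 : g ∈ G.F 1) :
    x.ev g = 0 := by
  by_contra h0
  have := F_mul0' h1 (le _ (x.inv_mem g hg h0))
  rw [mul_inv_cancel₀ (RS.Loc.ne_zero_of_ev h0)] at this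
  have := this.resolve_left one_ne_zero
  rw [G.one] at this
  omega

end Gen

/-- A regular point on a coordinate divisor is a regular point of the divisor. -/
theorem res {P : Pl L k} {C : Co L (n + 1)} {x : Loc L} {i : Fin (n + 1)} (h : Rg C x)
    (hG : C.Dat x.O P.o i) : ∃ C' x', P.RsC C i C' ∧ Pr P x x' ∧ Rg C' x' := by
  obtain ⟨C', hC⟩ := at_rsC hG.adp
  obtain ⟨x', hx⟩ := Ins.exists_pr (P := P) (x := x) hG.le
  refine ⟨C', x', hC, hx, hC.st hG hx.2 h.st, fun j => ?_, fun y hy h0 => ?_, fun y => ?_⟩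
  · rw [hC j, hx.ev (h.st.z _), h.ev]
  · obtain ⟨g, hg, rfl⟩ := (hx.2 y).1 hy
    exact hC.mx hG hx.2 (h.mx g hg (by rwa [hx.ev hg] at h0))
  · obtain ⟨g, hg, rfl⟩ := P.surj y
    obtain ⟨s, hs, h0, h1, h2⟩ := loc h hG hg
    refine ⟨_, hx.mem hs, Pl.π_ne h0 h1, ?_⟩
    rw [← P.mul _ (hG.le s hs) _ hg]
    exact hx.mem h2

section One

variable {C : Co k 1} {x : Loc k} {U U' : DV k}

theorem one_div (h : Rg C x) {g : k} (hg : g ∈ x.O) (h0 : x.ev g = 0) : g / C.z 0 ∈ x.O := by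
  obtain ⟨p, hp, rfl⟩ := h.mx g hg h0
  rw [Fin.sum_univ_one, mul_div_cancel_left₀ _ (C.ne 0)]
  exact hp 0

theorem one_dat (h : Rg C x) (le : ∀ g ∈ x.O, g ∈ U.F 0) (un : U.v (C.z 0) = 1) :
    C.Dat x.O U 0 :=
  Co.dat_of h.st un h.fr le fun _ hg h1 => one_div h hg (ev_of_F le hg h1)

/-- A regular point of a curve is a valuation ring. -/
theorem one_O (h : Rg C x) (hU : C.Dat x.O U 0) {y : k} (hy : y ∈ U.F 0) : y ∈ x.O := by
  obtain ⟨s, hs, h0, h1, h2⟩ := loc h hU hy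
  have h3 : x.ev s ≠ 0 := fun e => by
    have := (hU.mul_z (one_div h hs e)).resolve_left h0
    omega
  have := mul_mem (x.inv_mem s hs h3) h2
  rwa [inv_mul_cancel_left₀ h0] at this

theorem one_uniq (h : Rg C x) (hU : C.Dat x.O U 0) (hn : Nrm U') (le : ∀ g ∈ x.O, g ∈ U'.F 0) :
    U' = U := by
  obtain ⟨p, hp⟩ := hn
  refine M3B1.dv_uniq (M3B1.dv_max U U'.O (fun y hy => le y (one_O h hU hy)) fun e => ?_) hp
    hU.adp.vz
  rcases (e ▸ ValuationSubring.mem_top _ : p⁻¹ ∈ U'.O) with h1 | h1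
  · rw [inv_eq_zero.1 h1, U'.zero] at hp
    omega
  · rw [U'.inv, hp] at h1
    omega

end One

theorem sa (i : Fin 2) : i.succAbove 0 = i.rev := by
  revert i
  decide

theorem rev_ne (i : Fin 2) : i.rev ≠ i := by
  revert i
  decide

end RFl

open RFl in
theorem rFl : SFL := by
  intro L _ _ C x i h
  have key : ∀ G, C.Dat x.O G i → ∃ U, Fl C x i G U := fun G hG => by
    obtain ⟨C', x', hC, hx, h'⟩ := res (P := G.pl) h hG
    obtain ⟨U, hU⟩ := ex_dat h' 0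
    refine ⟨U, hG, fun g hg => hU.le _ (hx.mem hg), ?_⟩
    rw [← sa, ← hC 0]
    exact hU.adp.vz
  refine ⟨?_, fun G G' => dat_uniq h, fun G hG => ?_, fun G U hF => ?_⟩
  · obtain ⟨G, hG⟩ := ex_dat h i
    exact ⟨G, key G hG⟩
  · obtain ⟨C', hC⟩ := at_rsC (P := G.pl) hG.adp
    refine ⟨⟨⟨_, hG.adp.vz⟩, hG.le, fun hd => hd.2 _ (h.st.z i.rev) (h.ev _)
      ((M3B1.dv_un G).2 ⟨C.ne _, hG.adp.vz' (rev_ne i)⟩)⟩, fun h2 => ?_, key G hG,
      hC.lift hG.adp, fun w w' d v e hd he hw hw' =>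
        sub_eq_zero.1 (Ex_one C' e (Pl.Res.uniq hC hG.adp hd he hw hw'))⟩
    have := h2.adp.vz
    rw [hG.adp.vz' (rev_ne i)] at this
    omega
  · obtain ⟨C', x', hC, hx, h'⟩ := res (P := G.pl) h hF.dat
    have le : ∀ y ∈ x'.O, y ∈ U.F 0 := fun y hy => by
      obtain ⟨g, hg, rfl⟩ := (hx.2 y).1 hy
      exact hF.le g hg
    have hU := one_dat h' le (by
      rw [hC 0, sa]
      exact hF.un)
    refine ⟨fun U' hn h1 _ => one_uniq h' hU hn fun y hy => ?_, fun g hg => ?_,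
      fun y hy => (hx.2 y).1 (one_O h' hU hy), fun d a e ha h0 he => ?_⟩
    · obtain ⟨g, hg, rfl⟩ := (hx.2 y).1 hy
      exact h1 g hg
    · rw [← hx.ev hg]
      exact ⟨ev_of_F le (hx.mem hg), fun e => hU.mul_z (one_div h' (hx.mem hg) e)⟩
    · have := hU.exp (hC.Ad hF.dat hx.2 (h0 ▸ hF.dat.exp ha) he ha)
      rwa [sa] at this

end Pool.Agent.MP_ee8c61_ag.M3BK
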