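import Pool.Agent.MP_ee8c61_ag.M3.Eu
import Pool.Agent.MP_ee8c61_ag.M3RESID.Res
import Pool.Agent.MP_96693b_ag.DR.RAff

/-! Points of a field that lie on a place, as points of the residue field. -/

namespace Pool.Agent.MP_ee8c61_ag.M3BK

open M3 M3RESID Set
open Pool.Agent.MP_96693b_ag.RS (Loc LocOf)
open Pool.Agent.MP_96693b_ag

noncomputable section

variable {L k : Type} [Field L] [Algebra ℂ L] [Field k] [Algebra ℂ k]

section Basic

theorem ev_adjoin {κ : Type} {y : κ → L} {x x' : Loc L} (h : RegOn y {x, x'})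
    (e : vl y x = vl y x') {g : L} (hg : g ∈ Algebra.adjoin ℂ (range y)) :
    g ∈ x.O ∧ g ∈ x'.O ∧ x.ev g = x'.ev g := by
  induction hg using Algebra.adjoin_induction with
  | mem g hg =>
    obtain ⟨i, rfl⟩ := hg
    exact ⟨h x (by simp) i, h x' (by simp) i, congrFun e i⟩
  | algebraMap r => exact ⟨x.O.algebraMap_mem r, x'.O.algebraMap_mem r, by
      rw [x.ev_alg, x'.ev_alg]⟩
  | add a b _ _ ha hb => exact ⟨add_mem ha.1 hb.1, add_mem ha.2.1 hb.2.1, by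
      rw [x.ev_add _ ha.1 _ hb.1, x'.ev_add _ ha.2.1 _ hb.2.1, ha.2.2, hb.2.2]⟩
  | mul a b _ _ ha hb => exact ⟨mul_mem ha.1 hb.1, mul_mem ha.2.1 hb.2.1, by
      rw [x.ev_mul _ ha.1 _ hb.1, x'.ev_mul _ ha.2.1 _ hb.2.1, ha.2.2, hb.2.2]⟩

theorem Af_reg {κ : Type} (y : κ → L) : RegOn y (Af y) := fun _ hx i =>
  hx.le (Algebra.subset_adjoin (mem_range_self i))

/-- The points of an affine variety are determined by their coordinates. -/
theorem Af_inj {κ : Type} (y : κ → L) : InjOn (vl y) (Af y) := fun x hx x' hx' e => by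
  have h : RegOn y {x, x'} := by
    rintro _ (rfl | rfl)
    · exact Af_reg y _ hx
    · exact Af_reg y _ hx'
  exact RS.Loc.ext' (le_antisymm
    (RS.LocOf.le_of_ev hx hx'.le fun g hg => (ev_adjoin h e hg).2.2.symm)
    (RS.LocOf.le_of_ev hx' hx.le fun g hg => (ev_adjoin h e hg).2.2))

theorem conP_empty : ConP (∅ : Set (Loc L)) := by
  have := ConP.pc (L := L) (Fin 0) (fun i => i.elim0) _ (H36.Con.zero 1)
  simpa using this

theorem chiP_empty {χ : H36.Chi} (h : ChiOK χ L) : chiP χ (∅ : Set (Loc L)) = 0 := by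
  have := h.add ∅ ∅ conP_empty conP_empty (by simp)
  rw [union_empty] at this
  omega

end Basic

variable (P : Pl L k)

/-- The point lies on the place. -/
def Ins (x : Loc L) : Prop := ∀ g ∈ x.O, g ∈ P.o.F 0

/-- `x'` is the point `x` of the place, seen in the residue field. -/
def Pr (x : Loc L) (x' : Loc k) : Prop := Ins P x ∧ P.RsO x.O x'.O

/-- The image of a set of points in the residue field. -/
def im (W : Set (Loc L)) : Set (Loc k) := {x' | ∃ x ∈ W, Pr P x x'}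

/-- The residue map on a subring of the valuation ring. -/
def rh (B : Subalgebra ℂ L) (h : ∀ g ∈ B, g ∈ P.o.F 0) : B →ₐ[ℂ] k where
  toFun g := P.π g
  map_one' := P.π_one
  map_mul' g g' := P.mul _ (h _ g.2) _ (h _ g'.2)
  map_zero' := P.π_zero
  map_add' g g' := P.add _ (h _ g.2) _ (h _ g'.2)
  commutes' c := P.π_cst c

variable {P}

theorem Ins.ev_zero {x : Loc L} (h : Ins P x) {g : L} (hg : g ∈ x.O) (e : P.π g = 0) :
    x.ev g = 0 := by
  by_contra h0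
  have h1 := P.mul _ (h _ hg) _ (h _ (x.inv_mem g hg h0))
  rw [mul_inv_cancel₀ (RS.Loc.ne_zero_of_ev h0), P.π_one, e, zero_mul] at h1
  exact one_ne_zero h1

theorem Ins.ev_eq {x : Loc L} (h : Ins P x) {g g' : L} (hg : g ∈ x.O) (hg' : g' ∈ x.O)
    (e : P.π g = P.π g') : x.ev g = x.ev g' := by
  have := h.ev_zero (sub_mem hg hg') (by rw [Pl.π_sub (h _ hg) (h _ hg'), e, sub_self])
  rwa [RS.Loc.ev_sub hg hg', sub_eq_zero] at this

theorem Ins.π_inv {x : Loc L} (h : Ins P x) {g : L} (hg : g ∈ x.O) (h0 : x.ev g ≠ 0) :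
    P.π g⁻¹ = (P.π g)⁻¹ := by
  have h1 := P.mul _ (h _ hg) _ (h _ (x.inv_mem g hg h0))
  rw [mul_inv_cancel₀ (RS.Loc.ne_zero_of_ev h0), P.π_one] at h1
  exact (eq_inv_of_mul_eq_one_right h1.symm)

open Classical in
theorem Ins.exists_pr {x : Loc L} (h : Ins P x) : ∃ x', Pr P x x' := by
  let ev : k → ℂ := fun z => if hz : ∃ g ∈ x.O, P.π g = z then x.ev hz.choose else 0
  have he : ∀ g ∈ x.O, ev (P.π g) = x.ev g := fun g hg => by
    have hz : ∃ g' ∈ x.O, P.π g' = P.π g := ⟨g, hg, rfl⟩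
    exact (dif_pos hz).trans (h.ev_eq hz.choose_spec.1 hg hz.choose_spec.2)
  have hm : ∀ z, z ∈ (rh P x.O h).range ↔ ∃ g ∈ x.O, P.π g = z := fun z =>
    ⟨fun ⟨g, hg⟩ => ⟨g, g.2, hg⟩, fun ⟨g, hg, e⟩ => ⟨⟨g, hg⟩, e⟩⟩
  refine ⟨⟨(rh P x.O h).range, ev, ?_, ?_, ?_, ?_, ?_, ?_⟩, h, hm⟩
  · intro f0 hf0 g0 hg0
    obtain ⟨f, hf, rfl⟩ := (hm f0).1 hf0
    obtain ⟨g, hg, rfl⟩ := (hm g0).1 hg0
    rw [← P.add _ (h _ hf) _ (h _ hg), he _ (add_mem hf hg), he _ hf, he _ hg, x.ev_add _ hf _ hg]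
  · intro f0 hf0 g0 hg0
    obtain ⟨f, hf, rfl⟩ := (hm f0).1 hf0
    obtain ⟨g, hg, rfl⟩ := (hm g0).1 hg0
    rw [← P.mul _ (h _ hf) _ (h _ hg), he _ (mul_mem hf hg), he _ hf, he _ hg, x.ev_mul _ hf _ hg]
  · intro r
    rw [← P.π_cst, he _ (x.O.algebraMap_mem r), x.ev_alg]
  · intro f hf
    exact dif_neg fun hz => hf ((hm f).2 hz)
  · intro f0 hf0 h0
    obtain ⟨f, hf, rfl⟩ := (hm f0).1 hf0
    rw [he _ hf] at h0
    exact (hm _).2 ⟨_, x.inv_mem f hf h0, h.π_inv hf h0⟩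
  · have := x.noeth
    exact isNoetherianRing_of_surjective x.O _ (rh P x.O h).rangeRestrict.toRingHom
      (rh P x.O h).rangeRestrict_surjective

theorem Pr.mem {x : Loc L} {x' : Loc k} (h : Pr P x x') {g : L} (hg : g ∈ x.O) : P.π g ∈ x'.O :=
  (h.2 _).2 ⟨g, hg, rfl⟩

theorem Pr.uniq {x : Loc L} {x' x'' : Loc k} (h : Pr P x x') (h' : Pr P x x'') : x' = x'' :=
  RS.Loc.ext' (SetLike.ext fun z => (h.2 z).trans (h'.2 z).symm)

theorem Pr.ev {x : Loc L} {x' : Loc k} (h : Pr P x x') {g : L} (hg : g ∈ x.O) :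
    x'.ev (P.π g) = x.ev g := by
  by_contra hne
  have h1 : g - algebraMap ℂ L (x'.ev (P.π g)) ∈ x.O := sub_mem hg (x.O.algebraMap_mem _)
  have h2 : x.ev (g - algebraMap ℂ L (x'.ev (P.π g))) ≠ 0 := by
    rw [RS.Loc.ev_sub hg (x.O.algebraMap_mem _), x.ev_alg]
    exact sub_ne_zero.2 (Ne.symm hne)
  have h3 := x'.ev_mul _ (h.mem h1) _ (h.mem (x.inv_mem _ h1 h2))
  rw [← P.mul _ (h.1 _ h1) _ (h.1 _ (x.inv_mem _ h1 h2)),
    mul_inv_cancel₀ (RS.Loc.ne_zero_of_ev h2), P.π_one, RS.Loc.ev_one,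
    Pl.π_sub (h.1 _ hg) (P.cst _).1, P.π_cst,
    RS.Loc.ev_sub (h.mem hg) (x'.O.algebraMap_mem _), x'.ev_alg, sub_self, zero_mul] at h3
  exact one_ne_zero h3

theorem Pr.vl {κ : Type} {y : κ → L} {x : Loc L} {x' : Loc k} (h : Pr P x x')
    (hy : ∀ i, y i ∈ x.O) : vl (fun i => P.π (y i)) x' = vl y x := funext fun i => h.ev (hy i)

theorem mem_adjoin_π {G : Set L} (hG : ∀ g ∈ Algebra.adjoin ℂ G, g ∈ P.o.F 0) {z : k} :
    z ∈ Algebra.adjoin ℂ (P.π '' G) ↔ ∃ g ∈ Algebra.adjoin ℂ G, P.π g = z := by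
  constructor
  · intro hz
    have : Algebra.adjoin ℂ (P.π '' G) ≤ (rh P _ hG).range := by
      refine Algebra.adjoin_le ?_
      rintro _ ⟨g, hg, rfl⟩
      exact ⟨⟨g, Algebra.subset_adjoin hg⟩, rfl⟩
    obtain ⟨g, hg⟩ := this hz
    exact ⟨g, g.2, hg⟩
  · rintro ⟨g, hg, rfl⟩
    induction hg using Algebra.adjoin_induction with
    | mem g hg => exact Algebra.subset_adjoin ⟨g, hg, rfl⟩
    | algebraMap r => rw [P.π_cst]; exact Subalgebra.algebraMap_mem _ r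
    | add a b ha hb ha' hb' => rw [P.add _ (hG _ ha) _ (hG _ hb)]; exact add_mem ha' hb'
    | mul a b ha hb ha' hb' => rw [P.mul _ (hG _ ha) _ (hG _ hb)]; exact mul_mem ha' hb'

/-- Localisation commutes with the passage to the residue field. -/
theorem Pr.locOf {x : Loc L} {x' : Loc k} (h : Pr P x x') {B : Subalgebra ℂ L}
    {B' : Subalgebra ℂ k} (hB : P.RsO B B') (hx : LocOf B x) : LocOf B' x' := by
  refine ⟨fun z hz => ?_, fun z hz => ?_⟩
  · obtain ⟨g, hg, rfl⟩ := (hB z).1 hz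
    exact h.mem (hx.le hg)
  · obtain ⟨f, hf, rfl⟩ := (h.2 z).1 hz
    obtain ⟨p, hp, q, hq, h0, e⟩ := hx.frac f hf
    refine ⟨_, (hB _).2 ⟨p, hp, rfl⟩, _, (hB _).2 ⟨q, hq, rfl⟩, ?_, ?_⟩
    · rwa [h.ev (hx.le hq)]
    · rw [← P.mul _ (h.1 _ hf) _ (h.1 _ (hx.le hq)), e]

theorem Pr.af {κ : Type} {y : κ → L} {x : Loc L} {x' : Loc k} (h : Pr P x x') (hx : x ∈ Af y) :
    x' ∈ Af fun i => P.π (y i) := by
  refine h.locOf (fun z => ?_) hx
  rw [show (range fun i => P.π (y i)) = P.π '' range y from range_comp P.π y]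
  exact mem_adjoin_π fun g hg => h.1 _ (hx.le hg)

/-- Points of the image of a finitely generated ring lift. -/
theorem exists_lift {B : Subalgebra ℂ L} (hB : B.FG) (hP : ∀ g ∈ B, g ∈ P.o.F 0)
    {B' : Subalgebra ℂ k} (hB' : P.RsO B B') {x' : Loc k} (hx : LocOf B' x') :
    ∃ x, LocOf B x ∧ Pr P x x' := by
  have hm : ∀ g ∈ B, P.π g ∈ x'.O := fun g hg => hx.le ((hB' _).2 ⟨g, hg, rfl⟩)
  obtain ⟨x, h1, h2⟩ := RS.exists_locOf hB
    { toFun := fun g => x'.ev (P.π g)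
      map_one' := by simp [P.π_one, RS.Loc.ev_one]
      map_mul' := fun g g' => by
        rw [← x'.ev_mul _ (hm _ g.2) _ (hm _ g'.2), ← P.mul _ (hP _ g.2) _ (hP _ g'.2)]
        rfl
      map_zero' := by simp [P.π_zero, RS.Loc.ev_zero]
      map_add' := fun g g' => by
        rw [← x'.ev_add _ (hm _ g.2) _ (hm _ g'.2), ← P.add _ (hP _ g.2) _ (hP _ g'.2)]
        rfl
      commutes' := fun r => by
        change x'.ev (P.π (algebraMap ℂ L r)) = r
        rw [P.π_cst, x'.ev_alg] }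
  have h3 : ∀ g ∈ B, x.ev g = x'.ev (P.π g) := fun g hg => h2 ⟨g, hg⟩
  have hI : Ins P x := fun f hf => by
    obtain ⟨p, hp, q, hq, h0, e⟩ := h1.frac f hf
    have q0 := RS.Loc.ne_zero_of_ev h0
    have hv : P.o.v q = 0 := by
      by_contra hv
      have h4 : q ∈ P.o.F 1 := Or.inr (by
        have := (hP q hq).resolve_left q0
        omega)
      rw [h3 q hq, P.π_F1 h4, RS.Loc.ev_zero] at h0
      exact h0 rfl
    rw [eq_div_of_mul_eq q0 e]
    simpa [hv] using F_div (hP p hp) q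
  obtain ⟨x'', h4⟩ := hI.exists_pr
  have h5 := h4.locOf hB' h1
  have h6 : ∀ z ∈ B', x'.ev z = x''.ev z := fun z hz => by
    obtain ⟨g, hg, rfl⟩ := (hB' z).1 hz
    rw [h4.ev (h1.le hg), h3 g hg]
  have : x'' = x' := RS.Loc.ext' (le_antisymm (h5.le_of_ev hx.le h6)
    (hx.le_of_ev h5.le fun z hz => (h6 z hz).symm))
  exact ⟨x, h1, this ▸ h4⟩

/-- Two points of one chart with the same image are equal. -/
theorem Pr.inj {B : Subalgebra ℂ L} {x₁ x₂ : Loc L} {x' : Loc k} (h₁ : Pr P x₁ x')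
    (h₂ : Pr P x₂ x') (l₁ : LocOf B x₁) (l₂ : LocOf B x₂) : x₁ = x₂ := by
  have h : ∀ g ∈ B, x₁.ev g = x₂.ev g := fun g hg => by
    rw [← h₁.ev (l₁.le hg), h₂.ev (l₂.le hg)]
  exact RS.Loc.ext' (le_antisymm (l₁.le_of_ev l₂.le fun g hg => (h g hg).symm)
    (l₂.le_of_ev l₁.le h))

theorem im_union (W W' : Set (Loc L)) : im P (W ∪ W') = im P W ∪ im P W' := by
  ext x'
  simp only [im, mem_setOf_eq, mem_union, or_and_right, exists_or]

theorem im_mono {W W' : Set (Loc L)} (h : W ⊆ W') : im P W ⊆ im P W' :=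
  fun _ ⟨x, hx, e⟩ => ⟨x, h hx, e⟩

theorem transfer_af {χ : H36.Chi} (c1 : ConOK L) (e1 : ChiOK χ L) (e2 : ChiOK χ k) {κ : Type}
    [Finite κ] {y : κ → L} {V : Set (Loc L)} (hV : ConP V) (hy : V ⊆ Af y)
    (hI : ∀ x ∈ V, Ins P x) : ConP (im P V) ∧ chiP χ (im P V) = chiP χ V := by
  have hr : RegOn y V := fun x hx => Af_reg y x (hy hx)
  have e : im P V = Af (fun i => P.π (y i)) ∩ vl (fun i => P.π (y i)) ⁻¹' (vl y '' V) := by
    ext x'
    constructor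
    · rintro ⟨x, hx, h⟩
      exact ⟨h.af (hy hx), x, hx, (h.vl (hr x hx)).symm⟩
    · rintro ⟨h1, x, hx, h2⟩
      obtain ⟨x'', h⟩ := (hI x hx).exists_pr
      have : x'' = x' := Af_inj _ (h.af (hy hx)) h1 ((h.vl (hr x hx)).trans h2)
      exact ⟨x, hx, this ▸ h⟩
  have hc : ConP (im P V) := e ▸ ConP.pc κ _ _ (c1.img V κ y hV hr)
  have hs : im P V ⊆ Af fun i => P.π (y i) := e ▸ inter_subset_left
  refine ⟨hc, ?_⟩
  rw [e2.crd _ κ _ hc (fun x hx => Af_reg _ x (hs hx)) ((Af_inj _).mono hs),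
    e1.crd _ κ y hV hr ((Af_inj y).mono hy)]
  congr 1
  ext c
  constructor
  · rintro ⟨x', ⟨x, hx, h⟩, rfl⟩
    exact ⟨x, hx, (h.vl (hr x hx)).symm⟩
  · rintro ⟨x, hx, rfl⟩
    obtain ⟨x', h⟩ := (hI x hx).exists_pr
    exact ⟨x', ⟨x, hx, h⟩, h.vl (hr x hx)⟩

/-- The Euler characteristic can be computed in the residue field. -/
theorem transfer {χ : H36.Chi} (c1 : ConOK L) (e1 : ChiOK χ L) (e2 : ChiOK χ k)
    {V : Set (Loc L)} (hV : ConP V) (hI : ∀ x ∈ V, Ins P x)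
    (hj : ∀ x₁ ∈ V, ∀ x₂ ∈ V, ∀ x', Pr P x₁ x' → Pr P x₂ x' → x₁ = x₂) :
    ConP (im P V) ∧ chiP χ (im P V) = chiP χ V := by
  have key : ∀ W : Set (Loc L), ConP W → ∀ U ⊆ W, U ⊆ V → ConP U →
      ConP (im P U) ∧ chiP χ (im P U) = chiP χ U := by
    intro W hW
    induction hW with
    | pc κ y S hS =>
      exact fun U h1 h2 h3 => transfer_af c1 e1 e2 h3 (h1.trans inter_subset_left)
        fun x hx => hI x (h2 hx)
    | @union W W' hW hW' ih ih' =>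
      intro U h1 h2 h3
      have k1 := c1.inter U W h3 hW
      have k2 := c1.diff U W h3 hW
      obtain ⟨a1, a2⟩ := ih (U ∩ W) inter_subset_right (inter_subset_left.trans h2) k1
      obtain ⟨b1, b2⟩ := ih' (U \ W) (fun x hx => (h1 hx.1).resolve_left hx.2)
        (diff_subset.trans h2) k2
      have hd : Disjoint (im P (U ∩ W)) (im P (U \ W)) := by
        rw [Set.disjoint_left]
        rintro x' ⟨x₁, g1, g2⟩ ⟨x₂, g3, g4⟩
        exact g3.2 (hj x₁ (h2 g1.1) x₂ (h2 g3.1) x' g2 g4 ▸ g1.2)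
      have e : U = U ∩ W ∪ U \ W := (inter_union_diff U W).symm
      rw [e, im_union, e2.add _ _ a1 b1 hd, e1.add _ _ k1 k2 (disjoint_sdiff_self_right.mono_left
        inter_subset_right), a2, b2]
      exact ⟨a1.union b1, rfl⟩
  exact key V hV V Subset.rfl Subset.rfl hV

end

end Pool.Agent.MP_ee8c61_ag.M3BK
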