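import Pool.Agent.MP_ee8c61_ag.M3BK.Spec
import Pool.Agent.MP_ee8c61_ag.M3BK.Tr
import Pool.Agent.MP_ee8c61_ag.H36.BasicE

/-!
Constructible sets of points and constructible functions.
-/

namespace Pool.Agent.MP_ee8c61_ag.M3BK

open M3 M3RESID Set
open Pool.Agent.MP_96693b_ag.RS (Loc LocOf)
open Pool.Agent.MP_96693b_ag

noncomputable section

namespace RIntA

variable {L : Type} [Field L] [Algebra ℂ L] {W W' : Set (Loc L)}

theorem cast (h : ConP W) (e : ∀ x, x ∈ W' ↔ x ∈ W) : ConP W' := (Set.ext e : W' = W) ▸ h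

theorem exAf (hW : ConP W) {x : Loc L} (hx : x ∈ W) :
    ∃ (κ : Type) (_ : Finite κ) (y : κ → L), x ∈ Af y := by
  induction hW with
  | pc κ y S _ => exact ⟨κ, inferInstance, y, hx.1⟩
  | union _ _ a b => exact hx.elim a b

theorem conPt {κ : Type} [Finite κ] (v : κ → ℂ) : H36.Con {v} :=
  (H36.Con.all fun k => H36.Con.zero (MvPolynomial.X k - MvPolynomial.C (v k))).of_iff fun x => by
    simp [funext_iff, sub_eq_zero]

theorem finU {α : Type} {A : Set α} (hA : A.Finite) {Z : α → Set (Loc L)}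
    (h : ∀ a ∈ A, ConP (Z a)) : ConP (⋃ a ∈ A, Z a) := by
  induction A, hA using Set.Finite.induction_on with
  | empty => simpa using conP_empty
  | insert _ _ ih =>
    rw [biUnion_insert]
    exact (h _ (mem_insert _ _)).union (ih fun a ha => h a (mem_insert_of_mem _ ha))

theorem finI (c : ConOK L) {κ : Type} [Finite κ] {p : κ → Loc L → Prop} (hW : ConP W)
    (h : ∀ k, ConP {P ∈ W | p k P}) : ConP {P ∈ W | ∀ k, p k P} :=
  cast (c.diff _ _ hW (finU finite_univ fun k _ => c.diff _ _ hW (h k))) fun x => by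
    simp only [mem_setOf_eq, mem_diff, mem_iUnion, mem_univ, exists_const, not_exists, not_and,
      not_not]
    exact ⟨fun q => ⟨q.1, fun k _ => by simp [q.1, q.2 k]⟩,
      fun q => ⟨q.1, fun k => by simpa [q.1] using q.2 k⟩⟩

theorem cvAf (c : ConOK L) {κ : Type} [Finite κ] {y : κ → L} (hW : ConP W) (hy : W ⊆ Af y)
    (V : ValuationSubring L) : ConP {P ∈ W | Le P V} := by
  by_cases hB : ∀ g ∈ Algebra.adjoin ℂ (range y), g ∈ V
  swap
  · exact cast conP_empty fun P =>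
      ⟨fun q => hB fun g hg => q.2 g ((hy q.1).le hg), fun q => q.elim⟩
  have : Algebra.FiniteType ℂ (Algebra.adjoin ℂ (range y)) :=
    ⟨(Subalgebra.fg_top _).2 (Subalgebra.fg_def.2 ⟨_, finite_range y, rfl⟩)⟩
  have := Algebra.FiniteType.isNoetherianRing ℂ (Algebra.adjoin ℂ (range y))
  let I : Ideal (Algebra.adjoin ℂ (range y)) :=
    { carrier := {g | ¬Un V g}
      add_mem' := fun {a b} => not_un_add (hB _ a.2) (hB _ b.2)
      zero_mem' := not_un_zero
      smul_mem' := fun a b => not_un_mul (hB _ a.2) (hB _ b.2) }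
  obtain ⟨T, hT⟩ : I.FG := IsNoetherian.noetherian I
  refine cast (c.pre W T (fun t => (t.1 : L)) {0} hW (fun P hP t => (hy hP).le t.1.2) (conPt 0))
    fun P => and_congr_right fun hP => ⟨fun q => funext fun t => ?_, fun q f hf => ?_⟩
  · by_contra h0
    have : t.1 ∈ I := hT ▸ Ideal.subset_span t.2
    exact this ⟨RS.Loc.ne_zero_of_ev h0, hB _ t.1.2, q _ (P.inv_mem _ ((hy hP).le t.1.2) h0)⟩
  · have h : ∀ g ∈ I, P.ev g = 0 := fun g hg => by
      rw [← hT] at hg
      induction hg using Submodule.span_induction with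
      | mem g hg => exact congrFun q ⟨g, hg⟩
      | zero => exact RS.Loc.ev_zero
      | add a b _ _ ha hb =>
        rw [Subalgebra.coe_add, P.ev_add _ ((hy hP).le a.2) _ ((hy hP).le b.2), ha, hb, add_zero]
      | smul a b _ hb =>
        rw [smul_eq_mul, Subalgebra.coe_mul, P.ev_mul _ ((hy hP).le a.2) _ ((hy hP).le b.2), hb,
          mul_zero]
    obtain ⟨p, hp, s, hs, h0, e⟩ := (hy hP).frac f hf
    exact (not_not.1 fun u => h0 (h ⟨s, hs⟩ u) : Un V s).mem_iff.1 (e ▸ hB p hp)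

theorem map (c : ConOK L) {F F' F'' : Type} (φ : F → F' → F'') {w : Loc L → F}
    {w' : Loc L → F'} (h : Cf W w) (h' : Cf W w') : Cf W fun x => φ (w x) (w' x) := by
  refine ⟨(h.fin.image2 φ h'.fin).subset ?_, fun a => ?_⟩
  · rintro _ ⟨x, hx, rfl⟩
    exact ⟨_, ⟨x, hx, rfl⟩, _, ⟨x, hx, rfl⟩, rfl⟩
  · refine cast (finU ((h.fin.prod h'.fin).subset (sep_subset _ fun p => φ p.1 p.2 = a))
      fun p _ => c.inter _ _ (h.con p.1) (h'.con p.2)) fun x => ?_
    rw [mem_iUnion₂]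
    refine ⟨fun q => ⟨(w x, w' x), ⟨⟨⟨x, q.1, rfl⟩, x, q.1, rfl⟩, q.2⟩, ⟨q.1, rfl⟩, q.1, rfl⟩, ?_⟩
    rintro ⟨⟨_, _⟩, ⟨-, q⟩, ⟨hx, rfl⟩, -, rfl⟩
    exact ⟨hx, q⟩

end RIntA

open RIntA in
theorem rIntA : OfINTA := by
  intro hc hx χ L _ _ hχ
  have c := hc L
  have e := hx χ L hχ.1
  refine ⟨conP_empty, fun W x hW hx => ?_, fun W W' x hW hx hW' => ?_, fun W V hW => ?_,
    fun F W w h => ?_, fun F W W' w h hW' s => ⟨h.fin.subset (image_mono s), fun a => ?_⟩,
    fun F W w w' q h => ⟨q.image_eq ▸ h.fin, fun a => ?_⟩, fun F W w a hW h => ⟨?_, fun a' => ?_⟩,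
    fun F W W' w h h' => ⟨?_, fun a => ?_⟩, fun F F' F'' φ W w w' => map c φ,
    fun F Λ _ X₀ S φ => ?_⟩
  · obtain ⟨κ, _, y, hy⟩ := exAf hW hx
    have h : ConP {x} := cast (ConP.pc κ y _ (conPt (vl y x))) fun P =>
      ⟨fun q => by rw [mem_singleton_iff.1 q]; exact ⟨hy, rfl⟩, fun q => Af_inj y q.1 hy q.2⟩
    refine ⟨h, ?_⟩
    rw [e.crd {x} (Fin 0) (fun i => i.elim0) h (fun _ _ i => i.elim0) (injOn_singleton _ _),
      ← hχ.2]
    congr 1
    exact eq_univ_of_forall fun v => ⟨x, rfl, Subsingleton.elim _ _⟩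
  · obtain ⟨κ, _, y, hy⟩ := exAf hW hx
    refine cast (c.pre _ κ y _ (finI c hW' fun k => c.reg W' (y k) hW') (fun P q => q.2)
      (conPt (vl y x))) fun P => ⟨fun q => ⟨⟨q.1, fun k => q.2 (Af_reg y x hy k)⟩,
        funext fun k => RS.Loc.ev_eq_of_le q.2 (Af_reg y x hy k)⟩, fun q => ⟨q.1.1, ?_⟩⟩
    have r : RegOn y {P, x} := by
      rintro _ (rfl | rfl)
      · exact q.1.2
      · exact Af_reg y _ hy
    exact RS.LocOf.le_of_ev hy (fun g hg => (ev_adjoin r q.2 hg).1)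
      fun g hg => (ev_adjoin r q.2 hg).2.2
  · induction hW with
    | pc κ y S hS => exact cvAf c (ConP.pc κ y S hS) inter_subset_left V
    | union _ _ a b => exact cast (a.union b) fun P => or_and_right
  · refine cast (finU h.fin fun a _ => h.con a) fun x => ?_
    rw [mem_iUnion₂]
    exact ⟨fun q => ⟨w x, ⟨x, q, rfl⟩, q, rfl⟩, fun ⟨_, _, q⟩ => q.1⟩
  · exact cast (c.inter _ _ hW' (h.con a)) fun x =>
      ⟨fun q => ⟨q.1, s q.1, q.2⟩, fun q => ⟨q.1, q.2.2⟩⟩
  · exact cast (h.con a) fun x => and_congr_right fun hx => by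
      rw [mem_preimage, mem_preimage, q hx]
  · exact (finite_singleton a).subset (by rintro _ ⟨x, hx, rfl⟩; exact h x hx)
  · by_cases q : a = a'
    · exact cast hW fun x => ⟨And.left, fun hx => ⟨hx, (h x hx).trans q⟩⟩
    · exact cast conP_empty fun x => ⟨fun r => q ((h x r.1).symm.trans r.2), fun r => r.elim⟩
  · rw [image_union]
    exact h.fin.union h'.fin
  · rw [union_inter_distrib_right]
    exact (h.con a).union (h'.con a)
  · have h : Cf S.X fun x => {j | ∃ i, S.lab x i = some j} := ⟨toFinite _, fun A => by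
      refine cast (finI c (p := fun j x => (∃ i, S.lab x i = some j) ↔ j ∈ A) S.con fun j => ?_)
        fun x => and_congr_right fun _ => Set.ext_iff
      by_cases q : j ∈ A
      · exact cast (S.str j) fun x => by simp [q]
      · exact cast (c.diff _ _ S.con (S.str j)) fun x =>
          ⟨fun r => ⟨r.1, fun t => q (r.2.1 t.2)⟩,
            fun r => ⟨r.1, fun t => (r.2 ⟨r.1, t⟩).elim, fun t => (q t).elim⟩⟩⟩
    exact map c (fun a _ => φ a) h h

end

end Pool.Agent.MP_ee8c61_ag.M3BK
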