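import Pool.Agent.MP_ee8c61_ag.M3BK.Spec

/-!
The calculus of integrals against the Euler characteristic.
-/

namespace Pool.Agent.MP_ee8c61_ag.M3BK

open M3 Set
open Pool.Agent.MP_96693b_ag.RS (Loc)

namespace RIntB

variable {χ : H36.Chi} {L : Type} [Field L] [Algebra ℂ L] {F : Type} [AddCommGroup F]

theorem chi0 (A : IntA χ L) (K : ChiOK χ L) : chiP χ (∅ : Set (Loc L)) = 0 := by
  have := K.add ∅ ∅ A.emp A.emp (disjoint_empty _)
  rw [union_self] at this
  omega

theorem chiU (A : IntA χ L) (K : ChiOK χ L) {ι : Type} (s : Finset ι) (W : ι → Set (Loc L))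
    (h : ∀ i ∈ s, ConP (W i)) (d : ∀ i ∈ s, ∀ j ∈ s, i ≠ j → Disjoint (W i) (W j)) :
    ConP (⋃ i ∈ s, W i) ∧ chiP χ (⋃ i ∈ s, W i) = ∑ i ∈ s, chiP χ (W i) := by
  classical
  induction s using Finset.induction_on with
  | empty => simpa using ⟨A.emp, chi0 A K⟩
  | insert i s hi ih =>
    have m := Finset.mem_insert_self i s
    obtain ⟨a, b⟩ := ih (fun j hj => h j (Finset.mem_insert_of_mem hj)) fun j hj l hl =>
      d j (Finset.mem_insert_of_mem hj) l (Finset.mem_insert_of_mem hl)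
    rw [Finset.set_biUnion_insert, Finset.sum_insert hi, ← b]
    exact ⟨.union (h i m) a, K.add _ _ (h i m) a (disjoint_iUnion₂_right.2 fun j hj =>
      d i m j (Finset.mem_insert_of_mem hj) fun e => hi (e ▸ hj))⟩

theorem itg_eq (A : IntA χ L) (K : ChiOK χ L) {W : Set (Loc L)} {w : Loc L → F} {T : Finset F}
    (hT : ∀ x ∈ W, w x ∈ T) : Itg χ W w = ∑ c ∈ T, chiP χ (W ∩ w ⁻¹' {c}) • c := by
  refine finsum_eq_sum_of_support_subset _ fun c hc => by_contra fun q => hc ?_
  have e : W ∩ w ⁻¹' {c} = ∅ := eq_empty_of_forall_notMem fun x hx =>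
    q (mem_singleton_iff.1 hx.2 ▸ hT x hx.1)
  simp only [e, chi0 A K, zero_smul]

/-- Additivity over the fibres of a map. -/
theorem key (A : IntA χ L) (K : ChiOK χ L) {G : Type} {W : Set (Loc L)} {w : Loc L → G}
    (h : Cf W w) (φ : G → F) {T : Finset G} (hT : ∀ x ∈ W, w x ∈ T) :
    Itg χ W (fun x => φ (w x)) = ∑ c ∈ T, chiP χ (W ∩ w ⁻¹' {c}) • φ c := by
  classical
  rw [itg_eq A K (T := T.image φ) fun x hx => Finset.mem_image_of_mem φ (hT x hx),
    ← Finset.sum_fiberwise_of_maps_to (g := φ) (t := T.image φ)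
      fun c hc => Finset.mem_image_of_mem φ hc]
  refine Finset.sum_congr rfl fun e _ => ?_
  have e1 : W ∩ (fun x => φ (w x)) ⁻¹' {e} = ⋃ c ∈ T.filter (φ · = e), W ∩ w ⁻¹' {c} := by
    ext x
    simp only [mem_inter_iff, mem_preimage, mem_singleton_iff, mem_iUnion, Finset.mem_filter]
    exact ⟨fun q => ⟨w x, ⟨hT x q.1, q.2⟩, q.1, rfl⟩, fun ⟨c, q1, q2⟩ => ⟨q2.1, q2.2 ▸ q1.2⟩⟩
  rw [e1, (chiU A K _ _ (fun c _ => h.con c) fun c _ c' _ q =>
    disjoint_left.2 fun x a b => q (a.2.symm.trans b.2)).2, Finset.sum_smul]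
  exact Finset.sum_congr rfl fun c hc => by rw [(Finset.mem_filter.1 hc).2]

theorem exT {G : Type} {W : Set (Loc L)} {w : Loc L → G} (h : Cf W w) :
    ∃ T : Finset G, ∀ x ∈ W, w x ∈ T :=
  ⟨h.fin.toFinset, fun _ hx => h.fin.mem_toFinset.2 (mem_image_of_mem w hx)⟩

theorem cst (A : IntA χ L) (K : ChiOK χ L) {W : Set (Loc L)} {w : Loc L → F} {c : F}
    (h : ∀ x ∈ W, w x = c) : Itg χ W w = chiP χ W • c := by
  rw [itg_eq A K (T := {c}) fun x hx => Finset.mem_singleton.2 (h x hx), Finset.sum_singleton,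
    inter_eq_left.2 (show W ⊆ w ⁻¹' {c} from h)]

theorem union (A : IntA χ L) (K : ChiOK χ L) {W W' : Set (Loc L)} {w : Loc L → F} (h : Cf W w)
    (h' : Cf W' w) (d : Disjoint W W') : Itg χ (W ∪ W') w = Itg χ W w + Itg χ W' w := by
  obtain ⟨T, hT⟩ := exT (A.union F W W' w h h')
  rw [itg_eq A K hT, itg_eq A K fun x hx => hT x (.inl hx), itg_eq A K fun x hx => hT x (.inr hx),
    ← Finset.sum_add_distrib]
  refine Finset.sum_congr rfl fun c _ => ?_
  rw [union_inter_distrib_right, K.add _ _ (h.con c) (h'.con c)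
    (d.mono inter_subset_left inter_subset_left), add_smul]

theorem sum (A : IntA χ L) (K : ChiOK χ L) {ι : Type} (s : Finset ι) (W : ι → Set (Loc L))
    (w : Loc L → F) (h : ∀ i ∈ s, Cf (W i) w)
    (d : ∀ i ∈ s, ∀ j ∈ s, i ≠ j → Disjoint (W i) (W j)) :
    Cf (⋃ i ∈ s, W i) w ∧ Itg χ (⋃ i ∈ s, W i) w = ∑ i ∈ s, Itg χ (W i) w := by
  classical
  induction s using Finset.induction_on with
  | empty =>
    have a : ∀ x ∈ (∅ : Set (Loc L)), w x = 0 := fun _ q => q.elim
    simpa using ⟨A.cst F ∅ w 0 A.emp a, (cst A K a).trans (smul_zero _)⟩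
  | insert i s hi ih =>
    have m := Finset.mem_insert_self i s
    obtain ⟨a, b⟩ := ih (fun j hj => h j (Finset.mem_insert_of_mem hj)) fun j hj l hl =>
      d j (Finset.mem_insert_of_mem hj) l (Finset.mem_insert_of_mem hl)
    rw [Finset.set_biUnion_insert, Finset.sum_insert hi, ← b]
    exact ⟨A.union F _ _ w (h i m) a, union A K (h i m) a (disjoint_iUnion₂_right.2 fun j hj =>
      d i m j (Finset.mem_insert_of_mem hj) fun e => hi (e ▸ hj))⟩

theorem supp (C : ConOK L) (A : IntA χ L) (K : ChiOK χ L) {W : Set (Loc L)} {w : Loc L → F}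
    (hW : ConP W) (h : (W ∩ Function.support w).Finite) :
    Cf W w ∧ Itg χ W w = ∑ᶠ x ∈ W, w x := by
  have m : ∀ x ∈ h.toFinset, x ∈ W := fun x hx => (h.mem_toFinset.1 hx).1
  have c : ∀ x, ∀ y ∈ ({x} : Set (Loc L)), w y = w x := fun x y q => by rw [mem_singleton_iff.1 q]
  obtain ⟨a, b⟩ := sum A K h.toFinset (fun x => {x}) w
    (fun x hx => A.cst F _ w _ (A.pt W x hW (m x hx)).1 (c x))
    fun x _ y _ q => disjoint_singleton.2 q
  have e : (⋃ x ∈ h.toFinset, ({x} : Set (Loc L))) = W ∩ Function.support w := by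
    ext x
    simp
  rw [e] at a b
  have z : ∀ x ∈ W \ (W ∩ Function.support w), w x = 0 := fun x hx =>
    by_contra fun q => hx.2 ⟨hx.1, q⟩
  have a' := A.cst F _ w 0 (C.diff _ _ hW (A.con F _ w a)) z
  have u := union A K a a' disjoint_sdiff_right
  have a2 := A.union F _ _ w a a'
  rw [union_sdiff_cancel inter_subset_left] at u a2
  refine ⟨a2, ?_⟩
  rw [u, b, cst A K z, smul_zero, add_zero, finsum_mem_eq_sum w h]
  exact Finset.sum_congr rfl fun x hx => by
    rw [cst A K (c x), (A.pt W x hW (m x hx)).2, one_smul]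

end RIntB

open RIntB

theorem rIntB : OfINTB := by
  intro hC hK hA χ L _ _ F _ hχ
  have A := hA χ L hχ
  have K := hK χ L hχ.1
  refine ⟨fun W w w' e => ?_, fun W w c _ h => cst A K h, fun W W' w => union A K,
    fun ι s W w => sum A K s W w, fun W w w' h h' => ?_, fun F' _ φ W w h => ?_,
    fun W w => supp (hC L) A K⟩
  · refine finsum_congr fun c => ?_
    have q : W ∩ w ⁻¹' {c} = W ∩ w' ⁻¹' {c} := Set.ext fun x => and_congr_right fun hx => by
      rw [mem_preimage, mem_preimage, e hx]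
    rw [q]
  · have p := A.map F F (F × F) Prod.mk W w w' h h'
    obtain ⟨T, hT⟩ := exT p
    rw [key A K p (fun c => c.1 + c.2) hT, (key A K p Prod.fst hT :), (key A K p Prod.snd hT :),
      ← Finset.sum_add_distrib]
    exact Finset.sum_congr rfl fun c _ => smul_add _ _ _
  · obtain ⟨T, hT⟩ := exT h
    rw [key A K h φ hT, itg_eq A K hT, map_sum]
    exact Finset.sum_congr rfl fun c _ => (map_zsmul φ _ _).symm

end Pool.Agent.MP_ee8c61_ag.M3BK
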