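import Pool.Agent.MP_ee8c61_ag.M3BK.Spec

/-!
The constant term of the perturbed weight.
-/

namespace Pool.Agent.MP_ee8c61_ag.M3BK

open PowerSeries

noncomputable section

/-- The power series `a + m X`. -/
def lauP (a : ℂ) (m : ℤ) : ℂ⟦X⟧ := C a + (m : ℂ⟦X⟧) * X

theorem lauP_zero (a : ℂ) (m : ℤ) : constantCoeff (lauP a m) = a := by
  simp [lauP]

theorem lauP_mul_inv {a : ℂ} (ha : a ≠ 0) (m : ℤ) : lauP a m * (lauP a m)⁻¹ = 1 :=
  PowerSeries.mul_inv_cancel _ (by rw [lauP_zero]; exact ha)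

theorem lauP_inv_zero (a : ℂ) (m : ℤ) : coeff 0 (lauP a m)⁻¹ = a⁻¹ := by
  rw [coeff_zero_eq_constantCoeff_apply, constantCoeff_inv, lauP_zero]

theorem lauP_inv_one {a : ℂ} (ha : a ≠ 0) (m : ℤ) : coeff 1 (lauP a m)⁻¹ = -(m : ℂ) / a ^ 2 := by
  have h0 := lauP_inv_zero a m
  have h := lauP_mul_inv ha m
  generalize (lauP a m)⁻¹ = q at h0 h ⊢
  have h1 := congrArg (coeff 1) h
  have hm : (m : ℂ⟦X⟧) = C (m : ℂ) := (map_intCast (C : ℂ →+* ℂ⟦X⟧) m).symm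
  rw [lauP, hm, add_mul, mul_assoc, map_add, coeff_C_mul, coeff_C_mul, coeff_succ_X_mul, h0,
    coeff_one, if_neg one_ne_zero] at h1
  field_simp at h1 ⊢
  linear_combination h1

/-- The embedding of power series into Laurent series. -/
def lauE : ℂ⟦X⟧ →+* HahnSeries ℤ ℂ := HahnSeries.ofPowerSeries ℤ ℂ

theorem lauE_coeff (q : ℂ⟦X⟧) (n : ℕ) : (lauE q).coeff (n : ℤ) = coeff n q :=
  HahnSeries.ofPowerSeries_apply_coeff q n

theorem lauE_inv {a : ℂ} (ha : a ≠ 0) (m : ℤ) : (lauE (lauP a m))⁻¹ = lauE (lauP a m)⁻¹ := by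
  refine inv_eq_of_mul_eq_one_right ?_
  rw [← map_mul, lauP_mul_inv ha, map_one]

theorem lauE_inv0 {m : ℤ} (hm : m ≠ 0) :
    (lauE (lauP 0 m))⁻¹ = HahnSeries.single (-1) (m : ℂ)⁻¹ := by
  refine inv_eq_of_mul_eq_one_right ?_
  have hm' : (m : ℂ) ≠ 0 := Int.cast_ne_zero.2 hm
  have hc : (m : ℂ⟦X⟧) = C (m : ℂ) := (map_intCast (C : ℂ →+* ℂ⟦X⟧) m).symm
  rw [lauP, map_zero, zero_add, hc, map_mul, lauE, HahnSeries.ofPowerSeries_C,
    HahnSeries.ofPowerSeries_X, HahnSeries.C_apply, HahnSeries.single_mul_single,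
    HahnSeries.single_mul_single, mul_one, mul_inv_cancel₀ hm', zero_add, add_neg_cancel]
  rfl

theorem lauE_pole {a : ℂ} (ha : a ≠ 0) {m : ℤ} (hm : m ≠ 0) (m' : ℤ) :
    ((lauE (lauP 0 m))⁻¹ * (lauE (lauP a m'))⁻¹).coeff 0 = -(m' : ℂ) / (m * a ^ 2) := by
  have hm' : (m : ℂ) ≠ 0 := Int.cast_ne_zero.2 hm
  have h := HahnSeries.coeff_single_mul_add (r := (m : ℂ)⁻¹) (x := lauE (lauP a m')⁻¹)
    (a := ((1 : ℕ) : ℤ)) (b := (-1 : ℤ))
  rw [lauE_coeff, lauP_inv_one ha, Nat.cast_one, add_neg_cancel] at h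
  rw [lauE_inv0 hm, lauE_inv ha, h]
  field_simp

theorem rLau : SLAU := by
  let A : Algebra ℂ (HahnSeries ℤ ℂ) := (lauE.comp (C : ℂ →+* ℂ⟦X⟧)).toAlgebra
  have hal : ∀ (a : ℂ) (m : ℤ), @al (HahnSeries ℤ ℂ) _ A (lauE X) a m = lauE (lauP a m) := by
    intro a m
    rw [lauP, map_add, map_mul, map_intCast]
    rfl
  refine ⟨HahnSeries ℤ ℂ, inferInstance, A, lauE X, HahnSeries.coeff.addMonoidHom 0, ?_, ?_, ?_⟩
  · intro a m h h0
    rw [hal] at h0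
    have h1 : lauP a m = 0 := HahnSeries.ofPowerSeries_injective (h0.trans (map_zero lauE).symm)
    have hc : (m : ℂ⟦X⟧) = C (m : ℂ) := (map_intCast (C : ℂ →+* ℂ⟦X⟧) m).symm
    rcases h with h | h
    · exact h (by rw [← lauP_zero a m, h1, map_zero])
    · have h2 := congrArg (coeff 1) h1
      rw [lauP, hc, map_add, coeff_C_mul, coeff_one_X, mul_one, coeff_C, if_neg one_ne_zero,
        zero_add, map_zero] at h2
      exact h (Int.cast_eq_zero.1 h2)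
  · intro a m h0 h1
    change (@wt (HahnSeries ℤ ℂ) _ A (lauE X) a m).coeff 0 = _
    rw [wt, hal, hal, lauE_inv h0, lauE_inv h1, ← map_mul]
    have h := lauE_coeff ((lauP (a 0) (m 0))⁻¹ * (lauP (a 1) (m 1))⁻¹) 0
    rw [Nat.cast_zero] at h
    rw [h, coeff_zero_eq_constantCoeff_apply, map_mul, constantCoeff_inv, constantCoeff_inv,
      lauP_zero, lauP_zero, mul_inv]
  · intro a m i h0 hm h1
    change (@wt (HahnSeries ℤ ℂ) _ A (lauE X) a m).coeff 0 = _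
    rw [wt, hal, hal]
    fin_cases i
    · have h0' : a 0 = 0 := h0
      rw [h0']
      exact lauE_pole h1 hm _
    · have h0' : a 1 = 0 := h0
      rw [h0', mul_comm]
      exact lauE_pole h1 hm _

end

end Pool.Agent.MP_ee8c61_ag.M3BK
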