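import Pool.Agent.MP_ee8c61_ag.M3BK.M0E

/-! The ruled model. -/

namespace Pool.Agent.MP_ee8c61_ag.M3BK

open WithZero Set Polynomial
open Pool.Agent.MP_cce4c9_lc
open H87 hiding Dv
open M3 M3H47 M3RESID
open Pool.Agent.MP_96693b_ag.RS

noncomputable section

variable {L : Type} [Field L] [Algebra ℂ L] {K : IntermediateField ℂ L} {y s : L} {X0 X1 : VF L}

theorem Fb_disj (hK : IsFF ℂ K) {T T' : Set (Place ℂ K)} (h : Disjoint T T') :
    Disjoint (Fb y T) (Fb y T') := by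
  rw [disjoint_left]
  rintro P ⟨t, ht, o, p⟩ ⟨t', ht', o', p'⟩
  exact disjoint_left.1 h ht (p.ab.uniq hK p'.ab ▸ ht')

theorem Fb_int {χ : H36.Chi} {F : Type} [AddCommGroup F] (hE : H36.IsEuler χ) (hC : ConOK L)
    (hX : ChiOK χ L) (hA : IntA χ L) (hB : IntB χ L F) (hK : IsFF ℂ K) (R : Rl K y)
    (R' : Rl K y⁻¹) {T : Set (Place ℂ K)} (hT : Tᶜ.Finite) {φ : Loc L → F}
    {A α : Place ℂ K → F} {A₀ α₀ : F} (hf : {t | A t ≠ A₀ ∨ α t ≠ α₀}.Finite)
    (h0 : ∀ t ∈ T, ∀ P, IsP t y 0 P → φ P = α t)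
    (h1 : ∀ t ∈ T, ∀ P c, c ≠ 0 → IsP t y c P → φ P = A t)
    (h2 : ∀ t ∈ T, ∀ P, IsP t y⁻¹ 0 P → φ P = -α t) : Cf (Fb y T) φ ∧ Itg χ (Fb y T) φ = 0 := by
  obtain ⟨u, hu⟩ := hK.exists_nonconst
  have hS := ((poles_fin hK u).union hf).inter_of_right T
  set S := T ∩ ({t | u ∉ Ot t} ∪ {t | A t ≠ A₀ ∨ α t ≠ α₀}) with hS'
  have hg : ∀ t ∈ T \ S, u ∈ Ot t ∧ A t = A₀ ∧ α t = α₀ := fun t ht => by
    have := ht.2
    simp only [hS', mem_inter_iff, ht.1, true_and, mem_union, mem_setOf_eq, not_or,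
      not_not] at this
    exact this
  obtain ⟨n, h, Z, G⟩ := exists_gs hK hu (T := T \ S) (fun t ht => (hg t ht).1)
    (Or.inr ((hT.union hS).subset fun t ht => by
      by_cases h : t ∈ T
      · exact Or.inr (by_contra fun h' => ht.2 ⟨h, h'⟩)
      · exact Or.inl h))
  have g1 := G.int hK hE hC hX hA hB R R' (φ := φ) (A := A₀) (α := α₀)
    (fun t ht P p => (h0 t ht.1 P p).trans (hg t ht).2.2)
    (fun t ht P c hc p => (h1 t ht.1 P c hc p).trans (hg t ht).2.1)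
    (fun t ht P p => (h2 t ht.1 P p).trans (congrArg _ (hg t ht).2.2))
  have g2 : ∀ t ∈ hS.toFinset, Cf (Fb y {t}) φ ∧ Itg χ (Fb y {t}) φ = 0 := fun t ht => by
    have ht' := (hS.mem_toFinset.1 ht).1
    obtain ⟨n, h, Z, G⟩ := exists_gs hK (un_nc t) (T := {t}) (fun t' ht' => ht' ▸ un_mem t)
      (Or.inl (finite_singleton t))
    exact G.int hK hE hC hX hA hB R R' (A := A t) (α := α t) (fun t' e => e ▸ h0 t ht')
      (fun t' e => e ▸ h1 t ht') (fun t' e => e ▸ h2 t ht')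
  have g3 := hB.sum _ hS.toFinset (fun t => Fb y {t}) φ (fun t ht => (g2 t ht).1)
    fun t _ t' _ hn => Fb_disj hK (disjoint_singleton.2 hn)
  have e1 : ⋃ t ∈ hS.toFinset, Fb y {t} = Fb y S := by
    ext P
    simp only [mem_iUnion, hS.mem_toFinset, Fb, mem_setOf_eq, mem_singleton_iff, exists_eq_left,
      exists_prop]
  have e2 : Fb y T = Fb y (T \ S) ∪ Fb y S := by
    ext P
    constructor
    · rintro ⟨t, ht, p⟩
      by_cases h : t ∈ S
      · exact Or.inr ⟨t, h, p⟩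
      · exact Or.inl ⟨t, ⟨ht, h⟩, p⟩
    · rintro (⟨t, ht, p⟩ | ⟨t, ht, p⟩) <;> exact ⟨t, ht.1, p⟩
  rw [e1, Finset.sum_eq_zero fun t ht => (g2 t ht).2] at g3
  rw [e2]
  exact ⟨hA.union F _ _ φ g1.1 g3.1, by
    rw [hB.union _ _ φ g1.1 g3.1 (Fb_disj hK disjoint_sdiff_left), g1.2, g3.2, add_zero]⟩

/-- The order of the fibre coordinate. -/
def ee (o : Option ℂ) : ℤ := o.elim (-1) fun c => if c = 0 then 1 else 0

theorem mn_aux {X : VF L} {o : Option ℂ} (R : Ru K (ww y o) s X X1) (hy : y ≠ 0) {t : Place ℂ K}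
    {P : Loc L} (p : IsP t (ww y o) (cc o) P) {h : K} (hh : h ≠ 0) (k : ℕ) :
    P.ev (y * h ^ k / (R.co t (cc o)).mon ![k * t.ord h, ee o]) ≠ 0 := by
  have h1 := val_unit t hh
  have h2 := p.ab.le _ h1.le
  have h3 : P.ev ((h / un t ^ t.ord h : K) : L) ≠ 0 :=
    p.ev _ h1.le ▸ (H7.res R.ff t).ev_ne_zero h1
  have h4 : ((un t ^ t.ord h : K) : L) = (un t : L) ^ t.ord h := map_zpow₀ K.val _ _
  have h5 : y / (ww y o - algebraMap ℂ L (cc o)) ^ ee o ∈ P.O ∧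
      P.ev (y / (ww y o - algebraMap ℂ L (cc o)) ^ ee o) ≠ 0 := by
    rcases o with _ | c
    · simp [ww, cc, ee, hy, Loc.ev_one]
    · by_cases hc : c = 0
      · simp [ww, cc, ee, hy, hc, Loc.ev_one]
      · simpa [ww, cc, ee, hc] using ⟨p.w_mem, fun e => hc (p.evw.symm.trans e)⟩
  have e : y * h ^ k / (R.co t (cc o)).mon ![k * t.ord h, ee o] =
      y / (ww y o - algebraMap ℂ L (cc o)) ^ ee o * ((h / un t ^ t.ord h : K) : L) ^ k := by
    rw [IntermediateField.coe_div, h4, div_pow, ← zpow_natCast ((un t : L) ^ _), ← zpow_mul,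
      mul_comm (t.ord h), div_mul_div_comm, mul_comm (_ ^ ee o)]
    simp [Co.mon, R.co_z0, R.co_z1]
  rw [e, P.ev_mul _ h5.1 _ (pow_mem h2 k), Loc.ev_pow h2]
  exact mul_ne_zero h5.2 (pow_ne_zero _ h3)

theorem rM0 : OfM0 := by
  intro hC hX hA hB hN χ L _ _ C d v b X₀ hχ hS hf hst
  obtain ⟨K, y, s, X0, X1, v', g, q, H, R, R', V, hg, hex, hv, hv', hX₀⟩ := exists_ru hS hst
  have hK := R.ff
  have hy := R.rl.y_ne
  have := (H7.ll ℂ K hK).2.2.2
  obtain ⟨h, hh, hh'⟩ := H7.apx_ord (R.ex0_fin q H).toFinset fun _ => 1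
  have hsp : ∀ t : Place ℂ K, t.ord h = 0 → ex0 R.dK q H t = 1 := fun t ht => by
    by_contra hn
    rw [hh' t ((Finite.mem_toFinset _).2 hn)] at ht
    exact one_ne_zero ht
  set X₁ : Set K := (↑) ⁻¹' X₀ with hX₁
  have hf₁ : X₁.Finite := hf.preimage Subtype.val_injective.injOn
  set T : Set (Place ℂ K) := {t | ∀ f ∈ X₁, f ∈ Ot t} with hT
  have hTc : Tᶜ.Finite := (hf₁.biUnion fun f _ => poles_fin hK f).subset fun t ht => by
    simpa [hT] using ht
  have RR : ∀ o : Option ℂ, Ru K (ww y o) s (o.elim (-X0) fun _ => X0) X1 := fun o => by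
    rcases o with _ | c
    exacts [R', R]
  have VV : ∀ o : Option ℂ, Vol d (o.elim (-X0) fun _ => X0) X1 (o.elim (-g) fun _ => g) q H :=
    fun o => by
      rcases o with _ | c
      exacts [V.neg, V]
  have hd : ∀ P ∈ Fb y T, ∃ t ∈ T, ∃ o, IsP t (ww y o) (cc o) P := fun P hP => hP
  choose! t ht o p using hd
  have hu : ∀ t' ∈ T, ∀ o' P, IsP t' (ww y o') (cc o') P → t P = t' ∧ o P = o' :=
    fun t' ht' o' P p' => by
      obtain ⟨W, hW⟩ := (hN L).1 P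
      exact sep_data hK hy (p P ⟨t', ht', o', p'⟩) p' hW hW.1
  let a : Loc L → Fin 2 → ℂ := fun P =>
    ![ex0 R.dK q H (t P), if cc (o P) = 0 then (o P).elim (-g) fun _ => g else 1]
  have hint : ∀ (F : Type) [Field F] [Algebra ℂ F] (ε : F) (k : ℕ),
      Cf (Fb y T) (fun x => wt ε (a x) ![k * (t x).ord h, ee (o x)]) ∧
        Itg χ (Fb y T) (fun x => wt ε (a x) ![k * (t x).ord h, ee (o x)]) = 0 := by
    intro F _ _ ε k
    refine Fb_int hχ.1 (hC L) (hX χ L hχ.1) (hA χ L hχ) (hB χ L F hχ) hK R.rl R'.rl hTc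
      (A := fun t => (al ε (ex0 R.dK q H t) (k * t.ord h))⁻¹ * (al ε 1 0)⁻¹)
      (α := fun t => (al ε (ex0 R.dK q H t) (k * t.ord h))⁻¹ * (al ε g 1)⁻¹)
      (A₀ := (al ε 1 0)⁻¹ * (al ε 1 0)⁻¹) (α₀ := (al ε 1 0)⁻¹ * (al ε g 1)⁻¹)
      ((H7.fins hK h).subset fun t ht => fun e => ?_) (fun t' ht' P p' => ?_)
      (fun t' ht' P c hc p' => ?_) (fun t' ht' P p' => ?_)
    · simp [e, hsp t e] at ht
    · obtain ⟨e1, e2⟩ := hu t' ht' (some 0) P p'
      simp [wt, a, e1, e2, cc, ee]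
    · obtain ⟨e1, e2⟩ := hu t' ht' (some c) P p'
      simp [wt, a, e1, e2, cc, ee, hc]
    · obtain ⟨e1, e2⟩ := hu t' ht' none P p'
      have : al ε (-g) (-1) = -al ε g 1 := by simp [al]; ring
      simp [wt, a, e1, e2, cc, ee, this]
  have hσ : (⟨s, R.ad.t0⟩ : K) ∉ range (algebraMap ℂ K) := by
    rintro ⟨c, hc⟩
    have := R.dK_s
    rw [← hc] at this
    simp at this
  refine ⟨{
    S := {
      X := Fb y T
      C := fun P => (RR (o P)).co (t P) (cc (o P))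
      con := (hA χ L hχ).con _ _ _ (hint ℂ 0 0).1
      rg := fun P hP => (RR (o P)).rg (p P hP)
      base := fun P hP c hc => (p P hP).ab.le ⟨c, hX₀ c hc⟩ (ht P hP _ hc)
      prop := fun W h1 h2 => Fb_prop hK h1 hf₁ fun f hf => h2 f hf
      sep := fun W x hx x' hx' h1 h2 => ?_ }
    y := y
    h := h
    u := s
    g := g
    v' := v'
    a := a
    o := fun P => (t P).ord h
    e := fun P => ee (o P)
    g0 := hg
    y0 := hy
    h0 := fun e => hh (Subtype.ext e)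
    u0 := fun e => hσ ⟨0, Subtype.ext (by simp [e])⟩
    ex := hex
    vy := hv
    vh := hv' _ h.2
    vt := fun P _ => hv' _ (un (t P)).2
    gp := fun k P hP => ⟨(RR (o P)).rg (p P hP), (RR (o P)).adp (p P hP) (VV (o P)),
      mn_aux (RR (o P)) hy (p P hP) hh k⟩
    kind := fun P _ => ?_
    sp := fun P _ e => hsp _ e
    fib := fun P hP G hG => ?_
    dom := fun C' x hr h1 h2 h3 => ?_
    int := hint }⟩
  · obtain ⟨e1, e2⟩ := sep_data hK hy (p x hx) (p x' hx') h1 h2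
    exact (p x hx).uniq (e1 ▸ e2 ▸ p x' hx')
  · simp only [Ru.co_z1, a]
    rcases o P with _ | c
    · simp [ww, cc, ee]
    · by_cases hc : c = 0
      · simp [ww, cc, ee, hc]
      · exact Or.inr (Or.inr ⟨c, hc, by simp [ww, cc, ee, hc]⟩)
  · have h1 := (RR (o P)).fib_v (p P hP) hG
    have h2 := (RR (o P)).fib_top (p P hP) hG
    refine and_assoc.1 ⟨?_, fun c hc => ⟨_,
      ((RR (o P)).fib_π (p P hP) hG (f := ⟨c, hX₀ c hc⟩) (ht P hP _ hc)).symm⟩⟩
    generalize o P = o' at h1 h2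
    rcases o' with _ | c
    · have h3 : G.v y = 0 := by
        rw [ww, Option.elim_none, G.inv] at h1
        omega
      refine ⟨h3, eq_top_iff.2 (h2.ge.trans ?_)⟩
      rw [IntermediateField.adjoin_simple_le_iff, ww, Option.elim_none, ← zpow_neg_one,
        Pl.π_zpow (P := G.pl) hy h3]
      exact zpow_mem (IntermediateField.mem_adjoin_simple_self _ _) _
    · exact ⟨h1, h2⟩
  · rcases h3 with h3 | h3
    · exact Fb_dom hK R.rl R'.rl hσ ((hN L).2 C' x hr) (fun f hf => h1 f hf) h2 h3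
    · exact Fb_dom hK R.rl R'.rl (inv_nc hσ) ((hN L).2 C' x hr) (fun f hf => h1 f hf) h2 h3

end

end Pool.Agent.MP_ee8c61_ag.M3BK
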