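import Pool.Agent.MP_ee8c61_ag.M3BK.Spec
import Pool.Agent.MP_ee8c61_ag.M3S.RUFD

/-!
A regular local ring of dimension two is the intersection of the valuation rings dominating it.
-/

namespace Pool.Agent.MP_ee8c61_ag.M3BK

open M3 M3RESID Set
open Pool.Agent.MP_96693b_ag.RS (Loc IsCrd)

namespace RNrm

variable {L : Type} [Field L] [Algebra ℂ L]

theorem unit_iff (x : Loc L) (f : x.O.toSubring) : IsUnit f ↔ x.ev f ≠ 0 := by
  constructor
  · intro h hf
    obtain ⟨g, hg⟩ := isUnit_iff_exists_inv.1 h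
    have h1 := x.ev_mul _ f.2 _ g.2
    have h2 : (f : L) * g = 1 := congrArg Subtype.val hg
    rw [hf, zero_mul, h2, Loc.ev_one] at h1
    exact one_ne_zero h1
  · intro hf
    exact isUnit_iff_exists_inv.2 ⟨⟨_, x.inv_mem _ f.2 hf⟩,
      Subtype.ext (mul_inv_cancel₀ (Loc.ne_zero_of_ev hf))⟩

theorem isLocal (x : Loc L) : IsLocalRing x.O.toSubring :=
  IsLocalRing.of_isUnit_or_isUnit_one_sub_self fun f => by
    rw [unit_iff, unit_iff]
    by_cases hf : x.ev f = 0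
    · refine Or.inr ?_
      show x.ev (1 - f) ≠ 0
      rw [Loc.ev_sub (one_mem _) f.2, hf, Loc.ev_one, sub_zero]
      exact one_ne_zero
    · exact Or.inl hf

/-- The local ring as a local subring. -/
def ls (x : Loc L) : LocalSubring L := @LocalSubring.mk _ _ x.O.toSubring (isLocal x)

theorem dm {x : Loc L} {V : ValuationSubring L} (h : ls x ≤ V.toLocalSubring) : Dm x V := by
  refine ⟨fun g hg => h.1 hg, fun g hg h0 hu => ?_⟩
  have h1 : IsUnit (Subring.inclusion h.1 ⟨g, hg⟩) :=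
    isUnit_iff_exists_inv.2 ⟨⟨g⁻¹, hu.2.2⟩, Subtype.ext (mul_inv_cancel₀ hu.1)⟩
  exact (unit_iff x ⟨g, hg⟩).1 (h.2.1 _ h1) h0

theorem crd {n : ℕ} {C : Co L n} {x : Loc L} (h : Rg C x) : IsCrd x ⟨C.z, C.D⟩ where
  span := le_antisymm (Loc.span_le.2 (by rintro _ ⟨i, rfl⟩; exact ⟨h.st.z i, h.ev i⟩))
    fun g hg => by
      obtain ⟨c, hc, rfl⟩ := h.mx g hg.1 hg.2
      exact sum_mem fun i _ => Loc.mul_mem_right (hc i) (Loc.subset_span ⟨i, rfl⟩)
  pres := h.st.D
  dual := C.dual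

theorem closed {C : Co L 2} {x : Loc L} (h : Rg C x) : IsIntegrallyClosedIn x.O.toSubring L := by
  have h1 := (M3S.rowUFD L x _ (crd h)).1
  have h2 : IsFractionRing x.O L := IsFractionRing.of_field x.O L fun g => by
    obtain ⟨s, hs, h0, hg⟩ := h.fr g
    exact ⟨⟨_, hg⟩, ⟨s, hs⟩, (mul_div_cancel_left₀ g h0).symm⟩
  refine Subring.isIntegrallyClosedIn_iff.2 fun g hg => ?_
  obtain ⟨y, rfl⟩ := (IsIntegrallyClosed.isIntegral_iff (R := x.O) (K := L)).1 hg
  exact y.2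

end RNrm

theorem rNrm : SNRM := by
  intro L _ _
  refine ⟨fun x => ?_, fun C x h g hg => by_contra fun hn => ?_⟩
  · obtain ⟨V, hV⟩ := (RNrm.ls x).exists_le_valuationSubring
    exact ⟨V, RNrm.dm hV⟩
  · have : IsIntegrallyClosedIn (RNrm.ls x).toSubring L := RNrm.closed h
    obtain ⟨V, h1, h2⟩ :=
      LocalSubring.exists_le_valuationSubring_of_isIntegrallyClosedIn (R := RNrm.ls x) hn
    exact h2 (hg V (RNrm.dm h1))

end Pool.Agent.MP_ee8c61_ag.M3BK
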