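import Pool.Agent.MP_ee8c61_ag.M3BK.Spec
import Pool.Agent.MP_ee8c61_ag.M3RESID.Val

/-!
The places of the projective line.
-/

namespace Pool.Agent.MP_ee8c61_ag.M3BK

open M3 M3RESID Set Polynomial

namespace RP1

variable {k : Type} [Field k] [Algebra ℂ k] {σ : k} {θ : VF k}

theorem ne0 (h : P1 σ θ) {p : ℂ[X]} (hp : p ≠ 0) : aeval σ p ≠ 0 :=
  (map_ne_zero_iff _ (transcendental_iff_injective.1 h.tr)).2 hp

theorem lin (σ : k) (c : ℂ) : aeval σ (X - C c) = σ - algebraMap ℂ k c := by simp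

theorem lin_ne (h : P1 σ θ) (c : ℂ) : σ - algebraMap ℂ k c ≠ 0 :=
  lin σ c ▸ ne0 h (X_sub_C_ne_zero c)

theorem frac (h : P1 σ θ) (t : k) :
    ∃ p q : ℂ[X], t ≠ 0 → p ≠ 0 ∧ q ≠ 0 ∧ t = aeval σ p / aeval σ q := by
  obtain ⟨p, q, e⟩ := (IntermediateField.mem_adjoin_simple_iff ℂ t).1
    (h.gen ▸ IntermediateField.mem_top : t ∈ IntermediateField.adjoin ℂ {σ})
  exact ⟨p, q, fun h0 => ⟨fun e1 => h0 (by rw [e, e1, map_zero, zero_div]),
    fun e1 => h0 (by rw [e, e1, map_zero, div_zero]), e⟩⟩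

/-- The multiplicative group is generated by the constants and the linear polynomials. -/
theorem ind (h : P1 σ θ) {P : k → Prop} (h0 : ∀ a : ℂ, a ≠ 0 → P (algebraMap ℂ k a))
    (h1 : ∀ c : ℂ, P (σ - algebraMap ℂ k c))
    (hm : ∀ s t, s ≠ 0 → t ≠ 0 → P s → P t → P (s * t)) (hi : ∀ t, t ≠ 0 → P t → P t⁻¹) :
    ∀ t, t ≠ 0 → P t := by
  have hp : ∀ p : ℂ[X], p ≠ 0 → P (aeval σ p) := fun p hp => by
    have key : ∀ s : Multiset ℂ,
        P (aeval σ (C p.leadingCoeff * (s.map fun a => X - C a).prod)) := fun s => by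
      induction s using Multiset.induction_on with
      | empty => simpa using h0 _ (leadingCoeff_ne_zero.2 hp)
      | cons a s ih =>
        rw [Multiset.map_cons, Multiset.prod_cons, mul_left_comm, map_mul, lin]
        exact hm _ _ (lin_ne h a) (ne0 h (mul_ne_zero (C_ne_zero.2 (leadingCoeff_ne_zero.2 hp))
          (monic_multisetProd_X_sub_C s).ne_zero)) (h1 a) ih
    have := key p.roots
    rwa [C_leadingCoeff_mul_prod_multiset_X_sub_C IsAlgClosed.card_roots_eq_natDegree] at this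
  intro t ht
  obtain ⟨p, q, e⟩ := frac h t
  obtain ⟨a, b, e⟩ := e ht
  rw [e, div_eq_mul_inv]
  exact hm _ _ (ne0 h a) (inv_ne_zero (ne0 h b)) (hp p a) (hi _ (ne0 h b) (hp q b))

/-- Extension of a valuation from the polynomials. -/
theorem exists_dv (h : P1 σ θ) (w : ℂ[X] → ℤ)
    (hm : ∀ p q, p ≠ 0 → q ≠ 0 → w (p * q) = w p + w q)
    (ha : ∀ p q, p ≠ 0 → q ≠ 0 → p + q ≠ 0 → min (w p) (w q) ≤ w (p + q)) :
    ∃ U : DV k, ∀ p, p ≠ 0 → U.v (aeval σ p) = w p := by
  classical
  choose n d hs using frac h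
  obtain ⟨v, hv⟩ : ∃ v : k → ℤ, v = fun t => if t = 0 then 0 else w (n t) - w (d t) := ⟨_, rfl⟩
  have key : ∀ p q, p ≠ 0 → q ≠ 0 → v (aeval σ p / aeval σ q) = w p - w q := fun p q hp hq => by
    have h0 := div_ne_zero (ne0 h hp) (ne0 h hq)
    obtain ⟨a, b, e⟩ := hs _ h0
    rw [div_eq_div_iff (ne0 h hq) (ne0 h b), ← map_mul, ← map_mul] at e
    have e' := congrArg w (transcendental_iff_injective.1 h.tr e)
    rw [hm _ _ hp b, hm _ _ a hq] at e'
    simp only [hv, if_neg h0]
    omega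
  refine ⟨⟨v, by simp [hv], fun s t hs0 ht0 => ?_, fun s t hs0 ht0 h0 => ?_⟩, fun p hp => ?_⟩
  · obtain ⟨a, b, e⟩ := hs s hs0
    obtain ⟨a', b', e'⟩ := hs t ht0
    rw [e, e', div_mul_div_comm, ← map_mul, ← map_mul, key _ _ a b, key _ _ a' b',
      key _ _ (mul_ne_zero a a') (mul_ne_zero b b'), hm _ _ a a', hm _ _ b b']
    ring
  · obtain ⟨a, b, e⟩ := hs s hs0
    obtain ⟨a', b', e'⟩ := hs t ht0
    have e2 : s + t = aeval σ (n s * d t + d s * n t) / aeval σ (d s * d t) := by
      rw [map_add, map_mul, map_mul, map_mul, ← div_add_div _ _ (ne0 h b) (ne0 h b'), ← e, ← e']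
    have h1 : n s * d t + d s * n t ≠ 0 := fun z => h0 (by rw [e2, z, map_zero, zero_div])
    have h2 := ha _ _ (mul_ne_zero a b') (mul_ne_zero b a') h1
    have h3 := key _ _ a b
    have h4 := key _ _ a' b'
    rw [← e] at h3
    rw [← e'] at h4
    rw [e2, key _ _ h1 (mul_ne_zero b b'), hm _ _ b b', h3, h4]
    rw [hm _ _ a b', hm _ _ b a'] at h2
    omega
  · have h1 := hm 1 1 one_ne_zero one_ne_zero
    have h2 := key p 1 hp one_ne_zero
    rw [map_one, div_one] at h2
    rw [mul_one] at h1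
    change v _ = _
    omega

open Classical in
/-- The value of the place `c` at a linear polynomial. -/
noncomputable def val : Option ℂ → ℂ → ℤ
  | none, _ => -1
  | some c, c' => if c = c' then 1 else 0

theorem exists_U (h : P1 σ θ) (c : Option ℂ) :
    ∃ U : DV k, ∀ c', U.v (σ - algebraMap ℂ k c') = val c c' := by
  rcases c with _ | c
  · obtain ⟨U, hU⟩ := exists_dv h (fun p => -(p.natDegree : ℤ))
      (fun p q hp hq => by rw [natDegree_mul hp hq]; push_cast; ring) fun p q _ _ _ => by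
        have := natDegree_add_le p q
        omega
    exact ⟨U, fun c' => by rw [← lin, hU _ (X_sub_C_ne_zero c'), natDegree_X_sub_C]; rfl⟩
  · obtain ⟨U, hU⟩ := exists_dv h (fun p => (p.rootMultiplicity c : ℤ))
      (fun p q hp hq => by rw [rootMultiplicity_mul (mul_ne_zero hp hq)]; push_cast; ring)
      fun p q _ _ h0 => by
        have := rootMultiplicity_add c h0
        omega
    refine ⟨U, fun c' => ?_⟩
    rw [← lin, hU _ (X_sub_C_ne_zero c'), rootMultiplicity_X_sub_C, val]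
    split_ifs <;> rfl

omit [Algebra ℂ k] in
theorem dv_ext {U U' : DV k} (h : ∀ t, U.v t = U'.v t) : U = U' := by
  obtain ⟨v, _, _, _⟩ := U
  obtain ⟨v', _, _, _⟩ := U'
  obtain rfl : v = v' := funext h
  rfl

theorem eq_of_scale (h : P1 σ θ) {U U' : DV k} (hU : Nrm U') {n : ℤ} (hn : 0 ≤ n)
    (hv : ∀ c, U'.v (σ - algebraMap ℂ k c) = n * U.v (σ - algebraMap ℂ k c)) : U' = U := by
  have key : ∀ t, U'.v t = n * U.v t := fun t => by
    by_cases h0 : t = 0
    · rw [h0, U.zero, U'.zero, mul_zero]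
    refine ind h (P := fun t => U'.v t = n * U.v t) (fun a _ => ?_) hv (fun s t a b c d => ?_)
      (fun t _ c => ?_) t h0
    · rw [v_cst, v_cst, mul_zero]
    · rw [U.mul _ _ a b, U'.mul _ _ a b, c, d, mul_add]
    · rw [U.inv, U'.inv, c, mul_neg]
  obtain ⟨π, hπ⟩ := hU
  obtain rfl : n = 1 := Int.eq_one_of_mul_eq_one_right hn ((key π).symm.trans hπ)
  exact dv_ext fun t => by rw [key, one_mul]

/-- The classification of the places. -/
theorem classify (h : P1 σ θ) {U : Option ℂ → DV k}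
    (hU : ∀ c c', (U c).v (σ - algebraMap ℂ k c') = val c c') {U' : DV k} (hN : Nrm U') :
    ∃ c, U c = U' := by
  have h0 : σ ≠ 0 := by simpa using lin_ne h 0
  by_cases h1 : U'.v σ < 0
  · refine ⟨none, (eq_of_scale h hN (n := -U'.v σ) (by omega) fun c => ?_).symm⟩
    rw [hU, (U'.eq_of_sub (h := σ - algebraMap ℂ k c) h0 rfl ?_).2, val]
    · ring
    · rw [sub_sub_cancel_left]
      exact neg_mem (U'.F_anti (by omega) (cst_F U' c))
  have h2 : ∀ c, 0 ≤ U'.v (σ - algebraMap ℂ k c) := fun c =>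
    (sub_mem (Or.inr (not_lt.1 h1) : σ ∈ U'.F 0) (cst_F U' c)).resolve_left (lin_ne h c)
  by_cases h3 : ∃ c, 0 < U'.v (σ - algebraMap ℂ k c)
  · obtain ⟨c, hc⟩ := h3
    refine ⟨some c, (eq_of_scale h hN hc.le fun c' => ?_).symm⟩
    rw [hU, val]
    split_ifs with e
    · rw [e, mul_one]
    · rw [mul_zero]
      refine le_antisymm (not_lt.1 fun h4 => e (sub_eq_zero.1 (cst_F1 (o := U') ?_))) (h2 c')
      have := sub_mem (U'.mem_F.2 (Or.inr h4) : σ - algebraMap ℂ k c' ∈ U'.F 1)
        (U'.mem_F.2 (Or.inr hc) : σ - algebraMap ℂ k c ∈ U'.F 1)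
      rwa [sub_sub_sub_cancel_left, ← map_sub] at this
  · push Not at h3
    have h4 : U' = U none := eq_of_scale h hN le_rfl fun c => by
      rw [zero_mul]
      exact le_antisymm (h3 c) (h2 c)
    exact ⟨none, h4.symm⟩

/-- The residue field. -/
theorem resid (h : P1 σ θ) {U : DV k} {π : k} (hπ : U.v π = 1)
    (hc : ∀ c, ∃ r : ℂ, r ≠ 0 ∧ (σ - algebraMap ℂ k c) / π ^ U.v (σ - algebraMap ℂ k c) -
      algebraMap ℂ k r ∈ U.F 1) : ∀ t ∈ U.F 0, ∃ r : ℂ, t - algebraMap ℂ k r ∈ U.F 1 := by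
  have h0 : π ≠ 0 := fun e => by simp [e, U.zero] at hπ
  have un : ∀ (u : k) (r : ℂ), r ≠ 0 → u - algebraMap ℂ k r ∈ U.F 1 → u ≠ 0 ∧ U.v u = 0 :=
    fun u r hr hu => U.eq_of_sub ((_root_.map_ne_zero _).2 hr) (v_cst U r) hu
  intro t ht
  by_cases h1 : t ∈ U.F 1
  · exact ⟨0, by simpa using h1⟩
  have h2 : t ≠ 0 := fun e => h1 (Or.inl e)
  have h3 : U.v t = 0 := le_antisymm (not_lt.1 fun e => h1 (Or.inr e)) (ht.resolve_left h2)
  obtain ⟨r, -, hr⟩ := ind h
    (P := fun t => ∃ r : ℂ, r ≠ 0 ∧ t / π ^ U.v t - algebraMap ℂ k r ∈ U.F 1)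
    (fun a ha => ⟨a, ha, by simp [v_cst]⟩) hc (by
      rintro s t a b ⟨r, r0, hr⟩ ⟨r', r0', hr'⟩
      refine ⟨r * r', mul_ne_zero r0 r0', ?_⟩
      rw [U.mul _ _ a b, zpow_add₀ h0, mul_div_mul_comm, map_mul]
      exact F_of_eq (add_mem (F_mul0 (Or.inr (un _ _ r0 hr).2.ge) hr')
        (F_mul0 (cst_F U r') hr)) (by ring)) (by
      rintro t a ⟨r, r0, hr⟩
      obtain ⟨u0, u1⟩ := un _ _ r0 hr
      refine ⟨r⁻¹, inv_ne_zero r0, ?_⟩
      rw [U.inv, zpow_neg, inv_div_inv, ← inv_div, map_inv₀]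
      have h4 : algebraMap ℂ k r ≠ 0 := (_root_.map_ne_zero _).2 r0
      have h5 := F_div (F_div hr (t / π ^ U.v t)) (algebraMap ℂ k r)
      rw [u1, v_cst, sub_zero, sub_zero] at h5
      exact F_of_eq (neg_mem h5) (by field_simp; ring)) t h2
  exact ⟨r, by simpa [h3] using hr⟩

/-- Euler fields are recognised on the linear polynomials. -/
theorem eul (h : P1 σ θ) {U : DV k} {τ : VF k}
    (hc : ∀ c, τ (σ - algebraMap ℂ k c) / (σ - algebraMap ℂ k c) -
      (U.v (σ - algebraMap ℂ k c) : k) ∈ U.F 1) : Eul U τ := by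
  intro m g hg
  by_cases h0 : g = 0
  · simp [h0]
  have h1 := ind h (P := fun t => τ t / t - (U.v t : k) ∈ U.F 1)
    (fun a _ => by simp [v_cst]) hc (fun s t a b c d => by
      rw [U.mul _ _ a b, Derivation.leibniz, smul_eq_mul, smul_eq_mul]
      exact F_of_eq (add_mem c d) (by push_cast; field_simp; ring)) (fun t a c => by
      rw [U.inv, Derivation.leibniz_inv, smul_eq_mul]
      exact F_of_eq (neg_mem c) (by push_cast; field_simp; ring)) g h0
  have h2 : ((U.v g - m : ℤ) : k) * g ∈ U.F (m + 1) := by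
    rcases (hg.resolve_left h0).eq_or_lt with e | e
    · simp [e]
    · exact F_mul0 (int_F _) (Or.inr e)
  exact F_of_eq (add_mem (U.F_mul hg h1) h2) (by push_cast; field_simp; ring)

end RP1

open RP1 in
theorem rP1 : SP1 := by
  intro k _ _ σ θ h
  choose U hU using exists_U h
  have h0 : σ ≠ 0 := by simpa using lin_ne h 0
  have hσ : ∀ c, (U c).v σ = val c 0 := fun c => by simpa using hU c 0
  have h1 : ∀ c, (U (some c)).v (σ - algebraMap ℂ k c) = 1 := fun c => by
    rw [hU, val, if_pos rfl]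
  have hi : (U none).v σ⁻¹ = 1 := by rw [DV.inv, hσ, val, neg_neg]
  have hc : ∀ a c : ℂ, algebraMap ℂ k a / (σ - algebraMap ℂ k c) ∈ (U none).F 1 := fun a c => by
    simpa [hU, val] using F_div (cst_F (U none) a) (σ - algebraMap ℂ k c)
  refine ⟨⟨U, fun a b e => ?_, fun U' => ⟨classify h hU, ?_⟩, hσ none, h1,
    fun c hc => by rw [hσ, val, if_neg hc], fun c => ?_, fun t => ?_⟩, ?_⟩
  · have : ∀ c, val a c = val b c := fun c => by rw [← hU, e, hU]
    rcases a with _ | a <;> rcases b with _ | b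
    · rfl
    · simpa [val] using this b
    · simpa [val] using this a
    · simpa [val, eq_comm] using this a
  · rintro ⟨_ | c, rfl⟩
    · exact ⟨_, hi⟩
    · exact ⟨_, h1 c⟩
  · rcases c with _ | c
    · refine resid h hi fun c' => ⟨1, one_ne_zero, ?_⟩
      have := hc c' 0
      rw [map_zero, sub_zero] at this
      rw [hU, val, map_one]
      exact F_of_eq (neg_mem this) (by simp only [zpow_neg, zpow_one, inv_inv]; field_simp; ring)
    · refine resid h (h1 c) fun c' => ?_
      by_cases e : c = c'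
      · exact ⟨1, one_ne_zero, by simp [← e, h1, div_self (lin_ne h c)]⟩
      · refine ⟨c - c', sub_ne_zero.2 e, ?_⟩
        rw [hU, val, if_neg e, zpow_zero, div_one, map_sub, sub_sub_sub_cancel_right]
        exact Or.inr (h1 c).ge
  · by_cases t0 : t = 0
    · simp [t0, DV.zero]
    refine ind h (P := fun t => (Function.support fun c => (U c).v t).Finite ∧
      ∑ᶠ c, (U c).v t = 0) (fun a _ => by simp [v_cst]) (fun c => ?_) (fun s t a b c d => ?_)
      (fun t _ c => ?_) t t0
    · classical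
      have hs : (Function.support fun c' => (U c').v (σ - algebraMap ℂ k c)) ⊆
          ({none, some c} : Finset (Option ℂ)) := by
        rintro (_ | c') e
        · simp
        · by_contra e'
          exact e ((hU _ _).trans (if_neg fun z => e' (by simp [z])))
      refine ⟨(Finset.finite_toSet _).subset hs, ?_⟩
      rw [finsum_eq_sum_of_support_subset _ hs, Finset.sum_pair (by simp), h1, hU, val]
      rfl
    · simp only [DV.mul _ _ _ a b]
      exact ⟨(c.1.union d.1).subset (Function.support_add _ _),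
        by rw [finsum_add_distrib c.1 d.1, c.2, d.2, add_zero]⟩
    · simp only [DV.inv]
      exact ⟨by simpa using c.1, by rw [finsum_neg_distrib, c.2, neg_zero]⟩
  · intro e μ a U' hμ hN hE
    have hθ : ∀ c, θ (σ - algebraMap ℂ k c) = σ := fun c => by
      rw [map_sub, Derivation.map_algebraMap, sub_zero, h.eul]
    obtain ⟨_ | c, rfl⟩ := classify h hU hN
    · have h2 := hE.of_eul hi (eul h (τ := -θ) fun c => by
        have := lin_ne h c
        rw [Derivation.neg_apply, hθ, hU, val]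
        exact F_of_eq (neg_mem (hc c c)) (by push_cast; field_simp; ring))
      rw [map_neg, hμ, ← map_neg, ← map_sub] at h2
      rw [hσ, val]
      exact ⟨fun e => absurd e (by omega), fun _ => (sub_eq_zero.1 (cst_F1 h2)).symm,
        fun e => absurd e (by omega)⟩
    · have h2 := hE.of_eul (h1 c) (eul h (τ := ((σ - algebraMap ℂ k c) / σ) • θ) fun c' => by
        rw [Derivation.smul_apply, hθ, smul_eq_mul, div_mul_cancel₀ _ h0]
        by_cases e : c = c'
        · simp [← e, h1, div_self (lin_ne h c)]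
        · have := F_div (Or.inr (h1 c).ge : _ ∈ (U (some c)).F 1) (σ - algebraMap ℂ k c')
          rw [hU, val, if_neg e] at this ⊢
          simpa using this)
      rw [hσ, val]
      by_cases e0 : c = 0
      · rw [e0, map_zero, sub_zero, div_self h0, one_smul, hμ, ← map_sub] at h2
        rw [if_pos e0]
        exact ⟨fun _ => (sub_eq_zero.1 (cst_F1 h2)).symm, fun e => absurd e (by omega),
          fun e => absurd e (by omega)⟩
      · rw [if_neg e0]
        refine ⟨fun e => absurd e (by omega), fun e => absurd e (by omega), fun _ => ?_⟩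
        have h3 := F_div (Or.inr (h1 c).ge : _ ∈ (U (some c)).F 1) σ
        rw [hσ, val, if_neg e0, sub_zero] at h3
        rw [e.smul, hμ, Derivation.leibniz_div, hθ, h.eul] at h2
        refine (sub_eq_zero.1 (cst_F1 (F_of_eq
          (sub_mem h2 (F_mul0 (cst_F _ (μ - 1)) h3)) ?_))).symm
        simp only [map_sub, map_one, smul_eq_mul]
        field_simp
        ring

end Pool.Agent.MP_ee8c61_ag.M3BK
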