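import Pool.Agent.MP_ee8c61_ag.M3BK.Spec
import Pool.Agent.MP_ee8c61_ag.M3RESID.Jac

/-! Over an ordinary point the exponents are at least two. -/

namespace Pool.Agent.MP_ee8c61_ag.M3BK

open M3 M3RESID

theorem rPos : SPOS := by
  rintro L _ _ d C x G a hR hA hD ⟨C', i, hi⟩ hE
  have z1 : ∀ l, C.z l ∈ G.F 1 := fun l => Or.inr (by
    by_contra h
    refine hD.2 _ (hR.st.z l) (hR.ev l) ⟨C.ne l, hD.1 _ (hR.st.z l), G.mem_O.2 (Or.inr ?_)⟩
    rw [G.inv]
    omega)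
  have e1 : Exp C'.dv G 1 := hi.exp (by
    have e : C'.dv.δ (C'.th i) = 1 := by
      rw [Co.dv_δ, Finset.sum_eq_single i]
      · rw [Co.th_z, if_pos rfl, C'.dual, if_pos rfl]
      · intro j _ h
        rw [Co.th_z, if_neg h.symm, map_zero]
      · simp
    rw [e, map_one, sub_self]
    exact zero_mem _) fun j _ => by
      rw [Co.dv_δ]
      refine sum_mem fun l _ => ?_
      rw [C'.dual]
      split_ifs <;> simp
  have e2 := e1.tw (C.jac_ne C') 1
  rw [← C.dv_jac C'] at e2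
  have h1 := hE.of_eul hi.vz hi.eul
  have h2 := e2.of_eul hi.vz hi.eul
  have h3 : d.δ (C'.th i) - C.dv.δ (C'.th i) ∈ G.F 1 := by
    rw [C.δ_exp d, Finset.sum_add_distrib, Co.dv_δ, add_sub_cancel_right]
    refine sum_mem fun l _ => F_mul0' ?_ (G.mem_O.1 (hD.1 _ (Co.δ_D (hA l))))
    simpa using hi.eul.mem 1 _ (z1 l)
  have h4 : a = 1 + 1 * (G.v (C.jac C') : ℂ) := by
    refine sub_eq_zero.1 (cst_F1 (o := G) ?_)
    rw [map_sub]
    exact F_of_eq (add_mem (sub_mem h3 h1) h2) (by ring)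
  have a0 : ∀ j l, C'.D j (C.z l) ∈ G.F 0 := fun j l => by simpa using hi.D_LV' j 1 _ (z1 l)
  have a1 : ∀ j ≠ i, ∀ l, C'.D j (C.z l) ∈ G.F 1 := fun j hj l => by
    simpa using hi.D_LV hj 1 _ (z1 l)
  have h5 : C.jac C' ∈ G.F 1 := by
    rw [Co.jac, Matrix.det_fin_two]
    simp only [Matrix.of_apply]
    by_cases h : i = 0
    · have h' : (1 : Fin 2) ≠ i := by rw [h]; decide
      exact sub_mem (F_mul0 (a0 _ _) (a1 _ h' _)) (F_mul0' (a1 _ h' _) (a0 _ _))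
    · exact sub_mem (F_mul0' (a1 _ (Ne.symm h) _) (a0 _ _)) (F_mul0 (a0 _ _) (a1 _ (Ne.symm h) _))
  have h6 : 1 ≤ G.v (C.jac C') := h5.resolve_left (C.jac_ne C')
  rw [h4, one_mul]
  constructor <;> intro h <;> norm_cast at h <;> omega

end Pool.Agent.MP_ee8c61_ag.M3BK
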