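import Pool.Agent.MP_ee8c61_ag.M3BK.Spec
import Pool.Agent.MP_ee8c61_ag.M3BK.Tr
import Pool.Agent.MP_ee8c61_ag.H36.BasicE

/-! The integral of the weight over a curve of exponent zero vanishes. -/

namespace Pool.Agent.MP_ee8c61_ag.M3BK

open M3 M3RESID Set
open Pool.Agent.MP_96693b_ag.RS (Loc LocOf)
open Pool.Agent.MP_96693b_ag

namespace RRg

variable {L k : Type} [Field L] [Algebra ℂ L] [Field k] [Algebra ℂ k]

theorem fin_bad (P : Pl L k) {W : Set (Loc L)} {s : L}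
    (h1 : ∀ x ∈ W, Ins P x ∧ ∃ t ∈ x.O, P.π t ≠ 0 ∧ t * s ∈ x.O)
    (h2 : ∀ h, P.π h ≠ 0 → {x ∈ W | h ∈ x.O ∧ x.ev h = 0}.Finite) {X : Set (Loc L)}
    (hX : ConP X) : {x ∈ X ∩ W | s ∉ x.O}.Finite := by
  induction hX with
  | pc κ y S _ =>
    rcases (Af y ∩ W).eq_empty_or_nonempty with e | ⟨x₀, a1, a2⟩
    · exact finite_empty.subset fun x hx => e ▸ (⟨hx.1.1.1, hx.1.2⟩ : x ∈ Af y ∩ W)
    obtain ⟨hI, t, t1, t2, t3⟩ := h1 x₀ a2
    obtain ⟨p, hp, q, hq, q0, e⟩ := a1.frac t t1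
    obtain ⟨p', hp', q', hq', q0', e'⟩ := a1.frac _ t3
    have k1 : P.π (p * q') ≠ 0 := by
      rw [P.mul _ (hI _ (a1.le hp)) _ (hI _ (a1.le hq')), ← e,
        P.mul _ (hI _ t1) _ (hI _ (a1.le hq))]
      exact mul_ne_zero (mul_ne_zero t2 fun z => q0 (hI.ev_zero (a1.le hq) z))
        fun z => q0' (hI.ev_zero (a1.le hq') z)
    refine (h2 _ k1).subset fun x hx => ⟨hx.1.2, hx.1.1.1.le (mul_mem hp hq'), ?_⟩
    by_contra k2
    have k3 := mul_mem (hx.1.1.1.le (mul_mem hp' hq))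
      (x.inv_mem _ (hx.1.1.1.le (mul_mem hp hq')) k2)
    have k4 : p' * q = s * (p * q') := by rw [← e, ← e']; ring
    rw [k4, mul_inv_cancel_right₀ (RS.Loc.ne_zero_of_ev k2)] at k3
    exact hx.2 k3
  | union _ _ ih ih' =>
    exact (ih.union ih').subset fun x hx =>
      hx.1.1.imp (fun k => ⟨⟨k, hx.1.2⟩, hx.2⟩) fun k => ⟨⟨k, hx.1.2⟩, hx.2⟩

theorem count {χ : H36.Chi} (H : H36.IsEuler χ) (c1 : ConOK L) (e1 : ChiOK χ L) {q : ℂ → Loc L}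
    (hq : q.Injective) {s : L} (h1 : ∀ c, ConP {q c}) (h2 : ConP (q '' {c | c ≠ 0}))
    (h3 : ∀ c, s ∈ (q c).O → (q c).ev s = c) (h4 : {c | s ∉ (q c).O}.Finite) :
    chiP χ (q '' {c | c ≠ 0}) = 0 := by
  let Y : Set ℂ → Set (Unit → ℂ) := fun T => {y | y () ∈ T}
  let P : Set ℂ → Prop := fun T => ConP (q '' T) ∧ H36.Con (Y T) ∧ chiP χ (q '' T) = χ Unit (Y T)
  have p1 : ∀ (T : Set ℂ) (g : L), ConP (q '' T) → (∀ c ∈ T, g ∈ (q c).O ∧ (q c).ev g = c) →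
      P T := fun T g k1 k2 => by
    have r : RegOn (fun _ : Unit => g) (q '' T) := by
      rintro _ ⟨c, hc, rfl⟩ _
      exact (k2 c hc).1
    have e : vl (fun _ : Unit => g) '' (q '' T) = Y T := by
      ext y
      constructor
      · rintro ⟨_, ⟨c, hc, rfl⟩, rfl⟩
        exact ((k2 c hc).2.symm ▸ hc : (q c).ev g ∈ T)
      · exact fun hy => ⟨_, ⟨_, hy, rfl⟩, funext fun _ => (k2 _ hy).2⟩
    refine ⟨k1, e ▸ c1.img _ _ _ k1 r, e ▸ e1.crd _ _ _ k1 r ?_⟩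
    rintro _ ⟨c, hc, rfl⟩ _ ⟨c', hc', rfl⟩ k
    have := congrFun k ()
    simp only [vl, (k2 c hc).2, (k2 c' hc').2] at this
    rw [this]
  have p2 : ∀ T c, c ∉ T → P T → P (T ∪ {c}) := fun T c hc ⟨a1, a2, a3⟩ => by
    obtain ⟨b1, b2, b3⟩ := p1 {c} (algebraMap ℂ L c) (by rw [image_singleton]; exact h1 c) (by
      rintro _ rfl
      exact ⟨Subalgebra.algebraMap_mem _ _, Loc.ev_alg _ _⟩)
    have d : Disjoint T {c} := disjoint_singleton_right.2 hc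
    refine ⟨image_union _ _ _ ▸ a1.union b1, a2.union b2, ?_⟩
    rw [image_union, e1.add _ _ a1 b1 (disjoint_image_of_injective hq d), a3, b3]
    exact (H.add _ _ _ a2 b2 (d.preimage fun y : Unit → ℂ => y ())).symm
  have p3 : P {c | c ≠ 0 ∧ s ∈ (q c).O} := by
    refine p1 _ s ?_ fun c hc => ⟨hc.2, h3 c hc.2⟩
    have e : q '' {c | c ≠ 0 ∧ s ∈ (q c).O} = {x ∈ q '' {c | c ≠ 0} | s ∈ x.O} := by
      ext x
      constructor
      · rintro ⟨c, hc, rfl⟩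
        exact ⟨⟨c, hc.1, rfl⟩, hc.2⟩
      · rintro ⟨⟨c, hc, rfl⟩, k⟩
        exact ⟨c, ⟨hc, k⟩, rfl⟩
    exact e ▸ c1.reg _ s h2
  have p4 : ∀ B : Set ℂ, B.Finite → (∀ c ∈ B, s ∉ (q c).O) →
      P ({c | c ≠ 0 ∧ s ∈ (q c).O} ∪ B) := fun B hB => by
    induction B, hB using Finite.induction_on with
    | empty => exact fun _ => (union_empty _).symm ▸ p3
    | @insert c B hc _ ih =>
      intro k
      rw [insert_eq, union_comm {c}, ← union_assoc]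
      exact p2 _ c (fun z => z.elim (fun z => k c (mem_insert _ _) z.2) hc)
        (ih fun c' hc' => k c' (mem_insert_of_mem _ hc'))
  have p5 := p4 {c | c ≠ 0 ∧ s ∉ (q c).O} (h4.subset fun c hc => hc.2) fun c hc => hc.2
  have e : ({c | c ≠ 0 ∧ s ∈ (q c).O} ∪ {c | c ≠ 0 ∧ s ∉ (q c).O} : Set ℂ) = {c | c ≠ 0} := by
    ext c
    simp only [mem_union, mem_ofPred_eq, ← and_or_left, em, and_true]
  rw [e] at p5
  rw [p5.2.2]
  exact H.torus' p5.2.1 () (fun _ h => h) fun x _ z hz => by simpa [Y] using hz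

end RRg

theorem rRg_of (hPL : OfPL) : OfRG := by
  intro hC hX hA hB hN hV hF hU h1 χ L _ _ d v b X₀ S a G hχ had hty hex hth hX₀
  obtain ⟨p, e, a', r1, r2, r3, r4⟩ := hPL hN hV hF hU h1 L d v b X₀ S a G had hty hex hth hX₀
  obtain ⟨σ, θ, μ, -, t1, t2, -, -⟩ := hty
  obtain ⟨⟨U, u1, u2, u3, u4, u5, -, u6⟩, u7⟩ := h1 _ σ θ t1
  have A := hA χ L hχ
  have B := hB χ L ℂ hχ
  have hW := A.cv S.X G.O S.con
  set W := {x ∈ S.X | Le x G.O} with hWd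
  choose q q1 q2 using fun c => r2.surjOn ((u2 (U c)).2 ⟨c, rfl⟩)
  have q3 : q.Injective := fun c c' k => u1 (by rw [← q2, k, q2])
  have q4 : ∀ x ∈ W, ∃ c, q c = x := fun x hx => by
    obtain ⟨c, hc⟩ := (u2 _).1 (r2.mapsTo hx)
    exact ⟨c, r2.injOn (q1 c) hx ((q2 c).trans hc)⟩
  have f1 : ∀ c, ∀ g ∈ (q c).O, G.pl.π g ∈ (U c).F 1 ↔ (q c).ev g = 0 := fun c => by
    obtain ⟨⟨i, -, k⟩, -⟩ := r4 _ (q1 c).1 (q1 c).2
    exact q2 c ▸ ((hF L _ _ i (S.rg _ (q1 c).1)).2.2.2 G _ k).2.1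
  have w : ∀ c, w1 (a (q c)) = (a' (U c))⁻¹ := fun c => q2 c ▸ (r4 _ (q1 c).1 (q1 c).2).2
  have w' := fun c => u7 e μ _ (U c) (t2 e r1) ((u2 _).2 ⟨c, rfl⟩) (r3 _ ((u2 _).2 ⟨c, rfl⟩))
  obtain ⟨s, s1, s2⟩ := G.pl.surj σ
  have pt : ∀ c, ConP {q c} ∧ chiP χ {q c} = 1 := fun c => A.pt W _ hW (q1 c)
  have e0 : (fun c => q (some c)) '' {c | c ≠ 0} = (W \ {q none}) \ {q (some 0)} := by
    ext x
    constructor
    · rintro ⟨c, hc, rfl⟩
      exact ⟨⟨q1 _, fun k => by simpa using q3 k⟩, fun k => hc (by simpa using q3 k)⟩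
    · rintro ⟨⟨k1, k2⟩, k3⟩
      obtain ⟨_ | c, rfl⟩ := q4 x k1
      · exact absurd rfl k2
      · exact ⟨c, fun z => k3 (by rw [z]; rfl), rfl⟩
  have c0 : ConP ((fun c => q (some c)) '' {c | c ≠ 0}) :=
    e0 ▸ (hC L).diff _ _ ((hC L).diff _ _ hW (pt _).1) (pt _).1
  have hb := RRg.fin_bad G.pl (W := W) (s := s) (fun x hx => ⟨hx.2, ?_⟩) (fun h k => ?_) S.con
  rotate_left
  · obtain ⟨⟨i, -, k⟩, -⟩ := r4 x hx.1 hx.2
    obtain ⟨t, k1, k2, k3, k4⟩ := (hV L _ x G (S.rg x hx.1)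
      ((hF L _ x i (S.rg x hx.1)).2.2.1 G k.dat).1).2.1 s s1
    refine ⟨t, k1, fun z => ?_, k4⟩
    have : 1 ≤ G.v t := ((G.pl.ker t (hx.2 t k1)).1 z).resolve_left k2
    omega
  · refine ((u6 (G.pl.π h)).1.image q).subset fun x hx => ?_
    obtain ⟨c, rfl⟩ := q4 x hx.1
    have : 1 ≤ (U c).v (G.pl.π h) := ((f1 c h hx.2.1).2 hx.2.2).resolve_left k
    exact ⟨c, (zero_lt_one.trans_le this).ne', rfl⟩
  have z0 := RRg.count hχ.1 (hC L) (hX χ L hχ.1) (q := fun c => q (some c)) (s := s)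
    (q3.comp (Option.some_injective _)) (fun c => (pt _).1) c0 (fun c k => ?_)
    ((hb.preimage (q3.comp (Option.some_injective _)).injOn).subset fun c k =>
      ⟨⟨(q1 _).1, q1 _⟩, k⟩)
  swap
  · have k1 := (q (some c)).O.algebraMap_mem c
    have k2 := (f1 (some c) _ (sub_mem k k1)).1 (by
      rw [Pl.π_sub s1 (G.pl.cst c).1, s2, G.pl.π_cst]
      exact Or.inr (u4 c).ge)
    rwa [RS.Loc.ev_sub k k1, Loc.ev_alg, sub_eq_zero] at k2
  have v1 : ∀ x ∈ (fun c => q (some c)) '' {c | c ≠ 0}, w1 (a x) = 1 := by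
    rintro _ ⟨c, hc, rfl⟩
    rw [w, (w' _).2.2 (u5 c hc), inv_one]
  have v2 : ∀ x ∈ ({q none} : Set (Loc L)), w1 (a x) = (-μ)⁻¹ := by
    rintro _ rfl
    rw [w, (w' _).2.1 (by omega)]
  have v3 : ∀ x ∈ ({q (some 0)} : Set (Loc L)), w1 (a x) = μ⁻¹ := by
    rintro _ rfl
    have := u4 0
    rw [map_zero, sub_zero] at this
    rw [w, (w' _).1 (by omega)]
  have g1 := A.cst _ _ _ _ c0 v1
  have g2 := A.cst _ _ _ _ (pt none).1 v2
  have g3 := A.cst _ _ _ _ (pt (some 0)).1 v3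
  have n : q (some 0) ≠ q none := fun k => by simpa using q3 k
  have e1 : W = (fun c => q (some c)) '' {c | c ≠ 0} ∪ {q (some 0)} ∪ {q none} := by
    rw [e0, sdiff_union_of_subset (singleton_subset_iff.2 (mem_sdiff_singleton.2 ⟨q1 _, n⟩)),
      sdiff_union_of_subset (singleton_subset_iff.2 (q1 _))]
  rw [e1]
  refine ⟨A.union _ _ _ _ (A.union _ _ _ _ g1 g3) g2, ?_⟩
  rw [B.union _ _ _ (A.union _ _ _ _ g1 g3) g2, B.union _ _ _ g1 g3, B.cst _ _ _ c0 v1,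
    B.cst _ _ _ (pt none).1 v2, B.cst _ _ _ (pt (some 0)).1 v3, z0, (pt _).2, (pt _).2]
  · simp [inv_neg]
  · rw [e0]
    exact disjoint_sdiff_left
  · rw [e0, disjoint_singleton_right]
    rintro (k | k)
    · exact k.1.2 rfl
    · exact n k.symm

end Pool.Agent.MP_ee8c61_ag.M3BK
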