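import Pool.Agent.MP_ee8c61_ag.M3BK.Spec

/-! Logarithmic derivatives and weighted degrees on the projective line. -/

namespace Pool.Agent.MP_ee8c61_ag.M3BK

open M3 M3RESID Set Polynomial

namespace RTh

variable {k : Type} [Field k] [Algebra ℂ k] {σ : k} {θ : VF k} {U : DV k} {c : ℂ}

theorem frac (h : P1 σ θ) (g : k) : ∃ p q : ℂ[X], g = aeval σ p / aeval σ q :=
  (IntermediateField.mem_adjoin_simple_iff ℂ g).1 (h.gen ▸ IntermediateField.mem_top)

theorem ne (h : P1 σ θ) : σ ≠ 0 := fun e => h.tr (e ▸ isAlgebraic_zero)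

theorem span (h : P1 σ θ) (Y : VF k) : Y = (Y σ / σ) • θ := by
  refine sub_eq_zero.1 (Derivation.ext fun g => ?_)
  obtain ⟨p, q, rfl⟩ := frac h g
  have e : (Y - (Y σ / σ) • θ) σ = 0 := by
    rw [Derivation.sub_apply, Derivation.smul_apply, h.eul, smul_eq_mul,
      div_mul_cancel₀ _ (ne h), sub_self]
  rw [Derivation.leibniz_div, Derivation.map_aeval, Derivation.map_aeval, e]
  simp

theorem pol (h0 : σ ∈ U.F 0) (p : ℂ[X]) : aeval σ p ∈ U.F 0 := by
  induction p using Polynomial.induction_on' with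
  | add p q hp hq => rw [map_add]; exact add_mem hp hq
  | monomial n a =>
    rw [aeval_monomial]
    simpa using U.F_mul (U.cst_mem a) (U.F_pow h0 n)

theorem logp (h : P1 σ θ) (h0 : U.v σ = 0) (h1 : U.v (σ - algebraMap ℂ k c) = 1) (p : ℂ[X])
    (hp : aeval σ p ≠ 0) : θ (aeval σ p) / aeval σ p -
      (U.v (aeval σ p) : k) * (σ / (σ - algebraMap ℂ k c)) ∈ U.F 0 := by
  have m0 : σ ∈ U.F 0 := Or.inr h0.ge
  have s0 : σ - algebraMap ℂ k c ≠ 0 := fun e => by rw [e, U.zero] at h1; omega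
  obtain ⟨q, e, hq⟩ := exists_eq_pow_rootMultiplicity_mul_and_not_dvd p
    (fun e => hp (by rw [e, map_zero])) c
  generalize rootMultiplicity c p = n at e
  have q0 : algebraMap ℂ k (q.eval c) ≠ 0 := (_root_.map_ne_zero _).2 fun e => hq (dvd_iff_isRoot.2 e)
  obtain ⟨r, hr⟩ := X_sub_C_dvd_sub_C_eval (p := q) (a := c)
  have e1 : aeval σ q - algebraMap ℂ k (q.eval c) = (σ - algebraMap ℂ k c) * aeval σ r := by
    simpa using congrArg (aeval σ) hr
  obtain ⟨u0, u1⟩ := U.eq_of_sub (h := aeval σ q) q0 (U.cst _) (by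
    rw [e1, add_comm]; exact U.F_mul (Or.inr h1.ge) (pol m0 r))
  have e2 : aeval σ p = (σ - algebraMap ℂ k c) ^ n * aeval σ q := by rw [e]; simp
  have e3 : θ (σ - algebraMap ℂ k c) = σ := by
    rw [map_sub, h.eul, Derivation.map_algebraMap, sub_zero]
  have e4 : θ (aeval σ p) / aeval σ p - (U.v (aeval σ p) : k) * (σ / (σ - algebraMap ℂ k c)) =
      aeval σ (derivative q) * σ * (aeval σ q)⁻¹ := by
    rw [e2, U.mul _ _ (pow_ne_zero _ s0) u0, U.pow, h1, u1, Derivation.leibniz,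
      Derivation.leibniz_pow, e3, Derivation.map_aeval, h.eul]
    rcases n with _ | n
    · simp
      field_simp
    · simp only [smul_eq_mul, nsmul_eq_mul, Nat.add_sub_cancel]
      push_cast
      field_simp
      ring
  rw [e4]
  simpa using U.F_mul (U.F_mul (pol m0 _) m0)
    (Or.inr (by rw [U.inv, u1]; rfl) : (aeval σ q)⁻¹ ∈ U.F 0)

theorem log (h : P1 σ θ) (h0 : U.v σ = 0) (h1 : U.v (σ - algebraMap ℂ k c) = 1) (g : k)
    (hg : g ≠ 0) : θ g / g - (U.v g : k) * (σ / (σ - algebraMap ℂ k c)) ∈ U.F 0 := by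
  obtain ⟨p, q, rfl⟩ := frac h g
  obtain ⟨hp, hq⟩ := div_ne_zero_iff.1 hg
  have := sub_mem (logp h h0 h1 p hp) (logp h h0 h1 q hq)
  refine (congrArg (· ∈ U.F 0) ?_).mp this
  rw [U.div hp hq, Derivation.leibniz_div]
  simp only [smul_eq_mul]
  push_cast
  field_simp
  ring

theorem v_int (U : DV k) (n : ℤ) : U.v (n : k) = 0 := by
  have := U.cst (n : ℂ)
  rwa [map_intCast] at this

end RTh

open RTh

theorem rTh : OfTH := by
  intro hP k _ _ σ θ e μ c t X U h he hc hU h0 H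
  have : CharZero k := charZero_of_injective_algebraMap (algebraMap ℂ k).injective
  obtain ⟨⟨U', -, a2, a3, a4, -⟩, -⟩ := hP k σ θ h
  obtain ⟨o, rfl⟩ := (a2 U).1 hU
  rcases o with _ | c₀
  · omega
  have h1 := a4 c₀
  generalize U' (some c₀) = U at h0 h1 H
  by_cases ht : t = 0
  · rw [ht, U.zero]
  have s0 : σ - algebraMap ℂ k c₀ ≠ 0 := fun e => by rw [e, U.zero] at h1; omega
  have w0 := div_ne_zero (ne h) s0
  have w1 : U.v (σ / (σ - algebraMap ℂ k c₀)) = -1 := by rw [U.div (ne h) s0, h0, h1]; rfl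
  have L := log h h0 h1
  generalize σ / (σ - algebraMap ℂ k c₀) = w at w0 w1 L
  rw [span h X, e.smul, he] at H
  generalize X σ / σ = g at H
  have c0 : algebraMap ℂ k c ≠ 0 := (_root_.map_ne_zero _).2 hc
  have H1 : algebraMap ℂ k c * ((U.v t : k) * w) - (g * algebraMap ℂ k μ + θ g) ∈ U.F 0 := by
    have := sub_mem H (by simpa using U.F_mul (U.cst_mem c) (L t ht) :
      algebraMap ℂ k c * (θ t / t - (U.v t : k) * w) ∈ U.F 0)
    refine (congrArg (· ∈ U.F 0) ?_).mp this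
    ring
  have k1 : ∀ n : ℤ, n ≠ 0 → ∀ y, y ≠ 0 → y * ((n : k) * w) ≠ 0 ∧
      U.v (y * ((n : k) * w)) = U.v y - 1 := fun n hn y hy => by
    have n0 : (n : k) ≠ 0 := Int.cast_ne_zero.2 hn
    refine ⟨mul_ne_zero hy (mul_ne_zero n0 w0), ?_⟩
    rw [U.mul _ _ hy (mul_ne_zero n0 w0), U.mul _ _ n0 w0, v_int, w1]
    ring
  by_contra hv
  obtain ⟨b1, b2⟩ := k1 _ hv _ c0
  rw [U.cst] at b2
  by_cases hg : g = 0
  · rw [hg, zero_mul, map_zero, add_zero, sub_zero] at H1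
    have := H1.resolve_left b1
    omega
  have g1 : θ g - g * ((U.v g : k) * w) ∈ U.F (U.v g) := by
    have := U.F_mul (U.mem_F_self g) (L g hg)
    rwa [add_zero, mul_sub, mul_div_cancel₀ _ hg] at this
  have g2 : g * algebraMap ℂ k μ ∈ U.F (U.v g) := by
    simpa using U.F_mul (U.mem_F_self g) (U.cst_mem μ)
  have H2 : algebraMap ℂ k c * ((U.v t : k) * w) - g * ((U.v g : k) * w) ∈
      U.F (min 0 (U.v g)) := by
    have := add_mem (U.F_anti (min_le_left _ _) H1) (U.F_anti (min_le_right 0 _) (add_mem g1 g2))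
    refine (congrArg (· ∈ U.F _) ?_).mp this
    ring
  rcases lt_trichotomy (U.v g) 0 with hn | hn | hn
  · obtain ⟨d1, d2⟩ := k1 _ hn.ne g hg
    have := sub_mem (Or.inr (by omega) :
      algebraMap ℂ k c * ((U.v t : k) * w) ∈ U.F (min 0 (U.v g))) H2
    rw [sub_sub_cancel] at this
    have := this.resolve_left d1
    omega
  · rw [hn, Int.cast_zero, zero_mul, mul_zero, sub_zero] at H2
    have := H2.resolve_left b1
    omega
  · obtain ⟨d1, d2⟩ := k1 _ hn.ne' g hg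
    have := add_mem H2 (Or.inr (by omega) : g * ((U.v g : k) * w) ∈ U.F (min 0 (U.v g)))
    rw [sub_add_cancel] at this
    have := this.resolve_left b1
    omega

theorem rSum : OfSUM := by
  intro hP k _ _ σ θ e μ t a h he ha hm
  obtain ⟨⟨U, a1, a2, -, -, -, -, a7⟩, hb⟩ := hP k σ θ h
  have e1 : {U' : DV k | Nrm U'} = range U := Set.ext a2
  refine ⟨((a7 t).1.image U).subset fun U' hU => ?_, ?_⟩
  · obtain ⟨c, rfl⟩ := (a2 U').1 hU.1
    exact ⟨c, hU.2, rfl⟩
  have e2 : ∀ c, ((U c).v t : ℂ) * (a (U c))⁻¹ ^ 2 =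
      ((AddMonoidHom.mulRight (μ⁻¹ ^ 2)).comp (Int.castAddHom ℂ)) ((U c).v t) := fun c => by
    have n := (a2 _).2 ⟨c, rfl⟩
    obtain ⟨b1, b2, b3⟩ := hb e μ _ _ he n (ha _ n)
    show _ = ((U c).v t : ℂ) * μ⁻¹ ^ 2
    rcases lt_trichotomy ((U c).v σ) 0 with l | l | l
    · rw [b2 l, inv_neg, neg_sq]
    · rcases hm with hm | hm
      · rw [b3 l, inv_pow, inv_pow, hm, one_pow]
      · rw [hm _ n l, Int.cast_zero, zero_mul, zero_mul]
    · rw [b1 l]
  rw [e1, finsum_mem_range a1, finsum_congr e2, ← AddMonoidHom.map_finsum _ (a7 t).1, (a7 t).2,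
    map_zero]

end Pool.Agent.MP_ee8c61_ag.M3BK
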