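import Pool.Agent.MP_ee8c61_ag.M3BK.Cr1

/-!
The last quadratic transform: the valuation is the order along the exceptional curve.
-/

namespace Pool.Agent.MP_ee8c61_ag.M3BK.Cr

open M3 M3RESID Set Polynomial

noncomputable section

variable {L k : Type} [Field L] [Algebra ℂ L] [Field k] [Algebra ℂ k]

/-- The residue map as a homomorphism of algebras. -/
def πA (P : Pl L k) : Vs P.o →ₐ[ℂ] k where
  toFun g := P.π g
  map_one' := P.π_one
  map_mul' g h := P.mul _ g.2 _ h.2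
  map_zero' := P.π_zero
  map_add' g h := P.add _ g.2 _ h.2
  commutes' c := P.π_cst c

theorem aeval_F {G : DV L} {t : L} (ht : t ∈ G.F 0) (p : ℂ[X]) : aeval t p ∈ G.F 0 :=
  (Algebra.adjoin_le (S := Vs G) (singleton_subset_iff.2 ht)) (aeval_mem_adjoin_singleton ℂ t)

theorem π_aeval (P : Pl L k) {t : L} (ht : t ∈ P.o.F 0) (p : ℂ[X]) :
    P.π (aeval t p) = aeval (P.π t) p := by
  have h1 := aeval_algHom_apply (πA P) ⟨t, ht⟩ p
  have h2 := aeval_algHom_apply (Vs P.o).val ⟨t, ht⟩ p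
  exact (congrArg P.π h2).trans h1.symm

theorem cst_of_alg {t : k} (h : ¬Transcendental ℂ t) : ∃ c : ℂ, algebraMap ℂ k c = t := by
  have h1 : IsIntegral ℂ t := (not_not.1 h : IsAlgebraic ℂ t).isIntegral
  exact minpoly.mem_range_of_degree_eq_one ℂ t
    (IsAlgClosed.degree_eq_one_of_irreducible ℂ (minpoly.irreducible h1))

theorem NC.tr (P : Pl L k) {t : L} (h : NC P.o t) : Transcendental ℂ (P.π t) := by
  by_contra h1
  obtain ⟨c, hc⟩ := cst_of_alg h1
  exact h.2 c (Pl.π_eq (cst_F _ c) h.1 (by rw [P.π_cst, hc]))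

theorem NC.v {G : DV L} {t : L} (h : NC G t) : t ≠ 0 ∧ G.v t = 0 := by
  have h1 : t ∉ G.F 1 := by simpa using h.2 0
  have h0 : t ≠ 0 := fun e => h1 (Or.inl e)
  have h3 : ¬1 ≤ G.v t := fun e => h1 (Or.inr e)
  have h4 := h.1.resolve_left h0
  exact ⟨h0, by omega⟩

variable {C : Co L 2} {O : Subalgebra ℂ L} {G : DV L}

theorem CR.pol (h : CR G C O) {r : L} (hr : r ∈ ex C O 0) :
    ∃ p : ℂ[X], (r - aeval (sg C) p) / C.z 0 ∈ ex C O 0 := by
  have h0 := C.ne 0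
  induction hr using Algebra.adjoin_induction with
  | mem g hg =>
    rcases hg with rfl | rfl | hg
    · exact ⟨X, by simp⟩
    · exact ⟨0, by simp [ta]⟩
    · obtain ⟨c, -, h3⟩ := h.res hg
      exact ⟨Polynomial.C c, by simpa using h3 0⟩
  | algebraMap r => exact ⟨Polynomial.C r, by simp⟩
  | add x y _ _ hx hy =>
    obtain ⟨p, hp⟩ := hx
    obtain ⟨q, hq⟩ := hy
    refine ⟨p + q, (congrArg (· ∈ ex C O 0) ?_).mp (add_mem hp hq)⟩
    rw [map_add]
    ring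
  | mul x y hx' _ hx hy =>
    obtain ⟨p, hp⟩ := hx
    obtain ⟨q, hq⟩ := hy
    have h1 : aeval (sg C) q ∈ ex C O 0 :=
      (Algebra.adjoin_le (S := ex C O 0) (singleton_subset_iff.2 sg_ex))
        (aeval_mem_adjoin_singleton ℂ _)
    refine ⟨p * q, (congrArg (· ∈ ex C O 0) ?_).mp (add_mem (mul_mem hx' hq) (mul_mem hp h1))⟩
    rw [map_mul]
    ring

theorem CR.exF (h : CR G C O) (hn : NC G (sg C)) {r : L} (hr : r ∈ ex C O 0) : r ∈ G.F 0 :=
  ex_le (B := Vs G) h.le hn.1 (fun e => (e rfl).elim) hr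

/-- The residues of the ring are polynomials in the slope. -/
theorem CR.πpol (P : Pl L k) (h : CR P.o C O) (hn : NC P.o (sg C)) {r : L} (hr : r ∈ ex C O 0) :
    ∃ p : ℂ[X], P.π r = aeval (P.π (sg C)) p ∧ (r - aeval (sg C) p) / C.z 0 ∈ ex C O 0 := by
  obtain ⟨p, hp⟩ := h.pol hr
  refine ⟨p, ?_, hp⟩
  rw [← π_aeval P hn.1]
  exact Pl.π_congr (aeval_F hn.1 p)
    (F_of_eq (F_mul0 (h.exF hn hp) (h.pos 0)) (div_mul_cancel₀ _ (C.ne 0)).symm)

theorem CR.div1 (h : CR G C O) (hn : NC G (sg C)) {r : L} (hr : r ∈ ex C O 0) (h1 : r ∈ G.F 1) :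
    r / C.z 0 ∈ ex C O 0 := by
  obtain ⟨p, e, hp⟩ := CR.πpol G.pl h hn hr
  rw [G.pl.π_F1 h1] at e
  have : p = 0 := transcendental_iff.1 (NC.tr G.pl hn) p e.symm
  simpa [this] using hp

theorem CR.ord (h : CR G C O) (hn : NC G (sg C)) {r : L} (hr : r ∈ ex C O 0) (h0 : r ≠ 0) :
    ∃ m : ℕ, r / C.z 0 ^ m ∈ ex C O 0 ∧ G.v r = m * G.v (C.z 0) := by
  have hz := C.ne 0
  have hv := (h.pos 0).resolve_left hz
  have key : ∀ N : ℕ, ∀ r ∈ ex C O 0, r ≠ 0 → G.v r < N →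
      ∃ m : ℕ, r / C.z 0 ^ m ∈ ex C O 0 ∧ G.v r = m * G.v (C.z 0) := by
    intro N
    induction N with
    | zero =>
      intro r hr h0 hN
      have := (h.exF hn hr).resolve_left h0
      omega
    | succ N ih =>
      intro r hr h0 hN
      have h1 := (h.exF hn hr).resolve_left h0
      by_cases h2 : 1 ≤ G.v r
      · have e : G.v (r / C.z 0) = G.v r - G.v (C.z 0) := by
          rw [div_eq_mul_inv, G.mul _ _ h0 (inv_ne_zero hz), G.inv, sub_eq_add_neg]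
        obtain ⟨m, h3, h4⟩ := ih _ (h.div1 hn hr (Or.inr h2)) (div_ne_zero h0 hz) (by omega)
        refine ⟨m + 1, by rwa [div_div, ← pow_succ'] at h3, ?_⟩
        push_cast
        linear_combination h4 - e
      · exact ⟨0, by simpa using hr, by omega⟩
  exact key ((G.v r).toNat + 1) r hr h0 (by omega)

theorem CR.v0 (h : CR G C O) (hn : NC G (sg C)) (hG : Nrm G) : G.v (C.z 0) = 1 := by
  obtain ⟨t, ht⟩ := hG
  have h0 : t ≠ 0 := fun e => by simp [e, G.zero] at ht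
  obtain ⟨s, h1, h2, h3⟩ := h.fr t
  obtain ⟨m, -, e⟩ := h.ord hn (le_ex h1) h2
  obtain ⟨m', -, e'⟩ := h.ord hn (le_ex h3) (mul_ne_zero h2 h0)
  rw [G.mul _ _ h2 h0, ht, e] at e'
  have hv := (h.pos 0).resolve_left (C.ne 0)
  exact Int.eq_one_of_mul_eq_one_left (a := m' - m) (by omega) (by linear_combination -e')

theorem CR.divn (h : CR G C O) (hn : NC G (sg C)) (hG : Nrm G) (m : ℕ) {r : L}
    (hr : r ∈ ex C O 0) (h1 : r ∈ G.F m) : r / C.z 0 ^ m ∈ ex C O 0 := by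
  induction m with
  | zero => simpa using hr
  | succ m ih =>
    have h2 := F_div h1 (C.z 0 ^ m)
    rw [v_pow G (C.ne 0), h.v0 hn hG] at h2
    rw [pow_succ, ← div_div]
    exact h.div1 hn (ih (G.F_anti (by omega) h1)) (G.F_anti (by omega) h2)

theorem CR.frac (h : CR G C O) (hn : NC G (sg C)) (hG : Nrm G) {g : L} (hg : g ∈ G.F 0) :
    ∃ s ∈ ex C O 0, s ≠ 0 ∧ G.v s = 0 ∧ s * g ∈ ex C O 0 := by
  obtain ⟨s, h1, h2, h3⟩ := h.fr g
  obtain ⟨m, h4, e⟩ := h.ord hn (le_ex h1) h2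
  have hz := pow_ne_zero m (C.ne 0)
  refine ⟨_, h4, div_ne_zero h2 hz, ?_, ?_⟩
  · rw [div_eq_mul_inv, G.mul _ _ h2 (inv_ne_zero hz), G.inv, v_pow G (C.ne 0), e, add_neg_cancel]
  · rw [div_mul_eq_mul_div]
    refine h.divn hn hG m (le_ex h3) (F_mul0' (Or.inr ?_) hg)
    rw [e, h.v0 hn hG, mul_one]

/-- The valuation is the order along the exceptional curve. -/
theorem CR.dat (h : CR G C O) (hn : NC G (sg C)) (hG : Nrm G) :
    (Cr.qt C 0).Dat (ex C O 0) G 0 where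
  adp := by
    refine ⟨cst_F G, Fin.forall_fin_two.2 ⟨h.v0 hn hG, by rw [qt_z1', hn.v.2]; rfl⟩,
      fun j g hg => ?_⟩
    obtain ⟨s, h1, h2, h3, h4⟩ := h.frac hn hG hg
    have hD := (st_ex (c := 0) h.st).D j
    have := F_div (sub_mem (h.exF hn (hD _ h4)) (F_mul0 hg (h.exF hn (hD _ h1)))) s
    rw [h3, sub_zero, Derivation.leibniz, smul_eq_mul, smul_eq_mul, add_sub_cancel_right,
      mul_div_cancel_left₀ _ h2] at this
    exact this
  le _ := h.exF hn
  div _ := h.div1 hn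

/-- The residue field is generated by the slope. -/
theorem CR.gen (P : Pl L k) (h : CR P.o C O) (hn : NC P.o (sg C)) (hG : Nrm P.o) :
    IntermediateField.adjoin ℂ {P.π (sg C)} = ⊤ := by
  refine eq_top_iff.2 fun y _ => ?_
  obtain ⟨g, hg, rfl⟩ := P.surj y
  obtain ⟨s, h1, h2, h3, h4⟩ := h.frac hn hG hg
  obtain ⟨p, hp, -⟩ := CR.πpol P h hn h4
  obtain ⟨q, hq, -⟩ := CR.πpol P h hn h1
  refine (IntermediateField.mem_adjoin_simple_iff _ _).2 ⟨p, q, ?_⟩
  rw [← hp, ← hq, P.mul _ (h.exF hn h1) _ hg, mul_div_cancel_left₀ _ (Pl.π_ne h2 h3)]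

theorem nrm_of (hG : Dvs G) : Nrm G := by
  obtain ⟨C, i, h⟩ := hG
  exact ⟨_, h.vz⟩

/-- The exponent of the exceptional curve is the sum of the exponents. -/
theorem CR.exp (h : CR G C O) (hn : NC G (sg C)) (hG : Nrm G) {d : Dv L} {a : Fin 2 → ℂ}
    (ha : C.Ad O d a) : Exp d G (a 0 + a 1) := (h.dat hn hG).exp (ad_qt h.st ha)

theorem CR.δ_th (h : CR G C O) {d : Dv L} {a : Fin 2 → ℂ} (ha : C.Ad O d a) (i : Fin 2) :
    d.δ (C.th i) - algebraMap ℂ L (a i) ∈ G.F 1 :=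
  F_of_eq (F_mul0 (h.le _ (ha i)) (h.pos i)) (div_mul_cancel₀ _ (C.ne i)).symm

theorem CR.th_LV (h : CR G C O) (hn : NC G (sg C)) (hG : Nrm G) : C.th 1 ∈ LV G 0 := by
  rw [← qt_th1]
  exact LV_smul0 ((h.dat hn hG).adp.z_F 1) ((h.dat hn hG).adp.D_LV (by simp))

theorem th1_sg (C : Co L 2) : C.th 1 (sg C) = sg C := by
  have := (qt C 0).th_z 1 1
  rwa [qt_th1, if_pos rfl, qt_z1'] at this

theorem th0_sg (C : Co L 2) : C.th 0 (sg C) = -sg C := by
  have := (qt C 0).th_z 0 1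
  rw [qt_th0, if_neg (by simp), qt_z1', Derivation.add_apply, th1_sg] at this
  linear_combination this

/-- A derivation of the field of rational functions is determined by one value. -/
theorem der_zero {t : k} (h : IntermediateField.adjoin ℂ {t} = ⊤) {w : VF k} (hw : w t = 0) :
    w = 0 := by
  ext y
  have hy : y ∈ IntermediateField.adjoin ℂ {t} := h ▸ IntermediateField.mem_top
  obtain ⟨p, q, rfl⟩ := (IntermediateField.mem_adjoin_simple_iff _ _).1 hy
  simp [Derivation.leibniz_div, Derivation.map_aeval, hw]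

end

end Pool.Agent.MP_ee8c61_ag.M3BK.Cr
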