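import Pool.Agent.MP_ee8c61_ag.M3BK.Spec
import Pool.Agent.MP_ee8c61_ag.M3BK.Cr2

/-!
The type of a curve of exponent zero.
-/

namespace Pool.Agent.MP_ee8c61_ag.M3BK

open M3 M3RESID Set Polynomial
open Pool.Agent.MP_96693b_ag.RS (Loc)

noncomputable section

namespace Cr

variable {L k : Type} [Field L] [Algebra ℂ L] [Field k] [Algebra ℂ k]

/-- An eigenfunction of the Euler field has an integral eigenvalue. -/
theorem eig_int {σ : k} {θ : VF k} (h : P1 σ θ) {μ : ℂ} {t : k} (ht : t ≠ 0)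
    (e : θ t + algebraMap ℂ k μ * t = 0) : ∃ m : ℤ, μ = m := by
  have hy : t ∈ IntermediateField.adjoin ℂ {σ} := h.gen ▸ IntermediateField.mem_top
  obtain ⟨p, q, rfl⟩ := (IntermediateField.mem_adjoin_simple_iff _ _).1 hy
  have hp : p ≠ 0 := fun e => ht (by simp [e])
  have hq : q ≠ 0 := fun e => ht (by simp [e])
  have hq' : aeval σ q ≠ 0 := fun e => ht (by simp [e])
  have e1 : aeval σ (X * derivative p * q - p * (X * derivative q) + Polynomial.C μ * (p * q)) =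
      0 := by
    simp only [Derivation.leibniz_div, Derivation.map_aeval, h.eul, smul_eq_mul] at e
    simp only [map_add, map_sub, map_mul, aeval_X, aeval_C]
    field_simp at e
    linear_combination e
  have e2 := congrArg (fun r : ℂ[X] => r.coeff (p.natDegree + q.natDegree))
    (transcendental_iff.1 h.tr _ e1)
  have d1 : ∀ r : ℂ[X], (X * derivative r).natDegree ≤ r.natDegree ∧
      (X * derivative r).coeff r.natDegree = r.natDegree * r.leadingCoeff := fun r => by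
    have : ∀ n, (X * derivative r).coeff n = n * r.coeff n := fun n => by
      cases n with
      | zero => simp
      | succ n => rw [coeff_X_mul, coeff_derivative]; push_cast; ring
    exact ⟨natDegree_le_iff_coeff_eq_zero.2 fun n hn => by
      rw [this, coeff_eq_zero_of_natDegree_lt hn, mul_zero], this _⟩
  simp only [coeff_add, coeff_sub, coeff_C_mul, coeff_zero] at e2
  rw [coeff_mul_add_eq_of_natDegree_le (d1 p).1 le_rfl,
    coeff_mul_add_eq_of_natDegree_le le_rfl (d1 q).1,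
    coeff_mul_add_eq_of_natDegree_le le_rfl le_rfl, (d1 p).2, (d1 q).2] at e2
  refine ⟨q.natDegree - p.natDegree, mul_right_cancel₀
    (mul_ne_zero (leadingCoeff_ne_zero.2 hp) (leadingCoeff_ne_zero.2 hq)) ?_⟩
  push_cast
  rw [leadingCoeff, leadingCoeff] at *
  linear_combination e2

/-- The type, in coordinates adapted to the curve. -/
theorem ty0 {C : Co L 2} {G : DV L} {d : Dv L} {v Θ : VF L} {b μ : ℂ} {X₀ : Set L} {y : L}
    (h : C.At G 0) (hy0 : y ≠ 0) (hy : G.v y = 0)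
    (gen : IntermediateField.adjoin ℂ {G.pl.π y} = ⊤)
    (hs : ∀ w : VF G.kf, w (G.pl.π (C.z 1)) = 0 → w (G.pl.π y) = 0) (hΘ : Θ ∈ LV G 0)
    (hΘy : Θ y = y) (hμ : d.δ Θ - algebraMap ℂ L μ ∈ G.F 1) (hd : Exp d G 0) (hb : b ≠ 0)
    (hv : d.δ v = algebraMap ℂ L b)
    (alt : (∃ n : ℤ, n * μ = 1) ∨
      ∃ (κ : ℂ) (v' : VF L), v - v' ∈ d.Ex ∧ v' ∈ LV G 0 ∧ v' y = algebraMap ℂ L κ * y)
    (hX : ∀ c ∈ X₀, G.pl.π c ∈ range (algebraMap ℂ G.kf)) : TY d v b X₀ G := by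
  have hyF : y ∈ G.F 0 := Or.inr hy.ge
  have hσ : G.pl.π y ≠ 0 := Pl.π_ne (P := G.pl) hy0 hy
  obtain ⟨θ, hθ⟩ := Pl.exists_Rs (P := G.pl) hΘ
  have eul : θ (G.pl.π y) = G.pl.π y := by rw [← hθ.2 y hyF, hΘy]
  have tr : Transcendental ℂ (G.pl.π y) := by
    by_contra h1
    obtain ⟨c, hc⟩ := cst_of_alg h1
    rw [← hc, Derivation.map_algebraMap, hc] at eul
    exact hσ eul.symm
  have hP : P1 (G.pl.π y) θ := ⟨tr, gen, eul⟩
  have hδ : ∀ e, G.pl.RsD d e → e.δ θ = algebraMap ℂ _ μ := fun e he => by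
    rw [← he _ _ hθ, Pl.π_congr (P := G.pl) (cst_F G μ) hμ, G.pl.π_cst]
  obtain ⟨C', hC'⟩ := Pl.exists_RsC (P := G.pl) h fun w hw => der_zero gen (hs w (hw 0))
  obtain ⟨e, he⟩ := Pl.exists_RsD (P := G.pl) hd h.vz (hC'.lift h)
  have hw : ∀ w, G.pl.Res d v w → e.δ w = algebraMap ℂ _ b := fun w hw => by
    rw [hw.δ he, hv, G.pl.π_cst]
  have hex : ∀ (w : VF G.kf) (t : G.kf), w (G.pl.π y) = t * G.pl.π y → w = t • θ :=
    fun w t e => sub_eq_zero.1 (der_zero gen (by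
      rw [Derivation.sub_apply, Derivation.smul_apply, eul, e, smul_eq_mul, sub_self]))
  rcases alt with ⟨n, hn⟩ | ⟨κ, v', h1, h2, h3⟩
  · have hμ0 : μ ≠ 0 := fun e => by simp [e] at hn
    refine ⟨_, θ, μ, hμ0, hP, hδ, ?_, hX⟩
    by_cases hm : ∃ m : ℤ, μ = m
    · obtain ⟨m, rfl⟩ := hm
      have : n * m = 1 := by exact_mod_cast hn
      rcases Int.eq_one_or_neg_one_of_mul_eq_one' this with ⟨-, rfl⟩ | ⟨-, rfl⟩ <;> simp
    refine Or.inr fun w hr => ?_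
    have e1 := hex w (w (G.pl.π y) / G.pl.π y) (div_mul_cancel₀ _ hσ).symm
    have e2 := hw w hr
    rw [e1, e.smul, hδ e he] at e2
    rw [e1]
    congr 1
    by_contra h0
    refine hm (eig_int hP (sub_ne_zero.2 h0) ?_)
    have e3 : algebraMap ℂ G.kf μ * algebraMap ℂ G.kf (b / μ) = algebraMap ℂ G.kf b := by
      rw [← map_mul, mul_div_cancel₀ _ hμ0]
    rw [map_sub, Derivation.map_algebraMap]
    linear_combination e2 - e3
  · obtain ⟨w₀, h4⟩ := Pl.exists_Rs (P := G.pl) h2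
    have e1 : w₀ = algebraMap ℂ G.kf κ • θ := hex _ _ (by
      rw [← h4.2 y hyF, h3, G.pl.mul _ (cst_F G κ) _ hyF, G.pl.π_cst])
    have h5 : G.pl.Res d v w₀ := ⟨v - v', h1, by rwa [sub_sub_cancel]⟩
    have e2 := hw _ h5
    rw [e1, e.δ_cst, hδ e he, ← map_mul] at e2
    have e3 : κ * μ = b := (algebraMap ℂ G.kf).injective e2
    have hμ0 : μ ≠ 0 := fun e => hb (by rw [← e3, e, mul_zero])
    refine ⟨_, θ, μ, hμ0, hP, hδ, Or.inr fun w hr => ?_, hX⟩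
    rw [← e3, mul_div_cancel_right₀ _ hμ0, ← e1]
    exact sub_eq_zero.1 (Ex_one C' e (Pl.Res.uniq hC' h hd he hr h5))

/-- The field is linear in the coordinates, or the exponents generate one. -/
def Inv (v : VF L) (C : Co L 2) (a : Fin 2 → ℂ) : Prop :=
  (∃ α β : ℂ, v (C.z 0) = algebraMap ℂ L α * C.z 0 ∧ v (C.z 1) = algebraMap ℂ L β * C.z 1) ∨
    ∃ n n' : ℤ, n * a 0 + n' * a 1 = 1

theorem lin_sg {v : VF L} {C : Co L 2} {α β : ℂ} (h : v (C.z 0) = algebraMap ℂ L α * C.z 0)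
    (h' : v (C.z 1) = algebraMap ℂ L β * C.z 1) : v (sg C) = algebraMap ℂ L (β - α) * sg C := by
  have h0 := C.ne 0
  rw [sg, Derivation.leibniz_div, h, h', map_sub]
  simp only [smul_eq_mul]
  field_simp

theorem Inv.sw {v : VF L} {C : Co L 2} {a : Fin 2 → ℂ} (h : Inv v C a) :
    Inv v (sw C) ![a 1, a 0] := by
  rcases h with ⟨α, β, h1, h2⟩ | ⟨n, n', h⟩
  · exact Or.inl ⟨β, α, h2, h1⟩
  · exact Or.inr ⟨n', n, (add_comm _ _).trans h⟩

theorem Inv.qt {v : VF L} {C : Co L 2} {a : Fin 2 → ℂ} (h : Inv v C a) (c : ℂ) :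
    Inv v (qt C c) (qv c a) := by
  by_cases hc : c = 0
  · subst hc
    rcases h with ⟨α, β, h1, h2⟩ | ⟨n, n', h⟩
    · exact Or.inl ⟨α, β - α, h1, by rw [qt_z1', lin_sg h1 h2]⟩
    · refine Or.inr ⟨n, n' - n, ?_⟩
      simp only [qv, if_true, Matrix.cons_val_zero, Matrix.cons_val_one, Int.cast_sub]
      linear_combination h
  · exact Or.inr ⟨0, 1, by simp [qv, hc]⟩

/-- The type of a curve that is contracted to a point. -/
theorem ty_dm {C : Co L 2} {x : Loc L} {G : DV L} {d : Dv L} {v v' : VF L} {b : ℂ} {X₀ : Set L}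
    {a : Fin 2 → ℂ} (h : Rg C x) (hm : Dm x G.O) (hG : Dvs G) (ha : C.Ad x.O d a)
    (hi : Inv v' C a) (hd : Exp d G 0) (hb : b ≠ 0) (hv : d.δ v = algebraMap ℂ L b)
    (hv' : v - v' ∈ d.Ex) (hX : ∀ c ∈ X₀, c ∈ x.O) : TY d v b X₀ G := by
  have h0 := CR.of h hm
  obtain ⟨C, O, h, ⟨a, ha, hi⟩, hn⟩ := iter hG (fun C O => ∃ a, C.Ad O d a ∧ Inv v' C a)
    (fun C O _ ⟨a, h1, h2⟩ => ⟨_, ad_sw h1, h2.sw⟩)
    (fun C O c h ⟨a, h1, h2⟩ => ⟨_, ad_qt h.st h1, h2.qt c⟩) h0 ⟨a, ha, hi⟩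
  have hN := nrm_of hG
  have hA := (h.dat hn hN).adp
  have e0 : a 0 + a 1 = 0 := (h.exp hn hN ha).uniq hd hA.vz
  refine ty0 hA hn.v.1 hn.v.2 (CR.gen G.pl h hn hN) (fun w hw => by rwa [qt_z1'] at hw)
    (h.th_LV hn hN) (th1_sg C) (h.δ_th ha 1) hd hb hv ?_ fun c hc => ?_
  · rcases hi with ⟨α, β, h1, h2⟩ | ⟨n, n', h1⟩
    · refine Or.inr ⟨β - α, v', hv', hA.mem_LV.2 ⟨?_, fun j hj => ?_⟩, lin_sg h1 h2⟩
      · rw [qt_z0, h1, zero_add]
        exact F_mul0 (cst_F G α) (h.pos 0)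
      · obtain rfl : j = 1 := by omega
        rw [qt_z1', lin_sg h1 h2]
        exact F_mul0 (cst_F G _) hn.1
    · refine Or.inl ⟨n' - n, ?_⟩
      push_cast
      linear_combination h1 - n * e0
  · obtain ⟨r, hr, -⟩ := h0.res (hX c hc)
    exact ⟨r, by rw [Pl.π_congr (P := G.pl) (cst_F G r) hr, G.pl.π_cst]⟩

end Cr

open Cr in
theorem rType : OfTYPE := by
  intro _ crv _ χ L _ _ d v b X₀ M G hb hv hG hX hd
  have : CharZero L := charZero_of_injective_algebraMap (algebraMap ℂ L).injective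
  obtain ⟨x, hx, hle⟩ := M.S.prop G.O (cst_F G) hX
  have hN := nrm_of hG
  have ha := (M.gp 0 x hx).ad
  have hg : (M.g : ℂ) ≠ 0 := by exact_mod_cast M.g0
  have hg' : (M.g : L) ≠ 0 := by exact_mod_cast M.g0
  have hb' : algebraMap ℂ L b ≠ 0 := by simpa using hb
  have hy0 := M.y0
  have vy : M.v' M.y = algebraMap ℂ L (b / M.g) * M.y := by
    rw [map_div₀, map_ratCast]
    field_simp
    linear_combination M.vy
  have vi : M.v' M.y⁻¹ = algebraMap ℂ L (-(b / M.g)) * M.y⁻¹ := by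
    rw [Derivation.leibniz_inv, vy, map_neg, smul_eq_mul]
    field_simp
  by_cases hm : Dm x G.O
  · refine ty_dm (M.S.rg x hx) hm hG ha ?_ hd hb hv M.ex (M.S.base x hx)
    rcases M.kind x hx with ⟨h1, -⟩ | ⟨h1, -⟩ | ⟨c, -, -, h1, -⟩
    · exact Or.inl ⟨0, _, by simp [M.vt x hx], by rw [h1, vy]⟩
    · exact Or.inl ⟨0, _, by simp [M.vt x hx], by rw [h1, vi]⟩
    · exact Or.inr ⟨0, 1, by simp [h1]⟩
  obtain ⟨π, hπ⟩ := hN
  obtain ⟨-, -, ⟨i, hi⟩ | ⟨-, h1⟩⟩ := crv L _ x G (M.S.rg x hx) ⟨⟨π, hπ⟩, hle, hm⟩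
  swap
  · exact (one_ne_zero ((h1 d _ ha).uniq hd hπ)).elim
  have e0 : M.a x i = 0 := (hi.exp ha).uniq hd hπ
  obtain rfl : i = 0 := by
    by_contra h2
    obtain rfl : i = 1 := by omega
    rcases M.kind x hx with ⟨-, h1, -⟩ | ⟨-, h1, -⟩ | ⟨c, -, -, h1, -⟩
    · exact hg (h1.symm.trans e0)
    · exact hg (neg_eq_zero.1 (h1.symm.trans e0))
    · exact one_ne_zero (h1.symm.trans e0)
  obtain ⟨f1, f2, f3⟩ := M.fib x hx G hi
  have hyF : M.y ∈ G.F 0 := Or.inr f1.ge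
  have hL : M.v' ∈ LV G 0 := hi.adp.mem_LV.2 ⟨by rw [M.vt x hx]; exact zero_mem _, fun j hj => by
    obtain rfl : j = 1 := by omega
    rcases M.kind x hx with ⟨h1, -⟩ | ⟨h1, -⟩ | ⟨c, -, h1, -⟩
    · rw [h1, vy]
      exact F_mul0 (cst_F G _) hyF
    · rw [h1, vi]
      exact F_mul0 (cst_F G _) (Or.inr (by rw [G.inv, f1]; simp))
    · rw [h1, map_sub, Derivation.map_algebraMap, sub_zero, vy]
      exact F_mul0 (cst_F G _) hyF⟩
  have hδ : d.δ M.v' = algebraMap ℂ L b := by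
    have := d.δ_Ex M.ex
    rw [map_sub, hv] at this
    linear_combination -this
  refine ty0 (Θ := algebraMap ℂ L (M.g / b) • M.v') (μ := M.g) hi.adp hy0 f1 f2 (fun w hw => ?_)
    (LV_smul0 (cst_F G _) hL) ?_ ?_ hd hb hv (Or.inr ⟨_, M.v', M.ex, hL, vy⟩) f3
  · rcases M.kind x hx with ⟨h1, -⟩ | ⟨h1, -⟩ | ⟨c, -, h1, -⟩
    · rwa [h1] at hw
    · have h2 := Pl.π_zpow (P := G.pl) hy0 f1 (-1)
      rw [zpow_neg_one, zpow_neg_one] at h2
      rw [h1, h2] at hw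
      rw [← inv_inv (G.pl.π M.y), Derivation.leibniz_inv, hw, smul_zero]
    · rwa [h1, Pl.π_sub (P := G.pl) hyF (cst_F G c), G.pl.π_cst, map_sub,
        Derivation.map_algebraMap, sub_zero] at hw
  · rw [Derivation.smul_apply, vy, smul_eq_mul, ← mul_assoc, ← map_mul, div_mul_div_cancel₀ hb,
      div_self hg, map_one, one_mul]
  · rw [d.δ_cst, hδ, ← map_mul, div_mul_cancel₀ _ hb, sub_self]
    exact zero_mem _

end

end Pool.Agent.MP_ee8c61_ag.M3BK
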