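import Pool.Agent.MP_ee8c61_ag.M3BK.Spec
import Pool.Agent.MP_ee8c61_ag.M3RESID.Res

/-!
The cross term of an exceptional curve.
-/

namespace Pool.Agent.MP_ee8c61_ag.M3BK

open M3 M3RESID Set
open Pool.Agent.MP_96693b_ag.RS (Loc LocOf)

namespace RXc

variable {L : Type} [Field L] [Algebra ℂ L]

theorem ex_dlog (d : Dv L) {ψ : L} (h : ψ ≠ 0) {u : VF L} (hu : u ∈ d.Ex) :
    ∃ X, u ψ / ψ = d.δ X := by
  refine d.Ex_ind (p := fun u => ∃ X, u ψ / ψ = d.δ X) (fun X Y => ?_) ⟨0, by simp⟩ ?_ hu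
  · refine ⟨-((X ψ / ψ) • Y - (Y ψ / ψ) • X), ?_⟩
    rw [map_neg]
    exact eq_neg_of_add_eq_zero_right (d.δ_sec ψ h X Y)
  · rintro u v ⟨X, hX⟩ ⟨Y, hY⟩
    exact ⟨X + Y, by rw [Derivation.add_apply, add_div, hX, hY, map_add]⟩

theorem dlog (v : VF L) {ψ φ : L} (h : ψ ≠ 0) (h' : φ ≠ 0) (n p : ℤ) :
    v (ψ ^ n / φ ^ p) / (ψ ^ n / φ ^ p) = n * (v ψ / ψ) - p * (v φ / φ) := by
  have h1 := zpow_ne_zero n h
  have h2 := zpow_ne_zero p h'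
  rw [Derivation.leibniz_div, Dv.zpow_der v ψ h, Dv.zpow_der v φ h']
  simp only [smul_eq_mul]
  generalize v ψ / ψ = A
  generalize v φ / φ = B
  field_simp

end RXc

theorem rXc : OfXC := by
  intro hC hP hT hS L _ _ d v b X₀ ψ φ C x a m G e a' hb hv hgp hlo hdm hdv hex hty hgd he ha'
  obtain ⟨σ', θ', μ', p', hμ', u, hu, h1, h2⟩ := hC L d v b φ C x a m G hgp hv hlo hdm hdv hex
  refine (hS _ σ' θ' e μ' _ a' p' (hμ' e he) ha' ?_).2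
  refine or_iff_not_imp_left.2 fun hne U hU hσ' => ?_
  obtain ⟨σ, θ, μ, μ0, p, hμ, h3, -⟩ := hty
  obtain ⟨⟨V, -, n1, -, n2, -⟩, q'⟩ := hP _ σ' θ' p'
  have q := (hP _ σ θ p).2
  have tri : ∀ W, Nrm W → W.v σ ≠ 0 → a' W ^ 2 = μ ^ 2 := fun W hW h0 => by
    obtain ⟨k1, k2, -⟩ := q e μ _ W (hμ e he) hW (ha' W hW)
    rcases lt_or_gt_of_ne h0 with c | c
    · rw [k2 c, neg_sq]
    · rw [k1 c]
  have h4 : μ ^ 2 ≠ 1 := fun c => by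
    have n3 : Nrm (V (some 0)) := (n1 _).2 ⟨_, rfl⟩
    have n4 := n2 0
    rw [map_zero, sub_zero] at n4
    have n5 := (q' e μ' _ _ (hμ' e he) n3 (ha' _ n3)).1 (by omega)
    by_cases c' : (V (some 0)).v σ = 0
    · exact hne (by rw [← n5, (q e μ _ _ (hμ e he) n3 (ha' _ n3)).2.2 c', one_pow])
    · exact hne (by rw [← n5, tri _ n3 c', c])
  have h5 : U.v σ = 0 := by
    by_contra c
    exact h4 (by rw [← tri U hU c, (q' e μ' _ U (hμ' e he) hU (ha' U hU)).2.2 hσ', one_pow])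
  obtain ⟨w, hw⟩ := Pl.exists_Rs (P := G.pl) h1
  have h6 := h3.resolve_left h4 w ⟨u, hu, hw⟩
  obtain ⟨ψ0, X, hX⟩ := hgd
  have φ0 : φ ≠ 0 := fun c => MP_96693b_ag.RS.Loc.ne_zero_of_ev hgp.mn (by rw [c, zero_div])
  obtain ⟨Y, hY⟩ := RXc.ex_dlog d ψ0 hu
  have h7 : (v - u) ψ / ψ = d.δ (X - Y) := by
    rw [Derivation.sub_apply, sub_div, hX, hY, map_sub]
  have h8 : (v - u) ψ / ψ ∈ G.pl.o.F 0 := LV_dlog h1 ψ
  have h9 : (v - u) φ / φ ∈ G.pl.o.F 0 := LV_dlog h1 φ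
  obtain ⟨w', hw'⟩ := Pl.flag (P := G.pl) hex he (h7 ▸ h8)
  have t0 : ψ ^ G.v φ / φ ^ G.v ψ ≠ 0 := div_ne_zero (zpow_ne_zero _ ψ0) (zpow_ne_zero _ φ0)
  have t1 : G.v (ψ ^ G.v φ / φ ^ G.v ψ) = 0 := by
    rw [div_eq_mul_inv, G.mul _ _ (zpow_ne_zero _ ψ0) (inv_ne_zero (zpow_ne_zero _ φ0)), G.inv,
      v_zpow G ψ0, v_zpow G φ0]
    ring
  have t2 := hw.dlog t0 t1
  rw [RXc.dlog _ ψ0 φ0, Pl.π_sub (F_mul0 (int_F _) h8) (F_mul0 (int_F _) h9),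
    G.pl.mul _ (int_F _) _ h8, G.pl.mul _ (int_F _) _ h9, Pl.π_int, Pl.π_int, h7, hw', h6,
    Derivation.smul_apply, smul_eq_mul] at t2
  refine hT _ σ θ e μ (b / μ) _ (G.v φ • w') U p (hμ e he) (div_ne_zero hb μ0) hU h5 ?_
  rw [← t2, map_zsmul, zsmul_eq_mul, sub_sub_cancel_left]
  exact neg_mem (F_mul0 (int_F _) (h2 U hσ'))

end Pool.Agent.MP_ee8c61_ag.M3BK
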