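import Pool.Agent.MP_ee8c61_ag.M3BK.Defs
import Pool.Agent.MP_ee8c61_ag.M3F.Spec
import Pool.Agent.MP_ee8c61_ag.M3E.Asm

/-!
The polar part of the zeta function: the statements. Every `OfX` is one task.
-/

namespace Pool.Agent.MP_ee8c61_ag.M3BK

open M3 M3RESID Set
open Pool.Agent.MP_96693b_ag.RS (Loc LocOf)

noncomputable section

/-! ### Integration -/

structure IntA (χ : H36.Chi) (L : Type) [Field L] [Algebra ℂ L] : Prop where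
  emp : ConP (∅ : Set (Loc L))
  pt : ∀ (W : Set (Loc L)) x, ConP W → x ∈ W → ConP {x} ∧ chiP χ {x} = 1
  up : ∀ (W W' : Set (Loc L)) x, ConP W → x ∈ W → ConP W' → ConP {y ∈ W' | x.O ≤ y.O}
  cv : ∀ (W : Set (Loc L)) (V : ValuationSubring L), ConP W → ConP {y ∈ W | Le y V}
  con : ∀ (F : Type) (W : Set (Loc L)) (w : Loc L → F), Cf W w → ConP W
  sub : ∀ (F : Type) (W W' : Set (Loc L)) (w : Loc L → F), Cf W w → ConP W' → W' ⊆ W → Cf W' w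
  congr : ∀ (F : Type) (W : Set (Loc L)) (w w' : Loc L → F), EqOn w w' W → Cf W w → Cf W w'
  cst : ∀ (F : Type) (W : Set (Loc L)) (w : Loc L → F) c, ConP W → (∀ x ∈ W, w x = c) → Cf W w
  union : ∀ (F : Type) (W W' : Set (Loc L)) (w : Loc L → F), Cf W w → Cf W' w → Cf (W ∪ W') w
  map : ∀ (F F' F'' : Type) (φ : F → F' → F'') (W : Set (Loc L)) (w : Loc L → F)
    (w' : Loc L → F'), Cf W w → Cf W w' → Cf W fun x => φ (w x) (w' x)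
  lab : ∀ (F Λ : Type) [Fintype Λ] (X₀ : Set L) (S : LSf L X₀ Λ) (φ : Set Λ → F),
    Cf S.X fun x => φ {j | ∃ i, S.lab x i = some j}

structure IntB (χ : H36.Chi) (L : Type) [Field L] [Algebra ℂ L] (F : Type) [AddCommGroup F] :
    Prop where
  congr : ∀ (W : Set (Loc L)) (w w' : Loc L → F), EqOn w w' W → Itg χ W w = Itg χ W w'
  cst : ∀ (W : Set (Loc L)) (w : Loc L → F) c, ConP W → (∀ x ∈ W, w x = c) →
    Itg χ W w = chiP χ W • c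
  union : ∀ (W W' : Set (Loc L)) (w : Loc L → F), Cf W w → Cf W' w → Disjoint W W' →
    Itg χ (W ∪ W') w = Itg χ W w + Itg χ W' w
  sum : ∀ (ι : Type) (s : Finset ι) (W : ι → Set (Loc L)) (w : Loc L → F), (∀ i ∈ s, Cf (W i) w) →
    (∀ i ∈ s, ∀ j ∈ s, i ≠ j → Disjoint (W i) (W j)) →
    Cf (⋃ i ∈ s, W i) w ∧ Itg χ (⋃ i ∈ s, W i) w = ∑ i ∈ s, Itg χ (W i) w
  add : ∀ (W : Set (Loc L)) (w w' : Loc L → F), Cf W w → Cf W w' →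
    Itg χ W (fun x => w x + w' x) = Itg χ W w + Itg χ W w'
  hom : ∀ (F' : Type) [AddCommGroup F'] (φ : F →+ F') (W : Set (Loc L)) (w : Loc L → F), Cf W w →
    Itg χ W (fun x => φ (w x)) = φ (Itg χ W w)
  supp : ∀ (W : Set (Loc L)) (w : Loc L → F), ConP W → (W ∩ Function.support w).Finite →
    Cf W w ∧ Itg χ W w = ∑ᶠ x ∈ W, w x

def SINTA : Prop := ∀ (χ : H36.Chi) (L : Type) [Field L] [Algebra ℂ L], IsEu χ → IntA χ L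
def SINTB : Prop := ∀ (χ : H36.Chi) (L : Type) [Field L] [Algebra ℂ L] (F : Type)
  [AddCommGroup F], IsEu χ → IntB χ L F
def OfINTA : Prop := SCON → SCHI → SINTA
def OfINTB : Prop := SCON → SCHI → SINTA → SINTB

/-- The constant term of the perturbed weight. -/
def SLAU : Prop := ∃ (F : Type) (_ : Field F) (_ : Algebra ℂ F) (ε : F) (c : F →+ ℂ),
  (∀ a m, a ≠ 0 ∨ m ≠ 0 → al ε a m ≠ 0) ∧
  (∀ a m, a 0 ≠ 0 → a 1 ≠ 0 → c (wt ε a m) = (a 0 * a 1)⁻¹) ∧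
  ∀ a m (i : Fin 2), a i = 0 → m i ≠ 0 → a i.rev ≠ 0 →
    c (wt ε a m) = -(m i.rev : ℂ) / (m i * a i.rev ^ 2)

open Classical in
/-- The polar part of a sum of products. -/
def SPOL : Prop := ∀ (J : Type) [Fintype J] (N k : J → ℕ) (la : ℚ) (c : Finset J → ℤ)
  (a : J → ℂ), (∀ j, 0 < N j) → (∀ j, a j = k j + 1 - la * N j) →
  (∀ I, c I ≠ 0 → (I.filter fun j => a j = 0).card ≤ 2) →
  ∑ I with (I.filter fun j => a j = 0).card = 2,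
    c I * ∏ j ∈ I, (if a j = 0 then (N j : ℂ) else a j)⁻¹ = 0 →
  ∑ I with (I.filter fun j => a j = 0).card = 1,
    c I * ∏ j ∈ I, (if a j = 0 then (N j : ℂ) else a j)⁻¹ =
  ∑ I with (I.filter fun j => a j = 0).card = 2,
    c I * (∏ j ∈ I, (if a j = 0 then (N j : ℂ) else a j)⁻¹) * ∑ j ∈ I with a j ≠ 0, N j / a j →
  ¬(∑ I : Finset J, (c I : RatFunc ℂ) *
    ∏ i ∈ I, 1 / ((N i : RatFunc ℂ) * RatFunc.X + (k i : RatFunc ℂ) + 1)).denom.IsRoot (-(la : ℂ))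

/-! ### Regular local rings of dimension two -/

def SNRM : Prop := ∀ (L : Type) [Field L] [Algebra ℂ L], (∀ x : Loc L, ∃ V, Dm x V) ∧
  ∀ (C : Co L 2) (x : Loc L), Rg C x → ∀ g, (∀ V, Dm x V → g ∈ V) → g ∈ x.O

/-- The curves through a point. -/
def SCRV : Prop := ∀ (L : Type) [Field L] [Algebra ℂ L] (C : Co L 2) (x : Loc L) (G : DV L),
  Rg C x → Thr x G → Dvs G ∧ (∀ g ∈ G.F 0, ∃ s ∈ x.O, s ≠ 0 ∧ G.v s = 0 ∧ s * g ∈ x.O) ∧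
    ((∃ i, C.Dat x.O G i) ∨ ((∀ i, G.v (C.z i) = 0) ∧ ∀ d a, C.Ad x.O d a → Exp d G 1))

/-- Over an ordinary point the exponents are at least two. -/
def SPOS : Prop := ∀ (L : Type) [Field L] [Algebra ℂ L] (d : Dv L) (C : Co L 2) (x : Loc L)
  (G : DV L) (a : ℂ), Rg C x → C.Ad x.O d 1 → Dm x G.O → Dvs G → Exp d G a → a ≠ 0 ∧ a ≠ 1

/-- The set `X` resolves the point `x₀`. -/
structure Ovr {L : Type} [Field L] [Algebra ℂ L] (X : Set (Loc L)) (C : Loc L → Co L 2)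
    (x₀ : Loc L) : Prop where
  rg : ∀ x ∈ X, Rg (C x) x
  prop : ∀ V, Dm x₀ V → ∃ x ∈ X, x₀.O ≤ x.O ∧ Le x V
  sep : ∀ V : ValuationSubring L, ∀ x ∈ X, ∀ x' ∈ X, Dm x V → Le x' V → x = x'

def SEXC : Prop := ∀ (L : Type) [Field L] [Algebra ℂ L] (X : Set (Loc L)) (C : Loc L → Co L 2)
  (C₀ : Co L 2) (x₀ : Loc L), Rg C₀ x₀ → Ovr X C x₀ → x₀ ∉ X →
    ∃ G : DV L, Dm x₀ G.O ∧ ∃ x ∈ X, Thr x G

def SDLS : Prop := ∀ (χ : H36.Chi) (L : Type) [Field L] [Algebra ℂ L] (F : Type) [Field F]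
  [Algebra ℂ F] (ε : F) (d : Dv L) (ψ : L) (X W : Set (Loc L)) (C : Loc L → Co L 2)
  (a : Loc L → Fin 2 → ℂ) (m : Loc L → Fin 2 → ℤ) (C₀ : Co L 2) (x₀ : Loc L) (a₀ : Fin 2 → ℂ)
  (m₀ : Fin 2 → ℤ), IsEu χ → ConP W → x₀ ∈ W → GP d ψ C₀ x₀ a₀ m₀ →
  (∀ i, al ε (a₀ i) (m₀ i) ≠ 0) → Ovr X C x₀ →
  (∀ x ∈ X, x₀.O ≤ x.O → GP d ψ (C x) x (a x) (m x) ∧ ∀ i, al ε (a x i) (m x i) ≠ 0) →
  {G : DV L | Dm x₀ G.O ∧ ∃ x ∈ X, Thr x G}.Finite → Cf X (fun x => wt ε (a x) (m x)) →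
  Itg χ {x ∈ X | x₀.O ≤ x.O} (fun x => wt ε (a x) (m x)) = wt ε a₀ m₀

/-- The ring at which a curve of exponent zero is created. -/
def SCRE : Prop := ∀ (L : Type) [Field L] [Algebra ℂ L] (d : Dv L) (v : VF L) (b : ℂ) (ψ : L)
  (C : Co L 2) (x : Loc L) (a : Fin 2 → ℂ) (m : Fin 2 → ℤ) (G : DV L), GP d ψ C x a m →
  d.δ v = algebraMap ℂ L b → (∃ u ∈ d.Ex, ∃ c, v - u ∈ C.F x.O c) → Dm x G.O → Dvs G → Exp d G 0 →
  ∃ (σ : G.kf) (θ : VF G.kf) (μ : ℂ), P1 σ θ ∧ (∀ e, G.pl.RsD d e → e.δ θ = algebraMap ℂ _ μ) ∧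
    ∃ u ∈ d.Ex, v - u ∈ LV G 0 ∧
      ∀ U : DV G.kf, U.v σ = 0 → G.pl.π ((v - u) ψ / ψ) ∈ U.F 0

def STYPE : Prop := ∀ (χ : H36.Chi) (L : Type) [Field L] [Algebra ℂ L] (d : Dv L) (v : VF L)
  (b : ℂ) (X₀ : Set L) (_ : M0 χ d v b X₀) (G : DV L), b ≠ 0 → d.δ v = algebraMap ℂ L b →
  Dvs G → (∀ c ∈ X₀, c ∈ G.F 0) → Exp d G 0 → TY d v b X₀ G

/-! ### Surfaces -/

def SCMP : Prop := ∀ (χ : H36.Chi) (L : Type) [Field L] [Algebra ℂ L] (F : Type) [Field F]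
  [Algebra ℂ F] (ε : F) (d : Dv L) (X₀ : Set L) (S S' : Sf L X₀) (ψ : Loc L → L)
  (a a' : Loc L → Fin 2 → ℂ) (m m' : Loc L → Fin 2 → ℤ), IsEu χ →
  (∀ x ∈ S.X, GP d (ψ x) (S.C x) x (a x) (m x) ∧ ∀ i, al ε (a x i) (m x i) ≠ 0) →
  (∀ x' ∈ S'.X, (∀ i, al ε (a' x' i) (m' x' i) ≠ 0) ∧ ∃ x ∈ S.X, x.O ≤ x'.O ∧
    GP d (ψ x) (S'.C x') x' (a' x') (m' x')) →
  {G : DV L | (∃ x ∈ S.X, Dm x G.O) ∧ ∃ x' ∈ S'.X, Thr x' G}.Finite →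
  Cf S.X (fun x => wt ε (a x) (m x)) → Cf S'.X (fun x => wt ε (a' x) (m' x)) →
  Itg χ S'.X (fun x => wt ε (a' x) (m' x)) = Itg χ S.X (fun x => wt ε (a x) (m x))

def OfCMP : Prop := SCON → SINTA → SINTB → SNRM → SEXC → SDLS → SCMP

def SM0 : Prop := ∀ (χ : H36.Chi) (L : Type) [Field L] [Algebra ℂ L] (C : Co L 2) (d : Dv L)
  (v : VF L) (b : ℂ) (X₀ : Set L), IsEu χ → M3F.Srf C d v b → X₀.Finite → STAR d v b X₀ →
  Nonempty (M0 χ d v b X₀)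

def OfM0 : Prop := SCON → SCHI → SINTA → SINTB → SNRM → SM0

/-- Flags. -/
def SFL : Prop := ∀ (L : Type) [Field L] [Algebra ℂ L] (C : Co L 2) (x : Loc L) (i : Fin 2),
  Rg C x → (∃ G U, Fl C x i G U) ∧ (∀ G G', C.Dat x.O G i → C.Dat x.O G' i → G = G') ∧
  (∀ G, C.Dat x.O G i → Thr x G ∧ (¬C.Dat x.O G i.rev) ∧ (∃ U, Fl C x i G U) ∧
    (∀ w, ∃ v, G.pl.Rs v w) ∧ ∀ w w' d v e, Exp d G 0 → G.pl.RsD d e → G.pl.Res d v w →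
      G.pl.Res d v w' → w = w') ∧
  ∀ G U, Fl C x i G U → (∀ U', Nrm U' → (∀ g ∈ x.O, G.pl.π g ∈ U'.F 0) →
      (∀ g ∈ x.O, x.ev g = 0 → G.pl.π g ∈ U'.F 1) → U' = U) ∧
    (∀ g ∈ x.O, G.pl.π g ∈ U.F 1 ↔ x.ev g = 0) ∧ (∀ y ∈ U.F 0, ∃ g ∈ x.O, G.pl.π g = y) ∧
    ∀ d a e, C.Ad x.O d a → a i = 0 → G.pl.RsD d e → Exp e U (a i.rev)

/-- The points of a rational curve are the places of its function field. -/
def SCUR : Prop := ∀ (L : Type) [Field L] [Algebra ℂ L] (X₀ : Set L) (S : Sf L X₀) (G : DV L)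
  (σ : G.kf) (θ : VF G.kf), Nrm G → P1 σ θ → (∀ c ∈ X₀, c ∈ G.F 0) →
  (∀ c ∈ X₀, G.pl.π c ∈ range (algebraMap ℂ G.kf)) → ∀ U : DV G.kf, Nrm U →
    ∃ x ∈ S.X, Le x G.O ∧ (∀ g ∈ x.O, G.pl.π g ∈ U.F 0) ∧
      (∀ g ∈ x.O, x.ev g = 0 → G.pl.π g ∈ U.F 1) ∧
      ∀ x' ∈ S.X, Le x' G.O → (∀ g ∈ x'.O, G.pl.π g ∈ U.F 0) → x' = x

/-- The places of the projective line. -/
def SP1 : Prop := ∀ (k : Type) [Field k] [Algebra ℂ k] (σ : k) (θ : VF k), P1 σ θ →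
  (∃ U : Option ℂ → DV k, U.Injective ∧ (∀ U', Nrm U' ↔ U' ∈ range U) ∧ (U none).v σ = -1 ∧
    (∀ c, (U (some c)).v (σ - algebraMap ℂ k c) = 1) ∧
    (∀ c, c ≠ 0 → (U (some c)).v σ = 0) ∧
    (∀ c, ∀ t ∈ (U c).F 0, ∃ r : ℂ, t - algebraMap ℂ k r ∈ (U c).F 1) ∧
    ∀ t : k, (Function.support fun c => (U c).v t).Finite ∧ ∑ᶠ c, (U c).v t = 0) ∧
  ∀ (e : Dv k) (μ a : ℂ) (U : DV k), e.δ θ = algebraMap ℂ k μ → Nrm U → Exp e U a →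
    (0 < U.v σ → a = μ) ∧ (U.v σ < 0 → a = -μ) ∧ (U.v σ = 0 → a = 1)

/-- A unit whose logarithmic derivative is a divergence has no zero at an ordinary point. -/
def STH : Prop := ∀ (k : Type) [Field k] [Algebra ℂ k] (σ : k) (θ : VF k) (e : Dv k) (μ c : ℂ)
  (t : k) (X : VF k) (U : DV k), P1 σ θ → e.δ θ = algebraMap ℂ k μ → c ≠ 0 → Nrm U → U.v σ = 0 →
  algebraMap ℂ k c * θ t / t - e.δ X ∈ U.F 0 → U.v t = 0

def OfTH : Prop := SP1 → STH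
def OfCUR : Prop := SP1 → SCUR
def OfEXC : Prop := SNRM → SEXC
def OfDLS : Prop := SCON → SCHI → SINTA → SINTB → SNRM → SCRV → SFL → SEXC → SDLS
def OfCRE : Prop := SNRM → SCRE
def OfTYPE : Prop := SNRM → SCRV → SFL → STYPE

/-- The weighted degree vanishes. -/
def SSUM : Prop := ∀ (k : Type) [Field k] [Algebra ℂ k] (σ : k) (θ : VF k) (e : Dv k) (μ : ℂ)
  (t : k) (a : DV k → ℂ), P1 σ θ → e.δ θ = algebraMap ℂ k μ → (∀ U, Nrm U → Exp e U (a U)) →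
  (μ ^ 2 = 1 ∨ ∀ U, Nrm U → U.v σ = 0 → U.v t = 0) →
  {U | Nrm U ∧ U.v t ≠ 0}.Finite ∧ ∑ᶠ U ∈ {U | Nrm U}, (U.v t : ℂ) * (a U)⁻¹ ^ 2 = 0

def OfSUM : Prop := SP1 → SSUM

/-- No double pole. -/
def SRG : Prop := ∀ (χ : H36.Chi) (L : Type) [Field L] [Algebra ℂ L] (d : Dv L) (v : VF L)
  (b : ℂ) (X₀ : Set L) (S : Sf L X₀) (a : Loc L → Fin 2 → ℂ) (G : DV L), IsEu χ →
  (∀ x ∈ S.X, (S.C x).Ad x.O d (a x)) → TY d v b X₀ G → Exp d G 0 →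
  (∃ x ∈ S.X, Thr x G) → (∀ c ∈ X₀, c ∈ G.F 0) →
  Cf {x ∈ S.X | Le x G.O} (fun x => w1 (a x)) ∧
    Itg χ {x ∈ S.X | Le x G.O} (fun x => w1 (a x)) = 0

def OfRG : Prop := SCON → SCHI → SINTA → SINTB → SNRM → SCRV → SFL → SCUR → SP1 → SRG

/-- A sum over the points of a curve of exponent zero is a sum over places. -/
def SPL : Prop := ∀ (L : Type) [Field L] [Algebra ℂ L] (d : Dv L) (v : VF L)
  (b : ℂ) (X₀ : Set L) (S : Sf L X₀) (a : Loc L → Fin 2 → ℂ) (G : DV L),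
  (∀ x ∈ S.X, (S.C x).Ad x.O d (a x)) → TY d v b X₀ G → Exp d G 0 →
  (∃ x ∈ S.X, Thr x G) → (∀ c ∈ X₀, c ∈ G.F 0) →
  ∃ (p : Loc L → DV G.kf) (e : Dv G.kf) (a' : DV G.kf → ℂ), G.pl.RsD d e ∧
    BijOn p {x ∈ S.X | Le x G.O} {U | Nrm U} ∧ (∀ U, Nrm U → Exp e U (a' U)) ∧
    ∀ x ∈ S.X, Le x G.O → (∃ i, a x i = 0 ∧ Fl (S.C x) x i G (p x)) ∧ w1 (a x) = (a' (p x))⁻¹

def OfPL : Prop := SNRM → SCRV → SFL → SCUR → SP1 → SPL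

/-- The cross term of an exceptional curve. -/
def SXC : Prop := ∀ (L : Type) [Field L] [Algebra ℂ L] (d : Dv L) (v : VF L) (b : ℂ)
  (X₀ : Set L) (ψ φ : L) (C : Co L 2) (x : Loc L) (a : Fin 2 → ℂ) (m : Fin 2 → ℤ) (G : DV L)
  (e : Dv G.kf) (a' : DV G.kf → ℂ), b ≠ 0 → d.δ v = algebraMap ℂ L b → GP d φ C x a m →
  (∃ u ∈ d.Ex, ∃ c, v - u ∈ C.F x.O c) → Dm x G.O → Dvs G → Exp d G 0 → TY d v b X₀ G →
  Gd d v ψ → G.pl.RsD d e → (∀ U, Nrm U → Exp e U (a' U)) →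
  ∑ᶠ U ∈ {U : DV G.kf | Nrm U},
    (U.v (G.pl.π (ψ ^ G.v φ / φ ^ G.v ψ)) : ℂ) * (a' U)⁻¹ ^ 2 = 0

def OfXC : Prop := SCRE → SP1 → STH → SSUM → SXC

def SBKL : Prop := ∀ (χ : H36.Chi) (L : Type) [Field L] [Algebra ℂ L] (C : Co L 2) (d : Dv L)
  (v : VF L) (b : ℂ) (X₀ : Set L) (Λ : Type) [Fintype Λ] (S : LSf L X₀ Λ) (a : Λ → ℂ)
  (m : Λ → ℤ), IsEu χ → M3F.Srf C d v b → X₀.Finite → STAR d v b X₀ → S.Ad d a → S.Lo d v →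
  (∀ j, 0 < m j) → S.Up d m → ∃ ψ ρ, Out χ d v b S a ψ ρ

def OfBKL : Prop := SCON → SINTA → SINTB → SLAU → SNRM → SCRV → SPOS → STYPE → SCMP → SM0 → SFL →
  SP1 → SRG → SPL → SXC → SBKL

/-! ### From the threefold to the surfaces -/

/-- Charts at all points. -/
def Pts (M : Mod 3) (f : Po 3) (C : Loc (KK 3) → Co (KK 3) 3)
    (lab : Loc (KK 3) → Fin 3 → Option M.J) : Prop := ∀ Q ∈ M.pts, Pt3 M f Q (C Q) (lab Q)

def SPT : Prop := ∀ (f : Po 3) (M : Mod 3), f ≠ 0 → M.OK f → ∃ C lab, Pts M f C lab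

def OfPT : Prop := M3E.EOut → SPT

def SSURF : Prop := ∀ (f : Po 3) (M : Mod 3) C lab (o : M.J) (k : Type) [Field k] [Algebra ℂ k]
  (P : Pl (KK 3) k), M.OK f → Pts M f C lab → P.o = M.v o → ∃ S rs, IsSf M C lab o P S rs

def OfSURF : Prop := M3E.EOut → SCON → SSURF

def SAD : Prop := ∀ (f : Po 3) (la : ℚ) (b : Polynomial ℂ) β Q (M : Mod 3) C lab (o : M.J)
  (k : Type) [Field k] [Algebra ℂ k] (P : Pl (KK 3) k) S rs (e : Dv k) (v : VF k),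
  Hyp f la b β Q → M.OK f → Pts M f C lab → IsSf M C lab o P S rs → M.ex la o = 0 →
  P.RsD (dvf f la) e → S.Ad e (fun j => (M.ex la j : ℂ)) ∧
    (P.Res (dvf f la) (bf la β) v → S.Lo e v)

def SSRF : Prop := ∀ (f : Po 3) (la : ℚ) (b : Polynomial ℂ) β Q (M : Mod 3) (o : M.J)
  (k : Type) [Field k] [Algebra ℂ k] (P : Pl (KK 3) k) (e : Dv k) (v : VF k),
  Hyp f la b β Q → M.OK f → P.o = M.v o → M.ex la o = 0 → P.RsD (dvf f la) e →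
  P.Res (dvf f la) (bf la β) v → ∃ C, M3F.Srf C e v (b.eval (-(la : ℂ)))

def OfSRF : Prop := M3E.EOut → SPT → SSRF

def SCHT : Prop := ∀ (χ : H36.Chi) (f : Po 3) (M : Mod 3) C lab (o : M.J) (k : Type) [Field k]
  [Algebra ℂ k] (P : Pl (KK 3) k) S rs (I : Finset M.J), IsEu χ → M.OK f → Pts M f C lab →
  IsSf M C lab o P S rs → o ∈ I →
  chiP χ (M.str I) = chiP χ {x ∈ S.X | ∀ j, (∃ i, S.lab x i = some j) ↔ j ∈ I.erase o}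

def OfCHT : Prop := M3E.EOut → SCON → SCHI → SCHT

def SUP : Prop := ∀ (f : Po 3) (la : ℚ) (b : Polynomial ℂ) β Q (M : Mod 3) C lab (o : M.J)
  (k : Type) [Field k] [Algebra ℂ k] (P : Pl (KK 3) k) S rs (e : Dv k),
  Hyp f la b β Q → M.OK f → Pts M f C lab → IsSf M C lab o P S rs → M.ex la o = 0 →
  P.RsD (dvf f la) e → S.Up e M.aa

def OfUP : Prop := M3E.EOut → SPT → SSURF → SAD → SUP

open Classical in
/-- The order of `f` along the divisors through `Q` other than `o` and `o'`. -/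
def thd (M : Mod 3) (o o' : M.J) (Q : Loc (KK 3)) : ℂ :=
  ∑ j with j ≠ o ∧ j ≠ o' ∧ M.On Q j, (M.a j : ℂ)

def SCROSS : Prop := ∀ (χ : H36.Chi) (f : Po 3) (la : ℚ) (b : Polynomial ℂ) β Q (M : Mod 3) C lab
  (o o' : M.J) (k k' : Type) [Field k] [Algebra ℂ k] [Field k'] [Algebra ℂ k']
  (P : Pl (KK 3) k) (P' : Pl (KK 3) k') S rs S' rs' (e : Dv k) (v : VF k) (e' : Dv k')
  (v' : VF k') ψ ρ ψ' ρ', Hyp f la b β Q → M.OK f → Pts M f C lab → o ≠ o' →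
  IsSf M C lab o P S rs → IsSf M C lab o' P' S' rs' → M.ex la o = 0 → M.ex la o' = 0 →
  P.RsD (dvf f la) e → P.Res (dvf f la) (bf la β) v →
  P'.RsD (dvf f la) e' → P'.Res (dvf f la) (bf la β) v' →
  Out χ e v (b.eval (-(la : ℂ))) S (fun j => (M.ex la j : ℂ)) ψ ρ →
  Out χ e' v' (b.eval (-(la : ℂ))) S' (fun j => (M.ex la j : ℂ)) ψ' ρ' →
  ∑ᶠ x ∈ {x ∈ M.pts | M.On x o ∧ M.On x o'},
    (M.a o' * ρ (rs x) + M.a o * ρ' (rs' x) - thd M o o' x) *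
      w1 (S.ea (fun j => (M.ex la j : ℂ)) (rs x)) ^ 2 = 0

def OfCROSS : Prop := M3E.EOut → SFL → SP1 → STH → SSUM → SPL → SAD → SCROSS

def OfBOOK : Prop := M3E.EOut → SCON → SCHI → SINTA → SINTB → SPOL → SPT → SSURF → SAD → SSRF →
  SCHT → SUP → SBKL → SCROSS → SBOOK

end

end Pool.Agent.MP_ee8c61_ag.M3BK
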