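import Pool.Agent.MP_ee8c61_ag.M3BK.XDefs
import Pool.Agent.MP_ee8c61_ag.M3RESID.Crv

/-! A good function on the surface lifts to the local ring of the curve. -/

namespace Pool.Agent.MP_ee8c61_ag.M3BK

open M3 M3RESID
open Pool.Agent.MP_96693b_ag.RS (Loc)

namespace XGdl

variable {L : Type} [Field L] [Algebra ℂ L] {n : ℕ} {D : Co L n} {O : Subalgebra ℂ L} {o : DV L}
  {j : Fin n}

theorem dat_pow (h : D.Dat O o j) (r : ℕ) : ∀ g ∈ O, g ∈ o.F r → g / D.z j ^ r ∈ O := by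
  induction r with
  | zero => intro g hg _; simpa using hg
  | succ r ih =>
    intro g hg h1
    have h2 := h.div g hg (o.F_anti (by omega) h1)
    have h3 := F_div h1 (D.z j)
    rw [h.adp.vz, show ((r + 1 : ℕ) : ℤ) - 1 = r by push_cast; ring] at h3
    have := ih _ h2 h3
    rwa [div_div, ← pow_succ'] at this

theorem dat_loc (h : D.Dat O o j) (hf : ∀ g : L, ∃ q ∈ O, q ≠ 0 ∧ q * g ∈ O) {g : L}
    (hg : g ∈ o.F 0) : ∃ q ∈ O, q ≠ 0 ∧ o.v q = 0 ∧ q * g ∈ O := by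
  obtain ⟨q, hq, h0, hp⟩ := hf g
  obtain ⟨r, hr⟩ := Int.eq_ofNat_of_zero_le ((h.le q hq).resolve_left h0)
  have h1 : q ∈ o.F r := hr ▸ o.mem_F_self q
  have h2 := pow_ne_zero r (D.ne j)
  refine ⟨q / D.z j ^ r, dat_pow h r q hq h1, div_ne_zero h0 h2, ?_, ?_⟩
  · rw [o.div h0 h2, o.pow, h.adp.vz, hr]
    ring
  · rw [div_mul_eq_mul_div]
    exact dat_pow h r _ hp (F_mul0' h1 hg)

theorem ex_dlog (e : Dv L) {ψ : L} (h0 : ψ ≠ 0) {u : VF L} (hu : u ∈ e.Ex) :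
    ∃ X, u ψ / ψ = e.δ X := by
  refine e.Ex_ind (p := fun u => ∃ X, u ψ / ψ = e.δ X)
    (fun X Y => ⟨-((X ψ / ψ) • Y - (Y ψ / ψ) • X), ?_⟩) ⟨0, by simp⟩ ?_ hu
  · rw [map_neg]
    exact eq_neg_of_add_eq_zero_right (e.δ_sec ψ h0 X Y)
  · rintro u v ⟨X, hX⟩ ⟨Y, hY⟩
    exact ⟨X + Y, by rw [Derivation.add_apply, add_div, hX, hY, map_add]⟩

theorem exp2 (C : Co L 2) (m : Fin 2) (v : VF L) :
    v = (v (C.z m) / C.z m) • C.th m + v (C.z m.rev) • C.D m.rev := by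
  rw [Co.th, smul_smul, div_mul_cancel₀ _ (C.ne m)]
  conv_lhs => rw [C.exp v, Fin.sum_univ_two]
  fin_cases m
  · rfl
  · exact add_comm _ _

variable {K k : Type} [Field K] [Algebra ℂ K] [Field k] [Algebra ℂ k] {C : Co K 3} {Q : Loc K}
  {i i' : Fin 3} {P : Pl K k} {C2 : Co k 2} {x : Loc k} {m : Fin 2} {G : DV k} {g : K}

theorem un_lift (h0 : g ≠ 0) (h1 : P.o.v g = 0) (h2 : G.v (P.π g) = 0) : Un (lift P G) g := by
  refine ⟨h0, ⟨Or.inr h1.ge, Or.inr h2.ge⟩, Or.inr (by rw [P.o.inv, h1]; rfl), Or.inr ?_⟩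
  rw [← one_div, Pl.π_div one_F h0 h1, P.π_one, one_div, G.inv, h2]
  rfl

theorem le_lift (T : Tw C Q i i' P C2 x m G) : ∀ g ∈ Q.O, g ∈ lift P G := fun g hg =>
  ⟨T.dat.le g hg, T.dat2.le _ ((T.ro _).2 ⟨g, hg, rfl⟩)⟩

theorem lz (Q : Loc K) (V : ValuationSubring K) : Lz Q.O (LA Q.O V) :=
  ⟨le_LA, fun _ ⟨s, a, b, c⟩ => ⟨s, a, b.1, (Lc.of_mem a).inv b, c⟩⟩

theorem surj (T : Tw C Q i i' P C2 x m G) {y : k} (hy : y ∈ G.F 0) :
    ∃ a ∈ LA Q.O (lift P G), P.π a = y := by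
  obtain ⟨q', hq', h0, h1, hp'⟩ := dat_loc T.dat2 T.rg2.fr hy
  obtain ⟨q, hq, rfl⟩ := (T.ro _).1 hq'
  obtain ⟨p, hp, e⟩ := (T.ro _).1 hp'
  have q0 : q ≠ 0 := fun e => h0 (e ▸ P.π_zero)
  have q1 : P.o.v q = 0 := by
    have a := (T.dat.le q hq).resolve_left q0
    by_contra b
    exact h0 (P.π_F1 (Or.inr (by omega)))
  refine ⟨p / q, ⟨q, hq, un_lift q0 q1 h1, by rwa [mul_div_cancel₀ _ q0]⟩, ?_⟩
  rw [Pl.π_div (T.dat.le p hp) q0 q1, e, mul_div_cancel_left₀ _ h0]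

end XGdl

open XGdl in
theorem rGdl : SGDL := by
  intro K k _ _ _ _ C Q i i' P C2 x m G d e a H v Ψ p T had hi hi' he hG hH hv hgd hΨ hU
  obtain ⟨A, hA⟩ : ∃ A, A = LA Q.O (lift P G) := ⟨_, rfl⟩
  have hl : Lz Q.O A := hA ▸ lz Q _
  have hAV : ∀ g ∈ A, g ∈ lift P G := fun g hg => Lc.mem' (mem_LA.1 (hA ▸ hg)) (le_lift T)
  have inv : ∀ g ∈ A, Un (lift P G) g → g⁻¹ ∈ A := fun g hg h =>
    hA ▸ mem_LA.2 ((mem_LA.1 (hA ▸ hg)).inv h)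
  have sj : ∀ y ∈ G.F 0, ∃ a ∈ A, P.π a = y := fun y hy => hA ▸ surj T hy
  rw [← hA] at hH hΨ ⊢
  have st := T.rg.st.lz hl
  have dat := T.dat.lz hl fun g hg => (hAV g hg).1
  have ad := had.mono hl.le
  have hd : Exp d P.o 0 := hi ▸ T.dat.exp had
  have ne : i' ≠ i := T.idx ▸ i.succAbove_ne m
  obtain ⟨f, hf⟩ : ∃ f, f = C.z i' ^ p * Ψ := ⟨_, rfl⟩
  rw [← hf] at hgd ⊢
  have f0 : f ≠ 0 := hf ▸ mul_ne_zero (zpow_ne_zero _ (C.ne _)) hU.1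
  have f1 : P.o.v f = 0 := by
    rw [hf, P.o.mul _ _ (zpow_ne_zero _ (C.ne _)) hU.1, P.o.zpow, dat.adp.vz' ne,
      (P.o.un_O.1 (hU.mono fun g hg => hg.1)).2, mul_zero, add_zero]
  obtain ⟨w, hw⟩ := Pl.exists_Rs (P := P) (dat.G_LV (Finset.mem_insert_self _ _) hH)
  obtain ⟨X', hX'⟩ := ex_dlog e hgd.1 (Pl.Res.uniq T.rc dat.adp hd he
    (⟨0, zero_mem _, by rwa [sub_zero]⟩ : P.Res d H w) hv)
  obtain ⟨X'', hX''⟩ := hgd.2
  have e1 : P.π (H f / f) = e.δ (X' + X'') := by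
    rw [hw.dlog f0 f1, map_add, ← hX', ← hX'', Derivation.sub_apply, sub_div, sub_add_cancel]
  have m1 : H f / f ∈ A := by
    have := Co.G_dlog (Co.D_dlog st hΨ (inv _ hΨ hU) hU.1 (g := f) (e := Pi.single i' p)
      (by rw [hf, C.mon_single, mul_comm]) (s := {i, i'}) fun j hj =>
        Pi.single_eq_of_ne (fun q => hj (by simp [q])) _) hH
    rwa [C.mon_zero, div_one] at this
  obtain ⟨u, hu, h2⟩ := hG.red0 (c' := 0) (v := X' + X'') (e1 ▸ (hAV _ m1).2)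
    fun j hj => Co.ne_of_lt (by simp) hj
  obtain ⟨Y, hY⟩ : ∃ Y, Y = X' + X'' - u := ⟨_, rfl⟩
  rw [← hY] at h2
  have rv : ∀ m : Fin 2, m.rev ≠ m := by decide
  obtain ⟨h3, h4⟩ := T.dat2.adp.mem_LV.1 h2
  obtain ⟨a1, b1, c1⟩ := sj (Y (C2.z m) / C2.z m) (by
    simpa [T.dat2.adp.vz] using F_div h3 (C2.z m))
  obtain ⟨a2, b2, c2⟩ := sj _ (h4 _ (rv m))
  have l1 : i.succAbove m.rev ∉ ({i, i'} : Finset (Fin 3)) := by
    simp [← T.idx, rv m]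
  have r1 : P.Rs (a1 • C.th i' + a2 • C.D (i.succAbove m.rev)) Y := by
    rw [exp2 C2 m Y, ← c1, ← c2, ← T.idx]
    exact ((T.rc.th dat.adp m).smul (dat.le _ b1)).add ((T.rc.D dat.adp _).smul (dat.le _ b2))
  have m2 : d.δ (a1 • C.th i' + a2 • C.D (i.succAbove m.rev)) ∈ A := by
    have h5 : d.δ (C.th i') ∈ A := by
      have := mul_mem (ad i') (st.z i')
      rwa [hi', map_zero, sub_zero, div_mul_cancel₀ _ (C.ne _)] at this
    have h6 := Co.δ_D_unit (ad (i.succAbove m.rev)) (inv _ (st.z _) (un_lift (C.ne _)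
      (dat.adp.vz' (i.succAbove_ne _)) (by rw [← T.rc]; exact T.dat2.adp.vz' (rv m))))
    rw [map_add, d.smul, d.smul]
    exact add_mem (add_mem (mul_mem b1 h5) (mul_mem (st.z _) (st.D _ _ b1)))
      (add_mem (mul_mem b2 h6) (st.D _ _ b2))
  refine ⟨_, add_mem (Co.smul_G0 b1 (Co.th_G _ st.z _)) (Co.smul_G0 b2 fun j => ?_),
    dat.div _ (sub_mem m1 m2) (Pl.π_eq (dat.le _ m2) (dat.le _ m1) ?_)⟩
  · rw [C.dual]
    split_ifs with h h'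
    · exact absurd (h ▸ h') l1
    · simp [C.mon_zero]
    · simp
    · simp
  · rw [e1, he _ _ r1, hY, map_sub, e.δ_Ex hu, sub_zero]

end Pool.Agent.MP_ee8c61_ag.M3BK
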