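import Pool.Agent.MP_ee8c61_ag.M3BK.Spec
import Pool.Agent.MP_ee8c61_ag.M3E.RUnr
import Pool.Agent.MP_ee8c61_ag.M3L.Dat
import Pool.Agent.MP_ee8c61_ag.M3RESID.Eqn

/-! Coordinates at the closed points of a model. -/

namespace Pool.Agent.MP_ee8c61_ag.M3BK

open M3 M3E M3RESID Finset
open Pool.Agent.MP_96693b_ag.RS (Loc LocOf)

noncomputable section

namespace RPt

section Gen

variable {L : Type} [Field L] [Algebra ℂ L] {Q : Loc L} {g h : L} {n : ℕ}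

theorem u_mul (a : Q.ev g ≠ 0) (b : Q.ev h ≠ 0) : Q.ev (g * h) ≠ 0 := by
  rw [Q.ev_mul _ (Loc.mem_of_ev a) _ (Loc.mem_of_ev b)]
  exact mul_ne_zero a b

theorem u_of (a : g ∈ Q.O) (b : g⁻¹ ∈ Q.O) (c : g ≠ 0) : Q.ev g ≠ 0 := by
  have := Q.ev_mul _ a _ b
  rw [mul_inv_cancel₀ c, Loc.ev_one] at this
  exact left_ne_zero_of_mul_eq_one this.symm

theorem u_inv (a : Q.ev g ≠ 0) : Q.ev g⁻¹ ≠ 0 :=
  u_of (Q.inv_mem _ (Loc.mem_of_ev a) a) (by rw [inv_inv]; exact Loc.mem_of_ev a)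
    (inv_ne_zero (Loc.ne_zero_of_ev a))

theorem u_one : Q.ev 1 ≠ 0 := by rw [Loc.ev_one]; exact one_ne_zero

theorem u_zpow (a : Q.ev g ≠ 0) (m : ℤ) : Q.ev (g ^ m) ≠ 0 := by
  have k : ∀ r : ℕ, Q.ev (g ^ r) ≠ 0 := fun r => by
    rw [Loc.ev_pow (Loc.mem_of_ev a)]; exact pow_ne_zero _ a
  obtain ⟨r, rfl | rfl⟩ := m.eq_nat_or_neg
  · rw [zpow_natCast]; exact k r
  · rw [zpow_neg, zpow_natCast]; exact u_inv (k r)

theorem mx_pol (C : Co L n) (hz : ∀ i, C.z i ∈ Q.O) (p : MvPolynomial (Fin n) ℂ) :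
    MvPolynomial.aeval C.z p ∈ Q.O ∧ (C.shift fun i => Q.ev (C.z i)).Mx Q.O
      (MvPolynomial.aeval C.z p - algebraMap ℂ L (Q.ev (MvPolynomial.aeval C.z p))) := by
  induction p using MvPolynomial.induction_on with
  | C c =>
    rw [MvPolynomial.aeval_C, Q.ev_alg, sub_self]
    exact ⟨Q.O.algebraMap_mem c, Co.Mx.zero⟩
  | add p q hp hq =>
    rw [map_add, Q.ev_add _ hp.1 _ hq.1, map_add, add_sub_add_comm]
    exact ⟨add_mem hp.1 hq.1, hp.2.add hq.2⟩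
  | mul_X p l hp =>
    rw [map_mul, MvPolynomial.aeval_X, Q.ev_mul _ hp.1 _ (hz l), map_mul]
    refine ⟨mul_mem hp.1 (hz l), ?_⟩
    have h1 : (C.shift fun i => Q.ev (C.z i)).Mx Q.O (C.z l - algebraMap ℂ L (Q.ev (C.z l))) :=
      Co.Mx.of_div l (by
        rw [show C.z l - _ = (C.shift fun i => Q.ev (C.z i)).z l from rfl, div_self (Co.ne _ l)]
        exact one_mem _)
    have := (Co.Mx.mul (hz l) hp.2).add
      (Co.Mx.mul (Q.O.algebraMap_mem (Q.ev (MvPolynomial.aeval C.z p))) h1)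
    refine (congrArg _ ?_).mp this
    ring

end Gen

variable {N : ℕ} {f : Po N} {M : Mod N} {b : M.ι} {Q : Loc (KK N)}

/-- The coordinates of the chart, centred at the point. -/
def cq (h : M.OK f) (b : M.ι) (Q : Loc (KK N)) : Co (KK N) N :=
  (cht h b).shift fun i => Q.ev ((cht h b).z i)

open Classical in
/-- The divisors through the point. -/
def lq (b : M.ι) (Q : Loc (KK N)) (i : Fin N) : Option M.J :=
  if e : ∃ j, M.S.lab b j = some i ∧ Q.ev (M.S.z b i) = 0 then some e.choose else none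

theorem lq_iff {i : Fin N} {j : M.J} :
    lq b Q i = some j ↔ M.S.lab b j = some i ∧ Q.ev (M.S.z b i) = 0 := by
  unfold lq
  split_ifs with e
  · refine ⟨fun h => Option.some.inj h ▸ e.choose_spec, fun h => ?_⟩
    rw [M.S.lab_inj b _ _ i e.choose_spec.1 h.1]
  · exact ⟨False.elim, fun h => e ⟨j, h⟩⟩

variable (h : M.OK f)

theorem cq_z {i : Fin N} {j : M.J} (e : lq b Q i = some j) : (cq h b Q).z i = M.S.z b i := by
  show M.S.z b i - algebraMap ℂ _ (Q.ev (M.S.z b i)) = _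
  rw [(lq_iff.1 e).2, map_zero, sub_zero]

theorem cq_st (hQ : LocOf (M.S.A b) Q) : (cq h b Q).St Q.O :=
  ⟨fun i => sub_mem (hQ.le (M.S.z_mem b i)) (Q.O.algebraMap_mem _),
    ((cht_st h b).lz (lz_loc hQ)).D⟩

theorem mon_u (c : M.J → ℤ) :
    Q.ev ((cht h b).mon (lf M b c) / (cq h b Q).mon fun i => (lq b Q i).elim 0 c) ≠ 0 := by
  rw [Co.mon, Co.mon, ← prod_div_distrib]
  refine prod_induction _ (fun g => Q.ev g ≠ 0) (fun _ _ => u_mul) u_one fun i _ => ?_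
  rcases e : lq b Q i with _ | j
  · simp only [Option.elim_none, zpow_zero, div_one]
    by_cases hi : i ∈ ls M b
    · obtain ⟨j, hj⟩ := mem_ls.1 hi
      refine u_zpow (fun e' => ?_) _
      rw [lq_iff.2 ⟨hj, e'⟩] at e
      exact Option.some_ne_none _ e
    · rw [lf_none hi, zpow_zero]; exact u_one
  · rw [cq_z h e, lf_some (lq_iff.1 e).1, Option.elim_some]
    exact (div_self (zpow_ne_zero _ ((cht h b).ne i))).symm ▸ u_one

theorem unit (hQ : LocOf (M.S.A b) Q) {g : KK N} {c : M.J → ℤ}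
    (e : ∃ U ∈ M.S.A b, U⁻¹ ∈ M.S.A b ∧ U ≠ 0 ∧ g = U * (cht h b).mon (lf M b c)) :
    Q.ev (g / (cq h b Q).mon fun i => (lq b Q i).elim 0 c) ≠ 0 := by
  obtain ⟨U, h1, h2, h3, rfl⟩ := e
  rw [mul_div_assoc]
  exact u_mul (u_of (hQ.le h1) (hQ.le h2) h3) (mon_u h c)

theorem mx (C : Nb M) (hQ : LocOf (M.S.A b) Q) : ∀ g ∈ Q.O, Q.ev g = 0 → (cq h b Q).Mx Q.O g := by
  intro g hg h0
  obtain ⟨p, hp, q, hq, h1, e⟩ := hQ.frac g hg
  obtain ⟨V, hV, hP⟩ := C.pt b (RingHom.ker (M3L.evh hQ)) (RingHom.ker_isPrime _)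
  have k : ∀ s ∈ M.S.A b, Q.ev s = 0 ↔ ¬Un V s := fun s hs => hP ⟨s, hs⟩
  have p0 : Q.ev p = 0 := by rw [← e, Q.ev_mul _ hg _ (hQ.le hq), h0, zero_mul]
  obtain ⟨s, hs, u, r, a, t, a1, a2, a3⟩ := rowUnr (KK N) N (M.S.A b)
    (fun i => ⟨M.S.z b i, M.S.z_mem b i⟩) V (h.et b) hV p hp ((k p hp).1 p0)
  have s0 : Q.ev s ≠ 0 := fun e' => (k s hs).1 e' u
  have m : (cq h b Q).Mx Q.O (s * p) := by
    rw [a3]
    refine Co.Mx.sum _ fun i _ => Co.Mx.mul (hQ.le (a1 i)) ?_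
    have := (mx_pol (cht h b) (fun l => hQ.le (M.S.z_mem b l)) (t i)).2
    have e1 : Q.ev (MvPolynomial.aeval (cht h b).z (t i)) = 0 := (k _ (by
      rw [MvPolynomial.aeval_def, MvPolynomial.eval₂_eq]
      exact sum_mem fun _ _ => mul_mem (Subalgebra.algebraMap_mem _ _)
        (prod_mem fun l _ => pow_mem (M.S.z_mem b l) _))).2 (a2 i)
    rwa [e1, map_zero, sub_zero] at this
  have := Co.Mx.mul (Loc.mem_of_ev (u_inv (u_mul s0 h1))) m
  refine (congrArg _ ?_).mp this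
  have := Loc.ne_zero_of_ev s0
  have := Loc.ne_zero_of_ev h1
  rw [← e]
  field_simp

end RPt

open RPt

theorem pt3 {f : Po 3} {M : Mod 3} (h : M.OK f) (C : Nb M) {b : M.ι} {Q : Loc (KK 3)}
    (hQ : LocOf (M.S.A b) Q) : Pt3 M f Q (cq h b Q) (lq b Q) := by
  have hS := cq_st h hQ
  have hf := unit h hQ (cht_f h b)
  have hj : Q.ev ((co 3).jac (cq h b Q) / (cq h b Q).mon fun i => (lq b Q i).elim 0 M.kk) ≠ 0 :=
    unit h hQ (cht_jac h b)
  have fr : ∀ g, ∃ s ∈ Q.O, s ≠ 0 ∧ s * g ∈ Q.O := fun g => by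
    obtain ⟨s, h1, h2, h3⟩ := cht_frac h b g
    exact ⟨s, hQ.le h1, h2, hQ.le h3⟩
  have eη : ∀ i j, lq b Q i = some j → (cq h b Q).z i = M.η b j := fun i j e =>
    (cq_z h e).trans (M.S.η_some b j i (lq_iff.1 e).1).symm
  have on : ∀ j, M.On Q j ↔ ∃ i, lq b Q i = some j := fun j => by
    rw [M3L.on_iff h hQ]
    refine ⟨fun e => ?_, fun ⟨i, e⟩ => ?_⟩
    · obtain ⟨i, hi⟩ := lab_of (b := b) (j := j) fun e' =>
        u_of (hQ.le (M3L.eta_mem b j)) (hQ.le e') (M.η_ne b j) e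
      exact ⟨i, lq_iff.2 ⟨hi, M.S.η_some b j i hi ▸ e⟩⟩
    · rw [Mod.η, M.S.η_some b j i (lq_iff.1 e).1]; exact (lq_iff.1 e).2
  refine ⟨⟨hS, fun i => (Loc.sub_ev_mem (hQ.le (M.S.z_mem b i))).2, mx h C hQ, fr⟩, ⟨b, hQ, eη⟩,
    fun i i' j e e' => Option.some.inj ((lq_iff.1 e).1.symm.trans (lq_iff.1 e').1), on,
    fun i j e => ?_, hf, fun la i => ?_, fun l => ?_⟩
  · have o := (on j).2 ⟨i, e⟩
    have d := (cht_dat h (lq_iff.1 e).1 fun e' => u_of (hQ.le (M3L.eta_mem b j)) (hQ.le e')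
      (M.η_ne b j) ((M3L.on_iff h hQ j).1 o)).lz (lz_loc hQ) o
    exact Co.dat_of hS (by rw [cq_z h e]; exact d.adp.vz) fr o fun g hg h1 => by
      rw [cq_z h e]; exact d.div g hg h1
  · have := ((Co.ad_dv (cq h b Q) Q.O).tw hS (Loc.mem_of_ev hj) (Loc.mem_of_ev (u_inv hj))
      (Loc.ne_zero_of_ev hj) (div_mul_cancel₀ _ (Co.mon_ne _ _)).symm 1).tw hS (Loc.mem_of_ev hf)
      (Loc.mem_of_ev (u_inv hf)) (Loc.ne_zero_of_ev hf)
      (div_mul_cancel₀ _ (Co.mon_ne _ _)).symm (-(la : ℂ))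
    rw [← Co.dv_jac] at this
    refine mem_of_eq (this i) ?_
    have e : ((lq b Q i).elim 1 fun j => (M.ex la j : ℂ)) =
        1 + 1 * (((lq b Q i).elim 0 M.kk : ℤ) : ℂ) +
          -(la : ℂ) * (((lq b Q i).elim 0 M.aa : ℤ) : ℂ) := by
      rcases lq b Q i with _ | j
      · simp
      · simp only [Option.elim_some, Mod.ex, Mod.kk, Mod.aa]
        push_cast
        ring
    simp only [e, dvf, Pi.one_apply]
  · have := (co 3).pole_G (cq h b Q) hS (fun l => hQ.le (h.pol b _)) (s := univ) (u := 0)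
      (Loc.mem_of_ev (u_inv hf)) (Loc.ne_zero_of_ev hf) (Loc.mem_of_ev (u_inv hj))
      (Loc.ne_zero_of_ev hj) (div_mul_cancel₀ _ (Co.mon_ne _ _)).symm
      (div_mul_cancel₀ _ (Co.mon_ne _ _)).symm (v := M3B1.pd 3 l) fun l' => by
        rw [pow_zero, one_mul, show M3B1.pd 3 l = (co 3).D l from rfl, Co.dual]
        split_ifs
        exacts [one_mem _, zero_mem _]
    rw [Co.G_univ] at this
    exact ⟨_, this⟩

theorem rPt : OfPT := by
  intro E f M _ h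
  have k : ∀ Q : Loc (KK 3), ∃ C lab, Q ∈ M.pts → Pt3 M f Q C lab := fun Q => by
    by_cases hQ : Q ∈ M.pts
    · obtain ⟨b, hb⟩ := hQ
      exact ⟨_, _, fun _ => pt3 h (E.nb 3 f M h) hb⟩
    · exact ⟨co 3, fun _ => none, fun e => absurd e hQ⟩
  choose C lab hC using k
  exact ⟨C, lab, hC⟩

end

end Pool.Agent.MP_ee8c61_ag.M3BK
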