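import Pool.Agent.MP_ee8c61_ag.M3BK.Spec
import Pool.Agent.MP_ee8c61_ag.M3RESID.Cht
import Pool.Agent.MP_ee8c61_ag.M3RESID.Eqn

/-!
The residue field of a divisor of exponent zero is a surface with a twisted volume form.
-/

namespace Pool.Agent.MP_ee8c61_ag.M3BK

open M3 M3RESID Set

namespace RSrf

variable {L k : Type} [Field L] [Algebra ℂ L] [Field k] [Algebra ℂ k] {P : Pl L k}
  {A : Subalgebra ℂ L}

theorem v_unit {o : DV L} {u : L} (h0 : u ≠ 0) (h1 : u ∈ o.F 0) (h2 : u⁻¹ ∈ o.F 0) :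
    o.v u = 0 := by
  have a := h1.resolve_left h0
  have b := h2.resolve_left (inv_ne_zero h0)
  rw [o.inv] at b
  omega

/-- the restriction of a ring of regular functions -/
noncomputable def rA (P : Pl L k) (h : ∀ g ∈ A, g ∈ P.o.F 0) : A →ₐ[ℂ] k where
  toFun g := P.π g
  map_one' := P.π_one
  map_mul' g g' := P.mul _ (h _ g.2) _ (h _ g'.2)
  map_zero' := P.π_zero
  map_add' g g' := P.add _ (h _ g.2) _ (h _ g'.2)
  commutes' := P.π_cst

theorem quo (hl : Lz A (oA P.o)) (y : k) :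
    ∃ a s : A, P.π s ≠ 0 ∧ y = P.π a / P.π s := by
  obtain ⟨g, hg, rfl⟩ := P.surj y
  obtain ⟨s, hs, h0, h1, h2⟩ := hl.frac g hg
  have h3 := Pl.π_ne h0 (v_unit h0 (hl.le hs) h1)
  exact ⟨⟨_, h2⟩, ⟨s, hs⟩, h3, by
    rw [eq_div_iff h3, mul_comm]
    exact (P.mul _ (hl.le hs) _ hg).symm⟩

theorem fg (hl : Lz A (oA P.o)) (hA : A.FG) : (⊤ : IntermediateField ℂ k).FG := by
  obtain ⟨T, hT⟩ := ((Subalgebra.fg_top A).2 hA).map (rA P fun _ h => hl.le h)
  refine ⟨T, top_unique fun y _ => ?_⟩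
  have key : ∀ a : A, P.π a ∈ IntermediateField.adjoin ℂ (T : Set k) := fun a =>
    IntermediateField.algebra_adjoin_le_adjoin ℂ _ (hT.ge ⟨a, trivial, rfl⟩)
  obtain ⟨a, s, -, rfl⟩ := quo hl y
  exact div_mem (key a) (key s)

theorem tw_eq (d : Dv L) {J f z : L} (hJ : J ≠ 0) (hf : f ≠ 0) (hz : z ≠ 0) (la : ℚ) :
    (d.tw J 1).tw f (-(la : ℂ)) =
      (d.tw z (-1)).tw (J ^ (la.den : ℤ) * f ^ (-la.num) * z ^ (la.den : ℤ)) (1 / la.den) :=
  Dv.ext' fun v => by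
    have h : (la.den : L) ≠ 0 := by
      have := charZero_of_injective_algebraMap (algebraMap ℂ L).injective
      exact_mod_cast la.den_ne_zero
    have h1 := zpow_ne_zero (la.den : ℤ) hJ
    have h2 := zpow_ne_zero (-la.num) hf
    have h3 := zpow_ne_zero (la.den : ℤ) hz
    simp only [Dv.tw_δ, Derivation.leibniz, smul_eq_mul, Dv.zpow_der _ _ hJ, Dv.zpow_der _ _ hf,
      Dv.zpow_der _ _ hz, Rat.cast_def, map_neg, map_div₀, map_one, map_natCast, map_intCast]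
    push_cast
    field_simp
    ring

end RSrf

open RSrf in
theorem rSrf : OfSRF := by
  intro _ _ f la b β Q M o k _ _ P e v H hM hP hex he hv
  obtain ⟨c, hc⟩ := hM.ne o
  obtain ⟨i, hi⟩ := lab_of hc
  have dat := cht_dat hM hi hc
  rw [← hP] at dat
  have hl : Lz (M.S.A c) (oA P.o) := lz_oA dat.adp.vz (cht_frac hM c) dat.le dat.div
  obtain ⟨C', hC⟩ := Pl.exists_RsC dat.adp fun w hw => Derivation.ext fun y => by
    have key := chart_der hM (rA P dat.le) w fun l => by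
      refine Fin.succAboveCases i ?_ hw l
      exact (congrArg w (P.π_F1 (Or.inr dat.adp.vz.ge))).trans (map_zero w)
    obtain ⟨a, s, -, rfl⟩ := quo hl y
    have h1 : w (P.π a) = 0 := key a
    have h2 : w (P.π s) = 0 := key s
    simp [Derivation.leibniz_div, h1, h2]
  obtain ⟨U, u1, u2, u3, ef⟩ := cht_f hM c
  obtain ⟨U', u1', u2', u3', ej⟩ := cht_jac hM c
  have vf : P.o.v (ip 3 f) = M.a o := by
    rw [ef, P.o.mul _ _ u3 (Co.mon_ne _ _), v_unit u3 (dat.le _ u1) (dat.le _ u2), dat.adp.v_mon,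
      lf_some hi, zero_add, Mod.aa]
  have vj : P.o.v ((co 3).jac (cht hM c)) = M.k o := by
    rw [ej, P.o.mul _ _ u3' (Co.mon_ne _ _), v_unit u3' (dat.le _ u1') (dat.le _ u2'),
      dat.adp.v_mon, lf_some hi, zero_add, Mod.kk]
  have hJ := (co 3).jac_ne (cht hM c)
  have hf := f_ne hM
  have hz := (cht hM c).ne i
  have h1 := zpow_ne_zero (la.den : ℤ) hJ
  have h2 := zpow_ne_zero (-la.num) hf
  have h3 := zpow_ne_zero (la.den : ℤ) hz
  have h0 := mul_ne_zero (mul_ne_zero h1 h2) h3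
  have hψ : P.o.v ((co 3).jac (cht hM c) ^ (la.den : ℤ) * ip 3 f ^ (-la.num) *
      (cht hM c).z i ^ (la.den : ℤ)) = 0 := by
    rw [P.o.mul _ _ (mul_ne_zero h1 h2) h3, P.o.mul _ _ h1 h2, v_zpow _ hJ, v_zpow _ hf,
      v_zpow _ hz, vf, vj, dat.adp.vz]
    have h4 : (la.den : ℚ) * ((M.k o : ℚ) + 1 - la * M.a o) = 0 := by
      rw [show (M.k o : ℚ) + 1 - la * M.a o = 0 from hex, mul_zero]
    rw [mul_sub, ← mul_assoc, Rat.den_mul_eq_num] at h4
    have h5 : (la.den : ℤ) * ((M.k o : ℤ) + 1) - la.num * M.a o = 0 := by exact_mod_cast h4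
    linarith
  have e1 := (hC.dv dat.adp).tw (fun v hv => by
    rw [Dv.tw_δ]
    exact add_mem (dat.adp.exp_dv.reg v hv) (F_mul0 (cst_F _ _) (LV_dlog hv _))) h0 hψ (1 / la.den)
  rw [← tw_eq _ hJ hf hz, ← Co.dv_jac] at e1
  have e2 := he.uniq e1 (hC.lift dat.adp)
  refine ⟨C', C'.fin (fg hl (chart_fg hM c)), ⟨la.den, _, la.den_pos, Pl.π_ne h0 hψ, fun X => ?_⟩,
    H.nr, ?_⟩
  · rw [e2, Dv.tw_δ, map_div₀, map_one, map_natCast, div_mul_div_comm, one_mul]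
  · obtain ⟨q, hq⟩ := BSd.Q0 H.bs la
    rw [hv.δ he, bf_δ H.bs, ← P.π_cst]
    refine Pl.π_congr (cst_F _ _) ?_
    rw [sub_sub_cancel_left]
    exact neg_mem (F_mul0' (Or.inr (vf ▸ Int.natCast_pos.2 (hM.pos o)))
      (dat.le _ (hq ▸ hM.pol c q)))

end Pool.Agent.MP_ee8c61_ag.M3BK
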