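import Pool.Agent.MP_ee8c61_ag.M3BK.Spec
import Pool.Agent.MP_ee8c61_ag.M3RESID.Res
import Pool.Agent.MP_96693b_ag.DR.RAff

/-! Small facts on good points, monomial functions and flags. -/

namespace Pool.Agent.MP_ee8c61_ag.M3BK

open M3 M3RESID Set
open Pool.Agent.MP_96693b_ag.RS (Loc LocOf)

variable {L : Type} [Field L] [Algebra ℂ L] {n : ℕ}

theorem ex_dlog {d : Dv L} {u : VF L} (hu : u ∈ d.Ex) {ψ : L} (h : ψ ≠ 0) :
    ∃ X, u ψ / ψ = d.δ X := by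
  refine d.Ex_ind (p := fun u => ∃ X, u ψ / ψ = d.δ X) (fun X Y => ?_) ⟨0, by simp⟩ ?_ hu
  · exact ⟨-_, by rw [map_neg]; exact eq_neg_of_add_eq_zero_right (d.δ_sec ψ h X Y)⟩
  · rintro u v ⟨X, hX⟩ ⟨Y, hY⟩
    exact ⟨X + Y, by rw [Derivation.add_apply, add_div, hX, hY, map_add]⟩

theorem Gd.congr {d : Dv L} {v v' : VF L} {ψ : L} (h : Gd d v ψ) (hu : v' - v ∈ d.Ex) :
    Gd d v' ψ := by
  obtain ⟨X, hX⟩ := h.2
  obtain ⟨Y, hY⟩ := ex_dlog hu h.1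
  exact ⟨h.1, X + Y, by rw [map_add, ← hX, ← hY, Derivation.sub_apply]; ring⟩

theorem Gd.mul {d : Dv L} {v : VF L} {ψ φ : L} (h : Gd d v ψ) (h' : Gd d v φ) :
    Gd d v (ψ * φ) := by
  obtain ⟨X, hX⟩ := h.2
  obtain ⟨Y, hY⟩ := h'.2
  refine ⟨mul_ne_zero h.1 h'.1, X + Y, ?_⟩
  have h1 := h.1
  have h2 := h'.1
  rw [map_add, ← hX, ← hY, Derivation.leibniz, smul_eq_mul, smul_eq_mul]
  field_simp
  ring

theorem Gd.pow {d : Dv L} {v : VF L} {ψ : L} (h : Gd d v ψ) (k : ℕ) : Gd d v (ψ ^ k) := by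
  induction k with
  | zero => exact ⟨by simp, 0, by simp⟩
  | succ k ih => rw [pow_succ]; exact ih.mul h

theorem mem_of_ev {x : Loc L} {g : L} (h : x.ev g ≠ 0) : g ∈ x.O := by
  by_contra h1
  exact h (x.ev_out g h1)

theorem ne_of_ev {x : Loc L} {g : L} (h : x.ev g ≠ 0) : g ≠ 0 := by
  rintro rfl
  exact h (by simpa using x.ev_alg 0)

theorem v_unit {x : Loc L} {G : DV L} (hG : Le x G.O) {g : L} (h : x.ev g ≠ 0) : G.v g = 0 := by
  have h0 := ne_of_ev h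
  have h1 := (hG g (mem_of_ev h)).resolve_left h0
  have h2 := (hG _ (x.inv_mem g (mem_of_ev h) h)).resolve_left (inv_ne_zero h0)
  rw [G.inv] at h2
  omega

theorem v_mon2 (G : DV L) (C : Co L 2) (m : Fin 2 → ℤ) :
    G.v (C.mon m) = m 0 * G.v (C.z 0) + m 1 * G.v (C.z 1) := by
  rw [Co.mon, Fin.prod_univ_two, G.mul _ _ (zpow_ne_zero _ (C.ne 0)) (zpow_ne_zero _ (C.ne 1)),
    v_zpow G (C.ne 0), v_zpow G (C.ne 1)]

theorem ne_of_mn {x : Loc L} {C : Co L n} {ψ : L} {m : Fin n → ℤ} (h : x.ev (ψ / C.mon m) ≠ 0) :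
    ψ ≠ 0 := by
  rintro rfl
  exact ne_of_ev h (zero_div _)

theorem v_mn {x : Loc L} {G : DV L} (hG : Le x G.O) {C : Co L n} {ψ : L} {m : Fin n → ℤ}
    (h : x.ev (ψ / C.mon m) ≠ 0) : G.v ψ = G.v (C.mon m) := by
  have h1 := v_unit hG h
  have h2 := G.mul _ _ (ne_of_ev h) (C.mon_ne m)
  rw [div_mul_cancel₀ _ (C.mon_ne m)] at h2
  omega

theorem le_of_dat {x : Loc L} {G : DV L} {C : Co L n} {i : Fin n} (h : C.Dat x.O G i) :
    Le x G.O := h.le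

theorem v_dat {x : Loc L} {G : DV L} {C : Co L n} {i : Fin n} (hG : C.Dat x.O G i) {ψ : L}
    {m : Fin n → ℤ} (h : x.ev (ψ / C.mon m) ≠ 0) : G.v ψ = m i := by
  rw [v_mn (le_of_dat hG) h, hG.adp.v_mon]

theorem v_pos {x : Loc L} {G : DV L} {C : Co L n} (hC : Rg C x) (hG : Dm x G.O) (i : Fin n) :
    0 < G.v (C.z i) := by
  have h1 := (hG.1 _ (hC.st.z i)).resolve_left (C.ne i)
  refine lt_of_le_of_ne h1 fun h2 => hG.2 _ (hC.st.z i) (hC.ev i) ⟨C.ne i, hG.1 _ (hC.st.z i), ?_⟩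
  exact Or.inr (by rw [G.inv]; omega)

theorem Le.of_le {x x' : Loc L} {V : ValuationSubring L} (h : x.O ≤ x'.O) (h' : Le x' V) :
    Le x V := fun g hg => h' g (h hg)

theorem Dm.of_le {x x' : Loc L} {V : ValuationSubring L} (h : x.O ≤ x'.O) (h' : Dm x' V) :
    Dm x V := ⟨h'.1.of_le h, fun g hg h0 => h'.2 g (h hg) ((Loc.ev_eq_of_le h hg).trans h0)⟩

theorem mn_mul {x : Loc L} {C : Co L n} {ψ φ : L} {m m' : Fin n → ℤ}
    (h : x.ev (ψ / C.mon m) ≠ 0) (h' : x.ev (φ / C.mon m') ≠ 0) :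
    x.ev (ψ * φ / C.mon (m + m')) ≠ 0 := by
  rw [C.mon_add, ← div_mul_div_comm, x.ev_mul _ (mem_of_ev h) _ (mem_of_ev h')]
  exact mul_ne_zero h h'

theorem ev_one' (x : Loc L) : x.ev 1 = 1 := by simpa using x.ev_alg 1

theorem mn_pow {x : Loc L} {C : Co L n} {ψ : L} {m : Fin n → ℤ}
    (h : x.ev (ψ / C.mon m) ≠ 0) (k : ℕ) : x.ev (ψ ^ k / C.mon (k • m)) ≠ 0 := by
  induction k with
  | zero => simp [C.mon_zero, ev_one']
  | succ k ih => rw [pow_succ, succ_nsmul]; exact mn_mul ih h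

theorem nrm_of_dvs {G : DV L} (h : Dvs G) : Nrm G := by
  obtain ⟨C, i, h⟩ := h
  exact ⟨_, h.vz⟩

theorem exp_uniq {d : Dv L} {G : DV L} {a a' : ℂ} (hG : Nrm G) (h : Exp d G a)
    (h' : Exp d G a') : a = a' := by
  obtain ⟨π, hπ⟩ := hG
  exact h.uniq h' hπ

theorem mon_rev (C : Co L 2) (i : Fin 2) (m : Fin 2 → ℤ) :
    C.mon m = C.z i ^ m i * C.z i.rev ^ m i.rev := by
  rw [Co.mon, Fin.prod_univ_two]
  fin_cases i
  · rfl
  · exact mul_comm _ _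

theorem Fl.vz {C : Co L 2} {x : Loc L} {i : Fin 2} {G : DV L} {U : DV G.kf} (h : Fl C x i G U) :
    G.v (C.z i.rev) = 0 := h.dat.adp.vz' (by fin_cases i <;> decide)

theorem Fl.unit {C : Co L 2} {x : Loc L} {i : Fin 2} {G : DV L} {U : DV G.kf} (h : Fl C x i G U)
    {g : L} (hg : x.ev g ≠ 0) : U.v (G.pl.π g) = 0 := by
  have h0 := ne_of_ev hg
  have hv : G.pl.o.v g = 0 := v_unit (le_of_dat h.dat) hg
  have h1 := Pl.π_ne h0 hv
  have h2 := (h.le g (mem_of_ev hg)).resolve_left h1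
  have h3 := h.le _ (x.inv_mem g (mem_of_ev hg) hg)
  rw [← zpow_neg_one, Pl.π_zpow h0 hv, zpow_neg_one] at h3
  have h4 := h3.resolve_left (inv_ne_zero h1)
  rw [U.inv] at h4
  omega

theorem π_mul' {G : DV L} {g h : L} (hg : G.v g = 0) (hh : G.v h = 0) :
    G.pl.π (g * h) = G.pl.π g * G.pl.π h := G.pl.mul g (Or.inr hg.ge) h (Or.inr hh.ge)

/-- The order at a point of the restriction of a monomial function. -/
theorem Fl.ord {C : Co L 2} {x : Loc L} {i : Fin 2} {G : DV L} {U : DV G.kf} (h : Fl C x i G U)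
    {g : L} (hg : x.ev g ≠ 0) (r : ℤ) : U.v (G.pl.π (g * C.z i.rev ^ r)) = r := by
  have hv : G.v g = 0 := v_unit (le_of_dat h.dat) hg
  have hz : G.pl.o.v (C.z i.rev) = 0 := h.vz
  have h1 := Pl.π_ne (P := G.pl) (ne_of_ev hg) hv
  have h2 := Pl.π_ne (C.ne _) hz
  rw [π_mul' hv (by rw [v_zpow G (C.ne _), h.vz, mul_zero]), Pl.π_zpow (C.ne _) hz,
    U.mul _ _ h1 (zpow_ne_zero _ h2), h.unit hg, v_zpow U h2, h.un]
  simp

theorem ev_zpow {x : Loc L} {g : L} (h : x.ev g ≠ 0) (r : ℤ) : x.ev (g ^ r) ≠ 0 := by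
  have hp : ∀ (g : L), x.ev g ≠ 0 → ∀ k : ℕ, x.ev (g ^ k) ≠ 0 := fun g h k => by
    induction k with
    | zero => simp [ev_one']
    | succ k ih =>
      rw [pow_succ, x.ev_mul _ (mem_of_ev ih) _ (mem_of_ev h)]
      exact mul_ne_zero ih h
  have hi : x.ev g⁻¹ ≠ 0 := fun h0 => by
    have := x.ev_mul g (mem_of_ev h) _ (x.inv_mem g (mem_of_ev h) h)
    rw [mul_inv_cancel₀ (ne_of_ev h), ev_one', h0, mul_zero] at this
    exact one_ne_zero this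
  obtain ⟨k, rfl | rfl⟩ := r.eq_nat_or_neg
  · simpa using hp g h k
  · simpa using hp _ hi k

/-- The order of the quotient of two monomial functions. -/
theorem Fl.cross {C : Co L 2} {x : Loc L} {i : Fin 2} {G : DV L} {U : DV G.kf} (h : Fl C x i G U)
    {ψ φ : L} {q r : Fin 2 → ℤ} (hψ : x.ev (ψ / C.mon q) ≠ 0) (hφ : x.ev (φ / C.mon r) ≠ 0) :
    U.v (G.pl.π (ψ ^ r i / φ ^ q i)) = r i * q i.rev - q i * r i.rev := by
  have h1 := ev_zpow hψ (r i)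
  have h2 := ev_zpow hφ (-q i)
  have h3 : x.ev ((ψ / C.mon q) ^ r i * (φ / C.mon r) ^ (-q i)) ≠ 0 := by
    rw [x.ev_mul _ (mem_of_ev h1) _ (mem_of_ev h2)]
    exact mul_ne_zero h1 h2
  rw [← h.ord h3 (r i * q i.rev - q i * r i.rev)]
  congr 2
  have a1 := C.ne i
  have a2 := C.ne i.rev
  have a3 := ne_of_mn hφ
  rw [mon_rev C i q, mon_rev C i r]
  simp only [div_zpow, mul_zpow, ← zpow_mul, zpow_neg, zpow_sub₀ a2, mul_comm (r i)]
  field_simp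
  rw [mul_comm (r i.rev) (q i)]

theorem al_one {F : Type} [Field F] [Algebra ℂ F] (ε : F) : al ε 1 0 = 1 := by simp [al]

namespace LSf

variable {X₀ : Set L} {Λ : Type} (S : LSf L X₀ Λ)

/-- A symmetric function of the labels. -/
theorem prod_lab [Fintype Λ] {F : Type} [CommMonoid F] (φ : Option Λ → F) (h1 : φ none = 1)
    {x : Loc L} (hx : x ∈ S.X) : φ (S.lab x 0) * φ (S.lab x 1) =
      ∏ᶠ j ∈ {j | ∃ i, S.lab x i = some j}, φ (some j) := by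
  have e : ∀ j, (∃ i, S.lab x i = some j) ↔ S.lab x 0 = some j ∨ S.lab x 1 = some j := fun j =>
    Fin.exists_fin_two
  simp only [e]
  rcases h0 : S.lab x 0 with _ | j0 <;> rcases h2 : S.lab x 1 with _ | j1
  · simp [h1]
  · simp [h1]
  · simp [h1]
  · have hne : j0 ≠ j1 := fun h => by simpa using S.inj x hx 0 1 j0 h0 (h ▸ h2)
    have : {j | some j0 = some j ∨ some j1 = some j} = {j0, j1} := by
      ext j
      simp [eq_comm]
    rw [this, finprod_mem_pair hne]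

theorem cf_wt [Fintype Λ] {χ : H36.Chi} (hA : IntA χ L) {F : Type} [Field F] [Algebra ℂ F] (ε : F)
    (a : Λ → ℂ) (m : Λ → ℤ) : Cf S.X fun x => wt ε (S.ea a x) (S.em m x) :=
  hA.congr _ _ _ _ (fun x hx => (S.prod_lab
    (fun o => (al ε (o.elim 1 a) (o.elim 0 m))⁻¹) (by simp [al_one]) hx).symm)
    (hA.lab F Λ X₀ S fun T => ∏ᶠ j ∈ T, (al ε (a j) (m j))⁻¹)

open Classical in
theorem cf_w1 [Fintype Λ] {χ : H36.Chi} (hA : IntA χ L) (a : Λ → ℂ) :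
    Cf S.X fun x => w1 (S.ea a x) :=
  hA.congr _ _ _ _ (fun x hx => ((Fin.prod_univ_two _).trans (S.prod_lab
    (fun o => if o.elim 1 a = 0 then 1 else (o.elim 1 a)⁻¹) (by simp) hx)).symm)
    (hA.lab ℂ Λ X₀ S fun T => ∏ᶠ j ∈ T, if a j = 0 then 1 else (a j)⁻¹)

theorem thr_cases (hC : SCRV) {d : Dv L} {a : Λ → ℂ} (hA : S.Ad d a) {x : Loc L} (hx : x ∈ S.X)
    {G : DV L} (hG : Thr x G) : (∃ i j, S.lab x i = some j ∧ (S.C x).Dat x.O G i) ∨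
      (Exp d G 1 ∧ ∀ ψ m, S.Mn ψ m x → G.v ψ = 0) := by
  obtain ⟨-, -, ⟨i, h⟩ | ⟨h, h'⟩⟩ := hC L _ x G (S.rg x hx) hG
  · rcases hl : S.lab x i with _ | j
    · refine Or.inr ⟨?_, fun ψ m hm => ?_⟩
      · simpa [ea, hl] using h.exp (hA x hx)
      · simpa [em, hl] using v_dat h hm
    · exact Or.inl ⟨i, j, hl, h⟩
  · exact Or.inr ⟨h' d _ (hA x hx), fun ψ m hm => by rw [v_mn hG.2.1 hm, v_mon2, h, h]; simp⟩

end LSf

end Pool.Agent.MP_ee8c61_ag.M3BK
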