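import Pool.Agent.MP_ee8c61_ag.M3BK.Spec
import Pool.Agent.MP_ee8c61_ag.M3.FDefs
import Pool.Agent.MP_ee8c61_ag.M3RESID.Eqn

/-! A curve on a surface in a threefold, seen at a closed point. -/

namespace Pool.Agent.MP_ee8c61_ag.M3BK

open M3 M3RESID Set
open Pool.Agent.MP_96693b_ag.RS (Loc LocOf)

noncomputable section

/-- The surface `z i = 0` has the place `P`, and the curve `z i = z i' = 0` on it has the
valuation `G`. -/
structure Tw {K k : Type} [Field K] [Algebra ℂ K] [Field k] [Algebra ℂ k] (C : Co K 3) (Q : Loc K)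
    (i i' : Fin 3) (P : Pl K k) (C2 : Co k 2) (x : Loc k) (m : Fin 2) (G : DV k) : Prop where
  rg : Rg C Q
  dat : C.Dat Q.O P.o i
  rc : P.RsC C i C2
  ro : P.RsO Q.O x.O
  ev : ∀ g ∈ Q.O, x.ev (P.π g) = Q.ev g
  rg2 : Rg C2 x
  idx : i.succAbove m = i'
  dat2 : C2.Dat x.O G m

/-- A good function on the surface lifts to the local ring of the curve. -/
def SGDL : Prop := ∀ (K k : Type) [Field K] [Algebra ℂ K] [Field k] [Algebra ℂ k] (C : Co K 3)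
  (Q : Loc K) (i i' : Fin 3) (P : Pl K k) (C2 : Co k 2) (x : Loc k) (m : Fin 2) (G : DV k)
  (d : Dv K) (e : Dv k) (a : Fin 3 → ℂ) (H : VF K) (v : VF k) (Ψ : K) (p : ℤ),
  Tw C Q i i' P C2 x m G → C.Ad Q.O d a → a i = 0 → a i' = 0 → P.RsD d e → Exp e G 0 →
  H ∈ C.G (LA Q.O (lift P G)) {i, i'} 0 → P.Res d H v → Gd e v (P.π (C.z i' ^ p * Ψ)) →
  Ψ ∈ LA Q.O (lift P G) → Un (lift P G) Ψ →
  ∃ X ∈ C.G (LA Q.O (lift P G)) {i, i'} 0,
    (H (C.z i' ^ p * Ψ) / (C.z i' ^ p * Ψ) - d.δ X) / C.z i ∈ LA Q.O (lift P G)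

/-- The derivative of the functional equation at the generic point of a double curve. -/
def STP : Prop := ∀ (f : Po 3) (la : ℚ) (b : Polynomial ℂ) β q (M : Mod 3) (Q : Loc (KK 3))
  (C : Co (KK 3) 3) (lab : Fin 3 → Option M.J) (i i' : Fin 3) (o o' : M.J)
  (A : Subalgebra ℂ (KK 3)), Hyp f la b β q → M.OK f → Pt3 M f Q C lab → lab i = some o →
  lab i' = some o' → M.ex la o = 0 → M.ex la o' = 0 → Lz Q.O A →
  (∀ l, l ≠ i → l ≠ i' → (C.z l)⁻¹ ∈ A) →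
  ∃ H ∈ C.G A {i, i'} 0, ∃ X ∈ C.G A {i, i'} 0, bf la β - H ∈ (dvf f la).Ex ∧
    (H (ip 3 f) / ip 3 f - (dvf f la).δ X) / C.z i ∈ A

end

end Pool.Agent.MP_ee8c61_ag.M3BK
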