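import Pool.Agent.MP_ee8c61_ag.M3BK.Spec
import Pool.Agent.MP_ee8c61_ag.M3BK.Tr
import Pool.Agent.MP_ee8c61_ag.M3RESID.Cht
import Pool.Agent.MP_ee8c61_ag.M3B1.Sys

/-! Valuations of the residue field, points below a valuation, points of a model. -/

namespace Pool.Agent.MP_ee8c61_ag.M3BK.RSurf

open M3 M3RESID Set
open Pool.Agent.MP_96693b_ag.RS (Loc LocOf)
open Pool.Agent.MP_96693b_ag

noncomputable section

section Gen

variable {L k : Type} [Field L] [Algebra ℂ L] [Field k] [Algebra ℂ k]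

theorem π_inv (P : Pl L k) {g : L} (hg : Un P.o.O g) : P.π g⁻¹ = (P.π g)⁻¹ := by
  obtain ⟨h0, h1⟩ := P.o.un_O.1 hg
  rw [← one_div, Pl.π_div one_F h0 h1, P.π_one, one_div]

/-- The composite of the place with a valuation ring of the residue field. -/
def lift (P : Pl L k) (V : ValuationSubring k) : ValuationSubring L where
  carrier := {g | g ∈ P.o.F 0 ∧ P.π g ∈ V}
  mul_mem' := fun {g h} hg hh => ⟨F_mul0 hg.1 hh.1, P.mul _ hg.1 _ hh.1 ▸ mul_mem hg.2 hh.2⟩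
  one_mem' := ⟨one_F, P.π_one ▸ one_mem _⟩
  add_mem' := fun {g h} hg hh => ⟨add_mem hg.1 hh.1, P.add _ hg.1 _ hh.1 ▸ add_mem hg.2 hh.2⟩
  zero_mem' := ⟨zero_mem _, P.π_zero ▸ zero_mem _⟩
  neg_mem' := fun {g} hg => ⟨neg_mem hg.1, Pl.π_neg hg.1 ▸ neg_mem hg.2⟩
  mem_or_inv_mem' := fun g => by
    have k : ∀ x, 0 < P.o.v x → x ∈ P.o.F 0 ∧ P.π x ∈ V := fun x hx =>
      ⟨Or.inr hx.le, by rw [P.π_F1 (Or.inr hx)]; exact zero_mem _⟩
    by_cases h0 : g = 0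
    · exact Or.inl ⟨Or.inl h0, by rw [h0, P.π_zero]; exact zero_mem _⟩
    rcases lt_trichotomy (P.o.v g) 0 with h | h | h
    · exact Or.inr (k _ (by rw [P.o.inv]; omega))
    · have hu := P.o.un_O.2 ⟨h0, h⟩
      exact (V.mem_or_inv_mem (P.π g)).imp (fun e => ⟨hu.2.1, e⟩) fun e =>
        ⟨hu.2.2, by rwa [π_inv P hu]⟩
    · exact Or.inl (k _ h)

variable {P : Pl L k} {V : ValuationSubring k}

theorem mem_lift {g : L} : g ∈ lift P V ↔ g ∈ P.o.F 0 ∧ P.π g ∈ V := Iff.rfl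

theorem lift_le : lift P V ≤ P.o.O := fun _ h => h.1

theorem un_lift {g : L} : Un (lift P V) g ↔ g ∈ P.o.F 0 ∧ Un V (P.π g) := by
  constructor
  · intro h
    have hu := h.mono lift_le
    exact ⟨h.2.1.1, Pl.π_ne h.1 (P.o.un_O.1 hu).2, h.2.1.2, π_inv P hu ▸ h.2.2.2⟩
  · rintro ⟨h1, h2⟩
    have h0 : g ≠ 0 := fun e => h2.1 (by rw [e, P.π_zero])
    have hu : Un P.o.O g := P.o.un_O.2 ⟨h0, by
      have a := h1.resolve_left h0
      have b := not_or.1 fun e : g ∈ P.o.F 1 => h2.1 (P.π_F1 e)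
      omega⟩
    exact ⟨h0, ⟨h1, h2.2.1⟩, hu.2.2, by rw [π_inv P hu]; exact h2.2.2⟩

theorem lift_inj {V' : ValuationSubring k} (h : lift P V = lift P V') : V = V' := by
  ext y
  obtain ⟨g, hg, rfl⟩ := P.surj y
  exact ⟨fun e => (h.le ⟨hg, e⟩ : g ∈ lift P V').2, fun e => (h.ge ⟨hg, e⟩ : g ∈ lift P V).2⟩

theorem le_lift {x : Loc L} {x' : Loc k} (h : Pr P x x') (hV : Le x' V) : Le x (lift P V) :=
  fun g hg => ⟨h.1 g hg, hV _ (h.mem hg)⟩

theorem dm_lift {x : Loc L} {x' : Loc k} (h : Pr P x x') (hV : Dm x' V) : Dm x (lift P V) :=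
  ⟨le_lift h hV.1, fun g hg h0 e => hV.2 _ (h.mem hg) (by rwa [h.ev hg]) (un_lift.1 e).2⟩

theorem un_of_ev {x : Loc L} {W : ValuationSubring L} (h : Le x W) {g : L} (hg : x.ev g ≠ 0) :
    Un W g :=
  ⟨RS.Loc.ne_zero_of_ev hg, h _ (RS.Loc.mem_of_ev hg), h _ (x.inv_mem _ (RS.Loc.mem_of_ev hg) hg)⟩

/-- The functions of `A` that vanish at `x`. -/
def ker (A : Subalgebra ℂ L) (x : Loc L) (h : A ≤ x.O) : Ideal A where
  carrier := {g | x.ev g = 0}
  add_mem' := fun {a b} ha hb => by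
    have := x.ev_add _ (h a.2) _ (h b.2)
    rw [ha, hb, add_zero] at this
    exact this
  zero_mem' := RS.Loc.ev_zero
  smul_mem' := fun a b hb => by
    have := x.ev_mul _ (h a.2) _ (h b.2)
    rw [hb, mul_zero] at this
    exact this

theorem exists_dm (x : Loc L) : ∃ V, Dm x V := by
  obtain ⟨V, h1, h2⟩ := Ideal.image_subset_nonunits_valuationSubring (A := x.O.toSubring)
    (ker x.O x le_rfl) ((Ideal.ne_top_iff_one _).2 fun h =>
      one_ne_zero (RS.Loc.ev_one.symm.trans h))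
  refine ⟨V, fun g hg => h1 hg, fun g hg h0 e => ?_⟩
  have := h2 ⟨⟨g, hg⟩, h0, rfl⟩
  exact absurd (un_iff.1 e) (V.mem_nonunits_iff.1 this).ne

theorem exists_le {A : Subalgebra ℂ L} (hA : A.FG) {W : ValuationSubring L} (h : ∀ g ∈ A, g ∈ W) :
    ∃ x, LocOf A x ∧ Le x W := by
  let I : Ideal A :=
    { carrier := {g | ¬Un W g}
      add_mem' := fun {a b} ha hb => not_un_add (h _ a.2) (h _ b.2) ha hb
      zero_mem' := not_un_zero
      smul_mem' := fun a b hb => not_un_mul (h _ a.2) (h _ b.2) hb }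
  obtain ⟨x, h1, h2, -⟩ := RS.exists_locOf_of_notMem hA (I := I) (r := 1) fun ⟨n, hn⟩ => by
    rw [one_pow] at hn
    exact hn un_one
  refine ⟨x, h1, fun g hg => ?_⟩
  obtain ⟨p, hp, q, hq, h0, e⟩ := h1.frac g hg
  have hu : Un W q := by_contra fun hn => h0 (h2 ⟨q, hq⟩ hn)
  exact hu.mem_iff.1 (e ▸ h p hp)

theorem eq_of_ev {A : Subalgebra ℂ L} {x x' : Loc L} (h : LocOf A x) (h' : LocOf A x')
    (e : ∀ g ∈ A, x.ev g = 0 → x'.ev g = 0) : x = x' := by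
  have k : ∀ g ∈ A, x'.ev g = x.ev g := fun g hg => by
    have := e _ (sub_mem hg (A.algebraMap_mem (x.ev g))) (by
      rw [RS.Loc.ev_sub (h.le hg) (x.O.algebraMap_mem _), x.ev_alg, sub_self])
    rwa [RS.Loc.ev_sub (h'.le hg) (x'.O.algebraMap_mem _), x'.ev_alg, sub_eq_zero] at this
  exact RS.Loc.ext' (le_antisymm (h.le_of_ev h'.le k) (h'.le_of_ev h.le fun g hg => (k g hg).symm))

/-- Finitely many points are cut out by given functions. -/
theorem fin_pts {A : Subalgebra ℂ L} [IsNoetherianRing A] {n : ℕ} (z : Fin n → A) :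
    {x : Loc L | LocOf A x ∧ (∀ i, x.ev (z i) = 0) ∧ ∀ g ∈ x.O, x.ev g = 0 →
      ∃ h : Fin n → L, (∀ i, h i ∈ x.O) ∧ g = ∑ i, z i * h i}.Finite := by
  classical
  refine Finite.of_finite_image (f := fun x => if h : A ≤ x.O then ker A x h else ⊤)
    ((Ideal.finite_minimalPrimes_of_isNoetherianRing A (Ideal.span (range z))).subset ?_) ?_
  · rintro _ ⟨x, ⟨h1, h2, h3⟩, rfl⟩
    simp only [dif_pos h1.le]
    refine ⟨⟨⟨(Ideal.ne_top_iff_one _).2 fun h => one_ne_zero (RS.Loc.ev_one.symm.trans h),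
      fun {a b} h => ?_⟩, Ideal.span_le.2 ?_⟩, fun q ⟨hq, hz⟩ hle g hg => ?_⟩
    · exact mul_eq_zero.1 ((x.ev_mul _ (h1.le a.2) _ (h1.le b.2)).symm.trans h)
    · rintro _ ⟨i, rfl⟩
      exact h2 i
    · obtain ⟨h, h4, e⟩ := h3 g (h1.le g.2) hg
      choose p hp s hs h0 es using fun i => h1.frac (h i) (h4 i)
      have a : (∏ i, (⟨s i, hs i⟩ : A)) * g ∈ q := by
        have : (∏ i, (⟨s i, hs i⟩ : A)) * g =
            ∑ i, (⟨p i, hp i⟩ * ∏ l ∈ Finset.univ.erase i, (⟨s l, hs l⟩ : A)) * z i := by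
          apply Subtype.ext
          push_cast
          rw [e, Finset.mul_sum]
          refine Finset.sum_congr rfl fun i _ => ?_
          rw [← Finset.mul_prod_erase _ _ (Finset.mem_univ i), ← es i]
          ring
        rw [this]
        exact sum_mem fun i _ => q.mul_mem_left _ (hz (Ideal.subset_span ⟨i, rfl⟩))
      refine (hq.mem_or_mem a).resolve_left fun h' => ?_
      obtain ⟨i, -, hi⟩ := (hq.prod_mem_iff).1 h'
      exact h0 i (hle hi)
  · rintro x ⟨h1, -⟩ x' ⟨h2, -⟩ e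
    simp only [dif_pos h1.le, dif_pos h2.le] at e
    exact eq_of_ev h1 h2 fun g hg h0 => (e.le (show (⟨g, hg⟩ : A) ∈ ker A x h1.le from h0) :)

/-- A curve through a point on which a coordinate vanishes is the coordinate curve. -/
theorem dat_of_le {C : Co L 2} {x : Loc L} {G : DV L} {i : Fin 2} (h : Rg C x) (hl : Le x G.O)
    (hd : ¬Dm x G.O) (hi : G.v (C.z i) = 1) : C.Dat x.O G i := by
  have := x.noeth
  have hz := h.st.z
  let 𝔭 : Ideal x.O :=
    { carrier := {g | (g : L) ∈ G.F 1}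
      add_mem' := fun ha hb => (G.F 1).add_mem ha hb
      zero_mem' := zero_mem (G.F 1)
      smul_mem' := fun a b hb => F_mul0 (hl _ a.2) hb }
  have hF : ∀ g ∈ x.O, g ∈ G.F 1 ↔ ¬Un G.O g := fun g hg => by
    rw [G.un_O, G.mem_F]
    rcases hl g hg with h0 | h0
    · simp [h0]
    · by_cases h1 : g = 0
      · simp [h1]
      · simp only [h1, false_or, ne_eq, not_false_eq_true, true_and]
        omega
  have hs : ∀ a : Fin 2 → L, ∑ j, a j = a i + a i.rev := fun a => by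
    fin_cases i <;> simp [Fin.sum_univ_two, add_comm]
  have ht : Un G.O (C.z i.rev) := by_contra fun hn => hd ⟨hl, fun g hg h0 => by
    obtain ⟨p, hp, rfl⟩ := h.mx g hg h0
    rw [← hF _ hg, hs]
    exact add_mem (F_mul0' (Or.inr hi.ge) (hl _ (hp _)))
      (F_mul0' ((hF _ (hz _)).2 hn) (hl _ (hp _)))⟩
  have key : 𝔭 ≤ Ideal.span {⟨C.z i, hz i⟩} := by
    refine Submodule.le_of_le_smul_of_le_jacobson_bot (I := Ideal.span {⟨C.z i.rev, hz _⟩})
      (IsNoetherian.noetherian _) (Ideal.span_le.2 ?_) fun g hg => ?_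
    · rintro _ rfl
      refine Ideal.mem_jacobson_bot.2 fun y => ?_
      have h1 : x.ev (C.z i.rev * y + 1) ≠ 0 := by
        rw [x.ev_add _ (mul_mem (hz _) y.2) _ (one_mem _), x.ev_mul _ (hz _) _ y.2, h.ev,
          RS.Loc.ev_one]
        simp
      exact IsUnit.of_mul_eq_one ⟨_, x.inv_mem _ (RS.Loc.mem_of_ev h1) h1⟩
        (Subtype.ext (mul_inv_cancel₀ (RS.Loc.ne_zero_of_ev h1)))
    · obtain ⟨p, hp, e⟩ := h.mx g g.2 (by_contra fun h0 => (hF _ g.2).1 hg (un_of_ev hl h0))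
      rw [hs] at e
      have h1 : p i.rev ∈ G.F 1 := by
        have h2 : C.z i.rev * p i.rev ∈ G.F 1 := by
          rw [eq_sub_of_add_eq' e.symm]
          exact sub_mem hg (F_mul0' (Or.inr hi.ge) (hl _ (hp _)))
        rw [hF _ (hp _)]
        exact fun hu => (hF _ (mul_mem (hz _) (hp _))).1 h2 (ht.mul hu)
      have h2 : g = ⟨C.z i, hz i⟩ * ⟨p i, hp i⟩ + (⟨C.z i.rev, hz _⟩ : x.O) • ⟨p i.rev, hp _⟩ :=
        Subtype.ext e
      rw [h2]
      exact Submodule.add_mem_sup (Ideal.mul_mem_right _ _ (Ideal.mem_span_singleton_self _))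
        (Submodule.smul_mem_smul (Ideal.mem_span_singleton_self _) h1)
  refine Co.dat_of h.st hi h.fr hl fun g hg h1 => ?_
  obtain ⟨a, ha⟩ := Ideal.mem_span_singleton'.1 (key (show (⟨g, hg⟩ : x.O) ∈ 𝔭 from h1))
  have : (a : L) * C.z i = g := congrArg Subtype.val ha
  rw [← this, mul_div_cancel_right₀ _ (C.ne i)]
  exact a.2

theorem con_im (c1 : ConOK L) {κ : Type} [Finite κ] {y : κ → L} {W : Set (Loc L)} (hV : ConP W)
    (hy : W ⊆ Af y) (hI : ∀ x ∈ W, Ins P x) : ConP (im P W) := by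
  have hr : RegOn y W := fun x hx => Af_reg y x (hy hx)
  have e : im P W = Af (fun i => P.π (y i)) ∩ vl (fun i => P.π (y i)) ⁻¹' (vl y '' W) := by
    ext x'
    constructor
    · rintro ⟨x, hx, h⟩
      exact ⟨h.af (hy hx), x, hx, (h.vl (hr x hx)).symm⟩
    · rintro ⟨h1, x, hx, h2⟩
      obtain ⟨x'', h⟩ := (hI x hx).exists_pr
      have : x'' = x' := Af_inj _ (h.af (hy hx)) h1 ((h.vl (hr x hx)).trans h2)
      exact ⟨x, hx, this ▸ h⟩
  exact e ▸ ConP.pc κ _ _ (c1.img W κ y hV hr)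

theorem con_iUnion {ι : Type} [Fintype ι] {W : ι → Set (Loc L)} (h : ∀ i, ConP (W i)) :
    ConP (⋃ i, W i) := by
  classical
  have : ∀ s : Finset ι, ConP (⋃ i ∈ s, W i) := fun s => by
    induction s using Finset.induction_on with
    | empty => simpa using conP_empty
    | insert a s _ ih =>
      rw [Finset.set_biUnion_insert]
      exact (h a).union ih
  simpa using this Finset.univ

end Gen

variable {N : ℕ} {f : Po N} {M : Mod N}

theorem locOf_of_le {a b : M.ι} {P : Loc (KK N)} (hP : LocOf (M.S.A b) P) (h : M.S.A a ≤ P.O) :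
    LocOf (M.S.A a) P := by
  refine ⟨h, fun g hg => ?_⟩
  obtain ⟨p, hp, q, hq, h0, e⟩ := hP.frac g hg
  obtain ⟨u, u1, u2, u3⟩ := M.S.loc a b p hp
  obtain ⟨v, v1, v2, v3⟩ := M.S.loc a b q hq
  have k : ∀ w : (KK N)ˣ, (w : KK N) ∈ M.S.A a → (w⁻¹ : (KK N)ˣ).1 ∈ M.S.A a ⊔ M.S.A b →
      P.ev w ≠ 0 := fun w w1 w2 => by
    have := P.ev_mul _ (h w1) _ (sup_le h hP.le w2)
    rw [Units.mul_inv, RS.Loc.ev_one] at this
    exact left_ne_zero_of_mul_eq_one this.symm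
  refine ⟨_, mul_mem u3 v1, _, mul_mem u1 v3, ?_, by rw [← e]; ring⟩
  rw [P.ev_mul _ (h u1) _ (h v3), P.ev_mul _ (h v1) _ (hP.le hq)]
  exact mul_ne_zero (k u u1 u2) (mul_ne_zero (k v v1 v2) h0)

/-- The points of a model are separated. -/
theorem sep (B : M3E.Bas f M) {Q Q' : Loc (KK N)} (hQ : Q ∈ M.pts) (hQ' : Q' ∈ M.pts) {V : Vl N}
    (h : Dm Q V) (h' : Le Q' V) : Q = Q' := by
  obtain ⟨b, hb⟩ := hQ
  obtain ⟨b', hb'⟩ := hQ'
  have h1 : M.S.A b' ≤ Q.O := fun g hg => by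
    obtain ⟨s, s1, s2, s3⟩ := B.lc b' b V (fun g hg => h' g (hb'.le hg))
      (fun g hg => h.1 g (hb.le hg)) g hg
    have := mul_mem (Q.inv_mem s (hb.le s1) fun e => h.2 s (hb.le s1) e s2) (hb.le s3)
    rwa [inv_mul_cancel_left₀ s2.1] at this
  exact eq_of_ev (locOf_of_le hb h1) hb' fun g hg h0 =>
    by_contra fun e => h.2 g (h1 hg) h0 (un_of_ev h' e)

theorem on_iff (h : M.OK f) (B : M3E.Bas f M) {b : M.ι} {P : Loc (KK N)}
    (hP : LocOf (M.S.A b) P) (j : M.J) : M.On P j ↔ P.ev (M.η b j) = 0 := by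
  constructor
  · intro H
    exact by_contra fun e => (B.thru_iff b _ j fun g hg => H g (hP.le hg)).1
      ((B.thru_v j j).2 rfl) (un_of_ev (W := (M.v j).O) H e)
  · intro H g hg
    obtain ⟨V, hV⟩ := exists_dm P
    have hb : M.In b V := fun g hg => hV.1 g (hP.le hg)
    obtain ⟨h1, -, -, h4⟩ := B.in_v b V j hb
      ((B.thru_iff b V j hb).2 (hV.2 _ (hP.le (B.η_mem b j)) H))
    obtain ⟨p, hp, q, hq, h0, e⟩ := hP.frac g hg
    have hu := un_of_ev hV.1 h0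
    exact ((M.v j).un_O.2 ⟨hu.1, h4 q hq hu⟩).mem_iff.1 (e ▸ h1 p hp)

theorem con_on (h : M.OK f) (B : M3E.Bas f M) (c1 : ConOK (KK N)) {k : Type} [Field k]
    [Algebra ℂ k] {P : Pl (KK N) k} {o : M.J} (ho : P.o = M.v o) (j : M.J) :
    ConP (im P {Q ∈ M.pts | M.On Q o ∧ M.On Q j}) := by
  have e : im P {Q ∈ M.pts | M.On Q o ∧ M.On Q j} =
      ⋃ b, im P {Q | LocOf (M.S.A b) Q ∧ M.On Q o ∧ M.On Q j} := by
    ext x
    simp only [im, mem_iUnion, mem_setOf_eq, Mod.pts]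
    exact ⟨fun ⟨Q, ⟨⟨b, h1⟩, h2⟩, h3⟩ => ⟨b, Q, ⟨h1, h2⟩, h3⟩,
      fun ⟨b, Q, ⟨h1, h2⟩, h3⟩ => ⟨Q, ⟨⟨b, h1⟩, h2⟩, h3⟩⟩
  rw [e]
  refine con_iUnion fun b => ?_
  obtain ⟨s, hs⟩ := chart_fg h b
  have ha : ∀ Q, Q ∈ Af (fun i : s => (i : KK N)) ↔ LocOf (M.S.A b) Q := fun Q => by
    rw [Af, show (range fun i : s => (i : KK N)) = s from Subtype.range_coe, hs]
    rfl
  refine con_im c1 (y := fun i : s => (i : KK N)) ?_ (fun Q hQ => (ha Q).2 hQ.1)
    fun Q hQ g hg => ho ▸ hQ.2.1 g hg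
  have h0 : ConP (Af fun i : s => (i : KK N)) := by
    simpa using ConP.pc s (fun i : s => (i : KK N)) _ (H36.Con.zero 0)
  have h1 : ∀ l, ConP {Q | LocOf (M.S.A b) Q ∧ M.On Q l} := fun l => by
    have := c1.pre _ Unit (fun _ => M.η b l) _ h0
      (fun Q hQ _ => ((ha Q).1 hQ).le (B.η_mem b l)) (H36.Con.zero (MvPolynomial.X ()))
    convert this using 1
    ext Q
    simp only [mem_setOf_eq, mem_inter_iff, ha, mem_preimage, MvPolynomial.eval_X, vl]
    exact and_congr_right fun hQ => on_iff h B hQ l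
  convert c1.inter _ _ (h1 o) (h1 j) using 1
  ext Q
  simp only [mem_setOf_eq, mem_inter_iff]
  tauto

/-- Fields on a divisor lift. -/
theorem lift_der {f : Po (N + 1)} {M : M3.Mod (N + 1)} (h : M.OK f) (B : M3E.Bas f M) {k : Type}
    [Field k] [Algebra ℂ k] {P : Pl (KK (N + 1)) k} {o : M.J} (ho : P.o = M.v o) (w : VF k) :
    ∃ v, P.Rs v w := by
  obtain ⟨b, hb⟩ := h.ne o
  obtain ⟨i, hi⟩ := lab_of hb
  have hd := cht_dat h hi hb
  rw [← ho] at hd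
  obtain ⟨C', hC⟩ := Pl.exists_RsC (P := P) hd.adp fun w hw => by
    have h1 := chart_der h (rh P _ hd.le) w fun l => by
      rcases Fin.eq_self_or_eq_succAbove i l with rfl | ⟨l, rfl⟩
      · show w (P.π ((cht h b).z l)) = 0
        rw [P.π_F1 (Or.inr hd.adp.vz.ge), map_zero]
      · exact hw l
    ext y
    obtain ⟨g, hg, rfl⟩ := P.surj y
    obtain ⟨s, s1, s2, s3⟩ := B.frac b o (h.dv b o hb).1 g (ho ▸ hg)
    rw [← ho] at s2
    have h2 : w (P.π (s * g)) = 0 := h1 ⟨_, s3⟩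
    have h3 : w (P.π s) = 0 := h1 ⟨_, s1⟩
    rw [P.mul _ s2.2.1 _ hg, Derivation.leibniz, h3, smul_zero, add_zero, smul_eq_mul] at h2
    exact (mul_eq_zero.1 h2).resolve_left (Pl.π_ne s2.1 (P.o.un_O.1 s2).2)
  exact hC.lift hd.adp w

/-- Adapted coordinates restrict. -/
theorem exists_RsC {L k : Type} [Field L] [Algebra ℂ L] [Field k] [Algebra ℂ k] {n : ℕ}
    {P : Pl L k} (hl : ∀ w, ∃ v, P.Rs v w) {C : Co L (n + 1)} {i : Fin (n + 1)}
    (h : C.At P.o i) : ∃ C', P.RsC C i C' := Pl.exists_RsC h fun w hw => by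
  obtain ⟨v, hv⟩ := hl w
  ext y
  obtain ⟨g, hg, rfl⟩ := P.surj y
  rw [← hv.2 g hg, C.exp_apply v g,
    Pl.π_sum _ fun l _ => F_mul0 (hv.ap (h.z_F l)) (h.D l g hg)]
  refine Finset.sum_eq_zero fun l _ => ?_
  rw [P.mul _ (hv.ap (h.z_F l)) _ (h.D l g hg), hv.2 _ (h.z_F l)]
  rcases Fin.eq_self_or_eq_succAbove i l with rfl | ⟨l, rfl⟩
  · rw [P.π_F1 (Or.inr h.vz.ge), map_zero, zero_mul]
  · rw [hw, zero_mul]

end

end Pool.Agent.MP_ee8c61_ag.M3BK.RSurf
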