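import Pool.Agent.MP_ee8c61_ag.M3BK.Spec
import Pool.Agent.MP_ee8c61_ag.M3RESID.Eqn

/-! The residue of the volume form and of the primitive on a divisor of exponent zero. -/

namespace Pool.Agent.MP_ee8c61_ag.M3BK

open M3 M3RESID Set
open Pool.Agent.MP_96693b_ag.RS (Loc LocOf)

namespace RAd

theorem inv_pow_mem {L : Type} [Field L] [Algebra ℂ L] {n : ℕ} {C : Co L n} {O : Subalgebra ℂ L}
    {f : L} {a : Fin n → ℤ} (h : (f / C.mon a)⁻¹ ∈ O) (u : ℕ) :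
    ∃ c, (f ^ u)⁻¹ / C.mon c ∈ O := by
  induction u with
  | zero => exact ⟨0, by simp [C.mon_zero]⟩
  | succ u ih =>
    obtain ⟨c, hc⟩ := ih
    refine ⟨c - a, mem_of_eq (mul_mem hc h) ?_⟩
    have e := C.mon_add (c - a) a
    rw [sub_add_cancel] at e
    rw [e, inv_div, pow_succ, mul_inv, div_mul_div_comm, mul_right_comm (C.mon _),
      mul_div_mul_right _ _ (C.mon_ne a), div_mul_eq_div_div_swap, div_eq_mul_inv _ f]

variable {f : Po 3} {la : ℚ} {b : Polynomial ℂ} {β : Fin 3 → H59.PX 3 (KK 3)}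
  {Q : H59.PX 3 (KK 3)} {M : Mod 3} {x : Loc (KK 3)} {C : Co (KK 3) 3} {lab : Fin 3 → Option M.J}

theorem pol_mem (hM : M.OK f) (h : Pt3 M f x C lab) {g : KK 3} (hg : g ∈ (ip 3).range) :
    g ∈ x.O := by
  obtain ⟨a, ha, -⟩ := h.ch
  obtain ⟨p, rfl⟩ := hg
  exact ha.le (hM.pol a p)

/-- The primitive has poles on the coordinate planes only. -/
theorem bf_mem (hb : Hyp f la b β Q) (hM : M.OK f) (h : Pt3 M f x C lab) :
    ∃ c, c ≤ 0 ∧ bf la β ∈ C.G x.O Finset.univ c := by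
  obtain ⟨u, hu⟩ := hb.bs.pol
  obtain ⟨c', hc'⟩ := inv_pow_mem (x.inv_mem _ (by_contra fun g => h.fm (x.ev_out _ g)) h.fm) u
  choose c hc using h.pol
  obtain ⟨c₀, h0⟩ := (finite_range fun l => c' + c l).bddBelow
  refine ⟨c₀ ⊓ 0, inf_le_right, sum_mem fun l _ => Co.G_anti h.rg.st.z _
    (inf_le_left.trans (h0 ⟨l, rfl⟩)) (Co.smul_G ?_ (C.G_univ x.O _ ▸ hc l))⟩
  refine mem_of_eq (mul_mem (pol_mem hM h (ev0_mem (la := la) (hu l))) hc') ?_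
  rw [← mul_div_assoc, mul_right_comm, mul_inv_cancel₀ (pow_ne_zero u (M3B1.ip_ne hb.ne)), one_mul]

theorem δ_mem (hb : Hyp f la b β Q) (hM : M.OK f) (h : Pt3 M f x C lab) :
    (dvf f la).δ (bf la β) ∈ x.O := by
  rw [bf_δ hb.bs]
  exact sub_mem (x.O.algebraMap_mem _)
    (pol_mem hM h (mul_mem ⟨f, rfl⟩ (BSd.Q0 hb.bs la)))

end RAd

theorem rAd' (f : Po 3) (la : ℚ) (b : Polynomial ℂ) (β : Fin 3 → H59.PX 3 (KK 3))
    (Q : H59.PX 3 (KK 3)) (M : Mod 3) (C : Loc (KK 3) → Co (KK 3) 3)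
    (lab : Loc (KK 3) → Fin 3 → Option M.J) (o : M.J) (k : Type) [Field k] [Algebra ℂ k]
    (P : Pl (KK 3) k) (S : LSf k (xb P) M.J) (rs : Loc (KK 3) → Loc k) (e : Dv k) (v : VF k)
    (hb : Hyp f la b β Q) (hM : M.OK f) (hp : Pts M f C lab) (hS : IsSf M C lab o P S rs)
    (h0 : M.ex la o = 0) (he : P.RsD (dvf f la) e) :
    S.Ad e (fun j => (M.ex la j : ℂ)) ∧ (P.Res (dvf f la) (bf la β) v → S.Lo e v) := by
  have key : ∀ x ∈ S.X, ∃ y ∈ M.pts, ∃ i, x = rs y ∧ M.On y o ∧ lab y i = some o ∧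
      (C y).Dat y.O P.o i ∧ Exp (dvf f la) P.o 0 ∧
      (dvf f la).δ ((C y).th i) / (C y).z i ∈ y.O := fun x hx => by
    rw [hS.X] at hx
    obtain ⟨y, ⟨hy, h1⟩, rfl⟩ := hx
    obtain ⟨i, hi⟩ := ((hp y hy).on o).1 h1
    have h2 : (C y).Dat y.O P.o i := hS.po ▸ (hp y hy).dat i o hi
    have h3 := h2.exp ((hp y hy).ad la)
    have h4 := (hp y hy).ad la i
    simp only [hi, Option.elim_some, h0, Rat.cast_zero, map_zero, sub_zero] at h3 h4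
    exact ⟨y, hy, i, rfl, h1, hi, h2, h3, h4⟩
  refine ⟨fun x hx => ?_, fun hv x hx => ?_⟩
  · obtain ⟨y, hy, i, rfl, h1, hi, h2, h3, -⟩ := key x hx
    obtain ⟨hC, hl⟩ := hS.crd y hy i hi
    intro l
    rw [LSf.ea, hl]
    exact hC.Ad h2 (hS.O y hy h1) h3 he ((hp y hy).ad la) l
  · obtain ⟨y, hy, i, rfl, h1, hi, h2, h3, h4⟩ := key x hx
    obtain ⟨hC, -⟩ := hS.crd y hy i hi
    obtain ⟨c, hc, h5⟩ := RAd.bf_mem hb hM (hp y hy)
    obtain ⟨w, hw, h6⟩ := hC.loc h2 (hS.O y hy h1) (hp y hy).rg.st h4 (Finset.mem_univ i) h5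
      (Co.div_mon_anti (c' := 0) (hp y hy).rg.st.z
        (update_le_iff.2 ⟨le_rfl, fun j _ => hc j⟩)
        (by rw [Co.mon_zero, div_one]; exact RAd.δ_mem hb hM (hp y hy)))
    refine ⟨v - w, Pl.Res.uniq hC h2.adp h3 he hv h6, fun j => c (i.succAbove j), ?_⟩
    rw [sub_sub_cancel, ← Co.G_univ]
    simpa using hw

theorem rAd : SAD := fun f la b β Q M C lab o k _ _ P S rs e v =>
  rAd' f la b β Q M C lab o k P S rs e v

end Pool.Agent.MP_ee8c61_ag.M3BK
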