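import Pool.Agent.MP_ee8c61_ag.M3BK.XCrv
import Pool.Agent.MP_ee8c61_ag.M3BK.XGdl
import Pool.Agent.MP_ee8c61_ag.M3BK.XTp

/-! The cross term vanishes. -/

namespace Pool.Agent.MP_ee8c61_ag.M3BK

theorem rCross : OfCROSS := cross_of rGdl rTp

end Pool.Agent.MP_ee8c61_ag.M3BK
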