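import Pool.Agent.MP_ee8c61_ag.M3BK.Spec
import Pool.Agent.MP_ee8c61_ag.M3BK.Cr2

/-!
The ring at which a curve of exponent zero is created.
-/

namespace Pool.Agent.MP_ee8c61_ag.M3BK

open M3 M3RESID Set Polynomial
open Pool.Agent.MP_96693b_ag.RS (Loc)

noncomputable section

namespace Cr

variable {L : Type} [Field L] [Algebra ℂ L]

/-- The ring with the coordinates inverted. -/
def AA (C : Co L 2) (O : Subalgebra ℂ L) : Subalgebra ℂ L :=
  Algebra.adjoin ℂ (insert (C.z 0)⁻¹ (insert (C.z 1)⁻¹ (O : Set L)))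

variable {C : Co L 2} {O : Subalgebra ℂ L} {G : DV L} {d : Dv L}

theorem le_AA : O ≤ AA C O := fun _ h => Algebra.subset_adjoin (Or.inr (Or.inr h))

theorem inv_AA (i : Fin 2) : (C.z i)⁻¹ ∈ AA C O := by
  fin_cases i
  · exact Algebra.subset_adjoin (Or.inl rfl)
  · exact Algebra.subset_adjoin (Or.inr (Or.inl rfl))

theorem AA_le {B : Subalgebra ℂ L} (h : O ≤ B) (h0 : (C.z 0)⁻¹ ∈ B) (h1 : (C.z 1)⁻¹ ∈ B) :
    AA C O ≤ B := Algebra.adjoin_le (by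
  rintro g (rfl | rfl | hg)
  exacts [h0, h1, h hg])

theorem AA_sw : AA C O ≤ AA (sw C) O := AA_le le_AA (inv_AA (C := sw C) 1) (inv_AA (C := sw C) 0)

theorem AA_qt (c : ℂ) : AA C O ≤ AA (qt C c) (ex C O c) := by
  have h0 : (C.z 0)⁻¹ ∈ AA (qt C c) (ex C O c) := inv_AA (C := qt C c) 0
  refine AA_le (le_ex.trans le_AA) h0 ?_
  rw [z1_eq, mul_inv]
  refine mul_mem h0 ?_
  by_cases hc : c = 0
  · subst hc
    rw [← qt_z1']
    exact inv_AA 1
  · exact le_AA (inv_ex hc)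

theorem D_AA (h : C.St O) (i : Fin 2) {g : L} (hg : g ∈ AA C O) : C.D i g ∈ AA C O := by
  refine der_adj ?_ hg
  rintro g (rfl | rfl | hg)
  · exact der_inv (B := AA C O) (inv_AA 0) (le_AA (h.D i _ (h.z 0)))
  · exact der_inv (B := AA C O) (inv_AA 1) (le_AA (h.D i _ (h.z 1)))
  · exact le_AA (h.D i g hg)

theorem pres (h : C.St O) {w : VF L} (hw : ∀ i, w (C.z i) ∈ AA C O) {g : L} (hg : g ∈ AA C O) :
    w g ∈ AA C O := by
  rw [C.exp_apply]
  exact sum_mem fun i _ => mul_mem (hw i) (D_AA h i hg)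

theorem mon_AA (h : C.St O) (c : Fin 2 → ℤ) : C.mon c ∈ AA C O :=
  prod_mem fun i _ => by
    obtain ⟨m, hm | hm⟩ := Int.eq_nat_or_neg (c i)
    · rw [hm, zpow_natCast]
      exact pow_mem (le_AA (h.z i)) m
    · rw [hm, zpow_neg, zpow_natCast, ← inv_pow]
      exact pow_mem (inv_AA i) m

theorem AA_den (h : C.St O) {g : L} (hg : g ∈ AA C O) :
    ∃ N : ℕ, (C.z 0 * C.z 1) ^ N * g ∈ O := by
  have h0 := C.ne 0
  have h1 := C.ne 1
  have hz := mul_mem (h.z 0) (h.z 1)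
  induction hg using Algebra.adjoin_induction with
  | mem g hg =>
    rcases hg with rfl | rfl | hg
    · exact ⟨1, by rw [pow_one, mul_right_comm, mul_inv_cancel₀ h0, one_mul]; exact h.z 1⟩
    · exact ⟨1, by rw [pow_one, mul_inv_cancel_right₀ h1]; exact h.z 0⟩
    · exact ⟨0, by simpa using hg⟩
  | algebraMap r => exact ⟨0, by simp⟩
  | add x y _ _ hx hy =>
    obtain ⟨N, hN⟩ := hx
    obtain ⟨M, hM⟩ := hy
    refine ⟨N + M, (congrArg (· ∈ O) ?_).mp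
      (add_mem (mul_mem (pow_mem hz M) hN) (mul_mem (pow_mem hz N) hM))⟩
    ring
  | mul x y _ _ hx hy =>
    obtain ⟨N, hN⟩ := hx
    obtain ⟨M, hM⟩ := hy
    refine ⟨N + M, (congrArg (· ∈ O) ?_).mp (mul_mem hN hM)⟩
    ring

/-- Reduction of the pole order inside a ring. -/
theorem red_in {B : Subalgebra ℂ L} {θ : VF L} (h1 : Eul G θ)
    (h2 : d.δ θ - algebraMap ℂ L 0 ∈ G.F 1) (h3 : ∀ g ∈ B, θ g ∈ B) (h4 : d.δ θ ∈ B) {b : ℂ}
    (m : ℕ) : ∀ v ∈ LV G (-(m : ℤ)), d.δ v = algebraMap ℂ L b → (∀ g ∈ B, v g ∈ B) →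
      ∃ u ∈ d.Ex, v - u ∈ LV G 0 ∧ ∀ g ∈ B, (v - u) g ∈ B := by
  induction m with
  | zero => exact fun v hv _ h => ⟨0, zero_mem _, by simpa using hv, by simpa using h⟩
  | succ m ih =>
    intro v hv hδ hB
    have hκ : ((-((m + 1 : ℕ) : ℤ) : ℤ) : ℂ) + 0 ≠ 0 := by
      rw [add_zero, Int.cast_ne_zero]
      omega
    have st := red_stepV h1 h2 hv (G.F_anti (by omega) (hδ ▸ cst_F G b))
    generalize ((-((m + 1 : ℕ) : ℤ) : ℤ) : ℂ) + 0 = κ at hκ st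
    have st' := LV_smul0 (cst_F G κ⁻¹) st
    rw [smul_sub, smul_smul, ← map_mul, inv_mul_cancel₀ hκ, map_one, one_smul] at st'
    have hu := d.cst_mem κ⁻¹ (d.B_mem θ v)
    obtain ⟨u, h5, h6⟩ := ih _ (LV_anti (by omega) st') (by rw [map_sub, d.δ_Ex hu, sub_zero, hδ])
      fun g hg => by
        rw [Derivation.sub_apply, Derivation.smul_apply, smul_eq_mul, d.B_apply, hδ]
        exact sub_mem (hB g hg) (mul_mem (algebraMap_mem _ _) (sub_mem (add_mem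
          (sub_mem (h3 _ (hB g hg)) (hB _ (h3 g hg))) (mul_mem h4 (hB g hg)))
          (mul_mem (algebraMap_mem _ _) (h3 g hg))))
    exact ⟨_, add_mem hu h5, by rwa [← sub_sub]⟩

/-- Residues of the ring with inverted coordinates have poles at zero and infinity only. -/
theorem CR.lau (h : CR G C O) (hn : NC G (sg C)) (hG : Nrm G) {g : L} (hg : g ∈ AA C O)
    (h0 : g ∈ G.F 0) {U : DV G.kf} (hU : U.v (G.pl.π (sg C)) = 0) : G.pl.π g ∈ U.F 0 := by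
  obtain ⟨N, hN⟩ := AA_den (st_ex h.st) (AA_qt 0 hg)
  rw [qt_z0, qt_z1', mul_pow, mul_assoc] at hN
  have h1 : sg C ^ N * g ∈ G.F 0 := F_mul0 ((Vs G).pow_mem hn.1 N) h0
  have h2 := h.divn hn hG N hN (F_mul0' (Or.inr (by rw [v_pow G (C.ne 0), h.v0 hn hG]; simp)) h1)
  rw [mul_div_cancel_left₀ _ (pow_ne_zero N (C.ne 0))] at h2
  obtain ⟨p, hp, -⟩ := CR.πpol G.pl h hn h2
  have h3 := Pl.π_zpow (P := G.pl) hn.v.1 hn.v.2 N
  have h4 : G.pl.π (sg C) ≠ 0 := Pl.π_ne (P := G.pl) hn.v.1 hn.v.2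
  rw [zpow_natCast, zpow_natCast] at h3
  rw [G.pl.mul _ ((Vs G).pow_mem hn.1 N) _ h0, h3] at hp
  have h5 := F_div (aeval_F (G := U) (Or.inr hU.ge) p) (G.pl.π (sg C) ^ N)
  rwa [← hp, mul_div_cancel_left₀ _ (pow_ne_zero N h4), v_pow U h4, hU, mul_zero, sub_zero] at h5

end Cr

open Cr in
theorem rCre2 : OfCRE := by
  rintro - L _ _ d v b ψ C x a m G hgp hv ⟨u, hu, c, hc⟩ hm hG hd
  have h0 := CR.of hgp.rg hm
  have hψ : ψ ≠ 0 := fun e => hgp.mn (by simpa [e] using x.ev_alg 0)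
  obtain ⟨C, O, h, ⟨⟨a, ha⟩, hw, hp⟩, hn⟩ := iter hG (fun C O => (∃ a, C.Ad O d a) ∧
      (∀ i, (v - u) (C.z i) ∈ AA C O) ∧ ∀ i, C.D i ψ / ψ ∈ AA C O)
    (fun C O _ ⟨⟨a, h1⟩, h2, h3⟩ => ⟨⟨_, ad_sw h1⟩,
      Fin.forall_fin_two.2 ⟨AA_sw (h2 1), AA_sw (h2 0)⟩,
      Fin.forall_fin_two.2 ⟨AA_sw (h3 1), AA_sw (h3 0)⟩⟩)
    (fun C O c h ⟨⟨a, h1⟩, h2, h3⟩ => by
      have hs : sg C ∈ AA C O := by
        rw [sg, div_eq_mul_inv]
        exact mul_mem (le_AA (h.st.z 1)) (inv_AA 0)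
      refine ⟨⟨_, ad_qt h.st h1⟩, Fin.forall_fin_two.2 ⟨AA_qt c (h2 0), AA_qt c ?_⟩,
        Fin.forall_fin_two.2 ⟨AA_qt c ?_, AA_qt c ?_⟩⟩
      · exact pres h.st h2 (sub_mem hs (algebraMap_mem _ c))
      · rw [qt_D0, Derivation.add_apply, Derivation.smul_apply, smul_eq_mul, add_div,
          mul_div_assoc]
        exact add_mem (h3 0) (mul_mem hs (h3 1))
      · rw [qt_D1, Derivation.smul_apply, smul_eq_mul, mul_div_assoc]
        exact mul_mem (le_AA (h.st.z 0)) (h3 1)) h0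
    ⟨⟨a, hgp.ad⟩, fun i => by
      rw [← div_mul_cancel₀ ((v - u) (C.z i)) (mul_ne_zero (C.ne i) (C.mon_ne c))]
      exact mul_mem (le_AA (hc i)) (mul_mem (le_AA (h0.st.z i)) (mon_AA h0.st c)), fun i => by
      have h1 : ψ / C.mon m ∈ x.O := by
        by_contra e
        exact hgp.mn (x.ev_out _ e)
      have h2 := x.inv_mem _ h1 hgp.mn
      have h3 := C.mon_ne m
      have e : C.D i ψ / ψ = C.D i (ψ / C.mon m) * (ψ / C.mon m)⁻¹ +
          ∑ j, (m j : L) * (C.D i (C.z j) / C.z j) := by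
        rw [Derivation.leibniz_div, C.der_mon]
        simp only [smul_eq_mul]
        field_simp
        ring
      rw [e]
      refine add_mem (le_AA (mul_mem (h0.st.D i _ h1) h2)) (sum_mem fun j _ =>
        mul_mem (intCast_mem _ _) ?_)
      rw [div_eq_mul_inv]
      exact mul_mem (le_AA (h0.st.D i _ (h0.st.z j))) (inv_AA j)⟩
  have hN := nrm_of hG
  have hA := (h.dat hn hN).adp
  obtain ⟨θ, hθ⟩ := Pl.exists_Rs (P := G.pl) (h.th_LV hn hN)
  have hE := hA.eul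
  have hδ : ∀ i, d.δ (C.th i) ∈ AA C O := fun i => by
    rw [← sub_add_cancel (d.δ (C.th i)) (algebraMap ℂ L (a i)),
      ← div_mul_cancel₀ (_ - _) (C.ne i)]
    exact le_AA (add_mem (mul_mem (ha i) (h.st.z i)) (algebraMap_mem _ _))
  obtain ⟨e, he⟩ := hd.fin (v - u)
  obtain ⟨u', h1, h2, h3⟩ := red_in (B := AA C O) (b := b) hE (hd.of_eul hA.vz hE)
    (fun g hg => by
      rw [qt_th0, Derivation.add_apply, Co.th_apply, Co.th_apply]
      exact add_mem (mul_mem (le_AA (h.st.z 0)) (D_AA h.st 0 hg))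
        (mul_mem (le_AA (h.st.z 1)) (D_AA h.st 1 hg)))
    (by rw [qt_th0, map_add]; exact add_mem (hδ 0) (hδ 1)) (-e).toNat (v - u)
    (LV_anti (by omega) he) (by rw [map_sub, d.δ_Ex hu, sub_zero, hv]) fun g => pres h.st hw
  refine ⟨G.pl.π (sg C), θ, a 1, ⟨NC.tr G.pl hn, CR.gen G.pl h hn hN, ?_⟩, fun e he => ?_,
    u + u', add_mem hu h1, by rwa [← sub_sub], fun U hU => ?_⟩
  · rw [← hθ.2 _ hn.1, th1_sg]
  · rw [← he _ _ hθ, Pl.π_congr (P := G.pl) (cst_F G _) (h.δ_th ha 1), G.pl.π_cst]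
  · rw [← sub_sub]
    refine h.lau hn hN ?_ (LV_dlog h2 ψ) hU
    rw [C.exp_apply, Finset.sum_div]
    refine sum_mem fun i _ => ?_
    rw [mul_div_assoc]
    exact mul_mem (h3 _ (le_AA (h.st.z i))) (hp i)

end

end Pool.Agent.MP_ee8c61_ag.M3BK
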