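import Pool.Agent.MP_ee8c61_ag.M3.Defs

/-!
Integration against the Euler characteristic, good points, surfaces, flags.
-/

namespace Pool.Agent.MP_ee8c61_ag.M3BK

open M3 M3RESID Set
open Pool.Agent.MP_96693b_ag.RS (Loc LocOf)

noncomputable section

variable {L : Type} [Field L] [Algebra ℂ L] {n : ℕ}

/-- The function `w` is constructible on `W`. -/
structure Cf {F : Type} (W : Set (Loc L)) (w : Loc L → F) : Prop where
  fin : (w '' W).Finite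
  con : ∀ c, ConP (W ∩ w ⁻¹' {c})

/-- The integral of `w` over `W`. -/
def Itg {F : Type} [AddCommGroup F] (χ : H36.Chi) (W : Set (Loc L)) (w : Loc L → F) : F :=
  ∑ᶠ c, chiP χ (W ∩ w ⁻¹' {c}) • c

/-- The ring of `x` lies in `V`. -/
def Le (x : Loc L) (V : ValuationSubring L) : Prop := ∀ g ∈ x.O, g ∈ V

/-- `V` dominates `x`. -/
def Dm (x : Loc L) (V : ValuationSubring L) : Prop := Le x V ∧ ∀ g ∈ x.O, x.ev g = 0 → ¬Un V g

/-- A normalised valuation. -/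
def Nrm (G : DV L) : Prop := ∃ π, G.v π = 1

/-- A divisorial valuation of a surface. -/
def Dvs (G : DV L) : Prop := ∃ (C : Co L 2) (i : Fin 2), C.At G i

/-- `G` is a curve through the point `x`. -/
def Thr (x : Loc L) (G : DV L) : Prop := Nrm G ∧ Le x G.O ∧ ¬Dm x G.O

/-- `C` is a system of regular coordinates at `x`. -/
structure Rg (C : Co L n) (x : Loc L) : Prop where
  st : C.St x.O
  ev : ∀ i, x.ev (C.z i) = 0
  mx : ∀ g ∈ x.O, x.ev g = 0 → C.Mx x.O g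
  fr : ∀ g : L, ∃ s ∈ x.O, s ≠ 0 ∧ s * g ∈ x.O

/-- The volume has exponents `a` and `ψ` is a unit times the monomial `m`. -/
structure GP (d : Dv L) (ψ : L) (C : Co L n) (x : Loc L) (a : Fin n → ℂ) (m : Fin n → ℤ) :
    Prop where
  rg : Rg C x
  ad : C.Ad x.O d a
  mn : x.ev (ψ / C.mon m) ≠ 0

/-- The perturbed exponent. -/
def al {F : Type} [Field F] [Algebra ℂ F] (ε : F) (a : ℂ) (m : ℤ) : F := algebraMap ℂ F a + m * ε

/-- The perturbed weight. -/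
def wt {F : Type} [Field F] [Algebra ℂ F] (ε : F) (a : Fin 2 → ℂ) (m : Fin 2 → ℤ) : F :=
  (al ε (a 0) (m 0))⁻¹ * (al ε (a 1) (m 1))⁻¹

open Classical in
/-- The product of the inverses of the exponents that are not zero. -/
def w1 (a : Fin n → ℂ) : ℂ := ∏ i, if a i = 0 then 1 else (a i)⁻¹

/-- The logarithmic derivative of `ψ` along `v` is a divergence. -/
def Gd (d : Dv L) (v : VF L) (ψ : L) : Prop := ψ ≠ 0 ∧ ∃ X, v ψ / ψ = d.δ X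

/-- A smooth surface, proper over the ring generated by `X₀`. -/
structure Sf (L : Type) [Field L] [Algebra ℂ L] (X₀ : Set L) where
  X : Set (Loc L)
  C : Loc L → Co L 2
  con : ConP X
  rg : ∀ x ∈ X, Rg (C x) x
  base : ∀ x ∈ X, ∀ c ∈ X₀, c ∈ x.O
  prop : ∀ V : ValuationSubring L, (∀ c : ℂ, algebraMap ℂ L c ∈ V) → (∀ c ∈ X₀, c ∈ V) →
    ∃ x ∈ X, Le x V
  sep : ∀ V : ValuationSubring L, ∀ x ∈ X, ∀ x' ∈ X, Dm x V → Le x' V → x = x'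

/-- A surface with labelled boundary. -/
structure LSf (L : Type) [Field L] [Algebra ℂ L] (X₀ : Set L) (Λ : Type) extends Sf L X₀ where
  lab : Loc L → Fin 2 → Option Λ
  inj : ∀ x ∈ X, ∀ i i' j, lab x i = some j → lab x i' = some j → i = i'
  str : ∀ j, ConP {x ∈ X | ∃ i, lab x i = some j}
  cv : ∀ x ∈ X, ∀ x' ∈ X, ∀ i j G, lab x i = some j → (C x).Dat x.O G i → Le x' G.O →
    ∃ i', lab x' i' = some j ∧ (C x').Dat x'.O G i'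
  fin : {G : DV L | ∃ x ∈ X, ∃ i j, lab x i = some j ∧ (C x).Dat x.O G i}.Finite
  fin2 : {x ∈ X | lab x 0 ≠ none ∧ lab x 1 ≠ none}.Finite

namespace LSf

variable {X₀ : Set L} {Λ : Type} (S : LSf L X₀ Λ)

/-- The exponents at a point. -/
def ea (a : Λ → ℂ) (x : Loc L) (i : Fin 2) : ℂ := (S.lab x i).elim 1 a

/-- The multiplicities at a point. -/
def em (m : Λ → ℤ) (x : Loc L) (i : Fin 2) : ℤ := (S.lab x i).elim 0 m

/-- The volume has exponents `a` along the boundary. -/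
def Ad (d : Dv L) (a : Λ → ℂ) : Prop := ∀ x ∈ S.X, (S.C x).Ad x.O d (S.ea a x)

/-- Modulo exact fields the poles of `v` lie on the coordinate curves. -/
def Lo (d : Dv L) (v : VF L) : Prop := ∀ x ∈ S.X, ∃ u ∈ d.Ex, ∃ c, v - u ∈ (S.C x).F x.O c

/-- The function `ψ` has divisor `m` at `x`. -/
def Mn (ψ : L) (m : Λ → ℤ) (x : Loc L) : Prop := x.ev (ψ / (S.C x).mon (S.em m x)) ≠ 0

/-- The points on a curve of exponent zero. -/
def Z (a : Λ → ℂ) : Set (Loc L) := {x ∈ S.X | ∃ i, S.ea a x i = 0}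

/-- There are dominating surfaces on which given functions are monomial. -/
def Up (d : Dv L) (m : Λ → ℤ) : Prop := ∀ T : Finset L, (0 : L) ∉ T →
  ∃ (Λ' : Type) (_ : Fintype Λ') (S' : LSf L X₀ Λ') (a' : Λ' → ℂ) (m' : Λ' → ℤ), S'.Ad d a' ∧
    (∀ x' ∈ S'.X, ∃ x ∈ S.X, x.O ≤ x'.O ∧ S'.Mn ((S.C x).mon (S.em m x)) m' x') ∧
    ∀ ψ ∈ T, (∃ p, ∀ x' ∈ S'.X, S'.Mn ψ p x') ∧ ∀ x' ∈ S'.X, ψ ∈ x'.O ∨ ψ⁻¹ ∈ x'.O

end LSf

/-- The curve `z i = 0` and the point `x` on it. -/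
structure Fl (C : Co L 2) (x : Loc L) (i : Fin 2) (G : DV L) (U : DV G.kf) : Prop where
  dat : C.Dat x.O G i
  le : ∀ g ∈ x.O, G.pl.π g ∈ U.F 0
  un : U.v (G.pl.π (C.z i.rev)) = 1

/-- The field is the field of rational functions in `σ`, and `θ` is the Euler field. -/
structure P1 {k : Type} [Field k] [Algebra ℂ k] (σ : k) (θ : VF k) : Prop where
  tr : Transcendental ℂ σ
  gen : IntermediateField.adjoin ℂ {σ} = ⊤
  eul : θ σ = σ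

/-- The type of a curve of exponent zero. -/
def TY (d : Dv L) (v : VF L) (b : ℂ) (X₀ : Set L) (G : DV L) : Prop :=
  ∃ (σ : G.kf) (θ : VF G.kf) (μ : ℂ), μ ≠ 0 ∧ P1 σ θ ∧
    (∀ e, G.pl.RsD d e → e.δ θ = algebraMap ℂ _ μ) ∧
    (μ ^ 2 = 1 ∨ ∀ w, G.pl.Res d v w → w = algebraMap ℂ G.kf (b / μ) • θ) ∧
    ∀ c ∈ X₀, G.pl.π c ∈ range (algebraMap ℂ G.kf)

/-- The ruled model. -/
structure M0 (χ : H36.Chi) (d : Dv L) (v : VF L) (b : ℂ) (X₀ : Set L) where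
  S : Sf L X₀
  y : L
  h : L
  u : L
  g : ℚ
  v' : VF L
  a : Loc L → Fin 2 → ℂ
  o : Loc L → ℤ
  e : Loc L → ℤ
  g0 : g ≠ 0
  y0 : y ≠ 0
  h0 : h ≠ 0
  u0 : u ≠ 0
  ex : v - v' ∈ d.Ex
  vy : (g : L) * v' y = algebraMap ℂ L b * y
  vh : v' h = 0
  vt : ∀ x ∈ S.X, v' ((S.C x).z 0) = 0
  gp : ∀ k : ℕ, ∀ x ∈ S.X, GP d (y * h ^ k) (S.C x) x (a x) ![k * o x, e x]
  kind : ∀ x ∈ S.X, ((S.C x).z 1 = y ∧ a x 1 = g ∧ e x = 1) ∨
    ((S.C x).z 1 = y⁻¹ ∧ a x 1 = -g ∧ e x = -1) ∨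
    ∃ c : ℂ, c ≠ 0 ∧ (S.C x).z 1 = y - algebraMap ℂ L c ∧ a x 1 = 1 ∧ e x = 0
  sp : ∀ x ∈ S.X, o x = 0 → a x 0 = 1
  fib : ∀ x ∈ S.X, ∀ G : DV L, (S.C x).Dat x.O G 0 → G.v y = 0 ∧
    IntermediateField.adjoin ℂ {G.pl.π y} = ⊤ ∧ ∀ c ∈ X₀, G.pl.π c ∈ range (algebraMap ℂ G.kf)
  dom : ∀ (C : Co L 2) (x' : Loc L), Rg C x' → (∀ c ∈ X₀, c ∈ x'.O) → (y ∈ x'.O ∨ y⁻¹ ∈ x'.O) →
    (u ∈ x'.O ∨ u⁻¹ ∈ x'.O) → ∃ x ∈ S.X, x.O ≤ x'.O
  int : ∀ (F : Type) [Field F] [Algebra ℂ F] (ε : F) (k : ℕ),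
    Cf S.X (fun x => wt ε (a x) ![k * o x, e x]) ∧
      Itg χ S.X (fun x => wt ε (a x) ![k * o x, e x]) = 0

/-- The output for one surface. -/
structure Out (χ : H36.Chi) (d : Dv L) (v : VF L) (b : ℂ) {X₀ : Set L} {Λ : Type}
    (S : LSf L X₀ Λ) (a : Λ → ℂ) (ψ : L) (ρ : Loc L → ℂ) : Prop where
  two : ∀ x ∈ S.X, S.ea a x 0 ≠ 0 ∨ S.ea a x 1 ≠ 0
  ty : ∀ x ∈ S.X, ∀ i G, S.ea a x i = 0 → (S.C x).Dat x.O G i → TY d v b X₀ G ∧ G.v ψ ≠ 0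
  rg : ∀ j, a j = 0 → Itg χ {x ∈ S.X | ∃ i, S.lab x i = some j} (fun x => w1 (S.ea a x)) = 0
  gd : Gd d v ψ
  rho : ∀ x ∈ S.X, ∀ i G U, S.ea a x i = 0 → Fl (S.C x) x i G U →
    ρ x = (U.v (G.pl.π (ψ / (S.C x).z i ^ G.v ψ)) : ℂ) / (G.v ψ : ℂ)
  fin : (S.Z a ∩ Function.support ρ).Finite
  off : Itg χ (S.X \ S.Z a) (fun x => w1 (S.ea a x)) = ∑ᶠ x ∈ S.Z a, ρ x * w1 (S.ea a x) ^ 2

/-! ### Points of a threefold and the surfaces on it -/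

/-- Coordinates at a closed point of a model. -/
structure Pt3 (M : Mod 3) (f : Po 3) (Q : Loc (KK 3)) (C : Co (KK 3) 3)
    (lab : Fin 3 → Option M.J) : Prop where
  rg : Rg C Q
  ch : ∃ b, LocOf (M.S.A b) Q ∧ ∀ i j, lab i = some j → C.z i = M.η b j
  inj : ∀ i i' j, lab i = some j → lab i' = some j → i = i'
  on : ∀ j, M.On Q j ↔ ∃ i, lab i = some j
  dat : ∀ i j, lab i = some j → C.Dat Q.O (M.v j) i
  fm : Q.ev (ip 3 f / C.mon fun i => (lab i).elim 0 M.aa) ≠ 0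
  ad : ∀ la : ℚ, C.Ad Q.O (dvf f la) fun i => (lab i).elim 1 fun j => (M.ex la j : ℂ)
  pol : ∀ l, ∃ c, M3B1.pd 3 l ∈ C.F Q.O c

/-- The residues of the coordinate functions. -/
def xb {k : Type} [Field k] [Algebra ℂ k] (P : Pl (KK 3) k) : Set k := range fun l => P.π (xx 3 l)

/-- `S` is the divisor `o` of the model `M`. -/
structure IsSf (M : Mod 3) (C : Loc (KK 3) → Co (KK 3) 3) (lab : Loc (KK 3) → Fin 3 → Option M.J)
    (o : M.J) {k : Type} [Field k] [Algebra ℂ k] (P : Pl (KK 3) k) (S : LSf k (xb P) M.J)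
    (rs : Loc (KK 3) → Loc k) : Prop where
  po : P.o = M.v o
  X : S.X = rs '' {Q ∈ M.pts | M.On Q o}
  inj : InjOn rs {Q ∈ M.pts | M.On Q o}
  O : ∀ Q ∈ M.pts, M.On Q o → P.RsO Q.O (rs Q).O
  ev : ∀ Q ∈ M.pts, M.On Q o → ∀ g ∈ Q.O, (rs Q).ev (P.π g) = Q.ev g
  crd : ∀ Q ∈ M.pts, ∀ i, lab Q i = some o → P.RsC (C Q) i (S.C (rs Q)) ∧
    ∀ l, S.lab (rs Q) l = lab Q (i.succAbove l)

end

end Pool.Agent.MP_ee8c61_ag.M3BK
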