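import Pool.Agent.MP_ee8c61_ag.M3BK.Spec
import Pool.Agent.MP_96693b_ag.DR.RAff

/-!
The integral of the weight does not depend on the surface.
-/

namespace Pool.Agent.MP_ee8c61_ag.M3BK

open M3 M3RESID Set
open Pool.Agent.MP_96693b_ag.RS (Loc LocOf)

namespace RCmp

variable {L : Type} [Field L] [Algebra ℂ L] {X₀ : Set L}

theorem dm_le {x x' : Loc L} {V : ValuationSubring L} (h : x.O ≤ x'.O) (hV : Dm x' V) : Dm x V :=
  ⟨fun g hg => hV.1 g (h hg), fun g hg e =>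
    hV.2 g (h hg) ((MP_96693b_ag.RS.Loc.ev_eq_of_le h hg).trans e)⟩

theorem uniq (hN : SNRM) (S : Sf L X₀) {x x₁ x' : Loc L} (hx : x ∈ S.X) (h₁ : x₁ ∈ S.X)
    (l : x.O ≤ x'.O) (l₁ : x₁.O ≤ x'.O) : x = x₁ := by
  obtain ⟨V, hV⟩ := (hN L).1 x'
  exact S.sep V x hx x₁ h₁ (dm_le l hV) (dm_le l₁ hV).1

theorem ovr (S S' : Sf L X₀) (h : ∀ x' ∈ S'.X, ∃ x ∈ S.X, x.O ≤ x'.O) {x : Loc L}
    (hx : x ∈ S.X) : Ovr S'.X S'.C x := by
  refine ⟨S'.rg, fun V hV => ?_, S'.sep⟩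
  obtain ⟨x', h1, h2⟩ := S'.prop V (fun c => hV.1 _ (x.O.algebraMap_mem c))
    fun c hc => hV.1 c (S.base x hx c hc)
  obtain ⟨x₁, h3, h4⟩ := h x' h1
  exact ⟨x', h1, S.sep V x hx x₁ h3 hV (fun g hg => h2 g (h4 hg)) ▸ h4, h2⟩

end RCmp

open RCmp in
theorem rCmp : OfCMP := by
  intro hC hA hB hN hE hD χ L _ _ F _ _ ε d X₀ S S' ψ a a' m m' hχ h1 h2 hf c1 c2
  have A := hA χ L hχ
  have B := hB χ L F hχ
  have hup : ∀ x' ∈ S'.X, ∃ x ∈ S.X, x.O ≤ x'.O := fun x' hx' =>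
    (h2 x' hx').2.imp fun _ h => ⟨h.1, h.2.1⟩
  have dls : ∀ x ∈ S.X, Itg χ {x' ∈ S'.X | x.O ≤ x'.O} (fun x => wt ε (a' x) (m' x)) =
      wt ε (a x) (m x) := fun x hx => by
    refine hD χ L F ε d (ψ x) S'.X S.X S'.C a' m' (S.C x) x (a x) (m x) hχ S.con hx (h1 x hx).1
      (h1 x hx).2 (ovr S S' hup hx) (fun x' hx' l => ?_)
      (hf.subset fun G hG => ⟨⟨x, hx, hG.1⟩, hG.2⟩) c2
    obtain ⟨e, x₁, m₁, l₁, g⟩ := h2 x' hx'
    exact ⟨uniq hN S m₁ hx l₁ l ▸ g, e⟩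
  have fin : (S.X \ S'.X).Finite := by
    refine (hf.biUnion (t := fun G => {x ∈ S.X | Dm x G.O}) fun G _ =>
      Set.Subsingleton.finite fun x hx y hy => S.sep _ x hx.1 y hy.1 hx.2 hy.2.1).subset ?_
    intro x hx
    obtain ⟨G, g1, g2⟩ := hE L S'.X S'.C (S.C x) x (S.rg x hx.1) (ovr S S' hup hx.1) hx.2
    exact mem_biUnion (x := G) ⟨⟨x, hx.1, g1⟩, g2⟩ ⟨hx.1, g1⟩
  have one : ∀ x ∈ S.X ∩ S'.X, {x' ∈ S'.X | x.O ≤ x'.O} = {x} := fun x hx =>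
    eq_singleton_iff_unique_mem.2 ⟨⟨hx.2, le_rfl⟩, fun x' hx' =>
      uniq hN S' hx'.1 hx.2 le_rfl hx'.2⟩
  have pt : ∀ (w : Loc L → F), ∀ x ∈ S.X, Itg χ {x} w = w x := fun w x hx => by
    rw [B.cst {x} w (w x) (A.pt _ x S.con hx).1 (fun y hy => by rw [mem_singleton_iff.1 hy]),
      (A.pt _ x S.con hx).2, one_smul]
  have eq : EqOn (fun x => wt ε (a' x) (m' x)) (fun x => wt ε (a x) (m x)) (S.X ∩ S'.X) :=
    fun x hx => by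
      have := dls x hx.1
      rwa [one x hx, pt _ x hx.1] at this
  have cI : ConP (S.X ∩ S'.X) := (hC L).inter _ _ S.con S'.con
  have mem : ∀ {x}, x ∈ fin.toFinset ↔ x ∈ S.X \ S'.X := fin.mem_toFinset
  obtain ⟨s1, s2⟩ := B.sum _ fin.toFinset (fun x => {x' ∈ S'.X | x.O ≤ x'.O})
    (fun x => wt ε (a' x) (m' x))
    (fun x hx => A.sub _ _ _ _ c2 (A.up _ _ x S.con (mem.1 hx).1 S'.con) fun _ h => h.1)
    fun x hx y hy hne => disjoint_left.2 fun z h h' =>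
      hne (uniq hN S (mem.1 hx).1 (mem.1 hy).1 h.2 h'.2)
  obtain ⟨t1, t2⟩ := B.sum _ fin.toFinset (fun x => {x}) (fun x => wt ε (a x) (m x))
    (fun x hx => A.sub _ _ _ _ c1 (A.pt _ x S.con (mem.1 hx).1).1
      (singleton_subset_iff.2 (mem.1 hx).1))
    fun x _ y _ hne => disjoint_singleton.2 hne
  have e1 : S'.X = (S.X ∩ S'.X) ∪ ⋃ x ∈ fin.toFinset, {x' ∈ S'.X | x.O ≤ x'.O} := by
    refine Subset.antisymm (fun x' hx' => ?_)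
      (union_subset inter_subset_right (iUnion₂_subset fun _ _ _ h => h.1))
    obtain ⟨x, hx, l⟩ := hup x' hx'
    by_cases h : x ∈ S'.X
    · exact Or.inl ⟨uniq hN S' h hx' l le_rfl ▸ hx, hx'⟩
    · exact Or.inr (mem_iUnion₂.2 ⟨x, mem.2 ⟨hx, h⟩, hx', l⟩)
  have e2 : S.X = (S.X ∩ S'.X) ∪ ⋃ x ∈ fin.toFinset, {x} := by
    refine Subset.antisymm (fun x hx => ?_) (union_subset inter_subset_left
      (iUnion₂_subset fun x hx => singleton_subset_iff.2 (mem.1 hx).1))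
    by_cases h : x ∈ S'.X
    · exact Or.inl ⟨hx, h⟩
    · exact Or.inr (mem_iUnion₂.2 ⟨x, mem.2 ⟨hx, h⟩, rfl⟩)
  have d1 : Disjoint (S.X ∩ S'.X) (⋃ x ∈ fin.toFinset, {x' ∈ S'.X | x.O ≤ x'.O}) :=
    disjoint_left.2 fun z hz h => by
      obtain ⟨x, hx, h⟩ := mem_iUnion₂.1 h
      exact (mem.1 hx).2 (uniq hN S hz.1 (mem.1 hx).1 le_rfl h.2 ▸ hz.2)
  have d2 : Disjoint (S.X ∩ S'.X) (⋃ x ∈ fin.toFinset, {x}) :=
    disjoint_left.2 fun z hz h => by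
      obtain ⟨x, hx, h⟩ := mem_iUnion₂.1 h
      exact (mem.1 hx).2 (mem_singleton_iff.1 h ▸ hz.2)
  have r1 := B.union _ _ _ (A.sub _ _ _ _ c2 cI inter_subset_right) s1 d1
  have r2 := B.union _ _ _ (A.sub _ _ _ _ c1 cI inter_subset_left) t1 d2
  rw [← e1] at r1
  rw [← e2] at r2
  rw [r1, r2, s2, t2, B.congr _ _ _ eq]
  exact congrArg _ (Finset.sum_congr rfl fun x hx => by
    rw [dls x (mem.1 hx).1, pt _ x (mem.1 hx).1])

end Pool.Agent.MP_ee8c61_ag.M3BK
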