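import Pool.Agent.MP_ee8c61_ag.M3BK.Spec
import Pool.Agent.MP_ee8c61_ag.M3.Top

/-!
The polar part of a sum of products.
-/

namespace Pool.Agent.MP_ee8c61_ag.M3BK

open M3

noncomputable section

namespace RPol

theorem C_mem (s c : ℂ) : RatFunc.C c ∈ regAt s := fun h => by
  rw [RatFunc.denom_C] at h
  simpa using h

theorem X_mem (s : ℂ) : RatFunc.X ∈ regAt s := fun h => by
  rw [RatFunc.denom_X] at h
  simpa using h

theorem eps_ne (c : ℂ) : (RatFunc.X + RatFunc.C c : RatFunc ℂ) ≠ 0 := fun h => by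
  have e : (RatFunc.X + RatFunc.C c : RatFunc ℂ) =
      algebraMap (Polynomial ℂ) (RatFunc ℂ) (Polynomial.X + Polynomial.C c) := by simp
  rw [e, map_eq_zero_iff _ (RatFunc.algebraMap_injective ℂ)] at h
  exact Polynomial.X_add_C_ne_zero c h

theorem expand {J : Type} (R : Subring (RatFunc ℂ)) (hC : ∀ c, RatFunc.C c ∈ R) (ε : RatFunc ℂ)
    (hε : ε ∈ R) (a N : J → ℂ) (l : J → RatFunc ℂ) (S : Finset J)
    (h : ∀ j ∈ S, l j ∈ R ∧ a j ≠ 0 ∧ l j * (RatFunc.C (a j) + RatFunc.C (N j) * ε) = 1) :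
    ∃ r ∈ R, ∏ j ∈ S, l j = RatFunc.C (∏ j ∈ S, (a j)⁻¹) -
      RatFunc.C ((∏ j ∈ S, (a j)⁻¹) * ∑ j ∈ S, N j / a j) * ε + ε ^ 2 * r := by
  classical
  induction S using Finset.induction_on with
  | empty => exact ⟨0, R.zero_mem, by simp⟩
  | insert j S hj ih =>
    obtain ⟨r, hr, e⟩ := ih fun i hi => h i (Finset.mem_insert_of_mem hi)
    obtain ⟨h1, h2, h3⟩ := h j (Finset.mem_insert_self j S)
    have h4 : RatFunc.C (a j)⁻¹ * RatFunc.C (a j) = (1 : RatFunc ℂ) := by
      rw [← map_mul, inv_mul_cancel₀ h2, map_one]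
    rw [Finset.prod_insert hj, Finset.prod_insert hj, Finset.sum_insert hj, e, div_eq_mul_inv]
    simp only [map_mul, map_add]
    have hu := hC (a j)⁻¹
    have hn := hC (N j)
    have hp := hC (∏ j ∈ S, (a j)⁻¹)
    have hs := hC (∑ j ∈ S, N j / a j)
    generalize RatFunc.C (a j)⁻¹ = u at *
    generalize RatFunc.C (a j) = b at *
    generalize RatFunc.C (N j) = n at *
    generalize RatFunc.C (∏ j ∈ S, (a j)⁻¹) = p at *
    generalize RatFunc.C (∑ j ∈ S, N j / a j) = t at *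
    have h5 : l j = u - n * u ^ 2 * ε + ε ^ 2 * (n ^ 2 * u ^ 2 * l j) := by
      linear_combination (u - n * u ^ 2 * ε) * h3 - (1 - n * u * ε) * l j * h4
    refine ⟨l j * r + n ^ 2 * u ^ 2 * l j * (p - p * t * ε) + n * u ^ 2 * p * t, ?_, ?_⟩
    · exact R.add_mem (R.add_mem (R.mul_mem h1 hr) (R.mul_mem (R.mul_mem (R.mul_mem
        (R.pow_mem hn 2) (R.pow_mem hu 2)) h1) (R.sub_mem hp (R.mul_mem (R.mul_mem hp hs) hε))))
        (R.mul_mem (R.mul_mem (R.mul_mem hn (R.pow_mem hu 2)) hp) hs)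
    · linear_combination (p - p * t * ε) * h5

end RPol

open RPol Classical in
theorem rPol : SPOL := by
  intro J _ N k la c a hN ha h2 hA hB
  let ε : RatFunc ℂ := RatFunc.X + RatFunc.C (la : ℂ)
  have hε : ε ≠ 0 := eps_ne _
  have hεR : ε ∈ regAt (-(la : ℂ)) := add_mem (X_mem _) (C_mem _ _)
  let l : J → RatFunc ℂ := fun i =>
    1 / ((N i : RatFunc ℂ) * RatFunc.X + (k i : RatFunc ℂ) + 1)
  have hNc : ∀ j, (N j : ℂ) ≠ 0 := fun j => Nat.cast_ne_zero.2 (hN j).ne'
  have hL : ∀ i, (N i : RatFunc ℂ) * RatFunc.X + (k i : RatFunc ℂ) + 1 =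
      RatFunc.C (a i) + RatFunc.C (N i : ℂ) * ε := fun i => by
    rw [ha]
    simp only [ε, map_sub, map_add, map_mul, map_natCast, map_one]
    ring
  have hL0 : ∀ i, RatFunc.C (a i) + RatFunc.C (N i : ℂ) * ε ≠ 0 := fun i h => by
    apply eps_ne ((la : ℂ) + a i / N i)
    have h4 : RatFunc.C (N i : ℂ)⁻¹ * RatFunc.C (N i : ℂ) = (1 : RatFunc ℂ) := by
      rw [← map_mul, inv_mul_cancel₀ (hNc i), map_one]
    rw [map_add, div_eq_mul_inv, map_mul]
    simp only [ε] at h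
    linear_combination RatFunc.C (N i : ℂ)⁻¹ * h - (RatFunc.X + RatFunc.C (la : ℂ)) * h4
  let P : Finset J → ℂ := fun I => c I * ∏ j ∈ I, (if a j = 0 then (N j : ℂ) else a j)⁻¹
  let σ : Finset J → ℂ := fun I => ∑ j ∈ I with a j ≠ 0, N j / a j
  let z : Finset J → ℕ := fun I => (I.filter fun j => a j = 0).card
  have key : ∀ I : Finset J, (c I : RatFunc ℂ) * ∏ i ∈ I, l i -
      RatFunc.C (if z I = 2 then P I else 0) * ε⁻¹ ^ 2 -
      RatFunc.C ((if z I = 1 then P I else 0) - if z I = 2 then P I * σ I else 0) * ε⁻¹ ∈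
      regAt (-(la : ℂ)) := by
    intro I
    by_cases hc : c I = 0
    · simp [P, hc]
    obtain ⟨r, hr, e⟩ := expand (regAt (-(la : ℂ))) (C_mem _) ε hεR a (fun j => (N j : ℂ)) l
      (I.filter fun j => a j ≠ 0) fun j hj => by
        have h0 := (Finset.mem_filter.1 hj).2
        refine ⟨lin_mem ?_, h0, ?_⟩
        · rw [ha] at h0
          exact fun h => h0 (by linear_combination h)
        · simp only [l]
          rw [hL, one_div, inv_mul_cancel₀ (hL0 j)]
    have e0 : ∏ j ∈ I with a j = 0, l j =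
        RatFunc.C (∏ j ∈ I with a j = 0, (N j : ℂ)⁻¹) * ε⁻¹ ^ z I := by
      rw [map_prod, ← Finset.prod_const, ← Finset.prod_mul_distrib]
      refine Finset.prod_congr rfl fun j hj => ?_
      simp only [l]
      rw [hL, (Finset.mem_filter.1 hj).2, map_zero, zero_add, one_div, mul_inv, map_inv₀]
    have eP : P I = c I * ((∏ j ∈ I with a j = 0, (N j : ℂ)⁻¹) *
        ∏ j ∈ I with a j ≠ 0, (a j)⁻¹) := by
      simp only [P]
      rw [← Finset.prod_filter_mul_prod_filter_not I fun j => a j = 0]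
      congr 2
      · exact Finset.prod_congr rfl fun j hj => by rw [if_pos (Finset.mem_filter.1 hj).2]
      · exact Finset.prod_congr rfl fun j hj => by rw [if_neg (Finset.mem_filter.1 hj).2]
    have e1 : (c I : RatFunc ℂ) * ∏ i ∈ I, l i = ε⁻¹ ^ z I * (RatFunc.C (P I) -
        RatFunc.C (P I * σ I) * ε +
        ε ^ 2 * (c I * RatFunc.C (∏ j ∈ I with a j = 0, (N j : ℂ)⁻¹) * r)) := by
      rw [← Finset.prod_filter_mul_prod_filter_not I fun j => a j = 0, e0, e, eP]
      simp only [map_mul, map_intCast, σ]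
      ring
    have hr' : (c I : RatFunc ℂ) * RatFunc.C (∏ j ∈ I with a j = 0, (N j : ℂ)⁻¹) * r ∈
        regAt (-(la : ℂ)) := mul_mem (mul_mem (intCast_mem _ _) (C_mem _ _)) hr
    rw [e1]
    generalize (c I : RatFunc ℂ) * RatFunc.C (∏ j ∈ I with a j = 0, (N j : ℂ)⁻¹) * r = r' at hr'
    have hi : ε⁻¹ * ε = 1 := inv_mul_cancel₀ hε
    have hz : z I ≤ 2 := h2 I hc
    obtain h | h | h : z I = 0 ∨ z I = 1 ∨ z I = 2 := by omega
    · rw [h, if_neg (by omega), if_neg (by omega), if_neg (by omega), sub_zero, map_zero,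
        zero_mul, zero_mul, sub_zero, sub_zero, pow_zero, one_mul]
      exact add_mem (sub_mem (C_mem _ _) (mul_mem (C_mem _ _) hεR)) (mul_mem (pow_mem hεR 2) hr')
    · rw [h, if_neg (by omega), if_pos rfl, if_neg (by omega), sub_zero, map_zero, zero_mul,
        sub_zero]
      have : ε⁻¹ ^ 1 * (RatFunc.C (P I) - RatFunc.C (P I * σ I) * ε + ε ^ 2 * r') -
          RatFunc.C (P I) * ε⁻¹ = ε * r' - RatFunc.C (P I * σ I) := by
        linear_combination (ε * r' - RatFunc.C (P I * σ I)) * hi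
      rw [this]
      exact sub_mem (mul_mem hεR hr') (C_mem _ _)
    · rw [h, if_pos rfl, if_neg (by omega), if_pos rfl, zero_sub, map_neg]
      have : ε⁻¹ ^ 2 * (RatFunc.C (P I) - RatFunc.C (P I * σ I) * ε + ε ^ 2 * r') -
          RatFunc.C (P I) * ε⁻¹ ^ 2 - -RatFunc.C (P I * σ I) * ε⁻¹ = r' := by
        linear_combination ((ε⁻¹ * ε + 1) * r' - RatFunc.C (P I * σ I) * ε⁻¹) * hi
      rw [this]
      exact hr'
  have hs := sum_mem (S := regAt (-(la : ℂ))) (t := Finset.univ) fun I _ => key I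
  rw [Finset.sum_sub_distrib, Finset.sum_sub_distrib, ← Finset.sum_mul, ← Finset.sum_mul,
    ← map_sum, ← map_sum, Finset.sum_sub_distrib, ← Finset.sum_filter, ← Finset.sum_filter,
    ← Finset.sum_filter] at hs
  have hA' : ∑ I with z I = 2, P I = 0 := hA
  have hB' : ∑ I with z I = 1, P I = ∑ I with z I = 2, P I * σ I := hB
  rw [hA', hB', sub_self, map_zero, zero_mul, zero_mul, sub_zero, sub_zero] at hs
  exact hs

end

end Pool.Agent.MP_ee8c61_ag.M3BK
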