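import Pool.Agent.MP_ee8c61_ag.M3BK.RM0

/-! The ruled model of a given frame. -/

namespace Pool.Agent.MP_ee8c61_ag.M3BK

open WithZero Set Polynomial
open scoped IntermediateField
open Pool.Agent.MP_cce4c9_lc
open H87 hiding Dv
open M3 M3H47 M3RESID
open Pool.Agent.MP_96693b_ag.RS

noncomputable section

variable {L : Type} [Field L] [Algebra ℂ L]

theorem exists_ru' {C : Co L 2} {d : Dv L} {v v' : VF L} {b : ℂ} {y : L} {g : ℚ}
    (hS : M3F.Srf C d v b) (hg : g ≠ 0) (hy : y ≠ 0) (hex : v - v' ∈ d.Ex)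
    (hv : (g : L) * v' y = algebraMap ℂ L b * y)
    (hgen : ∀ z : L, z ∈ Subfield.closure ({c | v' c = 0} ∪ {y})) :
    ∃ (s : L) (X0 X1 : VF L) (q : ℕ) (H : cst v'), Ru (cst v') y s X0 X1 ∧
      Ru (cst v') y⁻¹ s (-X0) X1 ∧ Vol d X0 X1 g q H := by
  have : CharZero L := charZero_of_injective_algebraMap (algebraMap ℂ L).injective
  have hb : algebraMap ℂ L b ≠ 0 := by simpa using hS.ne
  have hg' : (g : L) ≠ 0 := by exact_mod_cast hg
  have ty : Transcendental (cst v') y := transc v' fun e => by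
    rw [e, mul_zero] at hv
    exact mul_ne_zero hb hy hv.symm
  have gen : (cst v')⟮y⟯ = ⊤ := eq_top_iff.2 fun z _ => by
    refine (Subfield.closure_le (t := ((cst v')⟮y⟯).toSubfield)).2 ?_ (hgen z)
    rintro x (hx | rfl)
    · exact ((cst v')⟮y⟯).algebraMap_mem ⟨x, hx⟩
    · exact IntermediateField.mem_adjoin_simple_self _ _
  have R := rl_of ty gen
  obtain ⟨s, X0, X1, A⟩ := R.exists_ada C
  have hK : IsFF ℂ (cst v') := isFF_base C hS.fin ty (σ := ⟨s, A.t0⟩) (transc_of_nonconst (by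
    rintro ⟨c, hc⟩
    have := A.t1
    rw [show s = algebraMap ℂ L c from (congrArg Subtype.val hc).symm] at this
    simp at this))
  have e1 : v' = algebraMap ℂ L (b / g) • X0 := by
    ext z
    refine sub_eq_zero.1 (R.der_zero (v' - algebraMap ℂ L (b / g) • X0) (fun c hc => ?_) ?_ z)
    · simp [mem_cst.1 hc, A.k0 c hc]
    · simp only [Derivation.sub_apply, Derivation.smul_apply, A.y0, map_div₀, map_ratCast,
        smul_eq_mul]
      field_simp
      linear_combination hv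
  have e2 : d.δ X0 = algebraMap ℂ L g := by
    have := d.δ_Ex hex
    rw [map_sub, hS.prim, e1, Dv.δ_cst, map_div₀, map_ratCast] at this
    rw [map_ratCast]
    apply mul_left_cancel₀ (div_ne_zero hb hg')
    rw [← sub_eq_zero.1 this, div_mul_cancel₀ _ hg']
  obtain ⟨q, ψ, hq, hψ, h⟩ := hS.rat
  obtain ⟨H, hH⟩ := exists_vol C R A e2 hq hψ h
  exact ⟨s, X0, X1, q, H, ⟨hK, R, A⟩, ⟨hK, rl_inv ty gen, ada_inv hy A⟩, hH⟩

/-- The ruled model of a given frame. -/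
theorem m0_of (hC : SCON) (hX : SCHI) (hA : SINTA) (hB : SINTB) (hN : SNRM) (χ : H36.Chi)
    {C : Co L 2} {d : Dv L} {v v' : VF L} {b : ℂ} {X₀ : Set L} {y : L} {g : ℚ} (hχ : IsEu χ)
    (hS : M3F.Srf C d v b) (hf : X₀.Finite) (hg : g ≠ 0) (hy : y ≠ 0) (hex : v - v' ∈ d.Ex)
    (hv : (g : L) * v' y = algebraMap ℂ L b * y)
    (hgen : ∀ z : L, z ∈ Subfield.closure ({c | v' c = 0} ∪ {y})) (hX₀ : ∀ c ∈ X₀, v' c = 0) :
    ∃ M : M0 χ d v b X₀, M.y = y ∧ M.v' = v' ∧ M.g = g ∧ ∀ c, c ≠ 0 → v' c = 0 →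
      ∀ x ∈ M.S.X, ∃ n : ℤ, x.ev (c / (M.S.C x).z 0 ^ n) ≠ 0 := by
  obtain ⟨s, X0, X1, q, H, R, R', V⟩ := exists_ru' hS hg hy hex hv hgen
  have hv' : ∀ c ∈ cst v', v' c = 0 := fun c hc => hc
  have hK := R.ff
  have := (H7.ll ℂ (cst v') hK).2.2.2
  obtain ⟨h, hh, hh'⟩ := H7.apx_ord (R.ex0_fin q H).toFinset fun _ => 1
  have hsp : ∀ t : Place ℂ (cst v'), t.ord h = 0 → ex0 R.dK q H t = 1 := fun t ht => by
    by_contra hn
    rw [hh' t ((Finite.mem_toFinset _).2 hn)] at ht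
    exact one_ne_zero ht
  set X₁ : Set (cst v') := (↑) ⁻¹' X₀ with hX₁
  have hf₁ : X₁.Finite := hf.preimage Subtype.val_injective.injOn
  set T : Set (Place ℂ (cst v')) := {t | ∀ f ∈ X₁, f ∈ Ot t} with hT
  have hTc : Tᶜ.Finite := (hf₁.biUnion fun f _ => poles_fin hK f).subset fun t ht => by
    simpa [hT] using ht
  have RR : ∀ o : Option ℂ, Ru (cst v') (ww y o) s (o.elim (-X0) fun _ => X0) X1 := fun o => by
    rcases o with _ | c
    exacts [R', R]
  have VV : ∀ o : Option ℂ, Vol d (o.elim (-X0) fun _ => X0) X1 (o.elim (-g) fun _ => g) q H :=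
    fun o => by
      rcases o with _ | c
      exacts [V.neg, V]
  have hd : ∀ P ∈ Fb y T, ∃ t ∈ T, ∃ o, IsP t (ww y o) (cc o) P := fun P hP => hP
  choose! t ht o p using hd
  have hu : ∀ t' ∈ T, ∀ o' P, IsP t' (ww y o') (cc o') P → t P = t' ∧ o P = o' :=
    fun t' ht' o' P p' => by
      obtain ⟨W, hW⟩ := (hN L).1 P
      exact sep_data hK hy (p P ⟨t', ht', o', p'⟩) p' hW hW.1
  let a : Loc L → Fin 2 → ℂ := fun P =>
    ![ex0 R.dK q H (t P), if cc (o P) = 0 then (o P).elim (-g) fun _ => g else 1]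
  have hint : ∀ (F : Type) [Field F] [Algebra ℂ F] (ε : F) (k : ℕ),
      Cf (Fb y T) (fun x => wt ε (a x) ![k * (t x).ord h, ee (o x)]) ∧
        Itg χ (Fb y T) (fun x => wt ε (a x) ![k * (t x).ord h, ee (o x)]) = 0 := by
    intro F _ _ ε k
    refine Fb_int hχ.1 (hC L) (hX χ L hχ.1) (hA χ L hχ) (hB χ L F hχ) hK R.rl R'.rl hTc
      (A := fun t => (al ε (ex0 R.dK q H t) (k * t.ord h))⁻¹ * (al ε 1 0)⁻¹)
      (α := fun t => (al ε (ex0 R.dK q H t) (k * t.ord h))⁻¹ * (al ε g 1)⁻¹)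
      (A₀ := (al ε 1 0)⁻¹ * (al ε 1 0)⁻¹) (α₀ := (al ε 1 0)⁻¹ * (al ε g 1)⁻¹)
      ((H7.fins hK h).subset fun t ht => fun e => ?_) (fun t' ht' P p' => ?_)
      (fun t' ht' P c hc p' => ?_) (fun t' ht' P p' => ?_)
    · simp [e, hsp t e] at ht
    · obtain ⟨e1, e2⟩ := hu t' ht' (some 0) P p'
      simp [wt, a, e1, e2, cc, ee]
    · obtain ⟨e1, e2⟩ := hu t' ht' (some c) P p'
      simp [wt, a, e1, e2, cc, ee, hc]
    · obtain ⟨e1, e2⟩ := hu t' ht' none P p'
      have : al ε (-g) (-1) = -al ε g 1 := by simp [al]; ring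
      simp [wt, a, e1, e2, cc, ee, this]
  have hσ : (⟨s, R.ad.t0⟩ : (cst v')) ∉ range (algebraMap ℂ (cst v')) := by
    rintro ⟨c, hc⟩
    have := R.dK_s
    rw [← hc] at this
    simp at this
  refine ⟨{
    S := {
      X := Fb y T
      C := fun P => (RR (o P)).co (t P) (cc (o P))
      con := (hA χ L hχ).con _ _ _ (hint ℂ 0 0).1
      rg := fun P hP => (RR (o P)).rg (p P hP)
      base := fun P hP c hc => (p P hP).ab.le ⟨c, hX₀ c hc⟩ (ht P hP _ hc)
      prop := fun W h1 h2 => Fb_prop hK h1 hf₁ fun f hf => h2 f hf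
      sep := fun W x hx x' hx' h1 h2 => ?_ }
    y := y
    h := h
    u := s
    g := g
    v' := v'
    a := a
    o := fun P => (t P).ord h
    e := fun P => ee (o P)
    g0 := hg
    y0 := hy
    h0 := fun e => hh (Subtype.ext e)
    u0 := fun e => hσ ⟨0, Subtype.ext (by simp [e])⟩
    ex := hex
    vy := hv
    vh := hv' _ h.2
    vt := fun P _ => hv' _ (un (t P)).2
    gp := fun k P hP => ⟨(RR (o P)).rg (p P hP), (RR (o P)).adp (p P hP) (VV (o P)),
      mn_aux (RR (o P)) hy (p P hP) hh k⟩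
    kind := fun P _ => ?_
    sp := fun P _ e => hsp _ e
    fib := fun P hP G hG => ?_
    dom := fun C' x hr h1 h2 h3 => ?_
    int := hint }, rfl, rfl, rfl, fun c hc h0 P hP => ?_⟩
  · obtain ⟨e1, e2⟩ := sep_data hK hy (p x hx) (p x' hx') h1 h2
    exact (p x hx).uniq (e1 ▸ e2 ▸ p x' hx')
  · simp only [Ru.co_z1, a]
    rcases o P with _ | c
    · simp [ww, cc, ee]
    · by_cases hc : c = 0
      · simp [ww, cc, ee, hc]
      · exact Or.inr (Or.inr ⟨c, hc, by simp [ww, cc, ee, hc]⟩)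
  · have h1 := (RR (o P)).fib_v (p P hP) hG
    have h2 := (RR (o P)).fib_top (p P hP) hG
    refine and_assoc.1 ⟨?_, fun c hc => ⟨_,
      ((RR (o P)).fib_π (p P hP) hG (f := ⟨c, hX₀ c hc⟩) (ht P hP _ hc)).symm⟩⟩
    generalize o P = o' at h1 h2
    rcases o' with _ | c
    · have h3 : G.v y = 0 := by
        rw [ww, Option.elim_none, G.inv] at h1
        omega
      refine ⟨h3, eq_top_iff.2 (h2.ge.trans ?_)⟩
      rw [IntermediateField.adjoin_simple_le_iff, ww, Option.elim_none, ← zpow_neg_one,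
        Pl.π_zpow (P := G.pl) hy h3]
      exact zpow_mem (IntermediateField.mem_adjoin_simple_self _ _) _
    · exact ⟨h1, h2⟩
  · rcases h3 with h3 | h3
    · exact Fb_dom hK R.rl R'.rl hσ ((hN L).2 C' x hr) (fun f hf => h1 f hf) h2 h3
    · exact Fb_dom hK R.rl R'.rl (inv_nc hσ) ((hN L).2 C' x hr) (fun f hf => h1 f hf) h2 h3
  · have h1 := val_unit (t P) (f := ⟨c, h0⟩) fun e => hc (congrArg Subtype.val e)
    have h2 := (p P hP).ev _ h1.le
    have h4 : ((un (t P) ^ (t P).ord ⟨c, h0⟩ : cst v') : L) =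
      (un (t P) : L) ^ (t P).ord ⟨c, h0⟩ := map_zpow₀ (cst v').val _ _
    rw [IntermediateField.coe_div, h4] at h2
    exact ⟨_, h2 ▸ (H7.res hK (t P)).ev_ne_zero h1⟩

end

end Pool.Agent.MP_ee8c61_ag.M3BK
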