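import Pool.Agent.MP_ee8c61_ag.M3BK.Defs
import Pool.Agent.MP_ee8c61_ag.M3RESID.Res

/-!
Quadratic transforms along a divisorial valuation of a surface, on rings with coordinates.
-/

namespace Pool.Agent.MP_ee8c61_ag.M3BK.Cr

open M3 M3RESID Set
open Pool.Agent.MP_96693b_ag.RS (Loc)

noncomputable section

variable {L : Type} [Field L] [Algebra ℂ L]

/-- The slope. -/
def sg (C : Co L 2) : L := C.z 1 / C.z 0

/-- The coordinates exchanged. -/
def sw (C : Co L 2) : Co L 2 where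
  z := ![C.z 1, C.z 0]
  D := ![C.D 1, C.D 0]
  ne i := by fin_cases i <;> simp [C.ne]
  dual i j := by fin_cases i <;> fin_cases j <;> simp [C.dual]
  span v h := C.span v fun i => by
    fin_cases i
    · exact h 1
    · exact h 0

theorem D1_sg (C : Co L 2) : C.z 0 * C.D 1 (sg C) = 1 := by
  have h := C.ne 0
  simp only [sg, Derivation.leibniz_div, C.dual, smul_eq_mul]
  simp
  field_simp

theorem D0_sg (C : Co L 2) : C.D 0 (sg C) + sg C * C.D 1 (sg C) = 0 := by
  have h := C.ne 0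
  simp only [sg, Derivation.leibniz_div, C.dual, smul_eq_mul]
  simp
  field_simp
  ring

theorem z1_eq (C : Co L 2) : C.z 1 = C.z 0 * sg C := by rw [sg, mul_div_cancel₀ _ (C.ne 0)]

theorem sg_ne (C : Co L 2) : sg C ≠ 0 := div_ne_zero (C.ne 1) (C.ne 0)

/-- The coordinates at the point of slope `c` of the blow-up. -/
def qt (C : Co L 2) (c : ℂ) : Co L 2 where
  z := ![C.z 0, sg C - algebraMap ℂ L c]
  D := ![C.D 0 + sg C • C.D 1, C.z 0 • C.D 1]
  ne i := by
    fin_cases i
    · exact C.ne 0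
    · intro h
      have h1 := D1_sg C
      rw [sub_eq_zero.1 h, Derivation.map_algebraMap, mul_zero] at h1
      exact zero_ne_one h1
  dual i j := by
    fin_cases i <;> fin_cases j <;> simp [C.dual, D0_sg, D1_sg]
  span v h := C.span v fun i => by
    have h0 : v (C.z 0) = 0 := h 0
    have h1 : v (sg C) = 0 := by simpa using h 1
    fin_cases i
    · exact h0
    · show v (C.z 1) = 0
      rw [z1_eq, Derivation.leibniz, h0, h1, smul_zero, smul_zero, add_zero]

theorem qt_z0 (C : Co L 2) (c : ℂ) : (qt C c).z 0 = C.z 0 := rfl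
theorem qt_z1 (C : Co L 2) (c : ℂ) : (qt C c).z 1 = sg C - algebraMap ℂ L c := rfl
theorem qt_D0 (C : Co L 2) (c : ℂ) : (qt C c).D 0 = C.D 0 + sg C • C.D 1 := rfl
theorem qt_D1 (C : Co L 2) (c : ℂ) : (qt C c).D 1 = C.z 0 • C.D 1 := rfl
theorem qt_z1' (C : Co L 2) : (qt C 0).z 1 = sg C := by simp [qt_z1]

theorem qt_th0 (C : Co L 2) (c : ℂ) : (qt C c).th 0 = C.th 0 + C.th 1 := by
  rw [Co.th, qt_z0, qt_D0, smul_add, smul_smul, ← z1_eq]
  rfl

theorem qt_th1 (C : Co L 2) : (qt C 0).th 1 = C.th 1 := by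
  rw [Co.th, qt_z1', qt_D1, smul_smul, mul_comm, ← z1_eq]
  rfl

open Classical in
/-- The inverse of the slope, where it is a unit. -/
def ta (C : Co L 2) (c : ℂ) : L := if c = 0 then 0 else (sg C)⁻¹

/-- The ring after the transform. -/
def ex (C : Co L 2) (O : Subalgebra ℂ L) (c : ℂ) : Subalgebra ℂ L :=
  Algebra.adjoin ℂ (insert (sg C) (insert (ta C c) (O : Set L)))

open Classical in
/-- The exponents after the transform. -/
def qv (c : ℂ) (a : Fin 2 → ℂ) : Fin 2 → ℂ := ![a 0 + a 1, if c = 0 then a 1 else 1]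

variable {C : Co L 2} {O : Subalgebra ℂ L} {G : DV L} {c : ℂ}

theorem le_ex : O ≤ ex C O c := fun _ h => Algebra.subset_adjoin (Or.inr (Or.inr h))

theorem sg_ex : sg C ∈ ex C O c := Algebra.subset_adjoin (Or.inl rfl)

theorem inv_ex (h : c ≠ 0) : (sg C)⁻¹ ∈ ex C O c :=
  Algebra.subset_adjoin (Or.inr (Or.inl (if_neg h).symm))

theorem ex_le {B : Subalgebra ℂ L} (h : O ≤ B) (h1 : sg C ∈ B) (h2 : c ≠ 0 → (sg C)⁻¹ ∈ B) :
    ex C O c ≤ B := Algebra.adjoin_le (by
  rintro g (rfl | rfl | hg)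
  · exact h1
  · unfold ta
    split_ifs with h0
    · exact B.zero_mem
    · exact h2 h0
  · exact h hg)

/-- A derivation that maps generators into the ring keeps the ring. -/
theorem der_adj {S : Set L} {v : VF L} (h : ∀ g ∈ S, v g ∈ Algebra.adjoin ℂ S) {g : L}
    (hg : g ∈ Algebra.adjoin ℂ S) : v g ∈ Algebra.adjoin ℂ S := by
  induction hg using Algebra.adjoin_induction with
  | mem g hg => exact h g hg
  | algebraMap r => simp
  | add x y _ _ hx hy => rw [map_add]; exact add_mem hx hy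
  | mul x y h1 h2 hx hy =>
    rw [Derivation.leibniz]
    exact add_mem (mul_mem h1 hy) (mul_mem h2 hx)

theorem der_inv {B : Subalgebra ℂ L} {v : VF L} {g : L} (h : g⁻¹ ∈ B) (h' : v g ∈ B) :
    v g⁻¹ ∈ B := by
  rw [Derivation.leibniz_inv]
  exact mul_mem (neg_mem (pow_mem h 2)) h'

theorem st_ex (h : C.St O) : (qt C c).St (ex C O c) where
  z i := by
    fin_cases i
    · exact le_ex (h.z 0)
    · exact sub_mem sg_ex (algebraMap_mem _ c)
  D i g hg := by
    have h1 : (qt C c).D i (sg C) ∈ ex C O c := by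
      have := (qt C c).dual i 1
      rw [qt_z1, map_sub, Derivation.map_algebraMap, sub_zero] at this
      rw [this]
      split_ifs
      · exact one_mem _
      · exact zero_mem _
    refine der_adj ?_ hg
    rintro g (rfl | rfl | hg)
    · exact h1
    · change (qt C c).D i (ta C c) ∈ ex C O c
      rw [ta]
      split_ifs with h0
      · simp
      · exact der_inv (inv_ex h0) h1
    · refine Fin.forall_fin_two (p := fun i => (qt C c).D i g ∈ ex C O c).2 ⟨?_, ?_⟩ i
      · rw [qt_D0, Derivation.add_apply, Derivation.smul_apply, smul_eq_mul]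
        exact add_mem (le_ex (h.D 0 g hg)) (mul_mem sg_ex (le_ex (h.D 1 g hg)))
      · rw [qt_D1, Derivation.smul_apply, smul_eq_mul]
        exact mul_mem (le_ex (h.z 0)) (le_ex (h.D 1 g hg))

theorem st_sw (h : C.St O) : (sw C).St O where
  z i := by
    fin_cases i
    · exact h.z 1
    · exact h.z 0
  D i := by
    fin_cases i
    · exact h.D 1
    · exact h.D 0

theorem ad_sw {d : Dv L} {a : Fin 2 → ℂ} (h : C.Ad O d a) : (sw C).Ad O d ![a 1, a 0] := by
  intro i
  fin_cases i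
  · exact h 1
  · exact h 0

theorem ad_qt {d : Dv L} {a : Fin 2 → ℂ} (hs : C.St O) (h : C.Ad O d a) :
    (qt C c).Ad (ex C O c) d (qv c a) := by
  have h0 := C.ne 0
  have h1 := sg_ne C
  intro i
  fin_cases i
  · have := add_mem (le_ex (C := C) (c := c) (h 0)) (mul_mem sg_ex (le_ex (h 1)))
    show (d.δ ((qt C c).th 0) - algebraMap ℂ L (a 0 + a 1)) / C.z 0 ∈ _
    rw [qt_th0, map_add, map_add]
    refine (congrArg (· ∈ ex C O c) ?_).mp this
    rw [z1_eq]
    field_simp
    ring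
  · have e1 : d.δ (C.th 1) = C.z 1 * d.δ (C.D 1) + 1 := by
      rw [Co.th, d.smul, C.dual, if_pos rfl]
    have e2 : d.δ ((qt C c).th 1) = (qt C c).z 1 * (C.z 0 * d.δ (C.D 1)) + 1 := by
      rw [Co.th, d.smul, (qt C c).dual, if_pos rfl, qt_D1, d.smul, C.dual]
      simp
    have h2 := mul_mem (le_ex (C := C) (c := c) (hs.z 0)) (le_ex (h 1))
    have h3 := (qt C c).ne 1
    show (d.δ ((qt C c).th 1) - algebraMap ℂ L (if c = 0 then a 1 else 1)) / (qt C c).z 1 ∈ _
    rw [e1, z1_eq] at h2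
    rw [e2]
    split_ifs with hc
    · subst hc
      rw [qt_z1']
      refine (congrArg (· ∈ ex C O 0) ?_).mp h2
      field_simp
    · have := add_mem h2 (mul_mem (inv_ex hc) (algebraMap_mem _ (a 1 - 1)))
      refine (congrArg (· ∈ ex C O c) ?_).mp this
      rw [map_sub, map_one]
      field_simp
      ring

/-- The valuation ring as an algebra. -/
def Vs (G : DV L) : Subalgebra ℂ L where
  carrier := G.F 0
  mul_mem' := F_mul0
  add_mem' := add_mem
  algebraMap_mem' := cst_F G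

/-- A ring with coordinates whose origin is the centre of `G`. -/
structure CR (G : DV L) (C : Co L 2) (O : Subalgebra ℂ L) : Prop where
  st : C.St O
  le : ∀ g ∈ O, g ∈ G.F 0
  pos : ∀ i, C.z i ∈ G.F 1
  mx : ∀ g ∈ O, ∃ (c : ℂ) (h : L) (h' : L), h ∈ O ∧ h' ∈ O ∧
    g = algebraMap ℂ L c + C.z 0 * h + C.z 1 * h'
  fr : ∀ g : L, ∃ s ∈ O, s ≠ 0 ∧ s * g ∈ O

omit [Algebra ℂ L] in
theorem F1_of {g : L} (h : g ∈ G.F 0) (h' : ¬Un G.O g) : g ∈ G.F 1 := by
  by_contra h1
  have h0 : g ≠ 0 := fun e => h1 (Or.inl e)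
  have h2 : ¬1 ≤ G.v g := fun e => h1 (Or.inr e)
  exact h' ⟨h0, h, Or.inr (by rw [G.inv]; omega)⟩

theorem CR.of {x : Loc L} (h : Rg C x) (hd : Dm x G.O) : CR G C x.O where
  st := h.st
  le := hd.1
  pos i := F1_of (hd.1 _ (h.st.z i)) (hd.2 _ (h.st.z i) (h.ev i))
  mx g hg := by
    have h1 := algebraMap_mem x.O (-x.ev g)
    obtain ⟨t, ht, e⟩ := h.mx _ (add_mem hg h1) (by rw [x.ev_add _ hg _ h1, x.ev_alg]; ring)
    refine ⟨x.ev g, t 0, t 1, ht 0, ht 1, ?_⟩
    rw [Fin.sum_univ_two, map_neg] at e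
    linear_combination e
  fr := h.fr

theorem CR.sw (h : CR G C O) : CR G (sw C) O where
  st := st_sw h.st
  le := h.le
  pos i := by
    fin_cases i
    · exact h.pos 1
    · exact h.pos 0
  mx g hg := by
    obtain ⟨c, t, t', h1, h2, e⟩ := h.mx g hg
    exact ⟨c, t', t, h2, h1, e.trans (add_right_comm _ _ _)⟩
  fr := h.fr

/-- Every element of the ring is a constant modulo the centre. -/
theorem CR.res (h : CR G C O) {g : L} (hg : g ∈ O) : ∃ c : ℂ, g - algebraMap ℂ L c ∈ G.F 1 ∧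
    ∀ c', (g - algebraMap ℂ L c) / C.z 0 ∈ ex C O c' := by
  obtain ⟨c, t, t', h1, h2, e⟩ := h.mx g hg
  have h0 := C.ne 0
  refine ⟨c, F_of_eq (add_mem (F_mul0' (h.pos 0) (h.le t h1)) (F_mul0' (h.pos 1) (h.le t' h2)))
    (by rw [e]; ring), fun c' => ?_⟩
  refine (congrArg (· ∈ ex C O c') ?_).mp (add_mem (le_ex h1) (mul_mem sg_ex (le_ex h2)))
  rw [e, z1_eq]
  field_simp
  ring

theorem CR.div (h : CR G C O) {g : L} (hg : g ∈ O) (h1 : g ∈ G.F 1) : g / C.z 0 ∈ ex C O c := by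
  obtain ⟨c', h2, h3⟩ := h.res hg
  have : c' = 0 := cst_F1 (F_of_eq (sub_mem h1 h2) (by ring))
  simpa [this] using h3 c

theorem unit_v {g : L} (hc : c ≠ 0) (h : g - algebraMap ℂ L c ∈ G.F 1) : g ≠ 0 ∧ G.v g = 0 := by
  have h1 : g ∉ G.F 1 := fun e => hc (cst_F1 (F_of_eq (sub_mem e h) (by ring)))
  have h2 : g ∈ G.F 0 := F_of_eq (add_mem (G.F_anti (by omega) h) (cst_F G c)) (by ring)
  have h0 : g ≠ 0 := fun e => h1 (Or.inl e)
  have h3 : ¬1 ≤ G.v g := fun e => h1 (Or.inr e)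
  have h4 := h2.resolve_left h0
  exact ⟨h0, by omega⟩

theorem CR.qt (h : CR G C O) (hc : sg C - algebraMap ℂ L c ∈ G.F 1) :
    CR G (qt C c) (ex C O c) where
  st := st_ex h.st
  le := ex_le (B := Vs G) h.le
    (F_of_eq (add_mem (G.F_anti (by omega) hc) (cst_F G c)) (by ring))
    fun h0 => Or.inr (by rw [G.inv, (unit_v h0 hc).2]; simp)
  pos i := by
    fin_cases i
    · exact h.pos 0
    · exact hc
  mx g hg := by
    have hz := (st_ex (c := c) h.st).z
    induction hg using Algebra.adjoin_induction with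
    | mem g hg =>
      rcases hg with rfl | rfl | hg
      · exact ⟨c, 0, 1, zero_mem _, one_mem _, by rw [qt_z1]; ring⟩
      · unfold ta
        split_ifs with h0
        · exact ⟨0, 0, 0, zero_mem _, zero_mem _, by simp⟩
        · refine ⟨c⁻¹, 0, _, zero_mem _,
            neg_mem (mul_mem (inv_ex h0) (algebraMap_mem _ c⁻¹)), ?_⟩
          have h1 := sg_ne C
          have h2 : algebraMap ℂ L c ≠ 0 := by simpa using h0
          rw [qt_z1, map_inv₀]
          field_simp
          ring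
      · obtain ⟨c', -, h3⟩ := h.res hg
        have h0 := C.ne 0
        refine ⟨c', _, 0, h3 c, zero_mem _, ?_⟩
        rw [qt_z0]
        field_simp
        ring
    | algebraMap r => exact ⟨r, 0, 0, zero_mem _, zero_mem _, by simp⟩
    | add x y _ _ hx hy =>
      obtain ⟨c1, t1, s1, h1, h2, e1⟩ := hx
      obtain ⟨c2, t2, s2, h3, h4, e2⟩ := hy
      exact ⟨c1 + c2, _, _, add_mem h1 h3, add_mem h2 h4, by rw [e1, e2, map_add]; ring⟩
    | mul x y hx' _ hx hy =>
      obtain ⟨c1, t1, s1, h1, h2, e1⟩ := hx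
      obtain ⟨c2, t2, s2, h3, h4, e2⟩ := hy
      refine ⟨c1 * c2, _, _, add_mem (mul_mem hx' h3) (mul_mem h1 (algebraMap_mem _ c2)),
        add_mem (mul_mem hx' h4) (mul_mem h2 (algebraMap_mem _ c2)), ?_⟩
      rw [map_mul]
      linear_combination x * e2 + algebraMap ℂ L c2 * e1
  fr g := by
    obtain ⟨s, h1, h2, h3⟩ := h.fr g
    exact ⟨s, le_ex h1, h2, le_ex h3⟩

/-- The residue of `t` is not a constant. -/
def NC (G : DV L) (t : L) : Prop := t ∈ G.F 0 ∧ ∀ c : ℂ, t - algebraMap ℂ L c ∉ G.F 1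

theorem exists_nc (hG : Dvs G) : ∃ t, NC G t := by
  obtain ⟨C, i, h⟩ := hG
  have hj : i.rev ≠ i := by fin_cases i <;> simp
  refine ⟨C.z i.rev, h.z_F _, fun c hc => ?_⟩
  have := h.D_LV hj 1 _ hc
  rw [map_sub, Derivation.map_algebraMap, sub_zero, C.dual, if_pos rfl, add_zero,
    ← map_one (algebraMap ℂ L)] at this
  exact one_ne_zero (cst_F1 this)

/-- The sequence of transforms along a divisorial valuation stops. -/
theorem iter (hG : Dvs G) (Φ : Co L 2 → Subalgebra ℂ L → Prop)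
    (h1 : ∀ C O, CR G C O → Φ C O → Φ (sw C) O)
    (h2 : ∀ C O c, CR G C O → Φ C O → Φ (qt C c) (ex C O c)) (h : CR G C O) (hΦ : Φ C O) :
    ∃ C' O', CR G C' O' ∧ Φ C' O' ∧ NC G (sg C') := by
  obtain ⟨t, ht⟩ := exists_nc hG
  have key : ∀ (N : ℕ) (C : Co L 2) (O : Subalgebra ℂ L), CR G C O → Φ C O → ∀ s ∈ O, s ≠ 0 →
      s * t ∈ O → G.v s < N → ∃ C' O', CR G C' O' ∧ Φ C' O' ∧ NC G (sg C') := by
    intro N
    induction N with
    | zero =>
      intro C O h _ s hs h0 _ hN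
      have := (h.le s hs).resolve_left h0
      omega
    | succ N ih =>
      have step : ∀ (C : Co L 2) (O : Subalgebra ℂ L), CR G C O → Φ C O → ∀ s ∈ O, s ≠ 0 →
          s * t ∈ O → G.v s < (N + 1 : ℕ) → sg C ∈ G.F 0 →
          ∃ C' O', CR G C' O' ∧ Φ C' O' ∧ NC G (sg C') := by
        intro C O h hΦ s hs h0 hst hN hsg
        by_cases hc : ∃ c : ℂ, sg C - algebraMap ℂ L c ∈ G.F 1
        swap
        · exact ⟨C, O, h, hΦ, hsg, fun c e => hc ⟨c, e⟩⟩
        obtain ⟨c, hc⟩ := hc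
        have hs1 : s ∈ G.F 1 := by
          obtain ⟨c1, e1, -⟩ := h.res hs
          obtain ⟨c2, e2, -⟩ := h.res hst
          by_cases h3 : c1 = 0
          · simpa [h3] using e1
          have h4 : algebraMap ℂ L c1 ≠ 0 := by simpa using h3
          refine (ht.2 (c2 / c1) (F_of_eq
            (F_mul0 (cst_F G c1⁻¹) (sub_mem e2 (F_mul0' e1 ht.1))) ?_)).elim
          rw [map_div₀, map_inv₀]
          field_simp
          ring
        have hz := C.ne 0
        have hv := (h.pos 0).resolve_left hz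
        refine ih _ _ (h.qt hc) (h2 C O c h hΦ) (s / C.z 0) (h.div hs hs1) (div_ne_zero h0 hz)
          (by rw [div_mul_eq_mul_div]; exact h.div hst (F_mul0' hs1 ht.1)) ?_
        rw [div_eq_mul_inv, G.mul _ _ h0 (inv_ne_zero hz), G.inv]
        omega
      intro C O h hΦ s hs h0 hst hN
      rcases G.O.mem_or_inv_mem (sg C) with e | e
      · exact step C O h hΦ s hs h0 hst hN e
      · exact step _ O h.sw (h1 C O h hΦ) s hs h0 hst hN (by rwa [sg, inv_div] at e)
  obtain ⟨s, hs, h0, hst⟩ := h.fr t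
  exact key ((G.v s).toNat + 1) C O h hΦ s hs h0 hst (by omega)

end

end Pool.Agent.MP_ee8c61_ag.M3BK.Cr
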