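import Pool.Agent.MP_ee8c61_ag.M3C.RDer
import Pool.Agent.MP_ee8c61_ag.M3C.RFIN
import Pool.Agent.MP_ee8c61_ag.M3C.RACF

/-! The affine charts of a smooth complete curve. -/

namespace Pool.Agent.MP_ee8c61_ag.M3BK

open WithZero Set
open scoped IntermediateField
open Pool.Agent.MP_cce4c9_lc
open H87

noncomputable section

variable {K : Type} [Field K] [Algebra ℂ K]

/-- The valuation ring of a place. -/
def Ot (t : Place ℂ K) : Subalgebra ℂ K where
  carrier := {f | t.val f ≤ 1}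
  mul_mem' := fun {a b} ha hb => by
    show t.val _ ≤ 1
    rw [map_mul]
    exact mul_le_one' ha hb
  add_mem' := fun {a b} ha hb => (t.val.map_add a b).trans (max_le ha hb)
  algebraMap_mem' := t.const_le

theorem mem_Ot {t : Place ℂ K} {f : K} : f ∈ Ot t ↔ t.val f ≤ 1 := Iff.rfl

/-- The functions that are regular wherever `u` is regular. -/
def Aff (u : K) : Subalgebra ℂ K where
  carrier := {f | ∀ t : Place ℂ K, u ∈ Ot t → f ∈ Ot t}
  mul_mem' := fun ha hb t ht => mul_mem (ha t ht) (hb t ht)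
  add_mem' := fun ha hb t ht => add_mem (ha t ht) (hb t ht)
  algebraMap_mem' := fun c t _ => (Ot t).algebraMap_mem c

theorem mem_Aff {u f : K} : f ∈ Aff u ↔ ∀ t : Place ℂ K, u ∈ Ot t → f ∈ Ot t := Iff.rfl

theorem self_mem_Aff (u : K) : u ∈ Aff u := fun _ h => h

theorem Aff_le {u : K} {t : Place ℂ K} (h : u ∈ Ot t) : Aff u ≤ Ot t := fun _ hf => hf t h

theorem eftK (h : IsFF ℂ K) : Algebra.EssFiniteType ℂ K := by
  obtain ⟨t, -, ht⟩ := h
  have : Algebra.EssFiniteType ℂ ℂ⟮t⟯ :=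
    IntermediateField.essFiniteType_iff.2 (IntermediateField.fg_adjoin_of_finite (by simp))
  exact Algebra.EssFiniteType.comp ℂ ℂ⟮t⟯ K

theorem Aff_val (hK : IsFF ℂ K) {u f : K} (hf : f ∈ Aff u) (V : ValuationSubring K)
    (hc : ∀ c, algebraMap ℂ K c ∈ V) (hu : u ∈ V) : f ∈ V := by
  by_cases h : V = ⊤
  · rw [h]; trivial
  obtain ⟨t, ht⟩ := H7.dvr ℂ K hK V hc h
  exact (ht f).2 (hf t ((ht u).1 hu))

theorem Aff_fg (hK : IsFF ℂ K) (u : K) : (Aff u).FG := by
  classical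
  have := eftK hK
  have hR : Algebra.adjoin ℂ {u} ≤ Aff u := Algebra.adjoin_le (by simpa using self_mem_Aff u)
  let N : Submodule (Algebra.adjoin ℂ {u}) K :=
    { carrier := Aff u
      zero_mem' := zero_mem _
      add_mem' := add_mem
      smul_mem' := fun c _ hx => mul_mem (hR c.2) hx }
  obtain ⟨S, hS⟩ : N.FG := (M3C.rowFIN M3C.rowACF ℂ K (Algebra.adjoin ℂ {u})
    ⟨{u}, by simp⟩ N).2 fun x hx V hV => Aff_val hK hx V
      (fun c => hV _ (Subalgebra.algebraMap_mem _ c)) (hV _ (Algebra.subset_adjoin rfl))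
  refine ⟨insert u S, le_antisymm (Algebra.adjoin_le fun x hx => ?_) fun x hx => ?_⟩
  · rcases Finset.mem_insert.1 hx with rfl | hx
    · exact self_mem_Aff _
    · exact (hS ▸ Submodule.subset_span hx : x ∈ N)
  · have hx' : x ∈ Submodule.span (Algebra.adjoin ℂ {u}) (S : Set K) := hS ▸ hx
    clear hx
    induction hx' using Submodule.span_induction with
    | mem x hx => exact Algebra.subset_adjoin (by simp [hx])
    | zero => exact zero_mem _
    | add x y _ _ hx hy => exact add_mem hx hy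
    | smul c x _ hx => exact mul_mem (Algebra.adjoin_mono (by simp) c.2) hx

theorem Aff_gen (hK : IsFF ℂ K) (u : K) :
    ∃ (n : ℕ) (h : Fin n → K), Algebra.adjoin ℂ (range h) = Aff u := by
  obtain ⟨S, hS⟩ := Aff_fg hK u
  refine ⟨S.card, fun i => S.equivFin.symm i, ?_⟩
  rw [← hS]
  congr 1
  ext x
  exact ⟨fun ⟨i, hi⟩ => hi ▸ (S.equivFin.symm i).2, fun hx => ⟨S.equivFin ⟨x, hx⟩, by simp⟩⟩

theorem Aff_frac (hK : IsFF ℂ K) {u : K} (hu : u ∉ range (algebraMap ℂ K)) {t : Place ℂ K}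
    (ht : u ∈ Ot t) {f : K} (hf : f ∈ Ot t) : ∃ s ∈ Aff u, t.val s = 1 ∧ s * f ∈ Aff u := by
  classical
  by_cases h0 : f = 0
  · exact ⟨1, one_mem _, map_one _, by rw [h0, mul_zero]; exact zero_mem _⟩
  obtain ⟨p, hp⟩ : ∃ p : Place ℂ K, u ∉ Ot p := by
    by_contra h
    exact hu ((H7.degF hK u).2.2 fun v => not_not.1 fun h1 => h ⟨v, h1⟩)
  obtain ⟨g, hg⟩ := H7.genus hK
  have hpt : ∀ v, u ∈ Ot v → p ≠ v := fun v hv e => hp (e ▸ hv)
  set D0 : H87.Dv ℂ K := dv ℂ f ⊓ 0 with hD0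
  have hD : ∀ v, u ∈ Ot v → (Finsupp.single p (2 * g + 1 - D0.degree) + D0) v =
      min (v.ord f) 0 := fun v hv => by
    rw [Finsupp.add_apply, Finsupp.single_eq_of_ne (hpt v hv).symm, zero_add, hD0,
      Finsupp.inf_apply, H7.dv_ap hK]
    rfl
  obtain ⟨s, hs, hs1⟩ := H7.jet hK hg (D := Finsupp.single p (2 * g + 1 - D0.degree) + D0)
    (E := Finsupp.single t 1) (Finsupp.single_nonneg.2 zero_le_one)
    (fun v hv => by
      obtain rfl : v = t := by
        by_contra h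
        exact hv (Finsupp.single_eq_of_ne h)
      rw [hD v ht, min_eq_right ((v.val_le_one (v.val_ne h0)).1 hf)])
    (by rw [map_add, Finsupp.degree_single, Finsupp.degree_single]; omega)
  refine ⟨s, fun v hv => (hs v).trans ?_, ?_, fun v hv => ?_⟩
  · rw [hD v hv, ← exp_zero, exp_le_exp]
    exact min_le_right _ _
  · have h1 := hs1 t (by simp)
    rw [Finsupp.single_eq_same] at h1
    have h2 : t.val (s - 1) < t.val 1 := by
      rw [map_one, ← exp_zero]
      exact h1.trans_lt (exp_lt_exp.2 (by omega))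
    have := t.val.map_add_eq_of_lt_right h2
    rwa [sub_add_cancel, map_one] at this
  · show v.val _ ≤ 1
    rw [map_mul, v.val_eq (v.val_ne h0)]
    refine (mul_le_mul_left (hs v) _).trans ?_
    rw [hD v hv, ← exp_add, ← exp_zero, exp_le_exp]
    omega

theorem Aff_pt (hK : IsFF ℂ K) {u : K} (hu : u ∉ range (algebraMap ℂ K)) (φ : Aff u →ₐ[ℂ] ℂ) :
    ∃ t : Place ℂ K, u ∈ Ot t ∧ ∀ f : Aff u, t.ev (f : K) = φ f := by
  obtain ⟨P, hP⟩ := H7.chevH (Aff u).val φ fun r hr => by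
    rw [show r = 0 from Subtype.ext hr, map_zero]
  have key : ∀ f : Aff u, P.O.valuation ((f : K) - algebraMap ℂ K (φ f)) < 1 := fun f => by
    have := H7.rd_sub (hP f) (H7.rd_const P (φ f))
    rw [sub_self] at this
    exact H7.rd_zero_iff.1 this
  have hne : P.O ≠ ⊤ := fun h => by
    have h1 := key ⟨u, self_mem_Aff u⟩
    have h2 : u - algebraMap ℂ K (φ ⟨u, self_mem_Aff u⟩) ≠ 0 := fun e =>
      hu ⟨_, (sub_eq_zero.1 e).symm⟩
    rw [← ValuationSubring.mem_nonunits_iff, ValuationSubring.mem_nonunits_iff_or] at h1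
    exact h1.resolve_left h2 (by rw [h]; trivial)
  obtain ⟨t, ht⟩ := H7.dvr ℂ K hK P.O P.mem hne
  refine ⟨t, (ht u).1 (hP ⟨u, self_mem_Aff u⟩).1, fun f => t.ev_eq ?_⟩
  have h1 := key f
  rw [← ValuationSubring.mem_nonunits_iff, ValuationSubring.mem_nonunits_iff_or, ht] at h1
  rcases h1 with h1 | h1
  · rw [h1, map_zero]; exact zero_lt_one
  · rw [map_inv₀, not_le] at h1
    by_contra h2
    exact absurd (inv_le_one_of_one_le₀ (not_lt.1 h2)) (not_le.2 h1)

theorem val_one_of_ev (hK : IsFF ℂ K) {t : Place ℂ K} {s : K} (hs : s ∈ Ot t) (h : t.ev s ≠ 0) :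
    t.val s = 1 :=
  le_antisymm hs (not_lt.1 fun h1 => h (((H7.res hK t).ev_eq_zero hs).2 h1))

theorem Aff_uniq (hK : IsFF ℂ K) {u : K} (hu : u ∉ range (algebraMap ℂ K)) {t t' : Place ℂ K}
    (ht : u ∈ Ot t) (ht' : u ∈ Ot t') (h : ∀ f ∈ Aff u, t.ev f = t'.ev f) : t = t' := by
  refine Place.eq_of_le t t' fun x hx => ?_
  obtain ⟨s, hs, h1, h2⟩ := Aff_frac hK hu ht hx
  have h3 : t'.val s = 1 :=
    val_one_of_ev hK (hs t' ht') (h s hs ▸ (H7.res hK t).ev_ne_zero h1)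
  have h4 : t'.val (s * x) ≤ 1 := h2 t' ht'
  rwa [map_mul, h3, one_mul] at h4

/-- The value at a place as a homomorphism. -/
def evt (hK : IsFF ℂ K) (t : Place ℂ K) : Ot t →ₐ[ℂ] ℂ where
  toFun f := t.ev (f : K)
  map_one' := t.ev_one
  map_mul' a b := (H7.res hK t).ev_mul a.2 b.2
  map_zero' := t.ev_zero
  map_add' a b := (H7.res hK t).ev_add a.2 b.2
  commutes' c := t.ev_const c

theorem ev_adj (hK : IsFF ℂ K) {t t' : Place ℂ K} {S : Set K} (hS : ∀ x ∈ S, x ∈ Ot t)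
    (hS' : ∀ x ∈ S, x ∈ Ot t') (h : ∀ x ∈ S, t.ev x = t'.ev x) :
    ∀ f ∈ Algebra.adjoin ℂ S, t.ev f = t'.ev f := fun f hf => by
  have l : Algebra.adjoin ℂ S ≤ Ot t := Algebra.adjoin_le hS
  have l' : Algebra.adjoin ℂ S ≤ Ot t' := Algebra.adjoin_le hS'
  induction hf using Algebra.adjoin_induction with
  | mem x hx => exact h x hx
  | algebraMap c => simp
  | add x y hx hy ex ey =>
    rw [(H7.res hK t).ev_add (l hx) (l hy), (H7.res hK t').ev_add (l' hx) (l' hy), ex, ey]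
  | mul x y hx hy ex ey =>
    rw [(H7.res hK t).ev_mul (l hx) (l hy), (H7.res hK t').ev_mul (l' hx) (l' hy), ex, ey]

theorem poles_fin (hK : IsFF ℂ K) (f : K) : {t : Place ℂ K | f ∉ Ot t}.Finite :=
  (H7.fins hK f).subset fun t ht h => ht (by
    by_cases h0 : f = 0
    · rw [h0]; exact zero_mem _
    · exact (t.val_le_one (t.val_ne h0)).2 (le_of_eq (Eq.symm h)))

theorem mem_or_inv (t : Place ℂ K) (f : K) : f ∈ Ot t ∨ f⁻¹ ∈ Ot t := by
  rcases le_total (t.val f) 1 with h | h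
  · exact Or.inl h
  · refine Or.inr ?_
    show t.val _ ≤ 1
    rw [map_inv₀]
    exact inv_le_one_of_one_le₀ h

end

end Pool.Agent.MP_ee8c61_ag.M3BK
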