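import Pool.Agent.MP_ee8c61_ag.M3BK.M0A
import Pool.Agent.MP_ee8c61_ag.M3BK.Spec
import Pool.Agent.MP_ee8c61_ag.M3H47.Expl

/-! The points of the product of a curve with the projective line. -/

namespace Pool.Agent.MP_ee8c61_ag.M3BK

open WithZero Set Polynomial
open Pool.Agent.MP_cce4c9_lc
open H87 M3 M3H47
open Pool.Agent.MP_96693b_ag.RS

noncomputable section

variable {L : Type} [Field L] [Algebra ℂ L] {K : IntermediateField ℂ L}

/-- The ring generated by `S` and `w`. -/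
def Bt (S : Subalgebra ℂ K) (w : L) : Subalgebra ℂ L :=
  Algebra.adjoin ℂ (insert w ((↑) '' (S : Set K)))

theorem Bt.w_mem (S : Subalgebra ℂ K) (w : L) : w ∈ Bt S w :=
  Algebra.subset_adjoin (mem_insert _ _)

theorem Bt.c_mem {S : Subalgebra ℂ K} (w : L) {f : K} (hf : f ∈ S) : (f : L) ∈ Bt S w :=
  Algebra.subset_adjoin (mem_insert_of_mem _ ⟨f, hf, rfl⟩)

theorem Bt.le {S : Subalgebra ℂ K} {w : L} {O : Subalgebra ℂ L} (hw : w ∈ O)
    (h : ∀ f ∈ S, (f : L) ∈ O) : Bt S w ≤ O := Algebra.adjoin_le (by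
  rintro _ (rfl | ⟨f, hf, rfl⟩)
  · exact hw
  · exact h f hf)

theorem Bt.ind {S : Subalgebra ℂ K} {w : L} {p : L → Prop} (hw : p w) (hc : ∀ f ∈ S, p (f : L))
    (ha : ∀ a ∈ Bt S w, ∀ b ∈ Bt S w, p a → p b → p (a + b))
    (hm : ∀ a ∈ Bt S w, ∀ b ∈ Bt S w, p a → p b → p (a * b)) {z : L} (hz : z ∈ Bt S w) : p z := by
  induction hz using Algebra.adjoin_induction with
  | mem x hx =>
    rcases hx with rfl | ⟨f, hf, rfl⟩
    · exact hw
    · exact hc f hf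
  | algebraMap c => exact hc (algebraMap ℂ K c) (S.algebraMap_mem c)
  | add x y hx hy ex ey => exact ha x hx y hy ex ey
  | mul x y hx hy ex ey => exact hm x hx y hy ex ey

theorem Bt.aeval_mem {S : Subalgebra ℂ K} (w : L) {A : K[X]} (hA : ∀ i, A.coeff i ∈ S) :
    aeval w A ∈ Bt S w := by
  rw [aeval_eq_sum_range]
  exact sum_mem fun i _ => mul_mem (Bt.c_mem w (hA i)) (pow_mem (Bt.w_mem S w) i)

theorem Bt.exists_hom {w : L} (hw : Rl K w) (S : Subalgebra ℂ K) (φ : S →ₐ[ℂ] ℂ) (c : ℂ) :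
    ∃ ψ : Bt S w →ₐ[ℂ] ℂ, (∀ f : S, ψ ⟨f, Bt.c_mem w f.2⟩ = φ f) ∧ ψ ⟨w, Bt.w_mem S w⟩ = c := by
  let j : S[X] →ₐ[ℂ] L := aevalTower (K.val.comp S.val) w
  have hj : ∀ A, j A = aeval w (A.map (algebraMap S K)) := fun A => by
    induction A using Polynomial.induction_on' with
    | add A B hA hB => rw [map_add, Polynomial.map_add, map_add, hA, hB]
    | monomial n a => simp [j, ← C_mul_X_pow_eq_monomial]
  have hi : Function.Injective j := fun A B e => by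
    rw [hj, hj] at e
    exact map_injective _ Subtype.val_injective (hw.inj _ _ e)
  have hle : Bt S w ≤ j.range := Bt.le ⟨X, by simp [j]⟩ fun f hf => ⟨C ⟨f, hf⟩, by simp [j]⟩
  let e := AlgEquiv.ofInjective j hi
  have he : ∀ A (h : j A ∈ j.range), e.symm ⟨j A, h⟩ = A := fun A h => e.symm_apply_eq.2 rfl
  refine ⟨(aevalTower φ c).comp (e.symm.toAlgHom.comp (Subalgebra.inclusion hle)), fun f => ?_, ?_⟩
  · have := he (C f) ⟨_, rfl⟩
    simp only [j, aevalTower_C] at this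
    exact (congrArg (aevalTower φ c) this).trans (by simp)
  · have := he X ⟨_, rfl⟩
    simp only [j, aevalTower_X] at this
    exact (congrArg (aevalTower φ c) this).trans (by simp)

theorem Bt.eq_adjoin {κ : Type} {h : κ → K} {S : Subalgebra ℂ K}
    (hS : Algebra.adjoin ℂ (range h) = S) (w : L) :
    Algebra.adjoin ℂ (range fun o : Option κ => o.elim w fun i => (h i : L)) = Bt S w := by
  refine le_antisymm (Algebra.adjoin_le ?_) (Bt.le (Algebra.subset_adjoin ⟨none, rfl⟩) ?_)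
  · rintro _ ⟨_ | i, rfl⟩
    · exact Bt.w_mem S w
    · exact Bt.c_mem w (hS ▸ Algebra.subset_adjoin ⟨i, rfl⟩)
  · intro f hf
    rw [← hS] at hf
    induction hf using Algebra.adjoin_induction with
    | mem x hx =>
      obtain ⟨i, rfl⟩ := hx
      exact Algebra.subset_adjoin ⟨some i, rfl⟩
    | algebraMap c => exact Subalgebra.algebraMap_mem _ c
    | add x y _ _ ex ey => exact add_mem ex ey
    | mul x y _ _ ex ey => exact mul_mem ex ey

theorem Bt.fg (hK : IsFF ℂ K) (u : K) (w : L) : (Bt (Aff u) w).FG := by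
  obtain ⟨n, h, hh⟩ := Aff_gen hK u
  rw [← Bt.eq_adjoin hh]
  exact Subalgebra.fg_def.2 ⟨_, finite_range _, rfl⟩

/-- The point lies over the place `t`. -/
structure Ab (t : Place ℂ K) (P : Loc L) : Prop where
  le : ∀ f ∈ Ot t, (f : L) ∈ P.O
  ev : ∀ f ∈ Ot t, P.ev f = t.ev f

/-- The point `w = c` of the fibre over `t`. -/
structure IsP (t : Place ℂ K) (w : L) (c : ℂ) (P : Loc L) : Prop where
  loc : LocOf (Bt (Ot t) w) P
  ev : ∀ f ∈ Ot t, P.ev f = t.ev f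
  evw : P.ev w = c

theorem IsP.ab {t : Place ℂ K} {w : L} {c : ℂ} {P : Loc L} (h : IsP t w c P) : Ab t P :=
  ⟨fun _ hf => h.loc.le (Bt.c_mem w hf), h.ev⟩

theorem IsP.w_mem {t : Place ℂ K} {w : L} {c : ℂ} {P : Loc L} (h : IsP t w c P) : w ∈ P.O :=
  h.loc.le (Bt.w_mem _ w)

theorem ab_of (hK : IsFF ℂ K) {u : K} (hu : u ∉ range (algebraMap ℂ K)) {t : Place ℂ K}
    (ht : u ∈ Ot t) {P : Loc L} (h1 : ∀ f ∈ Aff u, (f : L) ∈ P.O)
    (h2 : ∀ f ∈ Aff u, P.ev f = t.ev f) : Ab t P := by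
  have key : ∀ f ∈ Ot t, (f : L) ∈ P.O ∧ P.ev f = t.ev f := fun f hf => by
    obtain ⟨s, hs, e1, e2⟩ := Aff_frac hK hu ht hf
    have h3 : t.ev s ≠ 0 := (H7.res hK t).ev_ne_zero e1
    have h4 : P.ev s ≠ 0 := h2 s hs ▸ h3
    have h5 : (f : L) = ((s * f : K) : L) / s := by
      rw [MulMemClass.coe_mul, mul_div_cancel_left₀ _ (Loc.ne_zero_of_ev h4)]
    refine ⟨h5 ▸ Loc.div_mem (h1 _ e2) (h1 s hs) h4, ?_⟩
    rw [h5, Loc.ev_div (h1 _ e2) (h1 s hs) h4, h2 _ e2, h2 s hs,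
      (H7.res hK t).ev_mul e1.le hf, mul_div_cancel_left₀ _ h3]
  exact ⟨fun f hf => (key f hf).1, fun f hf => (key f hf).2⟩

theorem exists_ab (hK : IsFF ℂ K) {u : K} (hu : u ∉ range (algebraMap ℂ K)) {P : Loc L}
    (h1 : ∀ f ∈ Aff u, (f : L) ∈ P.O) : ∃ t, u ∈ Ot t ∧ Ab t P := by
  obtain ⟨t, ht, e⟩ := Aff_pt hK hu
    { toFun := fun g => P.ev g
      map_one' := Loc.ev_one
      map_mul' := fun g g' => P.ev_mul _ (h1 _ g.2) _ (h1 _ g'.2)
      map_zero' := Loc.ev_zero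
      map_add' := fun g g' => P.ev_add _ (h1 _ g.2) _ (h1 _ g'.2)
      commutes' := fun r => P.ev_alg r }
  exact ⟨t, ht, ab_of hK hu ht h1 fun f hf => (e ⟨f, hf⟩).symm⟩

theorem Ab.mem_iff (hK : IsFF ℂ K) {t : Place ℂ K} {P : Loc L} (h : Ab t P) {f : K} :
    (f : L) ∈ P.O ↔ f ∈ Ot t := by
  refine ⟨fun hf => by_contra fun hn => ?_, h.le f⟩
  have h1 := (mem_or_inv t f).resolve_left hn
  have h0 : f ≠ 0 := fun e => hn (e ▸ zero_mem _)
  have h2 : t.ev f⁻¹ = 0 := by_contra fun h3 => hn (by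
    have := val_one_of_ev hK h1 h3
    rw [map_inv₀, inv_eq_one] at this
    exact this.le)
  have h3 := P.ev_mul _ hf _ (h.le _ h1)
  rw [h.ev _ h1, h2, mul_zero, ← MulMemClass.coe_mul, mul_inv_cancel₀ h0] at h3
  exact one_ne_zero (Loc.ev_one.symm.trans h3)

theorem Ab.uniq (hK : IsFF ℂ K) {t t' : Place ℂ K} {P : Loc L} (h : Ab t P) (h' : Ab t' P) :
    t = t' := Place.eq_of_le t t' fun x hx => (h'.mem_iff hK).1 (h.le x hx)

theorem isP_of_aff (hK : IsFF ℂ K) {u : K} (hu : u ∉ range (algebraMap ℂ K)) {w : L} {P : Loc L}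
    (h : LocOf (Bt (Aff u) w) P) : ∃ t, u ∈ Ot t ∧ IsP t w (P.ev w) P := by
  obtain ⟨t, ht, ha⟩ := exists_ab hK hu fun f hf => h.le (Bt.c_mem w hf)
  refine ⟨t, ht, ⟨Bt.le (h.le (Bt.w_mem _ w)) ha.le, fun f hf => ?_⟩, ha.ev, rfl⟩
  obtain ⟨p, hp, q, hq, e⟩ := h.frac f hf
  have hl : Bt (Aff u) w ≤ Bt (Ot t) w :=
    Bt.le (Bt.w_mem _ w) fun f hf => Bt.c_mem w (Aff_le ht hf)
  exact ⟨p, hl hp, q, hl hq, e⟩

theorem Bt.clear (hK : IsFF ℂ K) {u : K} (hu : u ∉ range (algebraMap ℂ K)) {t : Place ℂ K}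
    (ht : u ∈ Ot t) {w z : L} (hz : z ∈ Bt (Ot t) w) :
    ∃ s ∈ Aff u, t.val s = 1 ∧ (s : L) * z ∈ Bt (Aff u) w := by
  refine Bt.ind (p := fun z => ∃ s ∈ Aff u, t.val s = 1 ∧ (s : L) * z ∈ Bt (Aff u) w) ?_ ?_ ?_ ?_ hz
  · exact ⟨1, one_mem _, map_one _, by simpa using Bt.w_mem _ w⟩
  · intro f hf
    obtain ⟨s, hs, e1, e2⟩ := Aff_frac hK hu ht hf
    exact ⟨s, hs, e1, Bt.c_mem w e2⟩
  · rintro a - b - ⟨s, hs, e1, e2⟩ ⟨s', hs', e1', e2'⟩
    refine ⟨s * s', mul_mem hs hs', by rw [map_mul, e1, e1', one_mul], ?_⟩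
    rw [MulMemClass.coe_mul, show (s : L) * s' * (a + b) = s' * (s * a) + s * (s' * b) by ring]
    exact add_mem (mul_mem (Bt.c_mem w hs') e2) (mul_mem (Bt.c_mem w hs) e2')
  · rintro a - b - ⟨s, hs, e1, e2⟩ ⟨s', hs', e1', e2'⟩
    refine ⟨s * s', mul_mem hs hs', by rw [map_mul, e1, e1', one_mul], ?_⟩
    rw [MulMemClass.coe_mul, mul_mul_mul_comm]
    exact mul_mem e2 e2'

theorem IsP.aff (hK : IsFF ℂ K) {u : K} (hu : u ∉ range (algebraMap ℂ K)) {t : Place ℂ K}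
    (ht : u ∈ Ot t) {w : L} {c : ℂ} {P : Loc L} (h : IsP t w c P) : LocOf (Bt (Aff u) w) P := by
  refine ⟨Bt.le h.w_mem fun f hf => h.ab.le f (Aff_le ht hf), fun f hf => ?_⟩
  obtain ⟨p, hp, q, hq, e0, e⟩ := h.loc.frac f hf
  obtain ⟨s, hs, e1, e2⟩ := Bt.clear hK hu ht hp
  obtain ⟨s', hs', e1', e2'⟩ := Bt.clear hK hu ht hq
  refine ⟨s' * (s * p), mul_mem (Bt.c_mem w hs') e2, s * (s' * q), mul_mem (Bt.c_mem w hs) e2',
    ?_, by rw [← e]; ring⟩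
  have h1 := h.ab.le s e1.le
  have h2 := h.ab.le s' e1'.le
  rw [P.ev_mul _ h1 _ (mul_mem h2 (h.loc.le hq)), P.ev_mul _ h2 _ (h.loc.le hq), h.ev s e1.le,
    h.ev s' e1'.le]
  exact mul_ne_zero ((H7.res hK t).ev_ne_zero e1)
    (mul_ne_zero ((H7.res hK t).ev_ne_zero e1') e0)

/-- The uniformizer. -/
abbrev un (t : Place ℂ K) : K := M3C.unif t

theorem un_lt (t : Place ℂ K) : t.val (un t) < 1 := by
  rw [M3C.val_unif, ← exp_zero, exp_lt_exp]
  omega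

theorem un_mem (t : Place ℂ K) : un t ∈ Ot t := (un_lt t).le

theorem un_ne (t : Place ℂ K) : un t ≠ 0 := fun h => by
  have := M3C.val_unif t
  rw [show M3C.unif t = 0 from h, map_zero] at this
  exact exp_ne_zero this.symm

theorem un_ev (t : Place ℂ K) : t.ev (un t) = 0 := t.ev_of_lt (un_lt t)

theorem un_nc (t : Place ℂ K) : un t ∉ range (algebraMap ℂ K) := fun ⟨c, hc⟩ => by
  have h := un_ev t
  rw [← hc, t.ev_const] at h
  exact un_ne t (by rw [← hc, h, map_zero])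

theorem exists_isP (hK : IsFF ℂ K) {w : L} (hw : Rl K w) (t : Place ℂ K) (c : ℂ) :
    ∃ P, IsP t w c P := by
  obtain ⟨ψ, h1, h2⟩ := Bt.exists_hom hw (Aff (un t))
    ((evt hK t).comp (Subalgebra.inclusion (Aff_le (un_mem t)))) c
  obtain ⟨P, hP, e⟩ := exists_locOf (Bt.fg hK (un t) w) ψ
  obtain ⟨t', -, h⟩ := isP_of_aff hK (un_nc t) hP
  have ha : Ab t P := ab_of hK (un_nc t) (un_mem t) (fun f hf => hP.le (Bt.c_mem w hf))
    fun f hf => (e ⟨f, Bt.c_mem w hf⟩).trans (h1 ⟨f, hf⟩)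
  obtain rfl := h.ab.uniq hK ha
  exact ⟨P, h.loc, h.ev, (e ⟨w, _⟩).trans h2⟩

theorem IsP.le {t : Place ℂ K} {w : L} {c : ℂ} {P P' : Loc L} (h : IsP t w c P) (ha : Ab t P')
    (hw : w ∈ P'.O) (hc : P'.ev w = c) :
    P.O ≤ P'.O ∧ ∀ g ∈ Bt (Ot t) w, P'.ev g = P.ev g := by
  have hl : Bt (Ot t) w ≤ P'.O := Bt.le hw ha.le
  have he : ∀ g ∈ Bt (Ot t) w, P'.ev g = P.ev g := fun g hg =>
    Bt.ind (p := fun g => P'.ev g = P.ev g) (hc.trans h.evw.symm)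
      (fun f hf => (ha.ev f hf).trans (h.ev f hf).symm)
      (fun a ha b hb ea eb => by
        rw [P'.ev_add _ (hl ha) _ (hl hb), P.ev_add _ (h.loc.le ha) _ (h.loc.le hb), ea, eb])
      (fun a ha b hb ea eb => by
        rw [P'.ev_mul _ (hl ha) _ (hl hb), P.ev_mul _ (h.loc.le ha) _ (h.loc.le hb), ea, eb]) hg
  exact ⟨h.loc.le_of_ev hl he, he⟩

theorem IsP.uniq {t : Place ℂ K} {w : L} {c : ℂ} {P P' : Loc L} (h : IsP t w c P)
    (h' : IsP t w c P') : P = P' :=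
  Loc.ext' (le_antisymm (h.le h'.ab h'.w_mem h'.evw).1 (h'.le h.ab h.w_mem h.evw).1)

end

end Pool.Agent.MP_ee8c61_ag.M3BK
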