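import Pool.Agent.MP_ee8c61_ag.M3BK.M0B
import Pool.Agent.MP_ee8c61_ag.M3RESID.Jac

/-! Coordinates at the points of the product of a curve with the projective line. -/

namespace Pool.Agent.MP_ee8c61_ag.M3BK

open WithZero Set Polynomial
open Pool.Agent.MP_cce4c9_lc
open H87 hiding Dv
open M3 M3H47 M3RESID
open Pool.Agent.MP_96693b_ag.RS

noncomputable section

variable {L : Type} [Field L] [Algebra ℂ L] {K : IntermediateField ℂ L} {w s : L} {X0 X1 : VF L}

/-- The restriction of a field to the base. -/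
def rK (Z : VF L) (h : ∀ c ∈ K, Z c ∈ K) : Derivation ℂ K K :=
  Derivation.mk'
    { toFun := fun c => ⟨Z c, h c c.2⟩
      map_add' := fun a b => Subtype.ext (by simp)
      map_smul' := fun r a => Subtype.ext (by simp) }
    fun a b => Subtype.ext (by simp [Derivation.leibniz])

theorem rK_coe (Z : VF L) (h : ∀ c ∈ K, Z c ∈ K) (c : K) : (rK Z h c : L) = Z c := rfl

/-- A ruling with an adapted frame. -/
structure Ru (K : IntermediateField ℂ L) (w s : L) (X0 X1 : VF L) : Prop where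
  ff : IsFF ℂ K
  rl : Rl K w
  ad : Ada K w s X0 X1

namespace Ru

variable (R : Ru K w s X0 X1)
include R

/-- The derivation of the base. -/
def dK : Derivation ℂ K K := rK X1 (R.ad.k1 R.rl)

theorem dK_coe (c : K) : (R.dK c : L) = X1 c := rfl

theorem dK_s : R.dK ⟨s, R.ad.t0⟩ = 1 := Subtype.ext R.ad.t1

theorem dK_ne : R.dK ≠ 0 := fun h => by
  have := R.dK_s
  rw [h] at this
  exact zero_ne_one this

theorem dK_un (t : Place ℂ K) : R.dK (un t) ≠ 0 :=
  (M3C.rowDer ℂ K R.ff R.dK R.dK_ne).1 _ (un_nc t)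

theorem X1_un (t : Place ℂ K) : X1 (un t) ≠ 0 := fun h => R.dK_un t (Subtype.ext h)

theorem dK_mem (t : Place ℂ K) {f : K} (hf : f ∈ Ot t) : (R.dK (un t))⁻¹ * R.dK f ∈ Ot t := by
  have h := (M3C.rowDer ℂ K R.ff R.dK R.dK_ne).2 t _ (M3C.val_unif t) f hf
  show t.val _ ≤ 1
  rw [map_mul, map_inv₀]
  exact inv_mul_le_one_of_le₀ h zero_le

theorem X0_K (f : K) : X0 f = 0 := R.ad.k0 f f.2

/-- The coordinates at the point `w = c` over `t`. -/
def co (t : Place ℂ K) (c : ℂ) : Co L 2 where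
  z := ![un t, w - algebraMap ℂ L c]
  D := ![(X1 (un t))⁻¹ • X1, w⁻¹ • X0]
  ne i := by
    fin_cases i
    · simpa using un_ne t
    · intro h
      have := congrArg X0 h
      simp [R.ad.y0, R.rl.y_ne] at this
  dual i j := by
    fin_cases i <;> fin_cases j <;> simp [R.X1_un, R.ad.y0, R.ad.y1, R.X0_K, R.rl.y_ne]
  span v h := by
    have h0 : v (un t) = 0 := h 0
    have h1 : v w = 0 := by simpa using h 1
    have e := R.ad.exp R.rl.y_ne v
    rw [h1, zero_div, zero_smul, zero_add] at e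
    have h2 : v s = 0 := by
      rw [e] at h0
      simpa [R.X1_un] using h0
    exact R.ad.span v h1 h2

variable (t : Place ℂ K) (c : ℂ)

theorem co_z0 : (R.co t c).z 0 = un t := rfl
theorem co_z1 : (R.co t c).z 1 = w - algebraMap ℂ L c := rfl
theorem co_D0 : (R.co t c).D 0 = (X1 (un t))⁻¹ • X1 := rfl
theorem co_D1 : (R.co t c).D 1 = w⁻¹ • X0 := rfl

theorem co_bt (i : Fin 2) {z : L} (hz : z ∈ Bt (Ot t) w) : (R.co t c).D i z ∈ Bt (Ot t) w := by
  refine Bt.ind (p := fun z => (R.co t c).D i z ∈ Bt (Ot t) w) ?_ ?_ ?_ ?_ hz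
  · fin_cases i
    · simp [co_D0, R.ad.y1]
    · simp [co_D1, R.ad.y0, R.rl.y_ne]
  · intro f hf
    fin_cases i
    · exact Bt.c_mem w (R.dK_mem t hf)
    · simp [co_D1, R.X0_K]
  · intro a _ b _ ha hb
    rw [map_add]
    exact add_mem ha hb
  · intro a ha' b hb' ha hb
    rw [Derivation.leibniz]
    exact add_mem (mul_mem ha' hb) (mul_mem hb' ha)

end Ru

theorem sub_ev_div (hK : IsFF ℂ K) {t : Place ℂ K} {f : K} (hf : f ∈ Ot t) :
    (f - algebraMap ℂ K (t.ev f)) / un t ∈ Ot t := by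
  have h := (H7.res hK t).ev_spec hf
  show t.val _ ≤ 1
  by_cases h0 : f - algebraMap ℂ K (t.ev f) = 0
  · simp [h0]
  have h1 := (t.val_lt_one (t.val_ne h0)).1 h
  rw [map_div₀, M3C.val_unif, t.val_eq (t.val_ne h0), ← exp_sub, ← exp_zero, exp_le_exp]
  omega

/-- The coefficients are regular at `t` and one of them is a unit. -/
structure Prm (t : Place ℂ K) (A : K[X]) : Prop where
  mem : ∀ i, A.coeff i ∈ Ot t
  one : ∃ i, A.coeff i = 1

theorem Prm.ne {t : Place ℂ K} {A : K[X]} (h : Prm t A) : A ≠ 0 := fun e => by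
  obtain ⟨i, hi⟩ := h.one
  simp [e] at hi

theorem exists_prm (t : Place ℂ K) {A : K[X]} (hA : A ≠ 0) :
    ∃ a : K, a ≠ 0 ∧ ∃ A', Prm t A' ∧ A = C a * A' := by
  obtain ⟨i, hi, hm⟩ := A.support.exists_max_image (fun i => t.val (A.coeff i))
    (support_nonempty.2 hA)
  have h0 : A.coeff i ≠ 0 := mem_support_iff.1 hi
  refine ⟨A.coeff i, h0, C (A.coeff i)⁻¹ * A, ⟨fun j => ?_, i, ?_⟩, ?_⟩
  · show t.val _ ≤ 1
    rw [coeff_C_mul, map_mul, map_inv₀]
    refine inv_mul_le_one_of_le₀ ?_ zero_le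
    by_cases hj : j ∈ A.support
    · exact hm j hj
    · simp [notMem_support_iff.1 hj]
  · rw [coeff_C_mul, inv_mul_cancel₀ h0]
  · rw [← mul_assoc, ← C_mul, mul_inv_cancel₀ h0, C_1, one_mul]

theorem exists_norm (hw : Rl K w) (t : Place ℂ K) {z : L} (hz : z ≠ 0) :
    ∃ e : K, e ≠ 0 ∧ ∃ A B, Prm t A ∧ Prm t B ∧ z * aeval w B = e * aeval w A := by
  obtain ⟨A, B, -, hB, e⟩ := hw.frac z
  have hA : A ≠ 0 := fun h => by
    rw [h, map_zero] at e
    exact mul_ne_zero hz (hw.ne hB) e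
  obtain ⟨a, ha, A', hA', rfl⟩ := exists_prm t hA
  obtain ⟨b, hb, B', hB', rfl⟩ := exists_prm t hB
  refine ⟨a / b, div_ne_zero ha hb, A', B', hA', hB', ?_⟩
  have hb' : (b : L) ≠ 0 := fun h => hb (Subtype.ext h)
  simp only [map_mul, aeval_C, IntermediateField.algebraMap_apply] at e
  rw [IntermediateField.coe_div]
  field_simp
  linear_combination e

namespace Ru

variable (R : Ru K w s X0 X1) {t : Place ℂ K} {c : ℂ} {P : Loc L}
include R

theorem mx (h : IsP t w c P) {z : L} (hz : z ∈ Bt (Ot t) w) :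
    (R.co t c).Mx P.O (z - algebraMap ℂ L (P.ev z)) := by
  refine Bt.ind (p := fun z => (R.co t c).Mx P.O (z - algebraMap ℂ L (P.ev z))) ?_ ?_ ?_ ?_ hz
  · refine ⟨![0, 1], fun i => ?_, by simp [co_z1, h.evw]⟩
    fin_cases i <;> simp
  · intro f hf
    refine ⟨![((f - algebraMap ℂ K (t.ev f)) / un t : K), 0], fun i => ?_, ?_⟩
    · fin_cases i
      · exact h.ab.le _ (sub_ev_div R.ff hf)
      · simp
    · have : (un t : L) ≠ 0 := (R.co t c).ne 0
      simp [co_z0, h.ev f hf, mul_div_cancel₀ _ this]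
  · rintro a ha b hb ⟨p, hp, e⟩ ⟨q, hq, e'⟩
    refine ⟨p + q, fun i => add_mem (hp i) (hq i), ?_⟩
    rw [P.ev_add _ (h.loc.le ha) _ (h.loc.le hb), map_add, add_sub_add_comm, e, e']
    simp [mul_add, Finset.sum_add_distrib]
  · rintro a ha b hb ⟨p, hp, e⟩ ⟨q, hq, e'⟩
    refine ⟨fun i => a * q i + algebraMap ℂ L (P.ev b) * p i, fun i =>
      add_mem (mul_mem (h.loc.le ha) (hq i)) (mul_mem (P.O.algebraMap_mem _) (hp i)), ?_⟩
    rw [P.ev_mul _ (h.loc.le ha) _ (h.loc.le hb), map_mul]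
    simp only [Fin.sum_univ_two] at e e' ⊢
    linear_combination a * e' + algebraMap ℂ L (P.ev b) * e

theorem rg (h : IsP t w c P) : Rg (R.co t c) P where
  st := by
    refine Co.St.lz (A := Bt (Ot t) w) ⟨fun i => ?_, fun i g hg => R.co_bt t c i hg⟩
      ⟨h.loc.le, fun g hg => ?_⟩
    · fin_cases i
      · exact Bt.c_mem w (un_mem t)
      · exact sub_mem (Bt.w_mem _ w) (Subalgebra.algebraMap_mem _ c)
    · obtain ⟨p, hp, q, hq, e0, e⟩ := h.loc.frac g hg
      exact ⟨q, hq, Loc.ne_zero_of_ev e0, P.inv_mem q (h.loc.le hq) e0, by rwa [mul_comm, e]⟩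
  ev i := by
    fin_cases i
    · exact (h.ev _ (un_mem t)).trans (un_ev t)
    · show P.ev (w - algebraMap ℂ L c) = 0
      rw [Loc.ev_sub h.w_mem (P.O.algebraMap_mem c), h.evw, P.ev_alg, sub_self]
  mx g hg h0 := by
    obtain ⟨p, hp, q, hq, e0, e⟩ := h.loc.frac g hg
    obtain ⟨r, hr, e1⟩ := R.mx h hp
    rw [← e, P.ev_mul _ hg _ (h.loc.le hq), h0, zero_mul, map_zero, sub_zero] at e1
    refine ⟨fun i => r i / q, fun i => Loc.div_mem (hr i) (h.loc.le hq) e0, ?_⟩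
    simp only [← mul_div_assoc, ← Finset.sum_div]
    exact eq_div_of_mul_eq (Loc.ne_zero_of_ev e0) e1
  fr g := by
    by_cases hg : g = 0
    · exact ⟨1, one_mem _, one_ne_zero, by simp [hg]⟩
    obtain ⟨e, he, A, B, hA, hB, h1⟩ := exists_norm R.rl t hg
    have hA' := h.loc.le (Bt.aeval_mem w hA.mem)
    have hB' := h.loc.le (Bt.aeval_mem w hB.mem)
    rcases mem_or_inv t e with h2 | h2
    · exact ⟨_, hB', R.rl.ne hB.ne, by rw [mul_comm, h1]; exact mul_mem (h.ab.le e h2) hA'⟩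
    · have he' : (e : L) ≠ 0 := fun h => he (Subtype.ext h)
      refine ⟨(e : L)⁻¹ * aeval w B, mul_mem (h.ab.le _ h2) hB',
        mul_ne_zero (inv_ne_zero he') (R.rl.ne hB.ne), ?_⟩
      rwa [mul_assoc, mul_comm _ g, h1, inv_mul_cancel_left₀ he']

/-! ### The fibre -/

variable {G : DV L}

theorem fib_F1 (h : IsP t w c P) (hG : (R.co t c).Dat P.O G 0) {f : K} (hf : f ∈ Ot t) :
    (f : L) - algebraMap ℂ L (t.ev f) ∈ G.F 1 := by
  have h1 : (un t : L) ∈ G.F 1 := Or.inr (hG.adp.v 0).ge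
  have h2 := F_mul0 (hG.le _ (h.ab.le _ (sub_ev_div R.ff hf))) h1
  have : (un t : L) ≠ 0 := (R.co t c).ne 0
  simpa [div_mul_cancel₀ _ this] using h2

theorem fib_π (h : IsP t w c P) (hG : (R.co t c).Dat P.O G 0) {f : K} (hf : f ∈ Ot t) :
    G.pl.π f = algebraMap ℂ G.kf (t.ev f) := by
  rw [← G.pl.π_cst]
  exact Pl.π_congr (P := G.pl) (cst_F G _) (R.fib_F1 h hG hf)

theorem fib_tr (h : IsP t w c P) (hG : (R.co t c).Dat P.O G 0) : Transcendental ℂ (G.pl.π w) := by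
  refine transc_of_nonconst ?_
  rintro ⟨r, hr⟩
  rw [← G.pl.π_cst] at hr
  have h1 : w - algebraMap ℂ L r ∈ G.F 1 :=
    Pl.π_eq (P := G.pl) (cst_F G _) (hG.le _ h.w_mem) hr.symm
  have h2 := hG.adp.D_LV (j := 1) (by decide) 1 _ h1
  rw [co_D1] at h2
  simp only [Derivation.smul_apply, map_sub, R.ad.y0, Derivation.map_algebraMap, sub_zero,
    smul_eq_mul, inv_mul_cancel₀ R.rl.y_ne, add_zero] at h2
  exact one_ne_zero (cst_F1 (o := G) (c := 1) (by rwa [map_one]))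

theorem fib_adj (h : IsP t w c P) (hG : (R.co t c).Dat P.O G 0) {z : L} (hz : z ∈ Bt (Ot t) w) :
    G.pl.π z ∈ IntermediateField.adjoin ℂ {G.pl.π w} := by
  have hl : ∀ a ∈ Bt (Ot t) w, a ∈ G.F 0 := fun a ha => hG.le a (h.loc.le ha)
  refine Bt.ind (p := fun z => G.pl.π z ∈ IntermediateField.adjoin ℂ {G.pl.π w})
    (IntermediateField.mem_adjoin_simple_self _ _) (fun f hf => ?_) ?_ ?_ hz
  · rw [R.fib_π h hG hf]
    exact IntermediateField.algebraMap_mem _ _
  · intro a ha b hb ea eb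
    rw [G.pl.add a (hl a ha) b (hl b hb)]
    exact add_mem ea eb
  · intro a ha b hb ea eb
    rw [G.pl.mul a (hl a ha) b (hl b hb)]
    exact mul_mem ea eb

theorem fib_prm (h : IsP t w c P) (hG : (R.co t c).Dat P.O G 0) {A : K[X]} (hA : Prm t A) :
    G.pl.π (aeval w A) ≠ 0 := fun e => by
  have hw : w ∈ G.F 0 := hG.le _ h.w_mem
  have hp : ∀ n : ℕ, w ^ n ∈ G.F 0 ∧ G.pl.π (w ^ n) = G.pl.π w ^ n := fun n => by
    induction n with
    | zero => simpa using ⟨one_F, G.pl.π_one⟩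
    | succ n ih => exact ⟨pow_succ w n ▸ F_mul0 ih.1 hw, by
        rw [pow_succ, G.pl.mul _ ih.1 _ hw, ih.2, pow_succ]⟩
  have hc : ∀ i, (A.coeff i : L) ∈ G.F 0 := fun i => hG.le _ (h.ab.le _ (hA.mem i))
  have h1 : aeval (G.pl.π w) (∑ i ∈ Finset.range (A.natDegree + 1),
      monomial i (t.ev (A.coeff i))) = 0 := by
    rw [← e, aeval_eq_sum_range (p := A), map_sum]
    refine Eq.trans (Finset.sum_congr rfl fun i _ => ?_)
      (Pl.π_sum (P := G.pl) _ fun i _ => F_mul0 (hc i) (hp i).1).symm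
    rw [aeval_monomial, ← R.fib_π h hG (hA.mem i), ← (hp i).2, ← G.pl.mul _ (hc i) _ (hp i).1]
  have h2 := transcendental_iff.1 (R.fib_tr h hG) _ h1
  obtain ⟨i, hi⟩ := hA.one
  have h3 := congrArg (coeff · i) h2
  have h4 : i ∈ Finset.range (A.natDegree + 1) :=
    Finset.mem_range.2 (Nat.lt_succ_of_le (le_natDegree_of_ne_zero (hi ▸ one_ne_zero)))
  simp only [finsetSum_coeff, coeff_monomial, Finset.sum_ite_eq', h4, if_true, hi, t.ev_one,
    coeff_zero] at h3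
  exact one_ne_zero h3

theorem fib_top (h : IsP t w c P) (hG : (R.co t c).Dat P.O G 0) :
    IntermediateField.adjoin ℂ {G.pl.π w} = ⊤ := by
  refine eq_top_iff.2 fun y _ => ?_
  obtain ⟨z, hz, rfl⟩ := G.pl.surj y
  by_cases h0 : z = 0
  · rw [h0, G.pl.π_zero]; exact zero_mem _
  obtain ⟨e, he, A, B, hA, hB, h1⟩ := exists_norm R.rl t h0
  have hA' := Bt.aeval_mem w hA.mem
  have hB' := Bt.aeval_mem w hB.mem
  have fA := hG.le _ (h.loc.le hA')
  have fB := hG.le _ (h.loc.le hB')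
  have he' : (e : L) ≠ 0 := fun h => he (Subtype.ext h)
  have h2 : e ∈ Ot t := by
    by_contra hn
    have h3 := (mem_or_inv t e).resolve_left hn
    have h4 : t.ev e⁻¹ = 0 := by_contra fun h5 => hn (by
      have := val_one_of_ev R.ff h3 h5
      rw [map_inv₀, inv_eq_one] at this
      exact this.le)
    have h5 := R.fib_F1 h hG h3
    rw [h4, map_zero, sub_zero] at h5
    have h6 := F_mul0' h5 (F_mul0 hz fB)
    rw [h1, IntermediateField.coe_inv, inv_mul_cancel_left₀ he'] at h6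
    exact R.fib_prm h hG hA (G.pl.π_F1 h6)
  have h3 := congrArg G.pl.π h1
  rw [G.pl.mul _ hz _ fB, G.pl.mul _ (hG.le _ (h.ab.le e h2)) _ fA] at h3
  rw [eq_div_of_mul_eq (R.fib_prm h hG hB) h3]
  exact div_mem (mul_mem (R.fib_adj h hG (Bt.c_mem w h2)) (R.fib_adj h hG hA'))
    (R.fib_adj h hG hB')

theorem fib_v (h : IsP t w c P) (hG : (R.co t c).Dat P.O G 0) : G.v w = 0 := by
  have h1 : G.pl.π w ≠ 0 := fun e => R.fib_tr h hG (e ▸ isAlgebraic_zero)
  have h2 := (hG.le _ h.w_mem).resolve_left R.rl.y_ne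
  by_contra h3
  exact h1 (G.pl.π_F1 (Or.inr (show 1 ≤ G.v w by omega)))

end Ru

end

end Pool.Agent.MP_ee8c61_ag.M3BK
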