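import Pool.Agent.MP_ee8c61_ag.M3BK.M0C

/-! The ruling attached to a frame, and the exponents of the volume form. -/

namespace Pool.Agent.MP_ee8c61_ag.M3BK

open WithZero Set Polynomial
open scoped IntermediateField
open Pool.Agent.MP_cce4c9_lc
open H87 hiding Dv
open M3 M3H47 M3RESID
open Pool.Agent.MP_96693b_ag.RS

noncomputable section

variable {L : Type} [Field L] [Algebra ℂ L] {K : IntermediateField ℂ L} {w s : L} {X0 X1 : VF L}

theorem isFF_base (C : Co L 2)
    (hf : FiniteDimensional (IntermediateField.adjoin ℂ (range C.z)) L) {y : L}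
    (hy : Transcendental K y) {σ : K} (hσ : Transcendental ℂ σ) : IsFF ℂ K := by
  refine ⟨σ, hσ, ?_⟩
  have h3 : Algebra.trdeg ℂ L ≤ 1 + 1 := by
    have : Algebra.IsAlgebraic (Algebra.adjoin ℂ (range C.z)) L :=
      IntermediateField.isAlgebraic_adjoin_iff_top.1 inferInstance
    refine (Algebra.IsAlgebraic.trdeg_le_cardinalMk ℂ (range C.z)).trans
      (Cardinal.mk_range_le.trans ?_)
    simp [one_add_one_eq_two]
  have h4 : 1 ≤ Algebra.trdeg K L := by
    have : Algebra.Transcendental K L := ⟨⟨y, hy⟩⟩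
    exact Cardinal.one_le_iff_pos.2 (trdeg_pos K L)
  have h5 : Algebra.trdeg ℂ K ≤ Cardinal.mk Unit := by
    rw [← trdeg_add_eq ℂ K] at h3
    simpa using Cardinal.add_one_le_add_one_iff.1 ((add_le_add_right h4 _).trans h3)
  have h1 : AlgebraicIndependent ℂ fun _ : Unit => σ := algebraicIndependent_unique_type_iff.2 hσ
  have h6 := (h1.isTranscendenceBasis_of_trdeg_le_of_finite h5).isAlgebraic_field
  rw [range_const] at h6
  have : Algebra.EssFiniteType ℂ (IntermediateField.adjoin ℂ (range C.z)) :=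
    IntermediateField.essFiniteType_iff.2
      (IntermediateField.fg_adjoin_of_finite (finite_range _))
  have := Algebra.EssFiniteType.comp ℂ (IntermediateField.adjoin ℂ (range C.z)) L
  have := Algebra.EssFiniteType.of_comp ℂ ℂ⟮σ⟯ L
  have := M3C.rowACF ℂ⟮σ⟯ L
  refine FiniteDimensional.of_injective (V₂ := algebraicClosure ℂ⟮σ⟯ L)
    ((IsScalarTower.toAlgHom ℂ⟮σ⟯ K L).toLinearMap.codRestrict
      (algebraicClosure ℂ⟮σ⟯ L).toSubalgebra.toSubmodule fun f => ?_) fun a b e => ?_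
  · exact mem_algebraicClosure_iff.2 (h6.isAlgebraic f).algebraMap
  · exact Subtype.ext (congrArg (fun x : algebraicClosure ℂ⟮σ⟯ L => (x : L)) e)

theorem ada_inv {y : L} (hy : y ≠ 0) (A : Ada K y s X0 X1) : Ada K y⁻¹ s (-X0) X1 where
  k0 c hc := by simp [A.k0 c hc]
  y0 := by
    simp only [Derivation.neg_apply, Derivation.leibniz_inv, A.y0, smul_eq_mul]
    field_simp
  y1 := by simp [Derivation.leibniz_inv, A.y1]
  t1 := A.t1
  t0 := A.t0
  span v h1 h2 := A.span v (by simpa [Derivation.leibniz_inv, hy] using h1) h2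

/-- The volume form in the adapted frame. -/
structure Vol (d : Dv L) (X0 X1 : VF L) (g : ℂ) (q : ℕ) (H : K) : Prop where
  d0 : d.δ X0 = algebraMap ℂ L g
  d1 : d.δ X1 = X1 H / (q * H)
  ne : H ≠ 0

theorem exists_vol (C : Co L 2) {d : Dv L} {y : L} (R : Rl K y) (A : Ada K y s X0 X1) {g : ℂ}
    (hg : d.δ X0 = algebraMap ℂ L g) {q : ℕ} (hq : 0 < q) {ψ : L} (hψ : ψ ≠ 0)
    (h : ∀ X, d.δ X = C.dv.δ X + X ψ / (q * ψ)) : ∃ H : K, Vol d X0 X1 g q H := by
  have : CharZero L := charZero_of_injective_algebraMap (algebraMap ℂ L).injective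
  have hy := R.y_ne
  have hs := A.k0 s A.t0
  let C' : Co L 2 :=
    { z := ![s, y]
      D := ![X1, y⁻¹ • X0]
      ne := fun i => by
        fin_cases i
        · intro e
          simpa using A.t1.symm.trans (congrArg X1 e)
        · exact hy
      dual := fun i j => by fin_cases i <;> fin_cases j <;> simp [A.t1, A.y0, A.y1, hs, hy]
      span := fun v h => A.span v (h 1) (h 0) }
  have hJ := C.jac_ne C'
  have hq' : (q : L) ≠ 0 := by exact_mod_cast hq.ne'
  obtain ⟨Ψ, hΨ, h'⟩ : ∃ Ψ : L, Ψ ≠ 0 ∧ ∀ X, d.δ X = C'.dv.δ X + X Ψ / (q * Ψ) := by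
    refine ⟨ψ * C.jac C' ^ (q : ℤ), mul_ne_zero hψ (zpow_ne_zero _ hJ), fun X => ?_⟩
    rw [h, C.dv_jac C', Dv.tw_δ, Derivation.leibniz, Dv.zpow_der X _ hJ]
    have := zpow_ne_zero (q : ℤ) hJ
    simp only [map_one, smul_eq_mul, Int.cast_natCast]
    field_simp
    ring
  have e0 : C'.dv.δ X0 = 1 := by simp [Co.dv_δ, C', hs, A.y0, hy]
  have e1 : C'.dv.δ X1 = 0 := by simp [Co.dv_δ, C', A.t1, A.y1]
  have e2 : X0 Ψ + algebraMap ℂ L (q * (1 - g)) * Ψ = 0 := by
    have := h' X0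
    rw [hg, e0] at this
    rw [map_mul, map_sub, this, map_natCast, map_one]
    field_simp
    ring
  obtain ⟨n, hn⟩ := eig_int R X0 A.k0 A.y0 hΨ e2
  have hyn := zpow_ne_zero n hy
  have e3 : X0 (Ψ * y ^ n) = 0 := by
    rw [hn, map_intCast] at e2
    rw [Derivation.leibniz, Dv.zpow_der X0 _ hy, A.y0, div_self hy]
    simp only [smul_eq_mul]
    linear_combination y ^ n * e2
  refine ⟨⟨_, ker_le R X0 A.k0 (by rwa [A.y0]) e3⟩, hg, ?_,
    fun e => mul_ne_zero hΨ hyn (congrArg Subtype.val e)⟩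
  rw [h', e1, zero_add]
  simp only [Derivation.leibniz, Dv.zpow_der X1 _ hy, A.y1, smul_eq_mul]
  field_simp
  ring

theorem Vol.neg {d : Dv L} {g : ℂ} {q : ℕ} {H : K} (h : Vol d X0 X1 g q H) :
    Vol d (-X0) X1 (-g) q H := ⟨by rw [map_neg, h.d0, map_neg], h.d1, h.ne⟩

theorem exists_ru {C : Co L 2} {d : Dv L} {v : VF L} {b : ℂ} {X₀ : Set L} (hS : M3F.Srf C d v b)
    (hst : STAR d v b X₀) : ∃ (K : IntermediateField ℂ L) (y s : L) (X0 X1 v' : VF L) (g : ℚ)
      (q : ℕ) (H : K), Ru K y s X0 X1 ∧ Ru K y⁻¹ s (-X0) X1 ∧ Vol d X0 X1 g q H ∧ g ≠ 0 ∧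
      v - v' ∈ d.Ex ∧ (g : L) * v' y = algebraMap ℂ L b * y ∧ (∀ c ∈ K, v' c = 0) ∧
      ∀ c ∈ X₀, c ∈ K := by
  obtain ⟨v', y, g, hg, hy, hex, hv, hgen, hX⟩ := hst
  have : CharZero L := charZero_of_injective_algebraMap (algebraMap ℂ L).injective
  have hb : algebraMap ℂ L b ≠ 0 := by simpa using hS.ne
  have hg' : (g : L) ≠ 0 := by exact_mod_cast hg
  have ty : Transcendental (cst v') y := transc v' fun e => by
    rw [e, mul_zero] at hv
    exact mul_ne_zero hb hy hv.symm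
  have gen : (cst v')⟮y⟯ = ⊤ := eq_top_iff.2 fun z _ => by
    refine (Subfield.closure_le (t := ((cst v')⟮y⟯).toSubfield)).2 ?_ (hgen z)
    rintro x (hx | rfl)
    · exact ((cst v')⟮y⟯).algebraMap_mem ⟨x, hx⟩
    · exact IntermediateField.mem_adjoin_simple_self _ _
  have R := rl_of ty gen
  obtain ⟨s, X0, X1, A⟩ := R.exists_ada C
  have hK : IsFF ℂ (cst v') := isFF_base C hS.fin ty (σ := ⟨s, A.t0⟩) (transc_of_nonconst (by
    rintro ⟨c, hc⟩
    have := A.t1
    rw [show s = algebraMap ℂ L c from (congrArg Subtype.val hc).symm] at this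
    simp at this))
  have e1 : v' = algebraMap ℂ L (b / g) • X0 := by
    ext z
    refine sub_eq_zero.1 (R.der_zero (v' - algebraMap ℂ L (b / g) • X0) (fun c hc => ?_) ?_ z)
    · simp [mem_cst.1 hc, A.k0 c hc]
    · simp only [Derivation.sub_apply, Derivation.smul_apply, A.y0, map_div₀, map_ratCast,
        smul_eq_mul]
      field_simp
      linear_combination hv
  have e2 : d.δ X0 = algebraMap ℂ L g := by
    have := d.δ_Ex hex
    rw [map_sub, hS.prim, e1, Dv.δ_cst, map_div₀, map_ratCast] at this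
    rw [map_ratCast]
    apply mul_left_cancel₀ (div_ne_zero hb hg')
    rw [← sub_eq_zero.1 this, div_mul_cancel₀ _ hg']
  obtain ⟨q, ψ, hq, hψ, h⟩ := hS.rat
  obtain ⟨H, hH⟩ := exists_vol C R A e2 hq hψ h
  exact ⟨cst v', y, s, X0, X1, v', g, q, H, ⟨hK, R, A⟩, ⟨hK, rl_inv ty gen, ada_inv hy A⟩, hH,
    hg, hex, hv, fun c hc => hc, hX⟩

theorem val_unit (t : Place ℂ K) {f : K} (hf : f ≠ 0) : t.val (f / un t ^ t.ord f) = 1 := by
  rw [map_div₀, map_zpow₀, M3C.val_unif, t.val_eq (t.val_ne hf), ← exp_zsmul, ← exp_sub]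
  simp

theorem inv_mem_Ot {t : Place ℂ K} {f : K} (hf : t.val f = 1) : f⁻¹ ∈ Ot t := by
  show t.val _ ≤ 1
  rw [map_inv₀, hf, inv_one]

namespace Ru

variable (R : Ru K w s X0 X1) {t : Place ℂ K} {c : ℂ} {P : Loc L}
include R

theorem dlog (h : IsP t w c P) {f : K} (hf : f ≠ 0) :
    ((R.co t c).th 0 f / f - algebraMap ℂ L (t.ord f)) / un t ∈ P.O := by
  have h1 := val_unit t hf
  have h0 : ((f / un t ^ t.ord f : K) : L) ≠ 0 := fun e => by
    rw [show f / un t ^ t.ord f = 0 from Subtype.ext e] at h1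
    simp at h1
  have hτ : (un t : L) ≠ 0 := (R.co t c).ne 0
  exact Co.th_dlog (R.rg h).st (h.ab.le _ h1.le) (h.ab.le _ (inv_mem_Ot h1)) h0
    (e := ![t.ord f, 0]) (by
      have : ((un t ^ t.ord f : K) : L) = (un t : L) ^ t.ord f := map_zpow₀ K.val _ _
      simp [Co.mon, co_z0, this, zpow_ne_zero _ hτ]) 0

end Ru

/-- The exponent along the fibre over `t`. -/
def ex0 (D : Derivation ℂ K K) (q : ℕ) (H : K) (t : Place ℂ K) : ℂ :=
  1 + t.ord H / q - t.ord (D (un t))

theorem Ru.adp (R : Ru K w s X0 X1) {t : Place ℂ K} {c : ℂ} {P : Loc L} (h : IsP t w c P)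
    {d : Dv L} {g : ℂ} {q : ℕ} {H : K} (V : Vol d X0 X1 g q H) :
    (R.co t c).Ad P.O d ![ex0 R.dK q H t, if c = 0 then g else 1] := fun i => by
  fin_cases i
  · have h1 := R.dlog h V.ne
    have h2 := R.dlog h (R.dK_un t)
    have h3 := R.X1_un t
    have hτ : (un t : L) ≠ 0 := (R.co t c).ne 0
    have hH : (H : L) ≠ 0 := fun e => V.ne (Subtype.ext e)
    refine mem_of_eq (sub_mem (mul_mem (P.O.algebraMap_mem (q : ℂ)⁻¹) h1) h2) ?_
    simp only [Co.th, R.co_z0, R.co_D0, Fin.zero_eta, Matrix.cons_val_zero, d.smul, V.d1, ex0,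
      Derivation.smul_apply, smul_eq_mul, R.dK_coe, Derivation.leibniz_inv, map_sub, map_add,
      map_one, map_div₀, map_inv₀, map_natCast, map_intCast, div_eq_mul_inv, mul_inv, map_mul]
    field_simp
    ring
  · have hw := R.rl.y_ne
    have hz : w - algebraMap ℂ L c ≠ 0 := (R.co t c).ne 1
    simp only [Co.th, R.co_z1, R.co_D1, Fin.mk_one, Matrix.cons_val_one, Matrix.cons_val_zero,
      d.smul, V.d0, Derivation.smul_apply, smul_eq_mul, Derivation.leibniz_inv, map_sub, R.ad.y0,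
      Derivation.map_algebraMap, sub_zero]
    split_ifs with hc
    · subst hc
      refine mem_of_eq (zero_mem _) ?_
      simp only [map_zero, sub_zero]
      field_simp
      ring
    · refine mem_of_eq (mul_mem (P.O.algebraMap_mem (g - 1))
        (P.inv_mem w h.w_mem (h.evw ▸ hc))) ?_
      rw [map_sub, map_one]
      field_simp
      ring

theorem Ru.ex0_fin (R : Ru K w s X0 X1) (q : ℕ) (H : K) : {t | ex0 R.dK q H t ≠ 1}.Finite := by
  obtain ⟨n, h, hh⟩ := Aff_gen R.ff (⟨s, R.ad.t0⟩ : K)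
  have hσ : (⟨s, R.ad.t0⟩ : K) ∉ range (algebraMap ℂ K) := by
    rintro ⟨c, hc⟩
    have := R.dK_s
    rw [← hc] at this
    simp at this
  refine (((H7.fins R.ff H).union (poles_fin R.ff ⟨s, R.ad.t0⟩)).union
    (finite_iUnion fun i => poles_fin R.ff (R.dK (h i)))).subset fun t ht => ?_
  by_contra hn
  simp only [mem_union, mem_iUnion, not_or, not_exists, mem_setOf_eq, not_not,
    Function.mem_support] at hn
  obtain ⟨⟨h1, h2⟩, h3⟩ := hn
  have h4 : ∀ f ∈ Aff (⟨s, R.ad.t0⟩ : K), R.dK f ∈ Ot t := fun f hf => by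
    have hl : Algebra.adjoin ℂ (range h) ≤ Ot t := hh ▸ Aff_le h2
    rw [← hh] at hf
    induction hf using Algebra.adjoin_induction with
    | mem x hx =>
      obtain ⟨i, rfl⟩ := hx
      exact h3 i
    | algebraMap c => simp
    | add x y _ _ ex ey => rw [map_add]; exact add_mem ex ey
    | mul x y hx hy ex ey =>
      rw [Derivation.leibniz]
      exact add_mem (mul_mem (hl hx) ey) (mul_mem (hl hy) ex)
  obtain ⟨r, hr, e1, e2⟩ := Aff_frac R.ff hσ h2 (un_mem t)
  have hr0 : r ≠ 0 := fun e => by simp [e] at e1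
  have h5 : R.dK (un t) ∈ Ot t := by
    have : R.dK (un t) = r⁻¹ * (R.dK (r * un t) - un t * R.dK r) := by
      rw [Derivation.leibniz]
      simp only [smul_eq_mul]
      field_simp
      ring
    rw [this]
    exact mul_mem (inv_mem_Ot e1) (sub_mem (h4 _ e2) (mul_mem (un_mem t) (h4 r hr)))
  have h6 := (M3C.rowDer ℂ K R.ff R.dK R.dK_ne).2 t _ (M3C.val_unif t) _ h2
  rw [R.dK_s, map_one] at h6
  exact ht (by rw [ex0, h1, t.ord_of_val_one (le_antisymm h5 h6)]; simp)

end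

end Pool.Agent.MP_ee8c61_ag.M3BK
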