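import Pool.Agent.MP_ee8c61_ag.M3BK.M0D
import Pool.Agent.MP_ee8c61_ag.M3BK.Tr

/-! The product of a curve with the projective line: separated, proper, Euler characteristic. -/

namespace Pool.Agent.MP_ee8c61_ag.M3BK

open WithZero Set Polynomial
open Pool.Agent.MP_cce4c9_lc
open H87 hiding Dv
open M3 M3H47 M3RESID
open Pool.Agent.MP_96693b_ag.RS

noncomputable section

variable {L : Type} [Field L] [Algebra ℂ L] {K : IntermediateField ℂ L} {y : L}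

/-- The fibre coordinate. -/
def ww (y : L) (o : Option ℂ) : L := o.elim y⁻¹ fun _ => y

/-- The value of the fibre coordinate. -/
def cc (o : Option ℂ) : ℂ := o.elim 0 id

/-- The points over the places in `T`. -/
def Fb (y : L) (T : Set (Place ℂ K)) : Set (Loc L) := {P | ∃ t ∈ T, ∃ o, IsP t (ww y o) (cc o) P}

theorem not_mem_Ot (hK : IsFF ℂ K) {t : Place ℂ K} {f : K} (hn : f ∉ Ot t) :
    f ≠ 0 ∧ f⁻¹ ∈ Ot t ∧ t.ev f⁻¹ = 0 := by
  have h1 := (mem_or_inv t f).resolve_left hn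
  refine ⟨fun e => hn (e ▸ zero_mem _), h1, by_contra fun h3 => hn ?_⟩
  have := val_one_of_ev hK h1 h3
  rw [map_inv₀, inv_eq_one] at this
  exact this.le

theorem ev_eq_of_dm {x x' : Loc L} {V : ValuationSubring L} (h : Dm x V) (h' : Le x' V) {g : L}
    (hg : g ∈ x.O) (hg' : g ∈ x'.O) : x.ev g = x'.ev g := by
  by_contra hn
  have h1 := Loc.sub_ev_mem hg
  have h2 := sub_mem hg' (x'.O.algebraMap_mem (x.ev g))
  have h3 : x'.ev (g - algebraMap ℂ L (x.ev g)) ≠ 0 := by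
    rw [Loc.ev_sub hg' (x'.O.algebraMap_mem _), x'.ev_alg]
    exact sub_ne_zero.2 (Ne.symm hn)
  exact h.2 _ h1.1 h1.2 ⟨Loc.ne_zero_of_ev h3, h' _ h2, h' _ (x'.inv_mem _ h2 h3)⟩

theorem sep_data (hK : IsFF ℂ K) (hy : y ≠ 0) {t t' : Place ℂ K} {o o' : Option ℂ} {x x' : Loc L}
    {V : ValuationSubring L} (p : IsP t (ww y o) (cc o) x) (p' : IsP t' (ww y o') (cc o') x')
    (h : Dm x V) (h' : Le x' V) : t = t' ∧ o = o' := by
  constructor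
  · refine (Place.eq_of_le t' t fun f hf => by_contra fun hn => ?_).symm
    obtain ⟨h0, h1, h2⟩ := not_mem_Ot hK hn
    refine h.2 _ (p.ab.le _ h1) ((p.ev _ h1).trans h2) ⟨fun e => inv_ne_zero h0 (Subtype.ext e),
      h.1 _ (p.ab.le _ h1), ?_⟩
    rw [IntermediateField.coe_inv, inv_inv]
    exact h' _ (p'.ab.le f hf)
  rcases o with _ | c <;> rcases o' with _ | c'
  · rfl
  · exact (h.2 _ p.w_mem p.evw ⟨inv_ne_zero hy, h.1 _ p.w_mem,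
      (inv_inv y).symm ▸ h' _ p'.w_mem⟩).elim
  · by_cases hc : c = 0
    · exact (h.2 _ p.w_mem (p.evw.trans hc) ⟨hy, h.1 _ p.w_mem, h' _ p'.w_mem⟩).elim
    · have h1 : x.ev y ≠ 0 := fun e => hc (p.evw.symm.trans e)
      have h2 := ev_eq_of_dm h h' (x.inv_mem y p.w_mem h1) p'.w_mem
      rw [Loc.ev_inv (f := y) p.w_mem h1] at h2
      exact (inv_ne_zero h1 (h2.trans p'.evw)).elim
  · exact congrArg some (p.evw.symm.trans ((ev_eq_of_dm h h' p.w_mem p'.w_mem).trans p'.evw))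

theorem Aff_V (hK : IsFF ℂ K) {u f : K} (hf : f ∈ Aff u) {V : ValuationSubring L}
    (hc : ∀ c, algebraMap ℂ L c ∈ V) (hu : (u : L) ∈ V) : (f : L) ∈ V :=
  Aff_val hK hf (V.comap (algebraMap K L)) hc hu

theorem inv_nc {u : K} (hu : u ∉ range (algebraMap ℂ K)) : u⁻¹ ∉ range (algebraMap ℂ K) :=
  fun ⟨c, hc⟩ => hu ⟨c⁻¹, by rw [map_inv₀, hc, inv_inv]⟩

theorem clear_V (hK : IsFF ℂ K) {u : K} (hu : u ∉ range (algebraMap ℂ K))
    {V : ValuationSubring L} (hc : ∀ c, algebraMap ℂ L c ∈ V) (huV : (u : L) ∈ V) {f : K}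
    (hf : (f : L) ∈ V) : ∃ r ∈ Aff u, r ≠ 0 ∧ (r : L)⁻¹ ∈ V ∧ r * f ∈ Aff u := by
  by_cases h : V.comap (algebraMap K L) = ⊤
  · have := (H7.ll ℂ K hK).2.2.2
    obtain ⟨t, ht⟩ := ((poles_fin hK u).union (poles_fin hK f)).exists_notMem
    simp only [mem_union, mem_setOf_eq, not_or, not_not] at ht
    obtain ⟨r, hr, e1, e2⟩ := Aff_frac hK hu ht.1 ht.2
    have h1 : r⁻¹ ∈ V.comap (algebraMap K L) := by rw [h]; trivial
    exact ⟨r, hr, fun e => by simp [e] at e1, h1, e2⟩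
  · obtain ⟨t, ht⟩ := H7.dvr ℂ K hK _ hc h
    obtain ⟨r, hr, e1, e2⟩ := Aff_frac hK hu ((ht u).1 huV) ((ht f).1 hf)
    exact ⟨r, hr, fun e => by simp [e] at e1, (ht r⁻¹).2 (inv_mem_Ot e1), e2⟩

theorem prop_aux (hK : IsFF ℂ K) {u : K} (hu : u ∉ range (algebraMap ℂ K))
    {V : ValuationSubring L} (hc : ∀ c, algebraMap ℂ L c ∈ V) (huV : (u : L) ∈ V) {X : Set K}
    (hX : X.Finite) (hXV : ∀ f ∈ X, (f : L) ∈ V) {w : L} (hw : w ∈ V) :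
    ∃ t P, (∀ f ∈ X, f ∈ Ot t) ∧ IsP t w (P.ev w) P ∧ Le P V ∧ (w⁻¹ ∉ V → P.ev w = 0) := by
  obtain ⟨r, hr, h0, h1, h2⟩ : ∃ r ∈ Aff u, r ≠ 0 ∧ (r : L)⁻¹ ∈ V ∧ ∀ f ∈ X, r * f ∈ Aff u := by
    induction X, hX using Set.Finite.induction_on with
    | empty => exact ⟨1, one_mem _, one_ne_zero, by simp, by simp⟩
    | @insert a X _ _ ih =>
      obtain ⟨r, hr, h0, h1, h2⟩ := ih fun f hf => hXV f (mem_insert_of_mem _ hf)
      obtain ⟨r', hr', h0', h1', h2'⟩ := clear_V hK hu hc huV (hXV a (mem_insert _ _))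
      refine ⟨r * r', mul_mem hr hr', mul_ne_zero h0 h0', ?_, ?_⟩
      · rw [MulMemClass.coe_mul, mul_inv]
        exact mul_mem h1 h1'
      · rintro f (rfl | hf)
        · rw [mul_assoc]; exact mul_mem hr h2'
        · rw [mul_right_comm]; exact mul_mem (h2 f hf) hr'
  have hB : ∀ z ∈ Bt (Aff u) w, z ∈ V := fun z hz =>
    Bt.ind (p := (· ∈ V)) hw (fun f hf => Aff_V hK hf hc huV) (fun _ _ _ _ => add_mem)
      (fun _ _ _ _ => mul_mem) hz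
  let I : Ideal (Bt (Aff u) w) := (IsLocalRing.maximalIdeal V).comap
    ((Bt (Aff u) w).val.toRingHom.codRestrict V fun z => hB z z.2)
  have hI : ∀ z, z ∈ I ↔ (z : L) = 0 ∨ (z : L)⁻¹ ∉ V := fun z =>
    (V.coe_mem_nonunits_iff (a := ⟨z, hB z z.2⟩)).symm.trans V.mem_nonunits_iff_or
  have hp : I.IsPrime := Ideal.comap_isPrime _ _
  obtain ⟨P, hP, e1, e2⟩ := exists_locOf_of_notMem (Bt.fg hK u w) (I := I)
    (r := ⟨r, Bt.c_mem w hr⟩) (by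
      rw [hp.radical, hI]
      exact not_or.2 ⟨fun e => h0 (Subtype.ext e), not_not.2 h1⟩)
  obtain ⟨t, -, h⟩ := isP_of_aff hK hu hP
  refine ⟨t, P, fun f hf => (h.ab.mem_iff hK).1 ?_, h, fun f hf => ?_,
    fun hn => e1 ⟨w, Bt.w_mem _ w⟩ ((hI _).2 (Or.inr hn))⟩
  · have := Loc.div_mem (hP.le (Bt.c_mem w (h2 f hf))) (hP.le (Bt.c_mem w hr)) e2
    rwa [MulMemClass.coe_mul, mul_div_cancel_left₀ _ (Loc.ne_zero_of_ev e2)] at this
  · obtain ⟨p, hp, q, hq, e0, e⟩ := hP.frac f hf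
    have h3 : q⁻¹ ∈ V := by_contra fun hn => e0 (e1 ⟨q, hq⟩ ((hI _).2 (Or.inr hn)))
    rw [eq_div_of_mul_eq (Loc.ne_zero_of_ev e0) e, div_eq_mul_inv]
    exact mul_mem (hB p hp) h3

theorem Fb_prop (hK : IsFF ℂ K) {V : ValuationSubring L} (hc : ∀ c, algebraMap ℂ L c ∈ V)
    {X : Set K} (hX : X.Finite) (hXV : ∀ f ∈ X, (f : L) ∈ V) :
    ∃ P ∈ Fb y {t | ∀ f ∈ X, f ∈ Ot t}, Le P V := by
  obtain ⟨u, hu, huV⟩ : ∃ u : K, u ∉ range (algebraMap ℂ K) ∧ (u : L) ∈ V := by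
    obtain ⟨u, hu⟩ := hK.exists_nonconst
    exact (V.mem_or_inv_mem u).elim (fun h => ⟨u, hu, h⟩) fun h => ⟨u⁻¹, inv_nc hu, h⟩
  by_cases hy : y ∈ V
  · obtain ⟨t, P, h1, h2, h3, -⟩ := prop_aux hK hu hc huV hX hXV hy
    exact ⟨P, ⟨t, h1, some _, h2⟩, h3⟩
  · obtain ⟨t, P, h1, h2, h3, h4⟩ := prop_aux hK hu hc huV hX hXV
      ((V.mem_or_inv_mem y).resolve_left hy)
    rw [h4 (by rwa [inv_inv])] at h2
    exact ⟨P, ⟨t, h1, none, h2⟩, h3⟩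

theorem Fb_dom (hK : IsFF ℂ K) (R : Rl K y) (R' : Rl K y⁻¹) {u : K}
    (hu : u ∉ range (algebraMap ℂ K)) {x : Loc L} (hn : ∀ g, (∀ V, Dm x V → g ∈ V) → g ∈ x.O)
    {X : Set K} (hX : ∀ f ∈ X, (f : L) ∈ x.O) (hy : y ∈ x.O ∨ y⁻¹ ∈ x.O) (hux : (u : L) ∈ x.O) :
    ∃ P ∈ Fb y {t | ∀ f ∈ X, f ∈ Ot t}, P.O ≤ x.O := by
  obtain ⟨t, -, ha⟩ := exists_ab hK hu (P := x) fun f hf => hn _ fun V hV =>
    Aff_V hK hf (fun c => hV.1 _ (x.O.algebraMap_mem c)) (hV.1 _ hux)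
  have ht : ∀ f ∈ X, f ∈ Ot t := fun f hf => (ha.mem_iff hK).1 (hX f hf)
  by_cases h : y ∈ x.O
  · obtain ⟨P, hP⟩ := exists_isP hK R t (x.ev y)
    exact ⟨P, ⟨t, ht, some _, hP⟩, (hP.le ha h rfl).1⟩
  · obtain ⟨P, hP⟩ := exists_isP hK R' t 0
    have h1 := hy.resolve_left h
    exact ⟨P, ⟨t, ht, none, hP⟩, (hP.le ha h1 (by_contra fun h2 =>
      h (inv_inv y ▸ x.inv_mem _ h1 h2))).1⟩

/-! ### The Euler characteristic -/

theorem con_fin {κ : Type} [Fintype κ] {S : Set (κ → ℂ)} (hS : S.Finite) : H36.Con S := by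
  classical
  have key : ∀ (v : κ → ℂ) (s : Finset κ), H36.Con {x : κ → ℂ | ∀ i ∈ s, x i = v i} := by
    intro v s
    induction s using Finset.induction_on with
    | empty => simpa using H36.Con.zero (ι := κ) 0
    | insert a s _ ih =>
      have := ((H36.Con.zero (MvPolynomial.X a - MvPolynomial.C (v a))).compl.union ih.compl).compl
      rw [← compl_inter, compl_compl] at this
      simpa [sub_eq_zero, ← setOf_and] using this
  induction S, hS using Set.Finite.induction_on with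
  | empty => simpa using H36.Con.zero (ι := κ) 1
  | @insert a S _ _ ih =>
    have := key a Finset.univ
    simp only [Finset.mem_univ, forall_const, ← funext_iff, setOf_eq_eq_singleton] at this
    exact this.union ih

/-- A constructible set of places in an affine chart. -/
structure Gs (T : Set (Place ℂ K)) (u : K) {n : ℕ} (h : Fin n → K) (S : Set (Fin n → ℂ)) :
    Prop where
  nc : u ∉ range (algebraMap ℂ K)
  gen : Algebra.adjoin ℂ (range h) = Aff u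
  con : H36.Con S
  mem : ∀ t, t ∈ T ↔ u ∈ Ot t ∧ (fun i => t.ev (h i)) ∈ S

theorem hv_inj (hK : IsFF ℂ K) {u : K} (hu : u ∉ range (algebraMap ℂ K)) {n : ℕ} {h : Fin n → K}
    (hh : Algebra.adjoin ℂ (range h) = Aff u) :
    InjOn (fun (t : Place ℂ K) i => t.ev (h i)) {t | u ∈ Ot t} := fun t ht t' ht' e => by
  have hm : ∀ x ∈ range h, x ∈ Aff u := fun x hx => hh ▸ Algebra.subset_adjoin hx
  refine Aff_uniq hK hu ht ht' (hh ▸ ev_adj hK (fun x hx => hm x hx t ht)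
    (fun x hx => hm x hx t' ht') ?_)
  rintro _ ⟨i, rfl⟩
  exact congrFun e i

theorem exists_gs (hK : IsFF ℂ K) {u : K} (hu : u ∉ range (algebraMap ℂ K))
    {T : Set (Place ℂ K)} (hT : ∀ t ∈ T, u ∈ Ot t)
    (hf : T.Finite ∨ ({t | u ∈ Ot t} \ T).Finite) :
    ∃ (n : ℕ) (h : Fin n → K) (S : Set (Fin n → ℂ)), Gs T u h S := by
  obtain ⟨n, h, hh⟩ := Aff_gen hK u
  have hi := hv_inj hK hu hh
  rcases hf with hf | hf
  · exact ⟨n, h, _, hu, hh, con_fin (hf.image fun t i => t.ev (h i)), fun t =>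
      ⟨fun ht => ⟨hT t ht, t, ht, rfl⟩, fun ⟨h1, t', h2, e⟩ => hi (hT t' h2) h1 e ▸ h2⟩⟩
  · exact ⟨n, h, _, hu, hh, (con_fin (hf.image fun t i => t.ev (h i))).compl, fun t =>
      ⟨fun ht => ⟨hT t ht, fun ⟨t', h2, e⟩ => h2.2 (hi h2.1 (hT t ht) e ▸ ht)⟩,
        fun ⟨h1, h2⟩ => by_contra fun h3 => h2 ⟨t, ⟨h1, h3⟩, rfl⟩⟩⟩

/-- The points with finite coordinate. -/
def Wa (T : Set (Place ℂ K)) (w : L) : Set (Loc L) := {P | ∃ t ∈ T, IsP t w (P.ev w) P}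

/-- The points of the zero section. -/
def W0 (T : Set (Place ℂ K)) (w : L) : Set (Loc L) := {P | ∃ t ∈ T, IsP t w 0 P}

theorem W0_sub (T : Set (Place ℂ K)) (w : L) : W0 T w ⊆ Wa T w :=
  fun _ ⟨t, ht, h⟩ => ⟨t, ht, h.evw ▸ h⟩

namespace Gs

variable {T : Set (Place ℂ K)} {u : K} {n : ℕ} {h : Fin n → K} {S : Set (Fin n → ℂ)}
  (G : Gs T u h S) (hK : IsFF ℂ K) {χ : H36.Chi} {w : L}
include G hK

theorem vl_eq {t : Place ℂ K} (ht : u ∈ Ot t) {P : Loc L} (ha : Ab t P) :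
    vl (fun i => (h i : L)) P = fun i => t.ev (h i) :=
  funext fun i => ha.ev _ (Aff_le ht (G.gen ▸ Algebra.subset_adjoin ⟨i, rfl⟩))

theorem Wa_eq (w : L) : Wa T w = Af (fun o : Option (Fin n) => o.elim w fun i => (h i : L)) ∩
    vl (fun i => (h i : L)) ⁻¹' S := by
  ext P
  rw [mem_inter_iff, Af, mem_setOf_eq, Bt.eq_adjoin G.gen, mem_preimage]
  constructor
  · rintro ⟨t, ht, p⟩
    obtain ⟨h1, h2⟩ := (G.mem t).1 ht
    exact ⟨p.aff hK G.nc h1, G.vl_eq hK h1 p.ab ▸ h2⟩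
  · rintro ⟨h1, h2⟩
    obtain ⟨t, ht, p⟩ := isP_of_aff hK G.nc h1
    exact ⟨t, (G.mem t).2 ⟨ht, G.vl_eq hK ht p.ab ▸ h2⟩, p⟩

theorem reg (w : L) : RegOn (fun i => (h i : L)) (Wa T w) := fun _ ⟨t, ht, p⟩ i =>
  p.ab.le _ (Aff_le ((G.mem t).1 ht).1 (G.gen ▸ Algebra.subset_adjoin ⟨i, rfl⟩))

theorem con_a (hC : ConOK L) (w : L) : ConP (Wa T w) := by
  rw [G.Wa_eq hK]
  refine hC.pre _ _ _ _ ?_ (fun P hP i => Af_reg _ P hP (some i)) G.con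
  simpa using ConP.pc _ (fun o : Option (Fin n) => o.elim w fun i => (h i : L)) _ (H36.Con.zero 0)

theorem con_0 (hC : ConOK L) (w : L) : ConP (W0 T w) := by
  have := hC.pre _ Unit (fun _ => w) _ (G.con_a hK hC w) (fun _ ⟨_, _, p⟩ _ => p.w_mem)
    (H36.Con.zero (MvPolynomial.X ()))
  refine (Set.ext fun P => ?_ : _ = W0 T w) ▸ this
  simp only [mem_inter_iff, mem_preimage, mem_setOf_eq, MvPolynomial.eval_X, vl]
  exact ⟨fun ⟨⟨t, ht, p⟩, e⟩ => ⟨t, ht, e ▸ p⟩, fun ⟨t, ht, p⟩ => ⟨⟨t, ht, p.evw ▸ p⟩, p.evw⟩⟩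

theorem img_0 (R : Rl K w) :
    vl (fun i => (h i : L)) '' W0 T w = (fun t i => t.ev (h i)) '' T := by
  ext z
  constructor
  · rintro ⟨P, ⟨t, ht, p⟩, rfl⟩
    exact ⟨t, ht, (G.vl_eq hK ((G.mem t).1 ht).1 p.ab).symm⟩
  · rintro ⟨t, ht, rfl⟩
    obtain ⟨P, p⟩ := exists_isP hK R t 0
    exact ⟨P, ⟨t, ht, p⟩, G.vl_eq hK ((G.mem t).1 ht).1 p.ab⟩

theorem chi_0 (hC : ConOK L) (hX : ChiOK χ L) (R : Rl K w) :
    chiP χ (W0 T w) = χ _ ((fun t i => t.ev (h i)) '' T) := by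
  rw [← G.img_0 hK R]
  refine hX.crd _ _ _ (G.con_0 hK hC w) (fun P hP => G.reg hK w P (W0_sub T w hP)) ?_
  rintro P ⟨t, ht, p⟩ P' ⟨t', ht', p'⟩ e
  have h1 := ((G.mem t).1 ht).1
  have h2 := ((G.mem t').1 ht').1
  rw [G.vl_eq hK h1 p.ab, G.vl_eq hK h2 p'.ab] at e
  obtain rfl := hv_inj hK G.nc G.gen h1 h2 e
  exact p.uniq p'

theorem chi_a (hE : H36.IsEuler χ) (hC : ConOK L) (hX : ChiOK χ L) (R : Rl K w) :
    chiP χ (Wa T w) = χ _ ((fun t i => t.ev (h i)) '' T) := by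
  have hs : Wa T w ⊆ Af fun o : Option (Fin n) => o.elim w fun i => (h i : L) :=
    G.Wa_eq hK w ▸ inter_subset_left
  have hc := hC.img _ _ _ (G.con_0 hK hC w) fun P hP => G.reg hK w P (W0_sub T w hP)
  rw [G.img_0 hK R] at hc
  rw [hX.crd _ _ _ (G.con_a hK hC w) (fun P hP => Af_reg _ P (hs hP)) ((Af_inj _).mono hs),
    ← hE.line _ _ hc]
  congr 1
  ext z
  constructor
  · rintro ⟨P, ⟨t, ht, p⟩, rfl⟩
    exact ⟨t, ht, (G.vl_eq hK ((G.mem t).1 ht).1 p.ab).symm⟩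
  · rintro ⟨t, ht, e⟩
    obtain ⟨P, p⟩ := exists_isP hK R t (z none)
    refine ⟨P, ⟨t, ht, p.evw ▸ p⟩, funext fun o => ?_⟩
    rcases o with _ | i
    · exact p.evw
    · exact (congrFun (G.vl_eq hK ((G.mem t).1 ht).1 p.ab) i).trans (congrFun e i)

theorem int {F : Type} [AddCommGroup F] (hE : H36.IsEuler χ) (hC : ConOK L) (hX : ChiOK χ L)
    (hA : IntA χ L) (hB : IntB χ L F) (R : Rl K y) (R' : Rl K y⁻¹) {φ : Loc L → F} {A α : F}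
    (h0 : ∀ t ∈ T, ∀ P, IsP t y 0 P → φ P = α)
    (h1 : ∀ t ∈ T, ∀ P c, c ≠ 0 → IsP t y c P → φ P = A)
    (h2 : ∀ t ∈ T, ∀ P, IsP t y⁻¹ 0 P → φ P = -α) : Cf (Fb y T) φ ∧ Itg χ (Fb y T) φ = 0 := by
  have e : Fb y T = (W0 T y ∪ (Wa T y \ W0 T y)) ∪ W0 T y⁻¹ := by
    rw [union_diff_cancel (W0_sub T y)]
    ext P
    constructor
    · rintro ⟨t, ht, _ | c, p⟩
      · exact Or.inr ⟨t, ht, p⟩
      · exact Or.inl ⟨t, ht, p.evw.symm ▸ p⟩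
    · rintro (⟨t, ht, p⟩ | ⟨t, ht, p⟩)
      · exact ⟨t, ht, some _, p⟩
      · exact ⟨t, ht, none, p⟩
  have c0 := G.con_0 hK hC y
  have c1 := hC.diff _ _ (G.con_a hK hC y) c0
  have c2 := G.con_0 hK hC y⁻¹
  have v0 : ∀ P ∈ W0 T y, φ P = α := fun P ⟨t, ht, p⟩ => h0 t ht P p
  have v1 : ∀ P ∈ Wa T y \ W0 T y, φ P = A := fun P ⟨⟨t, ht, p⟩, hn⟩ =>
    h1 t ht P _ (fun e => hn ⟨t, ht, e ▸ p⟩) p
  have v2 : ∀ P ∈ W0 T y⁻¹, φ P = -α := fun P ⟨t, ht, p⟩ => h2 t ht P p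
  have f0 := hA.cst F _ φ _ c0 v0
  have f1 := hA.cst F _ φ _ c1 v1
  have f2 := hA.cst F _ φ _ c2 v2
  have f3 := hA.union F _ _ φ f0 f1
  have d : Disjoint (W0 T y ∪ (Wa T y \ W0 T y)) (W0 T y⁻¹) := by
    rw [union_diff_cancel (W0_sub T y), disjoint_left]
    rintro P ⟨t, -, p⟩ ⟨t', -, p'⟩
    have := P.ev_mul _ p.w_mem _ p'.w_mem
    rw [mul_inv_cancel₀ R.y_ne, p'.evw, mul_zero, Loc.ev_one] at this
    exact one_ne_zero this
  have x1 : chiP χ (Wa T y \ W0 T y) = 0 := by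
    have := hX.add _ _ c0 c1 disjoint_sdiff_right
    rw [union_diff_cancel (W0_sub T y), G.chi_a hK hE hC hX R, G.chi_0 hK hC hX R] at this
    omega
  rw [e]
  refine ⟨hA.union F _ _ φ f3 f2, ?_⟩
  rw [hB.union _ _ φ f3 f2 d, hB.union _ _ φ f0 f1 disjoint_sdiff_right, hB.cst _ φ _ c0 v0,
    hB.cst _ φ _ c1 v1, hB.cst _ φ _ c2 v2, x1, G.chi_0 hK hC hX R, G.chi_0 hK hC hX R']
  simp

end Gs

end

end Pool.Agent.MP_ee8c61_ag.M3BK
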