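import Pool.Agent.MP_ee8c61_ag.M3BK.Kt

/-! The two comparisons of integrals. -/

namespace Pool.Agent.MP_ee8c61_ag.M3BK

open M3 M3RESID Set
open Pool.Agent.MP_96693b_ag.RS (Loc LocOf)

variable {L : Type} [Field L] [Algebra ℂ L] {χ : H36.Chi} {d : Dv L} {v : VF L} {b : ℂ}
  {X₀ : Set L}

theorem M0.a1 (T : M0 χ d v b X₀) {x : Loc L} (hx : x ∈ T.S.X) : T.a x 1 ≠ 0 := by
  have hg : (T.g : ℂ) ≠ 0 := by exact_mod_cast T.g0
  rcases T.kind x hx with ⟨-, h, -⟩ | ⟨-, h, -⟩ | ⟨c, -, -, h, -⟩ <;> rw [h]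
  · exact hg
  · exact neg_ne_zero.2 hg
  · exact one_ne_zero

theorem M0.ord (T : M0 χ d v b X₀) {x : Loc L} (hx : x ∈ T.S.X) {G : DV L} (hG : Dm x G.O)
    (hy : G.v T.y = 0) (hh : G.v T.h = 0) : T.a x = 1 := by
  have h0 := v_mn hG.1 (T.gp 0 x hx).mn
  have h1 := v_mn hG.1 (T.gp 1 x hx).mn
  have p0 := v_pos (T.S.rg x hx) hG 0
  have p1 := v_pos (T.S.rg x hx) hG 1
  rw [v_mon2] at h0 h1
  rw [pow_one, G.mul _ _ T.y0 T.h0] at h1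
  simp only [pow_zero, mul_one, hy, hh, Nat.cast_zero, zero_mul, Matrix.cons_val_zero,
    Matrix.cons_val_one, zero_add, Nat.cast_one, one_mul, add_zero] at h0 h1
  have he : T.e x = 0 := (mul_eq_zero.1 h0.symm).resolve_right p1.ne'
  rw [he, zero_mul, add_zero] at h1
  have ho : T.o x = 0 := (mul_eq_zero.1 h1.symm).resolve_right p0.ne'
  funext i
  fin_cases i
  · exact T.sp x hx ho
  · rcases T.kind x hx with ⟨-, -, h⟩ | ⟨-, -, h⟩ | ⟨c, -, -, h, -⟩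
    · omega
    · omega
    · exact h

theorem M0.zero (T : M0 χ d v b X₀) (hC : SCRV) (hP : SPOS) {x : Loc L} (hx : x ∈ T.S.X)
    {G : DV L} (hG : Le x G.O) (hD : Dvs G) (hE : Exp d G 0) : G.v T.y ≠ 0 ∨ G.v T.h ≠ 0 := by
  by_contra! hn
  have hA := (T.gp 1 x hx).ad
  by_cases hm : Dm x G.O
  · exact (hP L d _ x G 0 (T.S.rg x hx) (T.ord hx hm hn.1 hn.2 ▸ hA) hm hD hE).1 rfl
  have hN := nrm_of_dvs hD
  obtain ⟨-, -, ⟨i, h⟩ | ⟨-, h'⟩⟩ := hC L _ x G (T.S.rg x hx) ⟨hN, hG, hm⟩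
  · have h1 := exp_uniq hN (h.exp hA) hE
    have h2 := v_dat h (T.gp 1 x hx).mn
    rw [pow_one, G.mul _ _ T.y0 T.h0, hn.1, hn.2] at h2
    fin_cases i
    · have := T.sp x hx (by simpa using h2.symm)
      exact one_ne_zero (this.symm.trans h1)
    · exact T.a1 hx h1
  · exact one_ne_zero (exp_uniq hN (h' d _ hA) hE)

theorem M0.gd (T : M0 χ d v b X₀) (hv : d.δ v = algebraMap ℂ L b) (k : ℕ) :
    Gd d v (T.y * T.h ^ k) := by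
  have hg : (T.g : L) ≠ 0 := by
    rw [← map_ratCast (algebraMap ℂ L)]
    exact (map_ne_zero _).2 (by exact_mod_cast T.g0)
  refine Gd.mul (Gd.congr (v := T.v') ⟨T.y0, algebraMap ℂ L (T.g : ℂ)⁻¹ • v, ?_⟩ T.ex)
    (Gd.pow (Gd.congr (v := T.v') ⟨T.h0, 0, by simp [T.vh]⟩ T.ex) k)
  have h1 := T.vy
  have h2 := T.y0
  rw [d.δ_cst, hv, map_inv₀, map_ratCast]
  field_simp
  linear_combination h1

namespace LSf

variable {Λ : Type} (S : LSf L X₀ Λ)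

theorem em_zero {m : Λ → ℤ} (hm : ∀ j, 0 < m j) {x : Loc L} (hx : x ∈ S.X) {G : DV L}
    (hG : Dm x G.O) (h : G.v ((S.C x).mon (S.em m x)) = 0) (a : Λ → ℂ) : S.ea a x = 1 := by
  have p0 := v_pos (S.rg x hx) hG 0
  have p1 := v_pos (S.rg x hx) hG 1
  have q : ∀ i, 0 ≤ S.em m x i ∧ (S.em m x i = 0 → S.ea a x i = 1) := fun i => by
    rcases hl : S.lab x i with _ | j
    · simp [em, ea, hl]
    · simpa [em, ea, hl] using ⟨(hm j).le, fun h => absurd h (hm j).ne'⟩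
  rw [v_mon2] at h
  have q0 := mul_nonneg (q 0).1 p0.le
  have q1 := mul_nonneg (q 1).1 p1.le
  funext i
  fin_cases i
  · exact (q 0).2 ((mul_eq_zero.1 (by omega)).resolve_right p0.ne')
  · exact (q 1).2 ((mul_eq_zero.1 (by omega)).resolve_right p1.ne')

theorem mn_self (m : Λ → ℤ) (x : Loc L) : S.Mn ((S.C x).mon (S.em m x)) m x := by
  rw [Mn, div_self ((S.C x).mon_ne _), ev_one']
  exact one_ne_zero

theorem zero_em (hC : SCRV) (hP : SPOS) {a : Λ → ℂ} (hA : S.Ad d a) {m : Λ → ℤ}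
    (hm : ∀ j, 0 < m j) {x : Loc L} (hx : x ∈ S.X) {G : DV L} (hG : Le x G.O) (hD : Dvs G)
    (hE : Exp d G 0) : G.v ((S.C x).mon (S.em m x)) ≠ 0 := fun h => by
  by_cases hd : Dm x G.O
  · exact (hP L d _ x G 0 (S.rg x hx) (S.em_zero hm hx hd h a ▸ hA x hx) hd hD hE).1 rfl
  have hN := nrm_of_dvs hD
  obtain ⟨i, j, hl, h1⟩ | ⟨h1, -⟩ := S.thr_cases hC hA hx ⟨hN, hG, hd⟩
  · rw [h1.adp.v_mon] at h
    exact (hm j).ne' (by simpa [em, hl] using h)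
  · exact one_ne_zero (exp_uniq hN h1 hE)

end LSf

/-- The data on the upper surface. -/
structure Key (χ : H36.Chi) (d : Dv L) (v : VF L) {Λ Λ' : Type} (S : LSf L X₀ Λ) (a : Λ → ℂ)
    (m : Λ → ℤ) (S' : LSf L X₀ Λ') (a' : Λ' → ℂ) (m' p : Λ' → ℤ) (ψ : L) {F : Type} [Field F]
    [Algebra ℂ F] (ε : F) : Prop where
  gd : Gd d v ψ
  ad : S'.Ad d a'
  dom : ∀ x' ∈ S'.X, ∃ x ∈ S.X, x.O ≤ x'.O ∧ S'.Mn ((S.C x).mon (S.em m x)) m' x'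
  mn : ∀ x' ∈ S'.X, S'.Mn ψ p x'
  ne : ∀ x' ∈ S'.X, ∀ i, S'.ea a' x' i = 0 → S'.em m' x' i ≠ 0 ∧ S'.em p x' i ≠ 0
  i1 : Itg χ S'.X (fun x => wt ε (S'.ea a' x) (S'.em m' x)) =
    Itg χ S.X fun x => wt ε (S.ea a x) (S.em m x)
  i2 : Itg χ S'.X (fun x => wt ε (S'.ea a' x) (S'.em p x)) = 0

theorem key (hA : SINTA) (hC : SCRV) (hP : SPOS) (hM : SCMP) (hF : SFL) (hχ : IsEu χ)
    (T : M0 χ d v b X₀) (hv : d.δ v = algebraMap ℂ L b) {Λ : Type} [Fintype Λ] (S : LSf L X₀ Λ)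
    {a : Λ → ℂ} {m : Λ → ℤ} (ha : S.Ad d a) (hm : ∀ j, 0 < m j) (hU : S.Up d m) {F : Type}
    [Field F] [Algebra ℂ F] (ε : F) (hε : ∀ a m, a ≠ 0 ∨ m ≠ 0 → al ε a m ≠ 0) :
    ∃ (Λ' : Type) (_ : Fintype Λ') (S' : LSf L X₀ Λ') (a' : Λ' → ℂ) (m' p : Λ' → ℤ) (ψ : L),
      Key χ d v S a m S' a' m' p ψ ε := by
  classical
  obtain ⟨Λ', _, S', a', m', h1, h2, h3⟩ := hU {T.y, T.h, T.u}
    (by simp [T.y0.symm, T.h0.symm, T.u0.symm])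
  obtain ⟨⟨py, hy⟩, hy'⟩ := h3 T.y (by simp)
  obtain ⟨⟨ph, hh⟩, -⟩ := h3 T.h (by simp)
  obtain ⟨-, hu'⟩ := h3 T.u (by simp)
  have hd : ∀ x' ∈ S'.X, ∃ x ∈ T.S.X, x.O ≤ x'.O := fun x' hx' =>
    T.dom _ x' (S'.rg x' hx') (S'.base x' hx') (hy' x' hx') (hu' x' hx')
  obtain ⟨k, hk0, hk⟩ : ∃ k : ℕ, 0 < k ∧ ∀ j, py j ≠ 0 ∨ ph j ≠ 0 → py j + k * ph j ≠ 0 := by
    refine ⟨∑ j, (py j).natAbs + 1, Nat.succ_pos _, fun j hj h0 => ?_⟩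
    have h4 : (py j).natAbs ≤ ∑ j, (py j).natAbs :=
      Finset.single_le_sum (f := fun j => (py j).natAbs) (fun _ _ => Nat.zero_le _)
        (Finset.mem_univ j)
    have h5 : py j = 0 := Int.eq_zero_of_dvd_of_natAbs_lt_natAbs
      (d := ((∑ j, (py j).natAbs + 1 : ℕ) : ℤ)) ⟨-ph j, by linear_combination h0⟩
      (by rw [Int.natAbs_natCast]; omega)
    rw [h5, zero_add, mul_eq_zero] at h0
    rcases h0 with h0 | h0
    · omega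
    · exact hj.elim (fun h => h h5) fun h => h h0
  have hmn : ∀ x' ∈ S'.X, S'.Mn (T.y * T.h ^ k) (py + k • ph) x' := fun x' hx' => by
    have e : S'.em (py + k • ph) x' = S'.em py x' + k • S'.em ph x' := funext fun i => by
      rcases hl : S'.lab x' i with _ | j <;> simp [LSf.em, hl]
    rw [LSf.Mn, e]
    exact mn_mul (hy x' hx') (mn_pow (hh x' hx') k)
  have hne : ∀ x' ∈ S'.X, ∀ i, S'.ea a' x' i = 0 →
      S'.em m' x' i ≠ 0 ∧ S'.em (py + k • ph) x' i ≠ 0 := fun x' hx' i hi => by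
    obtain ⟨G, U, hG⟩ := (hF L _ x' i (S'.rg x' hx')).1
    have hE : Exp d G 0 := hi ▸ hG.dat.exp (h1 x' hx')
    have hD : Dvs G := ⟨_, _, hG.dat.adp⟩
    obtain ⟨x, hx, hxx, hx2⟩ := h2 x' hx'
    obtain ⟨x₀, hx₀, hxx₀⟩ := hd x' hx'
    refine ⟨v_dat hG.dat hx2 ▸ S.zero_em hC hP ha hm hx ((le_of_dat hG.dat).of_le hxx) hD hE, ?_⟩
    have h4 := T.zero hC hP hx₀ ((le_of_dat hG.dat).of_le hxx₀) hD hE
    rw [v_dat hG.dat (hy x' hx'), v_dat hG.dat (hh x' hx')] at h4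
    rcases hl : S'.lab x' i with _ | j
    · simp [LSf.em, hl] at h4
    · simpa [LSf.em, hl] using hk j (by simpa [LSf.em, hl] using h4)
  have hal : ∀ x' ∈ S'.X, ∀ i, al ε (S'.ea a' x' i) (S'.em m' x' i) ≠ 0 ∧
      al ε (S'.ea a' x' i) (S'.em (py + k • ph) x' i) ≠ 0 := fun x' hx' i => by
    by_cases hi : S'.ea a' x' i = 0
    · exact ⟨hε _ _ (Or.inr (hne x' hx' i hi).1), hε _ _ (Or.inr (hne x' hx' i hi).2)⟩
    · exact ⟨hε _ _ (Or.inl hi), hε _ _ (Or.inl hi)⟩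
  have hI := hA χ L hχ
  refine ⟨Λ', inferInstance, S', a', m', py + k • ph, T.y * T.h ^ k, T.gd hv k, h1, h2, hmn, hne,
    ?_, ?_⟩
  · refine hM χ L F ε d X₀ S.toSf S'.toSf (fun x => (S.C x).mon (S.em m x)) _ _ _ _ hχ
      (fun x hx => ⟨⟨S.rg x hx, ha x hx, S.mn_self m x⟩, fun i => hε _ _ ?_⟩)
      (fun x' hx' => ⟨fun i => (hal x' hx' i).1, ?_⟩) (S'.fin.subset ?_)
      (S.cf_wt hI ε a m) (S'.cf_wt hI ε a' m')
    · rcases hl : S.lab x i with _ | j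
      · exact Or.inl (by simp [LSf.ea, hl])
      · exact Or.inr (by simpa [LSf.em, hl] using (hm j).ne')
    · obtain ⟨x, hx, hxx, hx2⟩ := h2 x' hx'
      exact ⟨x, hx, hxx, S'.rg x' hx', h1 x' hx', hx2⟩
    · rintro G ⟨⟨x, hx, hG⟩, x', hx', hT⟩
      obtain ⟨i, j, hl, h4⟩ | ⟨h4, h5⟩ := S'.thr_cases hC h1 hx' hT
      · exact ⟨x', hx', i, j, hl, h4⟩
      obtain ⟨x₁, hx₁, hxx, hx2⟩ := h2 x' hx'
      obtain rfl := S.sep _ x hx x₁ hx₁ hG (hT.2.1.of_le hxx)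
      exact absurd rfl (hP L d _ x G 1 (S.rg x hx) (S.em_zero hm hx hG (h5 _ _ hx2) a ▸ ha x hx)
        hG (hC L _ x' G (S'.rg x' hx') hT).1 h4).2
  · rw [← (T.int F ε k).2]
    refine hM χ L F ε d X₀ T.S S'.toSf (fun _ => T.y * T.h ^ k) _ _ _ _ hχ
      (fun x hx => ⟨T.gp k x hx, fun i => hε _ _ ?_⟩)
      (fun x' hx' => ⟨fun i => (hal x' hx' i).2, ?_⟩) (S'.fin.subset ?_)
      (T.int F ε k).1 (S'.cf_wt hI ε a' _)
    · fin_cases i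
      · by_cases h0 : T.o x = 0
        · exact Or.inl (by simp [T.sp x hx h0])
        · exact Or.inr (by simp [h0, hk0.ne'])
      · exact Or.inl (T.a1 hx)
    · obtain ⟨x, hx, hxx⟩ := hd x' hx'
      exact ⟨x, hx, hxx, S'.rg x' hx', h1 x' hx', hmn x' hx'⟩
    · rintro G ⟨⟨x, hx, hG⟩, x', hx', hT⟩
      obtain ⟨i, j, hl, h4⟩ | ⟨h4, h5⟩ := S'.thr_cases hC h1 hx' hT
      · exact ⟨x', hx', i, j, hl, h4⟩
      exact absurd rfl (hP L d _ x G 1 (T.S.rg x hx)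
        (T.ord hx hG (h5 _ _ (hy x' hx')) (h5 _ _ (hh x' hx')) ▸ (T.gp 0 x hx).ad)
        hG (hC L _ x' G (S'.rg x' hx') hT).1 h4).2

end Pool.Agent.MP_ee8c61_ag.M3BK
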