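import Pool.Agent.MP_ee8c61_ag.M3BK.RBklA

/-! The curves of exponent zero on a labelled surface. -/

namespace Pool.Agent.MP_ee8c61_ag.M3BK

open M3 M3RESID Set Function
open Pool.Agent.MP_96693b_ag.RS (Loc LocOf)

variable {L : Type} [Field L] [Algebra ℂ L] {χ : H36.Chi} {d : Dv L} {v : VF L} {b : ℂ}
  {X₀ : Set L} {Λ : Type}

theorem w1_eq {a : Fin 2 → ℂ} {i : Fin 2} (h : a i = 0) (h' : a i.rev ≠ 0) :
    w1 a = (a i.rev)⁻¹ := by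
  rw [w1, Fin.prod_univ_two]
  fin_cases i
  · simp only [Fin.zero_eta, Fin.rev_zero] at h h'
    rw [if_pos h, one_mul]
    exact if_neg h'
  · simp only [Fin.mk_one] at h
    rw [if_pos h, mul_one]
    exact if_neg h'

theorem w1_ne (a : Fin 2 → ℂ) : w1 a ≠ 0 := by
  refine Finset.prod_ne_zero_iff.2 fun i _ => ?_
  split_ifs with h
  · exact one_ne_zero
  · exact inv_ne_zero h

theorem idx_eq {a : Fin 2 → ℂ} (h : a 0 ≠ 0 ∨ a 1 ≠ 0) {i i' : Fin 2} (h1 : a i = 0)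
    (h2 : a i' = 0) : i = i' := by
  fin_cases i <;> fin_cases i' <;> simp_all

theorem rev_ne {a : Fin 2 → ℂ} (h : a 0 ≠ 0 ∨ a 1 ≠ 0) {i : Fin 2} (h1 : a i = 0) :
    a i.rev ≠ 0 := fun h2 => absurd (idx_eq h h1 h2) (by fin_cases i <;> decide)

namespace LSf

variable (S : LSf L X₀ Λ)

/-- The curves of exponent zero. -/
def ZC (a : Λ → ℂ) : Set (DV L) := {G | ∃ x ∈ S.X, ∃ i, S.ea a x i = 0 ∧ (S.C x).Dat x.O G i}

/-- The points of a curve. -/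
def On (G : DV L) : Set (Loc L) := {x ∈ S.X | Le x G.O}

theorem lab_of {a : Λ → ℂ} {x : Loc L} {i : Fin 2} (h : S.ea a x i = 0) :
    ∃ j, S.lab x i = some j ∧ a j = 0 := by
  rcases hl : S.lab x i with _ | j
  · simp [ea, hl] at h
  · exact ⟨j, rfl, by simpa [ea, hl] using h⟩

theorem ZC_fin (a : Λ → ℂ) : (S.ZC a).Finite := S.fin.subset <| by
  rintro G ⟨x, hx, i, hi, h⟩
  obtain ⟨j, hj, -⟩ := S.lab_of hi
  exact ⟨x, hx, i, j, hj, h⟩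

/-- The facts on a curve of exponent zero. -/
structure ZF (S : LSf L X₀ Λ) (d : Dv L) (G : DV L) : Prop where
  dvs : Dvs G
  exp : Exp d G 0
  thr : ∃ x ∈ S.X, Thr x G
  base : ∀ c ∈ X₀, c ∈ G.F 0

theorem zf (hF : SFL) {a : Λ → ℂ} (ha : S.Ad d a) {G : DV L} (hG : G ∈ S.ZC a) : S.ZF d G := by
  obtain ⟨x, hx, i, hi, h⟩ := hG
  exact ⟨⟨_, _, h.adp⟩, hi ▸ h.exp (ha x hx),
    ⟨x, hx, ((hF L _ x i (S.rg x hx)).2.2.1 G h).1⟩, fun c hc => h.le c (S.base x hx c hc)⟩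

/-- All curves of exponent zero have a type. -/
def AT (_ : LSf L X₀ Λ) (d : Dv L) (v : VF L) (b : ℂ) : Prop :=
  ∀ G : DV L, Dvs G → (∀ c ∈ X₀, c ∈ G.F 0) → Exp d G 0 → TY d v b X₀ G

theorem pl (hF : SFL) (hP : SPL) {a : Λ → ℂ} (ha : S.Ad d a) (hT : S.AT d v b) {G : DV L}
    (hG : G ∈ S.ZC a) : ∃ (p : Loc L → DV G.kf) (e : Dv G.kf) (a' : DV G.kf → ℂ), G.pl.RsD d e ∧
    BijOn p (S.On G) {U | Nrm U} ∧ (∀ U, Nrm U → Exp e U (a' U)) ∧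
    ∀ x ∈ S.On G, (∃ i, S.ea a x i = 0 ∧ Fl (S.C x) x i G (p x)) ∧
      w1 (S.ea a x) = (a' (p x))⁻¹ := by
  have z := S.zf hF ha hG
  obtain ⟨p, e, a', h1, h2, h3, h4⟩ := hP L d v b X₀ S.toSf (S.ea a) G ha
    (hT G z.dvs z.base z.exp) z.exp z.thr z.base
  exact ⟨p, e, a', h1, h2, h3, fun x hx => h4 x hx.1 hx.2⟩

theorem two (hF : SFL) (hP : SPL) (h1 : SP1) {a : Λ → ℂ} (ha : S.Ad d a) (hT : S.AT d v b)
    {x : Loc L} (hx : x ∈ S.X) : S.ea a x 0 ≠ 0 ∨ S.ea a x 1 ≠ 0 := by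
  by_contra! hn
  obtain ⟨G, U, hG⟩ := (hF L _ x 0 (S.rg x hx)).1
  have hZ : G ∈ S.ZC a := ⟨x, hx, 0, hn.1, hG.dat⟩
  have z := S.zf hF ha hZ
  obtain ⟨p, e, a', h2, -⟩ := S.pl hF hP ha hT hZ
  obtain ⟨σ, θ, μ, h3, h4, h5, -⟩ := hT G z.dvs z.base z.exp
  have h6 := ((hF L _ x 0 (S.rg x hx)).2.2.2 G U hG).2.2.2 d _ e (ha x hx) hn.1 h2
  obtain ⟨h7, h8, h9⟩ := (h1 _ σ θ h4).2 e μ _ U (h5 e h2) ⟨_, hG.un⟩ h6
  have h0 : S.ea a x (0 : Fin 2).rev = 0 := hn.2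
  rw [h0] at h7 h8 h9
  rcases lt_trichotomy (U.v σ) 0 with h | h | h
  · exact h3 (neg_eq_zero.1 (h8 h).symm)
  · exact zero_ne_one (h9 h)
  · exact h3 (h7 h).symm

theorem Z_eq (hF : SFL) (hP : SPL) {a : Λ → ℂ} (ha : S.Ad d a) (hT : S.AT d v b) :
    S.Z a = ⋃ G ∈ S.ZC a, S.On G := by
  ext x
  simp only [mem_iUnion, exists_prop]
  refine ⟨fun ⟨hx, i, hi⟩ => ?_, fun ⟨G, hG, hx⟩ => ?_⟩
  · obtain ⟨G, U, hG⟩ := (hF L _ x i (S.rg x hx)).1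
    exact ⟨G, ⟨x, hx, i, hi, hG.dat⟩, hx, le_of_dat hG.dat⟩
  · obtain ⟨p, e, a', -, -, -, h⟩ := S.pl hF hP ha hT hG
    obtain ⟨⟨i, hi, -⟩, -⟩ := h x hx
    exact ⟨hx.1, i, hi⟩

theorem On_disj (hF : SFL) (hP : SPL) (h1 : SP1) {a : Λ → ℂ} (ha : S.Ad d a) (hT : S.AT d v b) :
    (S.ZC a).PairwiseDisjoint S.On := fun G hG G' hG' hne => by
  refine Set.disjoint_left.2 fun x hx hx' => hne ?_
  obtain ⟨p, e, a', -, -, -, h⟩ := S.pl hF hP ha hT hG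
  obtain ⟨p', e', a'', -, -, -, h'⟩ := S.pl hF hP ha hT hG'
  obtain ⟨⟨i, hi, hl⟩, -⟩ := h x hx
  obtain ⟨⟨i', hi', hl'⟩, -⟩ := h' x hx'
  obtain rfl := idx_eq (S.two hF hP h1 ha hT hx.1) hi hi'
  exact (hF L _ x i (S.rg x hx.1)).2.1 G G' hl.dat hl'.dat

theorem sum_Z (hF : SFL) (hP : SPL) (h1 : SP1) {a : Λ → ℂ} (ha : S.Ad d a) (hT : S.AT d v b)
    {f : Loc L → ℂ} (hf : (S.Z a ∩ support f).Finite) :
    ∑ᶠ x ∈ S.Z a, f x = ∑ᶠ G ∈ S.ZC a, ∑ᶠ x ∈ S.On G, f x := by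
  have e : S.Z a ∩ support f = ⋃ G ∈ S.ZC a, S.On G ∩ support f := by
    rw [S.Z_eq hF hP ha hT, iUnion₂_inter]
  rw [← finsum_mem_inter_support, e, finsum_mem_biUnion
    ((S.On_disj hF hP h1 ha hT).mono fun G => inter_subset_left) (S.ZC_fin a)
    fun G hG => hf.subset (e ▸ subset_biUnion_of_mem (u := fun G => S.On G ∩ support f) hG)]
  exact finsum_mem_congr rfl fun G _ => finsum_mem_inter_support _ _

theorem con_Z [Fintype Λ] (hA : IntA χ L) (a : Λ → ℂ) : ConP (S.Z a) := by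
  have e : S.Z a = S.X ∩ (fun x => (fun T : Set Λ => ∃ j ∈ T, a j = 0)
      {j | ∃ i, S.lab x i = some j}) ⁻¹' {True} := by
    ext x
    simp only [Z, mem_ofPred_eq, mem_inter_iff, mem_preimage, mem_singleton_iff, eq_iff_iff,
      iff_true]
    refine and_congr_right fun _ => ⟨fun ⟨i, hi⟩ => ?_, fun ⟨j, ⟨i, hi⟩, hj⟩ => ⟨i, ?_⟩⟩
    · obtain ⟨j, h1, h2⟩ := S.lab_of hi
      exact ⟨j, ⟨i, h1⟩, h2⟩
    · simpa [ea, hi] using hj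
  rw [e]
  exact (hA.lab Prop Λ X₀ S fun T : Set Λ => ∃ j ∈ T, a j = 0).con True

theorem split [Fintype Λ] (hO : ConOK L) (hA : IntA χ L) {F : Type} [Field F] [Algebra ℂ F]
    (hB : IntB χ L F) (hB' : IntB χ L ℂ) (ε : F) (c : F →+ ℂ)
    (c1 : ∀ a m, a 0 ≠ 0 → a 1 ≠ 0 → c (wt ε a m) = (a 0 * a 1)⁻¹)
    (c2 : ∀ a m (i : Fin 2), a i = 0 → m i ≠ 0 → a i.rev ≠ 0 →
      c (wt ε a m) = -(m i.rev : ℂ) / (m i * a i.rev ^ 2))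
    {a : Λ → ℂ} {m : Λ → ℤ} (h2 : ∀ x ∈ S.X, S.ea a x 0 ≠ 0 ∨ S.ea a x 1 ≠ 0)
    (hm : ∀ x ∈ S.X, ∀ i, S.ea a x i = 0 → S.em m x i ≠ 0) :
    (S.Z a ∩ support fun x => c (wt ε (S.ea a x) (S.em m x))).Finite ∧
    c (Itg χ S.X fun x => wt ε (S.ea a x) (S.em m x)) =
      Itg χ (S.X \ S.Z a) (fun x => w1 (S.ea a x)) +
        ∑ᶠ x ∈ S.Z a, c (wt ε (S.ea a x) (S.em m x)) := by
  have hf : (S.Z a ∩ support fun x => c (wt ε (S.ea a x) (S.em m x))).Finite := by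
    refine S.fin2.subset ?_
    rintro x ⟨⟨hx, i, hi⟩, h⟩
    rw [mem_support, c2 _ _ i hi (hm x hx i hi) (rev_ne (h2 x hx) hi)] at h
    obtain ⟨j, hj, -⟩ := S.lab_of hi
    have h3 : S.lab x i.rev ≠ none := fun h0 => h (by simp [em, h0])
    have h4 : S.lab x i ≠ none := by simp [hj]
    refine ⟨hx, ?_⟩
    fin_cases i
    · exact ⟨h4, h3⟩
    · exact ⟨h3, h4⟩
  refine ⟨hf, ?_⟩
  have hZ := S.con_Z hA a
  have hD := hO.diff _ _ S.con hZ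
  have hc := S.cf_wt hA ε a m
  have hc' : Cf S.X fun x => c (wt ε (S.ea a x) (S.em m x)) :=
    hA.map _ _ _ (fun s _ => c s) _ _ _ hc hc
  have hs : S.Z a ⊆ S.X := fun x hx => hx.1
  rw [← hB.hom ℂ c _ _ hc, ← (hB'.supp _ _ hZ hf).2]
  conv_lhs => rw [← sdiff_union_of_subset hs]
  rw [hB'.union _ _ _ (hA.sub _ _ _ _ hc' hD sdiff_subset) (hA.sub _ _ _ _ hc' hZ hs)
    disjoint_sdiff_left]
  congr 1
  refine hB'.congr _ _ _ fun x hx => ?_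
  have h0 : S.ea a x 0 ≠ 0 := fun h => hx.2 ⟨hx.1, 0, h⟩
  have h1 : S.ea a x 1 ≠ 0 := fun h => hx.2 ⟨hx.1, 1, h⟩
  simp only [c1 _ _ h0 h1, w1, Fin.prod_univ_two, if_neg h0, if_neg h1, mul_inv]

theorem rg_lab [Fintype Λ] (hF : SFL) (hP : SPL) (h1 : SP1) (hR : SRG) (hχ : IsEu χ)
    (hB : IntB χ L ℂ) {a : Λ → ℂ} (ha : S.Ad d a) (hT : S.AT d v b) (j : Λ) (hj : a j = 0) :
    Itg χ {x ∈ S.X | ∃ i, S.lab x i = some j} (fun x => w1 (S.ea a x)) = 0 := by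
  have hs : {G | ∃ x ∈ S.X, ∃ i, S.lab x i = some j ∧ (S.C x).Dat x.O G i} ⊆ S.ZC a := by
    rintro G ⟨x, hx, i, hi, h⟩
    exact ⟨x, hx, i, by simpa [ea, hi] using hj, h⟩
  have hf := (S.ZC_fin a).subset hs
  have e : {x ∈ S.X | ∃ i, S.lab x i = some j} = ⋃ G ∈ hf.toFinset, S.On G := by
    ext x
    simp only [mem_iUnion, exists_prop, Finite.mem_toFinset, mem_ofPred_eq]
    refine ⟨fun ⟨hx, i, hi⟩ => ?_, fun ⟨G, ⟨x', hx', i, hi, hG⟩, hx⟩ => ?_⟩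
    · obtain ⟨G, U, hG⟩ := (hF L _ x i (S.rg x hx)).1
      exact ⟨G, ⟨x, hx, i, hi, hG.dat⟩, hx, le_of_dat hG.dat⟩
    · obtain ⟨i', h, -⟩ := S.cv x' hx' x hx.1 i j G hi hG hx.2
      exact ⟨hx.1, i', h⟩
  have hr : ∀ G ∈ hf.toFinset, Cf (S.On G) (fun x => w1 (S.ea a x)) ∧
      Itg χ (S.On G) (fun x => w1 (S.ea a x)) = 0 := fun G hG => by
    have z := S.zf hF ha (hs (hf.mem_toFinset.1 hG))
    exact hR χ L d v b X₀ S.toSf (S.ea a) G hχ ha (hT G z.dvs z.base z.exp) z.exp z.thr z.base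
  rw [e, (hB.sum _ _ _ _ (fun G hG => (hr G hG).1) fun G hG G' hG' hne =>
    S.On_disj hF hP h1 ha hT (hs (hf.mem_toFinset.1 hG)) (hs (hf.mem_toFinset.1 hG')) hne).2]
  exact Finset.sum_eq_zero fun G hG => (hr G hG).2

end LSf

end Pool.Agent.MP_ee8c61_ag.M3BK
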