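import Pool.Agent.MP_ee8c61_ag.M3BK.Spec

/-! The combinatorics of the polar part. -/

namespace Pool.Agent.MP_ee8c61_ag.M3BK

open Finset

noncomputable section

variable {J : Type} (a : J → ℂ) (N : J → ℕ)

/-- The product of the inverses of the exponents that are not zero. -/
def WW (I : Finset J) : ℂ := ∏ j ∈ I, if a j = 0 then 1 else (a j)⁻¹

/-- The logarithmic derivative of the regular part. -/
def SS (I : Finset J) : ℂ := ∑ j ∈ I with a j ≠ 0, N j / a j

theorem prod_split (I : Finset J) : ∏ j ∈ I, (if a j = 0 then (N j : ℂ) else a j)⁻¹ =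
    (∏ j ∈ I with a j = 0, (N j : ℂ)⁻¹) * WW a I := by
  rw [WW, prod_filter, ← prod_mul_distrib]
  refine prod_congr rfl fun j _ => ?_
  split_ifs <;> simp

variable [DecidableEq J]

theorem ws_eq {I : Finset J} {o o' : J} (h : o ≠ o') (ho : o ∈ I) (ho' : o' ∈ I) (h0 : a o = 0)
    (h0' : a o' = 0) (h3 : I.card ≤ 3) (h2 : (I.filter fun j => a j = 0).card ≤ 2) :
    WW a I * SS a N I = (∑ j ∈ I with j ≠ o ∧ j ≠ o', (N j : ℂ)) * WW a I ^ 2 := by
  have e : ({o, o'} : Finset J) = I.filter fun j => a j = 0 :=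
    eq_of_subset_of_card_le (by simp [insert_subset_iff, *]) (by rwa [card_pair h])
  have e' : (I.filter fun j => j ≠ o ∧ j ≠ o') = I.filter fun j => ¬a j = 0 :=
    filter_congr fun j hj => by
      have := Finset.ext_iff.1 e j
      simp only [mem_insert, mem_singleton, mem_filter, hj, true_and] at this
      rw [← this, not_or]
  have h1 := card_filter_add_card_filter_not (s := I) fun j => a j = 0
  rw [← e, card_pair h] at h1
  have e2 : WW a I = ∏ j ∈ I with ¬a j = 0, (a j)⁻¹ := by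
    rw [WW, prod_filter]
    exact prod_congr rfl fun j _ => by split_ifs <;> rfl
  rw [e', e2, SS]
  obtain h4 | ⟨j, h4⟩ := (show (I.filter fun j => ¬a j = 0) = ∅ ∨
      ∃ j, (I.filter fun j => ¬a j = 0) = {j} from by
    rw [← card_eq_zero, ← card_eq_one]
    omega)
  · simp [h4]
  · simp only [ne_eq, h4, prod_singleton, sum_singleton]
    ring

variable [Fintype J] (c : Finset J → ℤ)

theorem sum_one : ∑ I with (I.filter fun j => a j = 0).card = 1,
      c I * ∏ j ∈ I, (if a j = 0 then (N j : ℂ) else a j)⁻¹ =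
    ∑ o with a o = 0, (N o : ℂ)⁻¹ *
      ∑ I with o ∈ I ∧ (I.filter fun j => a j = 0) = {o}, c I * WW a I := by
  simp only [mul_sum]
  rw [sum_comm' (t' := univ) (s' := fun I => univ.filter fun o =>
    (I.filter fun j => a j = 0) = {o}), sum_filter]
  · refine sum_congr rfl fun I _ => ?_
    split_ifs with h
    · obtain ⟨o, h⟩ := card_eq_one.1 h
      rw [prod_split, h, sum_eq_single o (fun j hj hn => absurd ?_ hn) (by simp), prod_singleton]
      · ring
      · simpa [eq_comm] using hj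
    · exact (sum_eq_zero fun o ho => absurd (card_eq_one.2 ⟨o, by simpa using ho⟩) h).symm
  · intro o I
    simp only [mem_filter, mem_univ, true_and, and_true]
    refine ⟨fun h => h.2.2, fun h => ?_⟩
    have := mem_filter.1 (h ▸ mem_singleton_self o)
    exact ⟨this.2, this.1, h⟩

theorem sum_two (g : Finset J → ℂ) (h2 : ∀ I, c I ≠ 0 → (I.filter fun j => a j = 0).card ≤ 2) :
    2 * ∑ I with (I.filter fun j => a j = 0).card = 2,
      c I * (∏ j ∈ I, (if a j = 0 then (N j : ℂ) else a j)⁻¹) * g I =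
    ∑ p ∈ (univ.filter fun j => a j = 0).offDiag, ((N p.1 : ℂ) * N p.2)⁻¹ *
      ∑ I with p.1 ∈ I ∧ p.2 ∈ I, c I * (WW a I * g I) := by
  simp only [mul_sum]
  rw [sum_comm' (t' := univ) (s' := fun I => (I.filter fun j => a j = 0).offDiag), sum_filter]
  · refine sum_congr rfl fun I _ => ?_
    by_cases hc : c I = 0
    · simp [hc]
    split_ifs with h
    · obtain ⟨o, o', hn, h⟩ := card_eq_two.1 h
      have e : ({o, o'} : Finset J).offDiag = {(o, o'), (o', o)} := by
        ext ⟨x, y⟩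
        simp only [mem_offDiag, mem_insert, mem_singleton, Prod.mk.injEq]
        grind
      rw [prod_split, h, e, prod_pair hn, sum_pair (by simp [hn])]
      ring
    · refine (sum_eq_zero fun p hp => absurd (le_antisymm (h2 I hc) ?_) h).symm
      rw [mem_offDiag] at hp
      exact one_lt_card.2 ⟨_, hp.1, _, hp.2.1, hp.2.2⟩
  · intro p I
    simp only [mem_offDiag, mem_filter, mem_univ, true_and, and_true]
    tauto

theorem comb (hN : ∀ j, 0 < N j) (h2 : ∀ I, c I ≠ 0 → (I.filter fun j => a j = 0).card ≤ 2)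
    (R : J → J → ℂ) (h3 : ∀ o, a o = 0 →
      ∑ I with o ∈ I ∧ (I.filter fun j => a j = 0) = {o}, c I * WW a I =
        ∑ o' with o' ≠ o ∧ a o' = 0, R o o')
    (h4 : ∀ o o', o ≠ o' → a o = 0 → a o' = 0 → N o' * R o o' + N o * R o' o =
      ∑ I with o ∈ I ∧ o' ∈ I, c I * (WW a I * SS a N I)) :
    ∑ I with (I.filter fun j => a j = 0).card = 1,
      c I * ∏ j ∈ I, (if a j = 0 then (N j : ℂ) else a j)⁻¹ =
    ∑ I with (I.filter fun j => a j = 0).card = 2,
      c I * (∏ j ∈ I, (if a j = 0 then (N j : ℂ) else a j)⁻¹) * SS a N I := by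
  have e1 : ∑ o with a o = 0, (N o : ℂ)⁻¹ * ∑ o' with o' ≠ o ∧ a o' = 0, R o o' =
      ∑ p ∈ (univ.filter fun j => a j = 0).offDiag, (N p.1 : ℂ)⁻¹ * R p.1 p.2 := by
    simp only [mul_sum]
    exact (sum_finset_product' _ _ _ (fun p => by simp [mem_offDiag, eq_comm, and_comm])
      (f := fun o o' => (N o : ℂ)⁻¹ * R o o')).symm
  have e2 : ∑ p ∈ (univ.filter fun j => a j = 0).offDiag, (N p.1 : ℂ)⁻¹ * R p.1 p.2 =
      ∑ p ∈ (univ.filter fun j => a j = 0).offDiag, (N p.2 : ℂ)⁻¹ * R p.2 p.1 :=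
    sum_equiv (Equiv.prodComm J J) (fun p => by simp [mem_offDiag, eq_comm, and_comm, and_assoc,
      and_left_comm]) fun p _ => rfl
  refine mul_left_cancel₀ two_ne_zero ?_
  rw [sum_two a N c _ h2, sum_one, sum_congr rfl fun o ho => by rw [h3 o (mem_filter.1 ho).2], e1,
    two_mul]
  nth_rewrite 2 [e2]
  rw [← sum_add_distrib]
  refine sum_congr rfl fun p hp => ?_
  rw [mem_offDiag] at hp
  have n1 : (N p.1 : ℂ) ≠ 0 := Nat.cast_ne_zero.2 (hN _).ne'
  have n2 : (N p.2 : ℂ) ≠ 0 := Nat.cast_ne_zero.2 (hN _).ne'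
  rw [← h4 _ _ hp.2.2 (mem_filter.1 hp.1).2 (mem_filter.1 hp.2.1).2]
  field_simp

theorem comb2 (h2 : ∀ I, c I ≠ 0 → (I.filter fun j => a j = 0).card ≤ 2)
    (h4 : ∀ o o', o ≠ o' → a o = 0 → a o' = 0 → ∑ I with o ∈ I ∧ o' ∈ I, c I * WW a I = 0) :
    ∑ I with (I.filter fun j => a j = 0).card = 2,
      c I * ∏ j ∈ I, (if a j = 0 then (N j : ℂ) else a j)⁻¹ = 0 := by
  have := sum_two a N c (fun _ => 1) h2
  simp only [mul_one] at this
  refine (mul_eq_zero.1 (this.trans (sum_eq_zero fun p hp => ?_))).resolve_left two_ne_zero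
  rw [mem_offDiag] at hp
  rw [h4 _ _ hp.2.2 (mem_filter.1 hp.1).2 (mem_filter.1 hp.2.1).2, mul_zero]

end

end Pool.Agent.MP_ee8c61_ag.M3BK
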