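import Pool.Agent.MP_ee8c61_ag.M3BK.RBklB
import Pool.Agent.MP_ee8c61_ag.M3BK.RBookC

/-! Sums over strata as integrals on a surface. -/

namespace Pool.Agent.MP_ee8c61_ag.M3BK

open M3 M3RESID Set Function
open Pool.Agent.MP_96693b_ag.RS (Loc LocOf)

variable {L : Type} [Field L] [Algebra ℂ L] {χ : H36.Chi} {X₀ : Set L} {Λ : Type} [Fintype Λ]
  [DecidableEq Λ]

namespace LSf

variable (S : LSf L X₀ Λ) (o : Λ)

/-- The labels at a point together with `o`. -/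
noncomputable def lb (x : Loc L) : Finset Λ :=
  insert o (toFinite {j | ∃ i, S.lab x i = some j}).toFinset

/-- The points with the label `o`. -/
def Lb : Set (Loc L) := {x ∈ S.X | ∃ i, S.lab x i = some o}

variable {o}

theorem mem_lb {x : Loc L} {j : Λ} : j ∈ S.lb o x ↔ j = o ∨ ∃ i, S.lab x i = some j := by
  simp [lb]

theorem w1_W {a : Λ → ℂ} (ha : a o = 0) {x : Loc L} (hx : x ∈ S.X) :
    w1 (S.ea a x) = WW a (S.lb o x) := by
  rw [WW, lb, Finset.prod_insert_one (by exact if_pos ha), ← finprod_mem_coe_finset,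
    Finite.coe_toFinset]
  exact (Fin.prod_univ_two _).trans (S.prod_lab
    (fun o => if o.elim 1 a = 0 then 1 else (o.elim 1 a)⁻¹) (by simp) hx)

theorem card_lb (x : Loc L) : (S.lb o x).card ≤ 3 := by
  refine (Finset.card_insert_le _ _).trans (Nat.succ_le_succ ((Finset.card_le_card
    (t := Finset.univ.image fun i => (S.lab x i).getD o) fun j hj => ?_).trans
    (Finset.card_image_le.trans (by simp))))
  obtain ⟨i, hi⟩ := (Finite.mem_toFinset _).1 hj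
  exact Finset.mem_image.2 ⟨i, Finset.mem_univ _, by simp [hi]⟩

omit [Fintype Λ] [DecidableEq Λ] in
theorem lab_eq {a : Λ → ℂ} {x : Loc L} (h2 : S.ea a x 0 ≠ 0 ∨ S.ea a x 1 ≠ 0) {i i' : Fin 2}
    {j j' : Λ} (hi : S.lab x i = some j) (hi' : S.lab x i' = some j') (hj : a j = 0)
    (hj' : a j' = 0) : j = j' := by
  obtain rfl : i = i' := idx_eq h2 (by simpa [ea, hi] using hj) (by simpa [ea, hi'] using hj')
  exact Option.some.inj (hi.symm.trans hi')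

theorem card_zero {a : Λ → ℂ} {x : Loc L} (h2 : S.ea a x 0 ≠ 0 ∨ S.ea a x 1 ≠ 0) :
    ((S.lb o x).filter fun j => a j = 0).card ≤ 2 := by
  refine (Finset.card_le_card (t := insert o (((S.lb o x).filter fun j => a j = 0).erase o))
    (Finset.subset_insert_iff.2 le_rfl)).trans ((Finset.card_insert_le _ _).trans
    (Nat.succ_le_succ (Finset.card_le_one.2 fun j hj j' hj' => ?_)))
  simp only [Finset.mem_erase, Finset.mem_filter, mem_lb] at hj hj'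
  obtain ⟨i, hi⟩ := hj.2.1.resolve_left hj.1
  obtain ⟨i', hi'⟩ := hj'.2.1.resolve_left hj'.1
  exact S.lab_eq h2 hi hi' hj.2.2 hj'.2.2

/-- The numbers `c` are the Euler characteristics of the strata. -/
structure St (χ : H36.Chi) (S : LSf L X₀ Λ) (o : Λ) (c : Finset Λ → ℤ) : Prop where
  A : IntA χ L
  B : IntB χ L ℂ
  no : ∀ x ∈ S.X, ∀ i, S.lab x i ≠ some o
  eq : ∀ I, o ∈ I → c I = chiP χ {x ∈ S.X | ∀ j, (∃ i, S.lab x i = some j) ↔ j ∈ I.erase o}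

namespace St

variable {S} {c : Finset Λ → ℤ} (h : St χ S o c)

include h

theorem sum (p : Finset Λ → Prop) [DecidablePred p] (Φ : Finset Λ → ℂ) {W : Set (Loc L)}
    (hW : ∀ x, x ∈ W ↔ x ∈ S.X ∧ p (S.lb o x)) : ConP W ∧
    ∑ I with o ∈ I ∧ p I, c I * Φ I = Itg χ W fun x => Φ (S.lb o x) := by
  have hc : ∀ I, ConP {x ∈ S.X | S.lb o x = I} := fun I =>
    (h.A.lab _ Λ X₀ S fun T => insert o (toFinite T).toFinset).con I
  have e : W = ⋃ I ∈ Finset.univ.filter fun I => o ∈ I ∧ p I, {x ∈ S.X | S.lb o x = I} := by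
    ext x
    simp only [hW, mem_iUnion, Finset.mem_filter, Finset.mem_univ, true_and, mem_ofPred_eq,
      exists_prop]
    exact ⟨fun h => ⟨_, ⟨S.mem_lb.2 (Or.inl rfl), h.2⟩, h.1, rfl⟩,
      fun ⟨I, h1, h2, h3⟩ => ⟨h2, h3 ▸ h1.2⟩⟩
  obtain ⟨h1, h2⟩ := h.B.sum _ (Finset.univ.filter fun I => o ∈ I ∧ p I)
    (fun I => {x ∈ S.X | S.lb o x = I}) (fun x => Φ (S.lb o x))
    (fun I _ => h.A.cst _ _ _ (Φ I) (hc I) fun x hx => congrArg Φ hx.2)
    fun I _ I' _ hn => Set.disjoint_left.2 fun x hx hx' => hn (hx.2.symm.trans hx'.2)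
  rw [e, h2]
  refine ⟨h.A.con _ _ _ h1, Finset.sum_congr rfl fun I hI => ?_⟩
  have hI := (Finset.mem_filter.1 hI).2.1
  rw [h.B.cst _ _ (Φ I) (hc I) fun x hx => congrArg Φ hx.2, h.eq I hI, zsmul_eq_mul]
  congr 3
  ext x
  refine and_congr_right fun hx => ⟨fun h3 => Finset.ext fun j => ?_, fun h3 j => ?_⟩
  · rw [mem_lb, h3, Finset.mem_erase]
    by_cases hj : j = o <;> simp [hj, hI]
  · rw [← h3, Finset.mem_erase, mem_lb]
    exact ⟨fun ⟨i, hi⟩ => ⟨fun hj => h.no x hx i (hj ▸ hi), Or.inr ⟨i, hi⟩⟩,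
      fun h4 => h4.2.resolve_left h4.1⟩

theorem two {a : Λ → ℂ} (h2 : ∀ x ∈ S.X, S.ea a x 0 ≠ 0 ∨ S.ea a x 1 ≠ 0) {I : Finset Λ}
    (hI : o ∈ I) (hc : c I ≠ 0) : (I.filter fun j => a j = 0).card ≤ 2 := by
  by_contra hn
  obtain ⟨h3, h4⟩ := h.sum (· = I) (fun _ => 1) (W := ∅) fun x =>
    iff_of_false (notMem_empty x) fun hx => hn (hx.2 ▸ S.card_zero (h2 x hx.1))
  rw [h.B.cst _ _ 0 h3 (by simp), Finset.sum_eq_single I (by simp +contextual)
    (by simp [hI])] at h4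
  exact hc (by simpa using h4)

theorem pair {o' : Λ} (hn : o ≠ o') (Φ : Finset Λ → ℂ) : ConP (S.Lb o') ∧
    ∑ I with o ∈ I ∧ o' ∈ I, c I * Φ I = Itg χ (S.Lb o') fun x => Φ (S.lb o x) :=
  h.sum (o' ∈ ·) Φ fun x => and_congr_right fun _ => by simp [mem_lb, hn.symm]

theorem off {a : Λ → ℂ} (ha : a o = 0) :
    ∑ I with o ∈ I ∧ (I.filter fun j => a j = 0) = {o}, c I * WW a I =
      Itg χ (S.X \ S.Z a) fun x => w1 (S.ea a x) := by
  rw [(h.sum (fun I => (I.filter fun j => a j = 0) = {o}) (WW a) (W := S.X \ S.Z a)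
    fun x => and_congr_right fun hx => ?_).2]
  · exact h.B.congr _ _ _ fun x hx => (S.w1_W ha hx.1).symm
  refine ⟨fun h1 => Finset.ext fun j => ?_, fun h1 ⟨_, i, hi⟩ => ?_⟩
  · rw [Finset.mem_filter, mem_lb, Finset.mem_singleton]
    refine ⟨fun h2 => h2.1.resolve_right fun ⟨i, hi⟩ => h1 ⟨hx, i, ?_⟩,
      fun h2 => ⟨Or.inl h2, h2 ▸ ha⟩⟩
    simpa [ea, hi] using h2.2
  · obtain ⟨j, h2, h3⟩ := S.lab_of hi
    have : j ∈ (S.lb o x).filter fun j => a j = 0 :=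
      Finset.mem_filter.2 ⟨S.mem_lb.2 (Or.inr ⟨i, h2⟩), h3⟩
    rw [h1, Finset.mem_singleton] at this
    exact h.no x hx i (this ▸ h2)

theorem sum_Z {a : Λ → ℂ} (h2 : ∀ x ∈ S.X, S.ea a x 0 ≠ 0 ∨ S.ea a x 1 ≠ 0) {f : Loc L → ℂ}
    (hf : (S.Z a ∩ support f).Finite) :
    ∑ᶠ x ∈ S.Z a, f x = ∑ o' with o' ≠ o ∧ a o' = 0, ∑ᶠ x ∈ S.Lb o', f x := by
  have e : S.Z a ∩ support f = ⋃ o' ∈ (↑(Finset.univ.filter fun o' => o' ≠ o ∧ a o' = 0) : Set Λ),
      S.Lb o' ∩ support f := by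
    rw [← iUnion₂_inter]
    congr 1
    ext x
    simp only [Finset.coe_filter, Finset.mem_univ, true_and, mem_iUnion, mem_ofPred_eq, exists_prop]
    refine ⟨fun ⟨hx, i, hi⟩ => ?_, fun ⟨j, h3, hx, i, hi⟩ => ⟨hx, i, by simpa [ea, hi] using h3.2⟩⟩
    obtain ⟨j, h3, h4⟩ := S.lab_of hi
    exact ⟨j, ⟨fun hj => h.no x hx i (hj ▸ h3), h4⟩, hx, i, h3⟩
  have hd : (↑(Finset.univ.filter fun o' => o' ≠ o ∧ a o' = 0) : Set Λ).PairwiseDisjoint
      fun j => S.Lb j ∩ support f := fun j hj j' hj' hn =>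
    Set.disjoint_left.2 fun x ⟨⟨hx, i, hi⟩, _⟩ ⟨⟨_, i', hi'⟩, _⟩ => hn (S.lab_eq (h2 x hx) hi hi'
      (Finset.mem_filter.1 hj).2.2 (Finset.mem_filter.1 hj').2.2)
  rw [← finsum_mem_inter_support, e, finsum_mem_biUnion hd (Finset.finite_toSet _)
    fun j hj => hf.subset (e ▸ subset_biUnion_of_mem (u := fun j => S.Lb j ∩ support f) hj),
    finsum_mem_coe_finset]
  exact Finset.sum_congr rfl fun G _ => finsum_mem_inter_support _ _

theorem third {a : Λ → ℂ} (N : Λ → ℕ) {o' : Λ} (hn : o ≠ o') (ha : a o = 0) (ha' : a o' = 0) :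
    (S.Lb o' ∩ support fun x => WW a (S.lb o x) * SS a N (S.lb o x)).Finite ∧
    ∑ I with o ∈ I ∧ o' ∈ I, c I * (WW a I * SS a N I) =
      ∑ᶠ x ∈ S.Lb o', WW a (S.lb o x) * SS a N (S.lb o x) := by
  have hf : (S.Lb o' ∩ support fun x => WW a (S.lb o x) * SS a N (S.lb o x)).Finite := by
    refine S.fin2.subset fun x ⟨⟨hx, i, hi⟩, h1⟩ => ⟨hx, ?_⟩
    obtain ⟨j, hj, -⟩ := Finset.exists_ne_zero_of_sum_ne_zero (right_ne_zero_of_mul h1)
    rw [Finset.mem_filter, mem_lb] at hj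
    obtain ⟨i', hi'⟩ := hj.1.resolve_left fun h2 => hj.2 (h2 ▸ ha)
    have h3 : i ≠ i' := fun h2 => hj.2 (Option.some.inj (hi.symm.trans (h2 ▸ hi')) ▸ ha')
    fin_cases i <;> fin_cases i' <;> simp_all
  obtain ⟨h1, h2⟩ := h.pair hn fun I => WW a I * SS a N I
  exact ⟨hf, h2.trans (h.B.supp _ _ h1 hf).2⟩

end St

end LSf

end Pool.Agent.MP_ee8c61_ag.M3BK
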