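import Pool.Agent.MP_ee8c61_ag.M3BK.XKit

/-! The cross function on a double curve: its logarithmic derivative and its orders. -/

namespace Pool.Agent.MP_ee8c61_ag.M3BK

open M3 M3RESID Set
open Pool.Agent.MP_96693b_ag.RS (Loc LocOf)

section Gen

variable {K k k' : Type} [Field K] [Algebra ℂ K] [Field k] [Algebra ℂ k] [Field k'] [Algebra ℂ k']
  {C C0 : Co K 3} {Q Q0 : Loc K} {i i' i0 i0' : Fin 3} {P : Pl K k} {C2 C20 : Co k 2}
  {x x0 : Loc k} {m m0 : Fin 2} {G : DV k} {g h : K}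

theorem la_zpow {A : Subalgebra ℂ K} {V : ValuationSubring K} (hg : g ∈ LA A V) (h : Un V g)
    (r : ℤ) : g ^ r ∈ LA A V := by
  obtain ⟨n, rfl | rfl⟩ := r.eq_nat_or_neg
  · simpa using pow_mem hg n
  · simpa using pow_mem (show g⁻¹ ∈ LA A V from Lc.inv hg h) n

theorem dlog3 (H : VF K) {a b c : K} (ha : a ≠ 0) (hb : b ≠ 0) (hc : c ≠ 0) (r s t : ℤ) :
    H (a ^ r * b ^ s * c ^ t) / (a ^ r * b ^ s * c ^ t) =
      r * (H a / a) + s * (H b / b) + t * (H c / c) := by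
  have h1 := zpow_ne_zero r ha
  have h2 := zpow_ne_zero s hb
  have h3 := zpow_ne_zero t hc
  simp only [Derivation.leibniz, smul_eq_mul, Dv.zpow_der H a ha, Dv.zpow_der H b hb,
    Dv.zpow_der H c hc]
  field_simp
  ring

omit [Algebra ℂ K] in
theorem th_id {z z' : K} (a a' u : K) (hz : z ≠ 0) (hz' : z' ≠ 0) (p p' N N' : ℤ) :
    (z' ^ p * a) ^ (N' * p') * (z ^ p' * a') ^ (N * p) * (z ^ N * z' ^ N' * u) ^ (-(p * p')) =
      a ^ (N' * p') * a' ^ (N * p) * u ^ (-(p * p')) := by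
  have h1 : z' ^ (p * (N' * p')) * z' ^ (N' * -(p * p')) = 1 := by
    rw [← zpow_add₀ hz', show p * (N' * p') + N' * -(p * p') = 0 by ring, zpow_zero]
  have h2 : z ^ (p' * (N * p)) * z ^ (N * -(p * p')) = 1 := by
    rw [← zpow_add₀ hz, show p' * (N * p) + N * -(p * p') = 0 by ring, zpow_zero]
  simp only [mul_zpow, ← zpow_mul]
  generalize z' ^ (p * (N' * p')) = A, z' ^ (N' * -(p * p')) = B, z ^ (p' * (N * p)) = D,
    z ^ (N * -(p * p')) = E, a ^ (N' * p') = F, a' ^ (N * p) = F', u ^ (-(p * p')) = F'' at *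
  linear_combination F * F' * F'' * D * E * h1 + F * F' * F'' * h2

theorem Tw.pi_z (T : Tw C Q i i' P C2 x m G) (hg : g ∈ P.o.F 0) (p : ℤ) :
    P.π (C.z i' ^ p * g) = C2.z m ^ p * P.π g := by
  have h1 := T.dat.adp.vz' T.ne
  rw [P.mul _ (Or.inr (by rw [P.o.zpow, h1, mul_zero])) _ hg, Pl.π_zpow (C.ne _) h1, T.z2]

theorem Tw.lift_un (T : Tw C Q i i' P C2 x m G) {ψ : k} (h : ψ ≠ 0) :
    ∃ g ∈ LA Q.O (lift P G), Un (lift P G) g ∧ P.π (C.z i' ^ G.v ψ * g) = ψ := by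
  have h1 := zpow_ne_zero (G.v ψ) (C2.ne m)
  have h2 : G.v (ψ / C2.z m ^ G.v ψ) = 0 := by
    rw [G.div h h1, G.zpow, T.dat2.adp.vz, mul_one, sub_self]
  obtain ⟨g, hg, e⟩ := T.lift_fn (Or.inr h2.ge)
  refine ⟨g, hg, un_lift.2 ⟨(T.leA hg).1, e ▸ div_ne_zero h h1, e ▸ h2⟩, ?_⟩
  rw [T.pi_z (T.leA hg).1, e, mul_div_cancel₀ _ h1]

theorem Tw.mon (T : Tw C Q i i' P C2 x m G) {l : Fin 3} (h1 : l ≠ i) (h2 : l ≠ i')
    (c : Fin 3 → ℤ) : C.mon c = C.z i ^ c i * C.z i' ^ c i' * C.z l ^ c l := by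
  rw [Co.mon, Fin.prod_univ_succAbove _ i, ← T.third h1 h2, ← T.idx, mul_assoc, Fin.prod_univ_two]
  fin_cases m
  · rfl
  · exact congrArg _ (mul_comm _ _)

/-- The equations of the surface at two points of the curve differ by a unit. -/
theorem Tw.ratio (T : Tw C Q i i' P C2 x m G) (T0 : Tw C0 Q0 i0 i0' P C20 x0 m0 G)
    (e : LA Q.O (lift P G) = LA Q0.O (lift P G)) :
    C0.z i0 / C.z i ∈ LA Q.O (lift P G) ∧ Un (lift P G) (C0.z i0 / C.z i) := by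
  have h1 := T.datA.div _ (e ▸ le_LA (T0.rg.st.z i0)) (Or.inr T0.dat.adp.vz.ge)
  have h2 := T0.datA.div _ (e ▸ le_LA (T.rg.st.z i)) (Or.inr T.dat.adp.vz.ge)
  exact ⟨h1, div_ne_zero (C0.ne _) (C.ne _), T.leA h1, by rw [inv_div]; exact T0.leA h2⟩

end Gen

variable {k k' : Type} [Field k] [Algebra ℂ k] [Field k'] [Algebra ℂ k'] {f : Po 3} {la : ℚ}
  {b : Polynomial ℂ} {β : Fin 3 → H59.PX 3 (KK 3)} {q : H59.PX 3 (KK 3)} {M : Mod 3}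
  {Q Q0 : Loc (KK 3)} {C : Co (KK 3) 3} {lab : Fin 3 → Option M.J} {i i' : Fin 3} {o o' : M.J}
  {P : Pl (KK 3) k} {C2 : Co k 2} {x : Loc k} {m : Fin 2} {G : DV k} {P' : Pl (KK 3) k'}
  {C2' : Co k' 2} {x' : Loc k'} {m' : Fin 2} {G' : DV k'} {e : Dv k} {v : VF k} {e' : Dv k'}
  {v' : VF k'}

theorem la_eq (hB : M3E.Bas1 M) (hQ : Q ∈ M.pts) (hQ0 : Q0 ∈ M.pts) {V : Vl 3} (h : Le Q V)
    (h0 : Le Q0 V) : LA Q.O V = LA Q0.O V := by
  have key : ∀ Q ∈ M.pts, ∀ Q0 ∈ M.pts, Le Q V → Le Q0 V → LA Q.O V ≤ LA Q0.O V := by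
    rintro Q ⟨a, ha⟩ Q0 ⟨a0, ha0⟩ h h0 g hg
    refine lc_trans (fun g hg => Lc.of_mem (ha0.le hg)) (lc_trans
      (hB.lc a a0 V (fun g hg => h g (ha.le hg)) fun g hg => h0 g (ha0.le hg))
      (lc_trans (fun g hg => ?_) hg))
    obtain ⟨p, hp, s, hs, h1, h2⟩ := ha.frac g hg
    exact ⟨s, hs, un_of_ev h h1, by rwa [mul_comm, h2]⟩
  exact le_antisymm (key _ hQ _ hQ0 h h0) (key _ hQ0 _ hQ h0 h)

theorem exp_tw (hQ : Pt3 M f Q C lab) (li : lab i = some o) (li' : lab i' = some o')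
    (eo : M.ex la o = 0) (eo' : M.ex la o' = 0) (T : Tw C Q i i' P C2 x m G)
    (r : P.RsD (dvf f la) e) : Exp (dvf f la) P.o 0 ∧ Exp e G 0 := by
  have h1 : Exp (dvf f la) P.o 0 := by simpa [li, eo] using T.dat.exp (hQ.ad la)
  exact ⟨h1, by simpa [T.idx, li', eo'] using T.dat2.exp (T.rc.Ad T.dat T.ro h1 r (hQ.ad la))⟩

/-- The logarithmic derivative of a unit along the residue is a divergence. -/
theorem coreA (hG : SGDL) (hT : STP) (hy : Hyp f la b β q) (hM : M.OK f) (hQ : Pt3 M f Q C lab)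
    (li : lab i = some o) (li' : lab i' = some o') (eo : M.ex la o = 0) (eo' : M.ex la o' = 0)
    (T : Tw C Q i i' P C2 x m G) (T' : Tw C Q i' i P' C2' x' m' G') (r : P.RsD (dvf f la) e)
    (s : P.Res (dvf f la) (bf la β) v) (r' : P'.RsD (dvf f la) e')
    (s' : P'.Res (dvf f la) (bf la β) v') {Ψ Ψ' : KK 3} {p p' : ℤ}
    (h1 : Ψ ∈ LA Q.O (lift P G)) (h2 : Un (lift P G) Ψ) (h1' : Ψ' ∈ LA Q.O (lift P' G'))
    (h2' : Un (lift P' G') Ψ') (g : Gd e v (P.π (C.z i' ^ p * Ψ)))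
    (g' : Gd e' v' (P'.π (C.z i ^ p' * Ψ'))) (n n' n'' : ℤ) {Θ : KK 3}
    (hΘ : Θ = (C.z i' ^ p * Ψ) ^ n * (C.z i ^ p' * Ψ') ^ n' * ip 3 f ^ n'')
    (hu : Un (lift P G) Θ) {e2 : Dv G.kf} (r2 : G.pl.RsD e e2) :
    ∃ w Y, G.pl.Res e v w ∧ w (G.pl.π (P.π Θ)) / G.pl.π (P.π Θ) = e2.δ Y := by
  obtain ⟨x1, x2⟩ := exp_tw hQ li li' eo eo' T r
  obtain ⟨-, x2'⟩ := exp_tw hQ li' li eo' eo T' r'
  obtain ⟨H, hH, X0, hX0, ex, d0⟩ := hT f la b β q M Q C lab i i' o o' _ hy hM hQ li li' eo eo'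
    (lz_LA Q.O (lift P G)) fun l a1 a2 => Lc.inv (Lc.of_mem (T.rg.st.z l)) (T.un_z a1 a2)
  obtain ⟨X1, hX1, d1⟩ := hG _ k C Q i i' P C2 x m G _ e _ H v Ψ p T (hQ.ad la) (by simp [li, eo])
    (by simp [li', eo']) r x2 hH (s.congr ex) g h1 h2
  obtain ⟨X2, hX2, d2⟩ := hG _ k' C Q i' i P' C2' x' m' G' _ e' _ H v' Ψ' p' T' (hQ.ad la)
    (by simp [li', eo']) (by simp [li, eo]) r' x2'
    (by rwa [← T.la2 T', Finset.pair_comm]) (s'.congr ex) g' h1' h2'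
  rw [← T.la2 T', Finset.pair_comm] at hX2
  rw [← T.la2 T'] at d2
  obtain ⟨H1, H2, a1, a2⟩ := T.rs2 hH
  have hz : ∀ n : ℤ, (n : KK 3) ∈ lift P G := fun n => intCast_mem _ n
  obtain ⟨Y, hY⟩ := T.core x1 x2 r r2 a1 a2
    (add_mem (add_mem (zsmul_mem hX1 n) (zsmul_mem hX2 n')) (zsmul_mem hX0 n'')) hu
    (add_mem (mul_mem (hz n) (T.leA d1)) (mul_mem (hz n'') (T.leA d0)))
    (mul_mem (hz n') (T.leA d2)) (by
      have z1 := C.ne i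
      have z2 := C.ne i'
      rw [hΘ, dlog3 H (mul_ne_zero (zpow_ne_zero _ z2) h2.1) (mul_ne_zero (zpow_ne_zero _ z1) h2'.1)
        (f_ne hM)]
      simp only [map_add, map_zsmul, zsmul_eq_mul]
      generalize H (C.z i' ^ p * Ψ) / (C.z i' ^ p * Ψ) = A,
        H (C.z i ^ p' * Ψ') / (C.z i ^ p' * Ψ') = B, H (ip 3 f) / ip 3 f = D
      field_simp
      ring)
  refine ⟨H2, Y, ⟨v - H1, Pl.Res.uniq T.rc T.dat.adp x1 r s ⟨_, ex, ?_⟩, ?_⟩, hY⟩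
  · rwa [sub_sub_cancel]
  · rwa [sub_sub_cancel]

theorem thd_eq (hQ : Pt3 M f Q C lab) (li : lab i = some o) (li' : lab i' = some o') (hi : i' ≠ i)
    {l : Fin 3} (h1 : l ≠ i) (h2 : l ≠ i') :
    thd M o o' Q = (((lab l).elim 0 M.aa : ℤ) : ℂ) := by
  classical
  have h3 : ∀ j, (j ≠ o ∧ j ≠ o' ∧ M.On Q j) ↔ lab l = some j := fun j => by
    rw [hQ.on]
    refine ⟨fun ⟨a1, a2, n, hn⟩ => ?_, fun h => ⟨fun e => h1 (hQ.inj _ _ _ h (e ▸ li)),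
      fun e => h2 (hQ.inj _ _ _ h (e ▸ li')), l, h⟩⟩
    rcases (by decide : ∀ i i' l n : Fin 3, i' ≠ i → l ≠ i → l ≠ i' → n = i ∨ n = i' ∨ n = l)
      i i' l n hi h1 h2 with rfl | rfl | rfl
    · exact absurd (Option.some.inj (hn.symm.trans li)) a1
    · exact absurd (Option.some.inj (hn.symm.trans li')) a2
    · exact hn
  rw [thd, Finset.filter_congr fun j _ => h3 j]
  rcases lab l with _ | j
  · simp
  · simp [Mod.aa, Finset.filter_eq]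

/-- The order of the cross function at a point of the curve. -/
theorem coreB (hF : SFL) (hQ : Pt3 M f Q C lab) (li : lab i = some o) (li' : lab i' = some o')
    (T : Tw C Q i i' P C2 x m G) (T' : Tw C Q i' i P' C2' x' m' G') {Ψ Ψ' : KK 3} {p p' : ℤ}
    (h2 : Un (lift P G) (Ψ / C.z i' ^ p)) (h1' : Ψ' / C.z i ^ p' ∈ LA Q.O (lift P' G'))
    (h2' : Un (lift P' G') (Ψ' / C.z i ^ p')) {Θ : KK 3}
    (hΘ : Θ = Ψ ^ (M.aa o' * p') * Ψ' ^ (M.aa o * p) * ip 3 f ^ (-(p * p'))) :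
    Un (lift P G) Θ ∧ ∀ U U', Fl C2 x m G U → Fl C2' x' m' G' U' → (od P G U Θ : ℂ) =
      M.a o' * p' * (U.v (G.pl.π (P.π Ψ / C2.z m ^ p)) : ℂ) +
        M.a o * p * (U'.v (G'.pl.π (P'.π Ψ' / C2'.z m' ^ p')) : ℂ) - p * p' * thd M o o' Q := by
  obtain ⟨l, a1, a2⟩ := ex_third i i'
  have z1 := zpow_ne_zero p' (C.ne i)
  have z2 := zpow_ne_zero p (C.ne i')
  have e1 := (mul_div_cancel₀ Ψ z2).symm
  have e2 := (mul_div_cancel₀ Ψ' z1).symm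
  have e3 := (div_mul_cancel₀ (ip 3 f) (C.mon_ne fun i => (lab i).elim 0 M.aa)).symm
  have fm := hQ.fm
  generalize Ψ / C.z i' ^ p = a at *
  generalize Ψ' / C.z i ^ p' = a' at *
  generalize (ip 3 f / C.mon fun i => (lab i).elim 0 M.aa) = u at *
  rw [T.mon a1 a2, li, li', mul_left_comm, Option.elim_some, Option.elim_some] at e3
  rw [e1, e2, e3, th_id _ _ _ (C.ne i) (C.ne i')] at hΘ
  have u1 := T'.unA T h1' h2'
  have u2 := (un_of_ev T.le fm).mul ((T.un_z a1 a2).zpow ((lab l).elim 0 M.aa))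
  refine ⟨hΘ ▸ ((h2.zpow _).mul (u1.zpow _)).mul (u2.zpow _), fun U U' F F' => ?_⟩
  rw [hΘ, od_mul U ((h2.zpow _).mul (u1.zpow _)) (u2.zpow _), od_mul U (h2.zpow _) (u1.zpow _),
    od_zpow U h2, od_zpow U u1, od_zpow U u2, T.od_unit F a1 a2 fm, T'.od2 hF T F' F h1' h2',
    thd_eq hQ li li' T.ne a1 a2, e1, e2, T.pi_z h2.2.1.1, T'.pi_z h2'.2.1.1,
    mul_div_cancel_left₀ _ (zpow_ne_zero _ (C2.ne m)),
    mul_div_cancel_left₀ _ (zpow_ne_zero _ (C2'.ne m')), od, od]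
  simp only [Mod.aa]
  push_cast
  ring

end Pool.Agent.MP_ee8c61_ag.M3BK
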