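import Pool.Agent.MP_ee8c61_ag.M3BK.XCore

/-! The cross term: one double curve, and the sum over all double curves. -/

namespace Pool.Agent.MP_ee8c61_ag.M3BK

open M3 M3RESID Set
open Pool.Agent.MP_96693b_ag.RS (Loc LocOf)

variable {k k' : Type} [Field k] [Algebra ℂ k] [Field k'] [Algebra ℂ k'] {f : Po 3} {M : Mod 3}
  {C : Loc (KK 3) → Co (KK 3) 3} {lab : Loc (KK 3) → Fin 3 → Option M.J} {o o' : M.J}
  {P : Pl (KK 3) k} {P' : Pl (KK 3) k'} {S : LSf k (xb P) M.J} {S' : LSf k' (xb P') M.J}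
  {rs : Loc (KK 3) → Loc k} {rs' : Loc (KK 3) → Loc k'} {Q Q0 : Loc (KK 3)} {i i' i0 i0' : Fin 3}
  {m m0 : Fin 2} {G : DV k} {G' : DV k'}

theorem IsSf.mem (hS : IsSf M C lab o P S rs) (hQ : Q ∈ M.pts) (h : M.On Q o) : rs Q ∈ S.X :=
  hS.X ▸ ⟨Q, ⟨hQ, h⟩, rfl⟩

theorem IsSf.tw (hS : IsSf M C lab o P S rs) (hP : Pts M f C lab) (hQ : Q ∈ M.pts)
    (li : lab Q i = some o) (idx : i.succAbove m = i') (h : (S.C (rs Q)).Dat (rs Q).O G m) :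
    Tw (C Q) Q i i' P (S.C (rs Q)) (rs Q) m G :=
  have on := ((hP Q hQ).on o).2 ⟨i, li⟩
  ⟨(hP Q hQ).rg, hS.po ▸ (hP Q hQ).dat i o li, (hS.crd Q hQ i li).1, hS.O Q hQ on, hS.ev Q hQ on,
    S.rg _ (hS.mem hQ on), idx, h⟩

theorem IsSf.step (hS : IsSf M C lab o P S rs) (hP : Pts M f C lab) (hQ0 : Q0 ∈ M.pts)
    (l0 : lab Q0 i0 = some o) (l0' : lab Q0 i0' = some o')
    (T0 : Tw (C Q0) Q0 i0 i0' P (S.C (rs Q0)) (rs Q0) m0 G) (hQ : Q ∈ M.pts)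
    (li : lab Q i = some o) (h : Le (rs Q) G.O) : ∃ m, lab Q (i.succAbove m) = some o' ∧
      Tw (C Q) Q i (i.succAbove m) P (S.C (rs Q)) (rs Q) m G := by
  obtain ⟨m, h1, h2⟩ := S.cv _ (hS.mem hQ0 (((hP _ hQ0).on o).2 ⟨_, l0⟩)) _
    (hS.mem hQ (((hP _ hQ).on o).2 ⟨_, li⟩)) m0 o' G
    (by rw [(hS.crd Q0 hQ0 i0 l0).2, T0.idx, l0']) T0.dat2 h
  exact ⟨m, (hS.crd Q hQ i li).2 m ▸ h1, hS.tw hP hQ li rfl h2⟩

/-- The point `Q` lies on the double curve with the valuations `G` and `G'`. -/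
def Dp (C : Loc (KK 3) → Co (KK 3) 3) (lab : Loc (KK 3) → Fin 3 → Option M.J) (o o' : M.J)
    (S : LSf k (xb P) M.J) (S' : LSf k' (xb P') M.J) (rs : Loc (KK 3) → Loc k)
    (rs' : Loc (KK 3) → Loc k') (G : DV k) (G' : DV k') (Q : Loc (KK 3)) : Prop :=
  ∃ i i' m m', lab Q i = some o ∧ lab Q i' = some o' ∧
    Tw (C Q) Q i i' P (S.C (rs Q)) (rs Q) m G ∧ Tw (C Q) Q i' i P' (S'.C (rs' Q)) (rs' Q) m' G'

theorem Dp.ex (hF : SFL) (hP : Pts M f C lab) (hne : o ≠ o') (hS : IsSf M C lab o P S rs)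
    (hS' : IsSf M C lab o' P' S' rs') (hQ : Q ∈ M.pts) (h : M.On Q o) (h' : M.On Q o') :
    ∃ G G', Dp C lab o o' S S' rs rs' G G' Q := by
  obtain ⟨i, li⟩ := ((hP Q hQ).on o).1 h
  obtain ⟨i', li'⟩ := ((hP Q hQ).on o').1 h'
  have h1 : i' ≠ i := fun e => hne (Option.some.inj ((e ▸ li : lab Q i' = some o).symm.trans li'))
  obtain ⟨m, hm⟩ := Fin.exists_succAbove_eq h1
  obtain ⟨m', hm'⟩ := Fin.exists_succAbove_eq h1.symm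
  obtain ⟨G, U, F⟩ := (hF k _ _ m (S.rg _ (hS.mem hQ h))).1
  obtain ⟨G', U', F'⟩ := (hF k' _ _ m' (S'.rg _ (hS'.mem hQ h'))).1
  exact ⟨G, G', i, i', m, m', li, li', hS.tw hP hQ li hm F.dat, hS'.tw hP hQ li' hm' F'.dat⟩

theorem Dp.mv (hB : M3E.Bas1 M) (hP : Pts M f C lab) (hS : IsSf M C lab o P S rs)
    (hS' : IsSf M C lab o' P' S' rs') (hQ0 : Q0 ∈ M.pts) (D : Dp C lab o o' S S' rs rs' G G' Q0)
    (hQ : Q ∈ M.pts) (h : M.On Q o) (hl : Le (rs Q) G.O) : Dp C lab o o' S S' rs rs' G G' Q := by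
  obtain ⟨i0, i0', m0, m0', l0, l0', T0, T0'⟩ := D
  obtain ⟨i, li⟩ := ((hP Q hQ).on o).1 h
  obtain ⟨m, li', T⟩ := hS.step hP hQ0 l0 l0' T0 hQ li hl
  obtain ⟨m', l2, T'⟩ := hS'.step hP hQ0 l0' l0 T0' hQ li' fun y hy => by
    obtain ⟨g, hg, rfl⟩ := (hS'.O Q hQ (((hP Q hQ).on o').2 ⟨_, li'⟩) y).1 hy
    have h1 : g ∈ LA Q.O (lift P G) := le_LA hg
    rw [la_eq hB hQ hQ0 T.le T0.le, T0.la2 T0'] at h1
    exact (T0'.leA h1).2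
  rw [(hP Q hQ).inj _ _ _ l2 li] at T'
  exact ⟨i, _, m, m', li, li', T, T'⟩

theorem ratio_up {K : Type} [Field K] [Algebra ℂ K] {A : Subalgebra ℂ K} {V : ValuationSubring K}
    {z z0 g : K} (h : z0 / z ∈ LA A V ∧ Un V (z0 / z)) (hg : g ∈ LA A V) (hu : Un V g) (p : ℤ) :
    z0 ^ p * g / z ^ p ∈ LA A V ∧ Un V (z0 ^ p * g / z ^ p) := by
  rw [mul_div_right_comm, ← div_zpow]
  exact ⟨mul_mem (la_zpow h.1 h.2 p) hg, (h.2.zpow p).mul hu⟩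

variable {χ : H36.Chi} {la : ℚ} {b : Polynomial ℂ} {β : Fin 3 → H59.PX 3 (KK 3)}
  {q : H59.PX 3 (KK 3)} {e : Dv k} {v : VF k} {e' : Dv k'} {v' : VF k'} {ψ : k} {ψ' : k'}
  {ρ : Loc k → ℂ} {ρ' : Loc k' → ℂ}

/-- The cross term of one double curve. -/
theorem curve (hG : SGDL) (hT : STP) (hB : M3E.Bas1 M) (hF : SFL) (hH : STH) (hU : SSUM)
    (hL : SPL) (hy : Hyp f la b β q) (hM : M.OK f) (hP : Pts M f C lab)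
    (hS : IsSf M C lab o P S rs) (hS' : IsSf M C lab o' P' S' rs') (eo : M.ex la o = 0)
    (eo' : M.ex la o' = 0) (r : P.RsD (dvf f la) e) (s : P.Res (dvf f la) (bf la β) v)
    (r' : P'.RsD (dvf f la) e') (s' : P'.Res (dvf f la) (bf la β) v')
    (O : Out χ e v (b.eval (-(la : ℂ))) S (fun j => (M.ex la j : ℂ)) ψ ρ)
    (O' : Out χ e' v' (b.eval (-(la : ℂ))) S' (fun j => (M.ex la j : ℂ)) ψ' ρ')
    (ad : S.Ad e fun j => (M.ex la j : ℂ)) (hQ0 : Q0 ∈ M.pts)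
    (D : Dp C lab o o' S S' rs rs' G G' Q0) {F : Loc (KK 3) → ℂ}
    (hΦ : F = fun x => (M.a o' * ρ (rs x) + M.a o * ρ' (rs' x) - thd M o o' x) *
      w1 (S.ea (fun j => (M.ex la j : ℂ)) (rs x)) ^ 2) {W : Set (Loc (KK 3))}
    (hW : W = {Q ∈ M.pts | M.On Q o ∧ Le (rs Q) G.O}) :
    (W ∩ Function.support F).Finite ∧ ∑ᶠ x ∈ W, F x = 0 := by
  have mv := fun Q (h : Q ∈ {Q ∈ M.pts | M.On Q o ∧ Le (rs Q) G.O}) =>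
    D.mv hB hP hS hS' hQ0 h.1 h.2.1 h.2.2
  obtain ⟨i0, i0', m0, m0', l0, l0', T0, T0'⟩ := D
  have x0 := hS.mem hQ0 (((hP _ hQ0).on o).2 ⟨_, l0⟩)
  have x0' := hS'.mem hQ0 (((hP _ hQ0).on o').2 ⟨_, l0'⟩)
  obtain ⟨ty, p0⟩ := O.ty _ x0 m0 G
    (by simp [LSf.ea, (hS.crd Q0 hQ0 i0 l0).2, T0.idx, l0', eo']) T0.dat2
  obtain ⟨-, p0'⟩ := O'.ty _ x0' m0' G'
    (by simp [LSf.ea, (hS'.crd Q0 hQ0 i0' l0').2, T0'.idx, l0, eo]) T0'.dat2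
  obtain ⟨pl, e2, a', r2, bij, hex, hfl⟩ := hL k e v _ _ S.toSf _ G ad ty
    (exp_tw (hP _ hQ0) l0 l0' eo eo' T0 r).2
    ⟨_, x0, ((hF k _ _ m0 T0.rg2).2.2.1 G T0.dat2).1⟩ fun c hc => T0.dat2.le c (S.base _ x0 c hc)
  obtain ⟨Ψ, h1, h2, h3⟩ := T0.lift_un O.gd.1
  obtain ⟨Ψ', h1', h2', h3'⟩ := T0'.lift_un O'.gd.1
  obtain ⟨Θ, hΘ⟩ : ∃ Θ, Θ = ((C Q0).z i0' ^ G.v ψ * Ψ) ^ (M.aa o' * G'.v ψ') *
    ((C Q0).z i0 ^ G'.v ψ' * Ψ') ^ (M.aa o * G.v ψ) * ip 3 f ^ (-(G.v ψ * G'.v ψ')) := ⟨_, rfl⟩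
  have key : ∀ Q ∈ {Q ∈ M.pts | M.On Q o ∧ Le (rs Q) G.O}, Un (lift P G) Θ ∧ F Q =
      ((G.v ψ : ℂ) * G'.v ψ')⁻¹ * (od P G (pl (rs Q)) Θ * (a' (pl (rs Q)))⁻¹ ^ 2) := fun Q hQ => by
    obtain ⟨i, i', m, m', l, l', T, T'⟩ := mv Q hQ
    have x1 := hS.mem hQ.1 hQ.2.1
    have x1' := hS'.mem hQ.1 (((hP _ hQ.1).on o').2 ⟨_, l'⟩)
    have e1 := la_eq hB hQ.1 hQ0 T.le T0.le
    have e1' := la_eq hB hQ.1 hQ0 T'.le T0'.le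
    have c1 := T'.ratio T0' e1'
    have c2 := T.ratio T0 e1
    obtain ⟨u, hu⟩ := coreB hF (hP _ hQ.1) l l' T T'
      (ratio_up ⟨T.la2 T' ▸ c1.1, T'.unA T c1.1 c1.2⟩ (e1 ▸ h1) h2 _).2
      (ratio_up ⟨T.la2 T' ▸ c2.1, T.unA T' c2.1 c2.2⟩ (e1' ▸ h1') h2' _).1
      (ratio_up ⟨T.la2 T' ▸ c2.1, T.unA T' c2.1 c2.2⟩ (e1' ▸ h1') h2' _).2 hΘ
    obtain ⟨⟨n, hn, Fn⟩, hw⟩ := hfl _ x1 hQ.2.2
    obtain rfl : n = m := by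
      by_contra hne
      exact ((hF k _ _ m T.rg2).2.2.1 G T.dat2).2.1
        ((by decide : ∀ n m : Fin 2, n ≠ m → n = m.rev) n m hne ▸ Fn.dat)
    obtain ⟨U', F'⟩ := ((hF k' _ _ m' T'.rg2).2.2.1 G' T'.dat2).2.2.1
    refine ⟨u, ?_⟩
    have q1 : (G.v ψ : ℂ) ≠ 0 := Int.cast_ne_zero.2 p0
    have q2 : (G'.v ψ' : ℂ) ≠ 0 := Int.cast_ne_zero.2 p0'
    rw [hu _ _ Fn F', h3, h3', hΦ]
    simp only
    rw [hw, O.rho _ x1 n G _ hn Fn, O'.rho _ x1' m' G' _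
      (by simp [LSf.ea, (hS'.crd Q hQ.1 i' l').2, T'.idx, l, eo]) F']
    field_simp
  obtain ⟨w, Y, hw, hY⟩ := coreA hG hT hy hM (hP _ hQ0) l0 l0' eo eo' T0 T0' r s r' s' h1 h2 h1' h2'
    (h3.symm ▸ O.gd) (h3'.symm ▸ O'.gd) _ _ _ hΘ
    (key Q0 ⟨hQ0, ((hP _ hQ0).on o).2 ⟨_, l0⟩, T0.dat2.le⟩).1 r2
  obtain ⟨σ, θ, μ, μ0, p1, hμ, hty, -⟩ := ty
  obtain ⟨fin, sum⟩ := hU _ σ θ e2 μ (G.pl.π (P.π Θ)) a' p1 (hμ _ r2) hex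
    (hty.imp_right fun h U hN hσ => hH _ σ θ e2 μ _ _ Y U p1 (hμ _ r2) (div_ne_zero hy.nr μ0) hN hσ
      (by rw [← hY, h w hw, Derivation.smul_apply, smul_eq_mul, sub_self]; exact zero_mem _))
  have bi : BijOn (pl ∘ rs) {Q ∈ M.pts | M.On Q o ∧ Le (rs Q) G.O} {U | Nrm U} :=
    bij.comp ⟨fun Q hQ => ⟨hS.mem hQ.1 hQ.2.1, hQ.2.2⟩,
      fun _ a _ a' => hS.inj ⟨a.1, a.2.1⟩ ⟨a'.1, a'.2.1⟩, fun y hy => by
        obtain ⟨Q, hQ, e⟩ := hS.X.subset hy.1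
        exact ⟨Q, ⟨hQ.1, hQ.2, e ▸ hy.2⟩, e⟩⟩
  subst hW
  refine ⟨Finite.of_finite_image (fin.subset ?_) (bi.injOn.mono inter_subset_left), ?_⟩
  · rintro _ ⟨Q, hQ, rfl⟩
    refine ⟨bi.mapsTo hQ.1, fun h => hQ.2 ?_⟩
    rw [(key Q hQ.1).2, od]
    simp [show (pl (rs Q)).v _ = 0 from h]
  · rw [finsum_mem_eq_of_bijOn _ bi (g := fun U => ((G.v ψ : ℂ) * G'.v ψ')⁻¹ *
      (od P G U Θ * (a' U)⁻¹ ^ 2)) fun Q hQ => (key Q hQ).2, ← mul_finsum_mem]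
    exact mul_eq_zero_of_right _ sum

theorem cross_of (hG : SGDL) (hT : STP) : OfCROSS := by
  intro E hF _ hH hU hL hA χ f la b β q M C lab o o' k k' _ _ _ _ P P' S rs S' rs' e v e' v' ψ ρ ψ'
    ρ' hy hM hP hne hS hS' eo eo' r s r' s' O O'
  have hB := (E.bas 3 f M hM).toBas1
  obtain ⟨F, hΦ⟩ : ∃ F : Loc (KK 3) → ℂ, F = fun x => (M.a o' * ρ (rs x) + M.a o * ρ' (rs' x) -
    thd M o o' x) * w1 (S.ea (fun j => (M.ex la j : ℂ)) (rs x)) ^ 2 := ⟨_, rfl⟩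
  obtain ⟨W, hW⟩ : ∃ W : DV k → Set (Loc (KK 3)),
    W = fun G => {Q ∈ M.pts | M.On Q o ∧ Le (rs Q) G.O} := ⟨_, rfl⟩
  obtain ⟨I, hI⟩ : ∃ I : Set (DV k),
    I = {G | ∃ G', ∃ Q ∈ M.pts, Dp C lab o o' S S' rs rs' G G' Q} := ⟨_, rfl⟩
  have h1 : ∀ G ∈ I, (W G ∩ Function.support F).Finite ∧ ∑ᶠ x ∈ W G, F x = 0 := by
    subst hI
    rintro G ⟨G', Q, hQ, D⟩
    exact curve hG hT hB hF hH hU hL hy hM hP hS hS' eo eo' r s r' s' O O'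
      (hA f la b β q M C lab o k P S rs e v hy hM hP hS eo r).1 hQ D hΦ (congrFun hW G)
  have h2 : ∀ G ∈ I, ∀ Q ∈ W G, ∃ G', Dp C lab o o' S S' rs rs' G G' Q := by
    subst hI hW
    rintro G ⟨G', Q, hQ, D⟩ Q' h
    exact ⟨G', D.mv hB hP hS hS' hQ h.1 h.2.1 h.2.2⟩
  have h3 : {x ∈ M.pts | M.On x o ∧ M.On x o'} ∩ Function.support F =
      ⋃ G ∈ I, W G ∩ Function.support F := by
    rw [← iUnion₂_inter]
    refine congrArg (· ∩ _) (Set.ext fun Q => ⟨fun h => ?_, fun h => ?_⟩)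
    · obtain ⟨G, G', D⟩ := Dp.ex hF hP hne hS hS' h.1 h.2.1 h.2.2
      obtain ⟨i, i', m, m', -, -, T, -⟩ := id D
      exact mem_biUnion (hI ▸ ⟨G', Q, h.1, D⟩ : G ∈ I) (hW ▸ ⟨h.1, h.2.1, T.dat2.le⟩)
    · obtain ⟨G, a1, a2⟩ := mem_iUnion₂.1 h
      obtain ⟨G', i, i', m, m', -, l', -⟩ := h2 G a1 Q a2
      subst hW
      exact ⟨a2.1, a2.2.1, ((hP Q a2.1).on o').2 ⟨_, l'⟩⟩
  have h4 : I.Finite := S.fin.subset (by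
    subst hI
    rintro G ⟨G', Q, hQ, i, i', m, m', l, l', T, -⟩
    exact ⟨_, hS.mem hQ (((hP Q hQ).on o).2 ⟨_, l⟩), m, o',
      by rw [(hS.crd Q hQ i l).2, T.idx, l'], T.dat2⟩)
  have h5 : I.PairwiseDisjoint fun G => W G ∩ Function.support F := fun G a1 G2 a2 hn =>
    disjoint_left.2 fun Q b1 b2 => hn (by
      obtain ⟨_, i, i', m, _, l, l', T, -⟩ := h2 G a1 Q b1.1
      obtain ⟨_, j, j', n, _, t, t', T2, -⟩ := h2 G2 a2 Q b2.1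
      have hQ : Q ∈ M.pts := ((congrFun hW G).subset b1.1).1
      obtain rfl := (hP Q hQ).inj _ _ _ l t
      obtain rfl := (hP Q hQ).inj _ _ _ l' t'
      obtain rfl := Fin.succAbove_right_injective (T.idx.trans T2.idx.symm)
      exact (hF k _ _ m T.rg2).2.1 _ _ T.dat2 T2.dat2)
  have h6 : ∑ᶠ x ∈ {x ∈ M.pts | M.On x o ∧ M.On x o'}, F x = 0 := by
    rw [← finsum_mem_inter_support, h3, finsum_mem_biUnion h5 h4 fun G h => (h1 G h).1]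
    exact finsum_mem_of_eqOn_zero fun G h => (finsum_mem_inter_support F _).trans (h1 G h).2
  rwa [hΦ] at h6

end Pool.Agent.MP_ee8c61_ag.M3BK
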