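import Pool.Agent.MP_ee8c61_ag.M3BK.XDefs
import Pool.Agent.MP_ee8c61_ag.M3BK.Kt
import Pool.Agent.MP_ee8c61_ag.M3.FKit

/-! The local ring of a curve on a surface in a threefold. -/

namespace Pool.Agent.MP_ee8c61_ag.M3BK

open M3 M3RESID Set
open Pool.Agent.MP_96693b_ag.RS (Loc LocOf)

variable {K k k' : Type} [Field K] [Algebra ℂ K] [Field k] [Algebra ℂ k] [Field k'] [Algebra ℂ k']
  {C : Co K 3} {Q : Loc K} {i i' : Fin 3} {P : Pl K k} {C2 : Co k 2} {x : Loc k} {m : Fin 2}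
  {G : DV k} {P' : Pl K k'} {C2' : Co k' 2} {x' : Loc k'} {m' : Fin 2} {G' : DV k'} {g h : K}

theorem lc_trans {A B : Subalgebra ℂ K} {V : ValuationSubring K} (h1 : ∀ g ∈ A, Lc B V g)
    (h2 : Lc A V g) : Lc B V g := by
  obtain ⟨s, a, b, c⟩ := h2
  have := ((h1 s a).inv b).mul (h1 _ c)
  rwa [inv_mul_cancel_left₀ b.1] at this

theorem ex_third : ∀ i i' : Fin 3, ∃ l, l ≠ i ∧ l ≠ i' := by decide

theorem lz_LA (A : Subalgebra ℂ K) (V : ValuationSubring K) : Lz A (LA A V) := lz_lcA A V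

theorem un_of_ev {V : ValuationSubring K} (hV : Le Q V) (h : Q.ev g ≠ 0) : Un V g :=
  ⟨ne_of_ev h, hV _ (mem_of_ev h), hV _ (Q.inv_mem g (mem_of_ev h) h)⟩

/-- The order at `U` of the restriction to the curve. -/
noncomputable def od (P : Pl K k) (G : DV k) (U : DV G.kf) (g : K) : ℤ := U.v (G.pl.π (P.π g))

theorem pi2_ne (hg : Un (lift P G) g) : G.pl.π (P.π g) ≠ 0 :=
  Pl.π_ne (P := G.pl) (un_lift.1 hg).2.1 (un_lift.1 hg).2.2

theorem pi2_mul (hg : g ∈ lift P G) (hh : h ∈ lift P G) :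
    G.pl.π (P.π (g * h)) = G.pl.π (P.π g) * G.pl.π (P.π h) := by
  rw [P.mul g hg.1 h hh.1, G.pl.mul _ hg.2 _ hh.2]

theorem pi2_sub (hg : g ∈ lift P G) (hh : h ∈ lift P G) :
    G.pl.π (P.π (g - h)) = G.pl.π (P.π g) - G.pl.π (P.π h) := by
  rw [Pl.π_sub hg.1 hh.1, Pl.π_sub (P := G.pl) hg.2 hh.2]

theorem un_pi2 (hg : g ∈ lift P G) : Un (lift P G) g ↔ G.pl.π (P.π g) ≠ 0 :=
  ⟨pi2_ne, fun h => have h1 := G.un_O.1 ((pi_ne_iff (P := G.pl) hg.2).1 h)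
    un_lift.2 ⟨hg.1, h1.1, h1.2⟩⟩

theorem od_mul (U : DV G.kf) (hg : Un (lift P G) g) (hh : Un (lift P G) h) :
    od P G U (g * h) = od P G U g + od P G U h := by
  rw [od, pi2_mul hg.2.1 hh.2.1, U.mul _ _ (pi2_ne hg) (pi2_ne hh), od, od]

theorem od_zpow (U : DV G.kf) (hg : Un (lift P G) g) (r : ℤ) :
    od P G U (g ^ r) = r * od P G U g := by
  obtain ⟨h1, h2, h3⟩ := un_lift.1 hg
  have h4 := P.o.un_O.1 (hg.mono lift_le)
  rw [od, Pl.π_zpow h4.1 h4.2, Pl.π_zpow (P := G.pl) h2 h3, U.zpow, od]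

namespace Tw

variable (T : Tw C Q i i' P C2 x m G)
include T

theorem ne : i' ≠ i := T.idx ▸ i.succAbove_ne m

theorem le : Le Q (lift P G) := fun g hg => ⟨T.dat.le g hg, T.dat2.le _ (T.ro.mem hg)⟩

theorem leA (hg : g ∈ LA Q.O (lift P G)) : g ∈ lift P G := Lc.mem' hg T.le

theorem z2 : C2.z m = P.π (C.z i') := T.idx ▸ T.rc m

theorem datA : C.Dat (LA Q.O (lift P G)) P.o i :=
  T.dat.lz (lz_LA _ _) fun _ hg => (T.leA hg).1

theorem ker1 {a b : K} (ha : a ∈ lift P G) (hb : b ∈ lift P G) :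
    P.π (C.z i * a + C.z i' * b) ∈ G.F 1 := by
  have h1 : C.z i * a ∈ P.o.F 1 := F_mul0' (Or.inr T.dat.adp.vz.ge) ha.1
  rw [Pl.π_congr (g := C.z i' * b) (F_mul0 (T.dat.adp.z_F _) hb.1) (by simpa using h1),
    P.mul _ (T.dat.adp.z_F _) _ hb.1, ← T.z2]
  exact F_mul0' (Or.inr T.dat2.adp.vz.ge) hb.2

theorem ker (hg : g ∈ Q.O) :
    G.pl.π (P.π g) = 0 ↔ ∃ a ∈ Q.O, ∃ b ∈ Q.O, g = C.z i * a + C.z i' * b := by
  refine ⟨fun h => ?_, ?_⟩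
  · have h1 := T.dat2.div _ (T.ro.mem hg) ((G.pl.ker _ (T.le g hg).2).1 h)
    obtain ⟨b, hb, e⟩ := (T.ro _).1 h1
    have h2 := mul_mem (T.rg.st.z i') hb
    refine ⟨_, T.dat.div _ (sub_mem hg h2) (Pl.π_eq (T.dat.le _ h2) (T.dat.le _ hg) ?_), b, hb, ?_⟩
    · rw [P.mul _ (T.dat.adp.z_F _) _ (T.dat.le b hb), e, ← T.z2, mul_div_cancel₀ _ (C2.ne m)]
    · rw [mul_div_cancel₀ _ (C.ne i), sub_add_cancel]
  · rintro ⟨a, ha, b, hb, rfl⟩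
    exact G.pl.π_F1 (T.ker1 (T.le a ha) (T.le b hb))

theorem ker2 (T' : Tw C Q i' i P' C2' x' m' G') (hg : g ∈ Q.O) (h : G.pl.π (P.π g) = 0) :
    G'.pl.π (P'.π g) = 0 := by
  obtain ⟨a, ha, b, hb, e⟩ := (T.ker hg).1 h
  exact (T'.ker hg).2 ⟨b, hb, a, ha, e.trans (add_comm _ _)⟩

theorem un2 (T' : Tw C Q i' i P' C2' x' m' G') (hg : g ∈ Q.O) (h : Un (lift P G) g) :
    Un (lift P' G') g :=
  (un_pi2 (T'.le g hg)).2 fun e => pi2_ne h (T'.ker2 T hg e)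

theorem la2 (T' : Tw C Q i' i P' C2' x' m' G') : LA Q.O (lift P G) = LA Q.O (lift P' G') :=
  le_antisymm (fun _ ⟨s, a, b, c⟩ => ⟨s, a, T.un2 T' a b, c⟩)
    fun _ ⟨s, a, b, c⟩ => ⟨s, a, T'.un2 T a b, c⟩

theorem unA (T' : Tw C Q i' i P' C2' x' m' G') (hg : g ∈ LA Q.O (lift P G))
    (h : Un (lift P G) g) : Un (lift P' G') g :=
  ⟨h.1, T'.leA (T.la2 T' ▸ hg), T'.leA (T.la2 T' ▸ (Lc.inv hg h : g⁻¹ ∈ LA Q.O (lift P G)))⟩

theorem third {l : Fin 3} (h1 : l ≠ i) (h2 : l ≠ i') : i.succAbove m.rev = l :=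
  (by decide : ∀ (i l : Fin 3) (m : Fin 2), l ≠ i → l ≠ i.succAbove m → i.succAbove m.rev = l)
    i l m h1 (T.idx ▸ h2)

theorem un_z {l : Fin 3} (h1 : l ≠ i) (h2 : l ≠ i') : Un (lift P G) (C.z l) := by
  have e : P.π (C.z l) = C2.z m.rev := T.third h1 h2 ▸ (T.rc m.rev).symm
  refine un_lift.2 ⟨T.dat.adp.z_F l, e ▸ C2.ne _, ?_⟩
  rw [e]
  exact T.dat2.adp.vz' (by fin_cases m <;> decide)

theorem od_unit {U : DV G.kf} (F : Fl C2 x m G U) {l : Fin 3} (h1 : l ≠ i) (h2 : l ≠ i')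
    (hg : Q.ev g ≠ 0) (r : ℤ) : od P G U (g * C.z l ^ r) = r := by
  have e : P.π (C.z l) = C2.z m.rev := T.third h1 h2 ▸ (T.rc m.rev).symm
  rw [od_mul U (un_of_ev T.le hg) ((T.un_z h1 h2).zpow r), od_zpow U (T.un_z h1 h2), od, od, e,
    F.un, F.unit (by rwa [T.ev g (mem_of_ev hg)])]
  simp

/-- Functions on the curve lift to the local ring. -/
theorem lift_fn {y : k} (hy : y ∈ G.F 0) : ∃ g ∈ LA Q.O (lift P G), P.π g = y := by
  obtain ⟨s, hs, h0, h1, h2⟩ :=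
    (lz_oA T.dat2.adp.vz T.rg2.fr T.dat2.le T.dat2.div).frac y hy
  obtain ⟨S, hS, rfl⟩ := (T.ro _).1 hs
  obtain ⟨R, hR, e⟩ := (T.ro _).1 h2
  have h3 : Un (lift P G) S :=
    un_lift.2 ⟨T.dat.le S hS, h0, (G.un_O.1 ⟨h0, T.dat2.le _ hs, h1⟩).2⟩
  have h4 := P.o.un_O.1 (h3.mono lift_le)
  refine ⟨R / S, ⟨S, hS, h3, by rwa [mul_div_cancel₀ _ h3.1]⟩, ?_⟩
  rw [Pl.π_div (T.dat.le R hR) h4.1 h4.2, e, mul_div_cancel_left₀ _ h0]

/-- The order at the point does not depend on the surface. -/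
theorem od2 (hF : SFL) (T' : Tw C Q i' i P' C2' x' m' G') {U : DV G.kf} {U' : DV G'.kf}
    (F : Fl C2 x m G U) (F' : Fl C2' x' m' G' U') (hg : g ∈ LA Q.O (lift P G))
    (h : Un (lift P G) g) : od P' G' U' g = od P G U g := by
  obtain ⟨l, h1, h2⟩ := ex_third i i'
  have key : ∀ g ∈ Q.O, Un (lift P G) g → od P' G' U' g = od P G U g := fun g hg h => by
    obtain ⟨-, f1, f2, -⟩ := (hF k C2 x m T.rg2).2.2.2 G U F
    obtain ⟨n, hn⟩ := Int.eq_ofNat_of_zero_le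
      ((F.le _ (T.ro.mem hg)).resolve_left (pi2_ne h))
    have hz := (T.un_z h1 h2).zpow n
    have h3 : od P G U (g * (C.z l ^ (n : ℤ))⁻¹) = 0 := by
      have := T.od_unit F h1 h2 (g := 1) (by simp [ev_one']) (-n)
      rw [one_mul, zpow_neg] at this
      rw [od_mul U h hz.inv, this, od, hn, add_neg_cancel]
    obtain ⟨y, hy, e⟩ := f2 _ (Or.inr h3.ge)
    obtain ⟨u, hu, rfl⟩ := (T.ro _).1 hy
    have h4 : Q.ev u ≠ 0 := fun e0 => by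
      have := ((f1 _ hy).2 ((T.ev u hu).trans e0)).resolve_left (e ▸ pi2_ne (h.mul hz.inv))
      rw [e] at this
      exact absurd (this.trans_eq h3) (by decide)
    have h5 : u * C.z l ^ (n : ℤ) ∈ Q.O := by
      rw [zpow_natCast]
      exact mul_mem hu (pow_mem (T.rg.st.z l) n)
    have h6 := T.ker2 T' (sub_mem hg h5) (by
      rw [pi2_sub h.2.1 (T.le _ h5), pi2_mul (T.le u hu) hz.2.1, e, ← pi2_mul (h.mul hz.inv).2.1
        hz.2.1, inv_mul_cancel_right₀ hz.1, sub_self])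
    rw [pi2_sub (T'.le g hg) (T'.le _ h5), sub_eq_zero] at h6
    rw [od, h6]
    exact (T'.od_unit F' h2 h1 h4 n).trans hn.symm
  obtain ⟨s, a, b, c⟩ := id hg
  have h3 := key _ c (b.mul h)
  rw [od_mul U b h, od_mul U' (T.un2 T' a b) (T.unA T' hg h), key s a b] at h3
  omega

/-- Logarithmic fields restrict to the curve. -/
theorem rs2 {H : VF K} (hH : H ∈ C.G (LA Q.O (lift P G)) {i, i'} 0) :
    ∃ H1 H2, P.Rs H H1 ∧ G.pl.Rs H1 H2 := by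
  obtain ⟨H1, h1⟩ := Pl.exists_Rs (P := P) (T.datA.G_LV (by simp) hH)
  obtain ⟨A, hA⟩ := Pl.exists_RsO (P := P) T.datA.le
  have h2 := T.rc.G T.dat.adp hA rfl hH h1
  have h3 : C2.Dat (oA G) G m := ⟨T.dat2.adp, fun _ h => h, fun g _ h => by
    simpa [T.dat2.adp.vz, mem_oA] using F_div h (C2.z m)⟩
  have h4 : A ≤ oA G := fun y hy => by
    obtain ⟨g, hg, rfl⟩ := (hA y).1 hy
    exact (T.leA hg).2
  obtain ⟨H2, h5⟩ := Pl.exists_Rs (P := G.pl)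
    (h3.G_LV (by simp [T.idx]) (Co.G_mono h4 _ _ h2))
  exact ⟨H1, H2, h1, h5⟩

/-- A divergence modulo the ideal of the curve is a divergence on the curve. -/
theorem core {d : Dv K} {e : Dv k} {e2 : Dv G.kf} (hd : Exp d P.o 0) (he : Exp e G 0)
    (r1 : P.RsD d e) (r2 : G.pl.RsD e e2) {H X : VF K} {H1 : VF k} {H2 : VF G.kf}
    (h1 : P.Rs H H1) (h2 : G.pl.Rs H1 H2) (hX : X ∈ C.G (LA Q.O (lift P G)) {i, i'} 0)
    (hg : Un (lift P G) g) {a b : K} (ha : a ∈ lift P G) (hb : b ∈ lift P G)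
    (eq : H g / g - d.δ X = C.z i * a + C.z i' * b) :
    ∃ Y, H2 (G.pl.π (P.π g)) / G.pl.π (P.π g) = e2.δ Y := by
  obtain ⟨X1, X2, x1, x2⟩ := T.rs2 hX
  have h3 := P.o.un_O.1 (hg.mono lift_le)
  obtain ⟨-, h4, h5⟩ := un_lift.1 hg
  have h6 := T.ker1 ha hb
  rw [← eq, Pl.π_sub (LV_dlog h1.1 g) (hd.reg _ x1.1), h1.dlog h3.1 h3.2, r1 _ _ x1] at h6
  exact ⟨X2, by rw [← h2.dlog h4 h5, Pl.π_congr (P := G.pl) (he.reg _ x2.1) h6, r2 _ _ x2]⟩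

end Tw

end Pool.Agent.MP_ee8c61_ag.M3BK
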